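import Pool.Agent.Lib.LOTI.Defs

/-!
# Labelled oriented trees : definitions

(helper18, problem MP_cf50d6_gt, paper /team-store/MP_cf50d6_gt_paper.md, section 2)
-/

set_option autoImplicit false

open scoped Classical

namespace Pool.Agent.LOTI

/-- a labelled oriented tree (LOT): a finite tree with vertex set `V`, every edge `e` is oriented from
`init e` to `term e` and labelled by a vertex `lab e` -/
structure LOT (V E : Type) [Fintype V] [Fintype E] where
  init : E → V
  term : E → V
  lab : E → V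
  card : Fintype.card V = Fintype.card E + 1
  conn : ∀ v w : V, Relation.EqvGen (fun a b => ∃ e, a = init e ∧ b = term e) v w

/-- the product of the `u e ^ (± 1)` along a list of steps -/
def wp {E X : Type} [Group X] (u : E → X) (l : List (E × Bool)) : X :=
  (l.map fun s => if s.2 then u s.1 else (u s.1)⁻¹).prod

variable {V E : Type} [Fintype V] [Fintype E]

namespace LOT

variable (Γ : LOT V E)

/-- the relators of the LOT group: `x_i x_k = x_k x_j` for an edge from `i` to `j` with label `k` -/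
def rels : Set (FreeGroup V) :=
  {r | ∃ e : E, r = FreeGroup.of (Γ.init e) * FreeGroup.of (Γ.lab e) *
    (FreeGroup.of (Γ.lab e) * FreeGroup.of (Γ.term e))⁻¹}

/-- the LOT group -/
abbrev Grp : Type := PresentedGroup Γ.rels

/-- the generators -/
def x (v : V) : Γ.Grp := PresentedGroup.of v

/-- all edges reversed -/
def rev : LOT V E where
  init := Γ.term
  term := Γ.init
  lab := Γ.lab
  card := Γ.card
  conn v w := by
    have key : ∀ a b, Relation.EqvGen (fun a b => ∃ e, a = Γ.init e ∧ b = Γ.term e) a b →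
        Relation.EqvGen (fun a b => ∃ e, a = Γ.term e ∧ b = Γ.init e) a b := by
      intro a b h
      induction h with
      | rel a b h =>
        obtain ⟨e, h1, h2⟩ := h
        exact Relation.EqvGen.symm _ _ (Relation.EqvGen.rel _ _ ⟨e, h2, h1⟩)
      | refl a => exact Relation.EqvGen.refl _
      | symm a b _ ih => exact Relation.EqvGen.symm _ _ ih
      | trans a b c _ _ ih1 ih2 => exact Relation.EqvGen.trans _ _ _ ih1 ih2
    exact key v w (Γ.conn v w)

/-- the edges of the initial graph `I(Γ)` -/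
def IAdj (a b : V) : Prop := ∃ e : E, a = Γ.lab e ∧ b = Γ.init e

/-- walks in the initial graph `I(Γ)`: the step `(e, true)` goes from `lab e` to `init e`, the step
`(e, false)` goes from `init e` to `lab e` -/
def IWalk : V → List (E × Bool) → V → Prop
  | a, [], b => a = b
  | a, s :: l, b => a = (if s.2 then Γ.lab s.1 else Γ.init s.1) ∧
      IWalk (if s.2 then Γ.init s.1 else Γ.lab s.1) l b

/-- the product of the `(f (term e) * (f (lab e))⁻¹) ^ (± 1)` along a walk -/
def val {X : Type} [Group X] (f : V → X) (l : List (E × Bool)) : X :=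
  wp (fun e => f (Γ.term e) * (f (Γ.lab e))⁻¹) l

/-- `v ↦ z x_v` for the vertices `v` with `W v`, `v ↦ x_v` for the other ones; values in `G * ⟨z⟩` -/
noncomputable def psi (W : V → Prop) (v : V) : Monoid.Coprod Γ.Grp (Multiplicative ℤ) :=
  if W v then Monoid.Coprod.inr (Multiplicative.ofAdd 1) * Monoid.Coprod.inl (Γ.x v)
  else Monoid.Coprod.inl (Γ.x v)

/-- the hypotheses of the theorem: a numbering of the `c + 1` components of `I(Γ)`, edges `e i` and
closed walks `l i`, `i < c` -/
structure Ladder (c : ℕ) where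
  κ : V → Fin (c + 1)
  surj : Function.Surjective κ
  comp : ∀ v w, κ v = κ w ↔ Relation.EqvGen Γ.IAdj v w
  e : Fin c → E
  l : Fin c → List (E × Bool)
  b : Fin c → V
  closed : ∀ i, Γ.IWalk (b i) (l i) (b i)
  once : ∀ i, ((l i).map Prod.fst).count (e i) = 1
  later : ∀ i j, i < j → e j ∉ (l i).map Prod.fst
  low : ∀ i, ∀ s ∈ l i, κ (Γ.lab s.1) ≤ i.succ ∧ κ (Γ.term s.1) ≤ i.succ
  ess : ∀ i, Γ.val (Γ.psi fun v => κ v = i.succ) (l i) ≠ 1

/-- the relators of the group with the generators `X (v, s)`, `s ∈ ℤ` -/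
def hrels : Set (FreeGroup (V × ℤ)) :=
  {r | ∃ (e : E) (s : ℤ), r = FreeGroup.of (Γ.init e, s) * FreeGroup.of (Γ.lab e, s + 1) *
    (FreeGroup.of (Γ.lab e, s) * FreeGroup.of (Γ.term e, s + 1))⁻¹}

/-- the group with the generators `X (v, s)` -/
abbrev Hat : Type := PresentedGroup Γ.hrels

/-- the relations between the depths `d` and `d + 1`, for all `d < n` (the depth `d` is the level
`M - d`) -/
def Sat {Y : Type} [Group Y] (n : ℕ) (f : ℕ → V → Y) : Prop :=
  ∀ d < n, ∀ e : E, f (d + 1) (Γ.init e) * f d (Γ.lab e) = f (d + 1) (Γ.lab e) * f d (Γ.term e)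

end LOT

/-- the free product of `Q` and a free group with the basis `J` -/
abbrev Lz (Q : Type) [Group Q] (J : Type) : Type := Monoid.Coprod Q (FreeGroup J)

/-- the free generators of `Lz Q J` -/
def zz {Q : Type} [Group Q] {J : Type} (j : J) : Lz Q J := Monoid.Coprod.inr (FreeGroup.of j)

/-- the factor `Q` of `Lz Q J` -/
def qq {Q : Type} [Group Q] {J : Type} : Q →* Lz Q J := Monoid.Coprod.inl

/-- the group generated by `X d v`, `d ≤ n` -/
structure LOT.Lev (Γ : LOT V E) {c : ℕ} (h : Γ.Ladder c) (n : ℕ) (Q : Type) [Group Q] where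
  X : ℕ → V → Lz Q (Fin (c + 1))
  sat : Γ.Sat n X
  g : V → Q
  top : ∀ v, X n v = zz (h.κ v) * qq (g v)
  univ : ∀ (Y : Type) [Group Y] (f : ℕ → V → Y), Γ.Sat n f →
    ∃ F : Lz Q (Fin (c + 1)) →* Y, ∀ d ≤ n, ∀ v, F (X d v) = f d v

/-- the relators of the next step -/
def LOT.Lev.r {Γ : LOT V E} {c : ℕ} {h : Γ.Ladder c} {n : ℕ} {Q : Type} [Group Q]
    (L : Γ.Lev h n Q) (i : Fin c) : Lz Q (Fin (c + 1)) := Γ.val (L.X n) (h.l i)

section basic

variable {Q J Y : Type} [Group Q] [Group Y]

/-- the universal property of `Lz Q J` -/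
def zlft (f : Q →* Y) (g : J → Y) : Lz Q J →* Y := Monoid.Coprod.lift f (FreeGroup.lift g)

@[simp] theorem zlft_qq (f : Q →* Y) (g : J → Y) (q : Q) : zlft f g (qq q) = f q :=
  Monoid.Coprod.lift_apply_inl _ _ _

@[simp] theorem zlft_zz (f : Q →* Y) (g : J → Y) (j : J) : zlft f g (zz j) = g j := by
  unfold zlft zz
  rw [Monoid.Coprod.lift_apply_inr, FreeGroup.lift_apply_of]

theorem Lz_hom_ext {f g : Lz Q J →* Y} (h1 : ∀ q, f (qq q) = g (qq q))
    (h2 : ∀ j, f (zz j) = g (zz j)) : f = g := by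
  apply Monoid.Coprod.hom_ext
  · exact MonoidHom.ext h1
  · exact FreeGroup.ext_hom _ _ h2

omit [Fintype E] in
theorem wp_nil {X : Type} [Group X] (u : E → X) : wp u [] = 1 := rfl

omit [Fintype E] in
theorem wp_cons {X : Type} [Group X] (u : E → X) (s : E × Bool) (l : List (E × Bool)) :
    wp u (s :: l) = (if s.2 then u s.1 else (u s.1)⁻¹) * wp u l := by
  simp [wp]

omit [Fintype E] in
theorem wp_append {X : Type} [Group X] (u : E → X) (l l' : List (E × Bool)) :
    wp u (l ++ l') = wp u l * wp u l' := by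
  simp [wp]

omit [Fintype E] in
theorem map_wp {X Y : Type} [Group X] [Group Y] (F : X →* Y) (u : E → X) (l : List (E × Bool)) :
    F (wp u l) = wp (fun e => F (u e)) l := by
  induction l with
  | nil => simp [wp_nil]
  | cons s l ih => rw [wp_cons, wp_cons, map_mul, ih]; split_ifs <;> simp

end basic

namespace LOT

variable (Γ : LOT V E)

theorem x_rel (e : E) : Γ.x (Γ.init e) * Γ.x (Γ.lab e) = Γ.x (Γ.lab e) * Γ.x (Γ.term e) := by
  have h : (PresentedGroup.mk Γ.rels) (FreeGroup.of (Γ.init e) * FreeGroup.of (Γ.lab e) *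
      (FreeGroup.of (Γ.lab e) * FreeGroup.of (Γ.term e))⁻¹) = 1 :=
    PresentedGroup.one_of_mem ⟨e, rfl⟩
  rw [map_mul, map_inv, mul_inv_eq_one, map_mul, map_mul] at h
  exact h

theorem hat_rel (e : E) (s : ℤ) :
    (PresentedGroup.of (Γ.init e, s) * PresentedGroup.of (Γ.lab e, s + 1) : Γ.Hat) =
      PresentedGroup.of (Γ.lab e, s) * PresentedGroup.of (Γ.term e, s + 1) := by
  have h : (PresentedGroup.mk Γ.hrels) (FreeGroup.of (Γ.init e, s) *
      FreeGroup.of (Γ.lab e, s + 1) *
      (FreeGroup.of (Γ.lab e, s) * FreeGroup.of (Γ.term e, s + 1))⁻¹) = 1 :=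
    PresentedGroup.one_of_mem ⟨e, s, rfl⟩
  rw [map_mul, map_inv, mul_inv_eq_one, map_mul, map_mul] at h
  exact h

theorem map_val {X Y : Type} [Group X] [Group Y] (F : X →* Y) (f : V → X)
    (l : List (E × Bool)) : F (Γ.val f l) = Γ.val (fun v => F (f v)) l := by
  unfold val
  rw [map_wp]
  simp

/-- a potential along a walk -/
theorem wp_walk {X : Type} [Group X] {g : V → X} {u : E → X}
    (h : ∀ e, g (Γ.init e) = g (Γ.lab e) * u e) {a b : V} {l : List (E × Bool)}
    (hl : Γ.IWalk a l b) : g b = g a * wp u l := by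
  induction l generalizing a with
  | nil => rw [wp_nil, mul_one]; exact congrArg g (show a = b from hl).symm
  | cons s l ih =>
    obtain ⟨h1, h2⟩ := hl
    rw [ih h2, wp_cons, ← mul_assoc, h1]
    congr 1
    split_ifs with hs
    · exact h _
    · rw [h, mul_inv_cancel_right]

/-- the same for walks which only use some edges -/
theorem wp_walk' {X : Type} [Group X] {g : V → X} {u : E → X} {a b : V} {l : List (E × Bool)}
    (h : ∀ s ∈ l, g (Γ.init s.1) = g (Γ.lab s.1) * u s.1)
    (hl : Γ.IWalk a l b) : g b = g a * wp u l := by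
  induction l generalizing a with
  | nil => rw [wp_nil, mul_one]; exact congrArg g (show a = b from hl).symm
  | cons s l ih =>
    obtain ⟨h1, h2⟩ := hl
    rw [ih (fun t ht => h t (List.mem_cons_of_mem _ ht)) h2, wp_cons, ← mul_assoc, h1]
    congr 1
    split_ifs with hs
    · exact h _ List.mem_cons_self
    · rw [h _ List.mem_cons_self, mul_inv_cancel_right]

theorem IWalk_append {a c : V} {l l' : List (E × Bool)} :
    Γ.IWalk a (l ++ l') c ↔ ∃ b, Γ.IWalk a l b ∧ Γ.IWalk b l' c := by
  induction l generalizing a with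
  | nil =>
    constructor
    · intro h; exact ⟨a, rfl, h⟩
    · rintro ⟨b, h1, h2⟩
      have : a = b := h1
      subst this
      exact h2
  | cons s l ih =>
    constructor
    · rintro ⟨h1, h2⟩
      obtain ⟨b, h3, h4⟩ := ih.1 h2
      exact ⟨b, ⟨h1, h3⟩, h4⟩
    · rintro ⟨b, ⟨h1, h3⟩, h4⟩
      exact ⟨h1, ih.2 ⟨b, h3, h4⟩⟩

end LOT

end Pool.Agent.LOTI
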