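import Pool.Agent.Lib.LOTI.Defs

/-!
# A Burns-Hale theorem for a subgroup (1.13)
-/

set_option autoImplicit false

open scoped Classical

namespace Pool.Agent.LOTI

private noncomputable def sg {F : Type} [Group F] (C : Subgroup F) (ε : F → Bool) (s : F) : F :=
  if s ∈ C then s else if ε s = true then s else s⁻¹

private theorem sg_mem_iff {F : Type} [Group F] (C : Subgroup F) (ε : F → Bool) (s : F) :
    sg C ε s ∈ C ↔ s ∈ C := by
  unfold sg
  split_ifs with h1 h2
  · rfl
  · rfl
  · exact inv_mem_iff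

private def Good {F : Type} [Group F] (C : Subgroup F) (ε : F → Bool) (T : Finset F) : Prop :=
  ∀ l : List F, (∀ x ∈ l, ∃ s ∈ T, x = sg C ε s) → (∃ x ∈ l, x ∉ C) → l.prod ∉ C

private theorem list_psi {F : Type} [Group F] (N : Subgroup F) (ψ : F → ℚ) (h1 : ψ 1 = 0)
    (hm : ∀ a ∈ N, ∀ b ∈ N, ψ (a * b) = ψ a + ψ b) (l : List F)
    (hl : ∀ x ∈ l, x ∈ N ∧ 0 ≤ ψ x) :
    l.prod ∈ N ∧ 0 ≤ ψ l.prod ∧ (ψ l.prod = 0 → ∀ x ∈ l, ψ x = 0) := by
  induction l with
  | nil => simp [h1, N.one_mem]
  | cons a l ih =>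
    obtain ⟨i1, i2, i3⟩ := ih fun x hx => hl x (List.mem_cons_of_mem _ hx)
    obtain ⟨a1, a2⟩ := hl a List.mem_cons_self
    rw [List.prod_cons]
    refine ⟨N.mul_mem a1 i1, ?_, ?_⟩
    · rw [hm a a1 _ i1]; positivity
    · intro h x hx
      rw [hm a a1 _ i1] at h
      rcases List.mem_cons.1 hx with rfl | hx
      · linarith
      · exact i3 (by linarith) x hx

private theorem exists_good {F : Type} [Group F] (C : Subgroup F)
    (h : ∀ N : Subgroup F, N.FG → ¬ N ≤ C → ∃ φ : N →* Multiplicative ℚ, φ ≠ 1 ∧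
      ∀ (x : F) (hx : x ∈ N), x ∈ C → φ ⟨x, hx⟩ = 1) (T : Finset F) :
    ∃ ε : F → Bool, Good C ε T := by
  induction T using Finset.strongInduction with
  | H T ih =>
    by_cases hT : ∀ s ∈ T, s ∈ C
    · refine ⟨fun _ => true, ?_⟩
      rintro l h1 ⟨x, hx, hxC⟩
      obtain ⟨s, hs, rfl⟩ := h1 x hx
      exact absurd ((sg_mem_iff _ _ _).2 (hT s hs)) hxC
    · push Not at hT
      obtain ⟨s0, hs0, hs0C⟩ := hT
      set N : Subgroup F := Subgroup.closure (T : Set F) with hN
      have hTN : ∀ s ∈ T, s ∈ N := fun s hs => Subgroup.subset_closure (by simpa using hs)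
      obtain ⟨φ, hφ, hφC⟩ := h N ⟨T, rfl⟩ fun hle => hs0C (hle (hTN s0 hs0))
      let ψ : F → ℚ := fun x => if hx : x ∈ N then Multiplicative.toAdd (φ ⟨x, hx⟩) else 0
      have hψ : ∀ x (hx : x ∈ N), ψ x = Multiplicative.toAdd (φ ⟨x, hx⟩) := by
        intro x hx
        exact dif_pos hx
      have hψ1 : ψ 1 = 0 := by
        rw [hψ 1 N.one_mem]
        have : (⟨1, N.one_mem⟩ : N) = 1 := rfl
        rw [this, map_one]
        rfl
      have hψm : ∀ a ∈ N, ∀ b ∈ N, ψ (a * b) = ψ a + ψ b := by
        intro a ha b hb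
        rw [hψ _ (N.mul_mem ha hb), hψ a ha, hψ b hb]
        have : (⟨a * b, N.mul_mem ha hb⟩ : N) = ⟨a, ha⟩ * ⟨b, hb⟩ := rfl
        rw [this, map_mul]
        rfl
      have hψi : ∀ a ∈ N, ψ a⁻¹ = - ψ a := by
        intro a ha
        have := hψm a ha a⁻¹ (N.inv_mem ha)
        rw [mul_inv_cancel, hψ1] at this
        linarith
      have hψC : ∀ x ∈ N, x ∈ C → ψ x = 0 := by
        intro x hx hxC
        rw [hψ x hx, hφC x hx hxC]
        rfl
      have hex : ∃ s ∈ T, ψ s ≠ 0 := by
        by_contra hcon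
        push Not at hcon
        apply hφ
        ext ⟨x, hx⟩
        have key : ψ x = 0 := by
          refine Subgroup.closure_induction (p := fun x _ => ψ x = 0) ?_ hψ1 ?_ ?_ hx
          · intro x hx
            exact hcon x (by simpa using hx)
          · intro a b ha hb h1 h2
            rw [hψm a ha b hb, h1, h2, add_zero]
          · intro a ha h1
            rw [hψi a ha, h1, neg_zero]
        rw [hψ x hx] at key
        exact key
      obtain ⟨s1, hs1, hs1ψ⟩ := hex
      obtain ⟨ε', hε'⟩ := ih (T.filter fun s => ψ s = 0)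
        (Finset.filter_ssubset.2 ⟨s1, hs1, hs1ψ⟩)
      let ε : F → Bool := fun s => if ψ s = 0 then ε' s else decide (0 < ψ s)
      refine ⟨ε, ?_⟩
      intro l hl hx hC
      have hsgN : ∀ s ∈ T, sg C ε s ∈ N := by
        intro s hs
        unfold sg
        split_ifs
        · exact hTN s hs
        · exact hTN s hs
        · exact N.inv_mem (hTN s hs)
      have hsgψ : ∀ s ∈ T, 0 ≤ ψ (sg C ε s) ∧ (ψ (sg C ε s) = 0 → ψ s = 0) := by
        intro s hs
        by_cases h0 : ψ s = 0
        · have : ψ (sg C ε s) = 0 := by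
            unfold sg
            split_ifs
            · exact h0
            · exact h0
            · rw [hψi s (hTN s hs), h0, neg_zero]
          rw [this]
          exact ⟨le_refl _, fun _ => h0⟩
        · have hsC : s ∉ C := fun hsC => h0 (hψC s (hTN s hs) hsC)
          have hε : ε s = decide (0 < ψ s) := if_neg h0
          unfold sg
          rw [if_neg hsC, hε]
          by_cases h1 : 0 < ψ s
          · simp only [h1, decide_true, if_true]
            exact ⟨h1.le, id⟩
          · have h2 : ψ s < 0 := lt_of_le_of_ne (not_lt.1 h1) h0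
            have : decide (0 < ψ s) = false := by simpa using h1
            rw [this]
            simp only [Bool.false_eq_true, if_false]
            rw [hψi s (hTN s hs)]
            exact ⟨by linarith, fun h3 => by linarith⟩
      obtain ⟨k1, k2, k3⟩ := list_psi N ψ hψ1 hψm l (by
        intro x hx
        obtain ⟨s, hs, rfl⟩ := hl x hx
        exact ⟨hsgN s hs, (hsgψ s hs).1⟩)
      have k4 := k3 (hψC _ k1 hC)
      refine hε' l ?_ hx hC
      intro x hx
      obtain ⟨s, hs, rfl⟩ := hl x hx
      have h0 : ψ s = 0 := (hsgψ s hs).2 (k4 _ hx)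
      refine ⟨s, Finset.mem_filter.2 ⟨hs, h0⟩, ?_⟩
      unfold sg
      have : ε s = ε' s := if_pos h0
      rw [this]

private theorem good_congr {F : Type} [Group F] (C : Subgroup F) (T : Finset F)
    (ε ε' : F → Bool) (he : ∀ s ∈ T, ε s = ε' s) (hg : Good C ε T) : Good C ε' T := by
  intro l hl hx
  refine hg l ?_ hx
  intro x hx
  obtain ⟨s, hs, rfl⟩ := hl x hx
  refine ⟨s, hs, ?_⟩
  unfold sg
  rw [he s hs]

private theorem isClosed_good {F : Type} [Group F] (C : Subgroup F) (T : Finset F) :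
    IsClosed {ε : F → Bool | Good C ε T} := by
  have h1 : {ε : F → Bool | Good C ε T} = (fun ε : F → Bool => fun s : T => ε s) ⁻¹'
      {δ | ∃ ε : F → Bool, (∀ s : T, ε s = δ s) ∧ Good C ε T} := by
    ext ε
    constructor
    · intro h
      exact ⟨ε, fun _ => rfl, h⟩
    · rintro ⟨ε', h1, h2⟩
      exact good_congr C T ε' ε (fun s hs => h1 ⟨s, hs⟩) h2
  rw [h1]
  refine IsClosed.preimage (by fun_prop) (Set.Finite.isClosed (Set.toFinite _))

private theorem exists_good_all {F : Type} [Group F] (C : Subgroup F)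
    (h : ∀ N : Subgroup F, N.FG → ¬ N ≤ C → ∃ φ : N →* Multiplicative ℚ, φ ≠ 1 ∧
      ∀ (x : F) (hx : x ∈ N), x ∈ C → φ ⟨x, hx⟩ = 1) :
    ∃ ε : F → Bool, ∀ T : Finset F, Good C ε T := by
  have := IsCompact.nonempty_iInter_of_directed_nonempty_isCompact_isClosed
    (fun T : Finset F => {ε : F → Bool | Good C ε T}) (by
      intro T T'
      refine ⟨T ∪ T', ?_, ?_⟩
      · intro ε hε l hl hx
        refine hε l ?_ hx
        intro x hx
        obtain ⟨s, hs, rfl⟩ := hl x hx
        exact ⟨s, Finset.mem_union_left _ hs, rfl⟩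
      · intro ε hε l hl hx
        refine hε l ?_ hx
        intro x hx
        obtain ⟨s, hs, rfl⟩ := hl x hx
        exact ⟨s, Finset.mem_union_right _ hs, rfl⟩)
    (fun T => exists_good C h T) (fun T => (isClosed_good C T).isCompact)
    (fun T => isClosed_good C T)
  obtain ⟨ε, hε⟩ := this
  exact ⟨ε, fun T => Set.mem_iInter.1 hε T⟩

theorem exists_cone {F : Type} [Group F] (C : Subgroup F)
    (h : ∀ N : Subgroup F, N.FG → ¬ N ≤ C → ∃ φ : N →* Multiplicative ℚ, φ ≠ 1 ∧
      ∀ (x : F) (hx : x ∈ N), x ∈ C → φ ⟨x, hx⟩ = 1) : ∃ P : Set F, IsCone C P := by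
  obtain ⟨ε, hε⟩ := exists_good_all C h
  let P : Set F := {x | ∃ s, s ∉ C ∧ x = sg C ε s}
  have hPC : ∀ x ∈ P, x ∉ C := by
    rintro x ⟨s, hs, rfl⟩
    rwa [sg_mem_iff]
  have key : ∀ l : List F, (∀ x ∈ l, x ∈ P ∨ x ∈ C) → (∃ x ∈ l, x ∈ P) → l.prod ∉ C := by
    rintro l hl ⟨x0, hx0, hx0P⟩
    have hch : ∀ x : F, ∃ s : F, (x ∈ P ∨ x ∈ C) → x = sg C ε s := by
      intro x
      by_cases hx : x ∈ P ∨ x ∈ C
      · rcases hx with ⟨s, hs, hs'⟩ | hx
        · exact ⟨s, fun _ => hs'⟩
        · exact ⟨x, fun _ => by unfold sg; rw [if_pos hx]⟩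
      · exact ⟨x, fun h => absurd h hx⟩
    choose f hf using hch
    refine hε (l.toFinset.image f) l ?_ ⟨x0, hx0, hPC x0 hx0P⟩
    intro x hx
    exact ⟨f x, Finset.mem_image_of_mem _ (List.mem_toFinset.2 hx), hf x (hl x hx)⟩
  have htri : ∀ a, a ∈ P ∨ a ∈ C ∨ a⁻¹ ∈ P := by
    intro a
    by_cases ha : a ∈ C
    · exact Or.inr (Or.inl ha)
    · by_cases hε : ε a = true
      · left
        exact ⟨a, ha, by unfold sg; rw [if_neg ha, if_pos hε]⟩
      · right; right
        exact ⟨a, ha, by unfold sg; rw [if_neg ha, if_neg hε]⟩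
  refine ⟨P, ⟨?_, ?_, ?_, htri, hPC, ?_⟩⟩
  · intro a ha b hb
    have h1 : a * b ∉ C := by
      have := key [a, b] (by simp [ha, hb]) ⟨a, by simp, ha⟩
      simpa using this
    rcases htri (a * b) with h2 | h2 | h2
    · exact h2
    · exact absurd h2 h1
    · exfalso
      refine key [a, b, (a * b)⁻¹] ?_ ⟨a, by simp, ha⟩ ?_
      · intro x hx
        simp only [List.mem_cons, List.not_mem_nil, or_false] at hx
        rcases hx with rfl | rfl | rfl
        · exact Or.inl ha
        · exact Or.inl hb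
        · exact Or.inl h2
      · have : [a, b, (a * b)⁻¹].prod = 1 := by
          simp only [List.prod_cons, List.prod_nil]; group
        rw [this]
        exact C.one_mem
  · intro c hc a ha
    have h1 : c * a ∉ C := by
      have := key [c, a] (by simp [ha, hc]) ⟨a, by simp, ha⟩
      simpa using this
    rcases htri (c * a) with h2 | h2 | h2
    · exact h2
    · exact absurd h2 h1
    · exfalso
      refine key [c, a, (c * a)⁻¹] ?_ ⟨a, by simp, ha⟩ ?_
      · intro x hx
        simp only [List.mem_cons, List.not_mem_nil, or_false] at hx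
        rcases hx with rfl | rfl | rfl
        · exact Or.inr hc
        · exact Or.inl ha
        · exact Or.inl h2
      · have : [c, a, (c * a)⁻¹].prod = 1 := by
          simp only [List.prod_cons, List.prod_nil]; group
        rw [this]
        exact C.one_mem
  · intro a ha c hc
    have h1 : a * c ∉ C := by
      have := key [a, c] (by simp [ha, hc]) ⟨a, by simp, ha⟩
      simpa using this
    rcases htri (a * c) with h2 | h2 | h2
    · exact h2
    · exact absurd h2 h1
    · exfalso
      refine key [a, c, (a * c)⁻¹] ?_ ⟨a, by simp, ha⟩ ?_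
      · intro x hx
        simp only [List.mem_cons, List.not_mem_nil, or_false] at hx
        rcases hx with rfl | rfl | rfl
        · exact Or.inl ha
        · exact Or.inr hc
        · exact Or.inl h2
      · have : [a, c, (a * c)⁻¹].prod = 1 := by
          simp only [List.prod_cons, List.prod_nil]; group
        rw [this]
        exact C.one_mem
  · intro a ha ha'
    have := key [a, a⁻¹] (by simp [ha, ha']) ⟨a, by simp, ha⟩
    simp [C.one_mem] at this

end Pool.Agent.LOTI
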