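import Pool.Agent.Lib.LOTI.Defs

/-!
# Existence of cocycles (1.1)

PROOF. General: let `A` and `y` act on `Ω × X` by the permutations
`a : (o, x) ↦ (ι a • o, d a o * x)` and `y : (o, x) ↦ (y • o, e o * x)`; the first is a homomorphism
`A →* Equiv.Perm (Ω × X)` by `hd` (note `d 1 o = 1`). `lft` gives `π : FF A →* Equiv.Perm (Ω × X)`.
For every `g` there is a function `c g : Ω → X` with `π g (o, x) = (g • o, c g o * x)` for all `o, x`
(`FF_induction`; for the inverse: `c g⁻¹ o = (c g (g⁻¹ • o))⁻¹`), namely `c g o = (π g (o, 1)).2`.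
`π (g h) = π g * π h` gives the cocycle identity.
Additive: apply this to `X = Multiplicative ℚ`.
-/

set_option autoImplicit false

open scoped Classical

namespace Pool.Agent.LOTI

variable {A : Type} [Group A]

theorem exists_coc {Ω : Type} [MulAction (FF A) Ω] {X : Type} [Group X] (d : A → Ω → X)
    (hd : ∀ a b o, d (a * b) o = d a (ι b • o) * d b o) (e : Ω → X) :
    ∃ c : FF A → Ω → X, IsCoc c ∧ (∀ a o, c (ι a) o = d a o) ∧ ∀ o, c y o = e o := by
  have hd1 : ∀ o, d 1 o = 1 := by
    intro o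
    have h := hd 1 1 o
    rw [mul_one, map_one, one_smul] at h
    exact (mul_eq_left.1 h.symm)
  let F : A →* Function.End (Ω × X) :=
    { toFun := fun a p => (ι a • p.1, d a p.1 * p.2)
      map_one' := by
        funext p
        show (ι 1 • p.1, d 1 p.1 * p.2) = p
        rw [map_one, one_smul, hd1, one_mul]
      map_mul' := by
        intro a b
        funext p
        show (ι (a * b) • p.1, d (a * b) p.1 * p.2) =
          (ι a • ι b • p.1, d a (ι b • p.1) * (d b p.1 * p.2))
        rw [map_mul, mul_smul, hd, mul_assoc] }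
  let Y : Equiv.Perm (Ω × X) :=
    { toFun := fun p => ((y : FF A) • p.1, e p.1 * p.2)
      invFun := fun p => ((y : FF A)⁻¹ • p.1, (e ((y : FF A)⁻¹ • p.1))⁻¹ * p.2)
      left_inv := by
        intro p
        show ((y : FF A)⁻¹ • (y : FF A) • p.1,
          (e ((y : FF A)⁻¹ • (y : FF A) • p.1))⁻¹ * (e p.1 * p.2)) = p
        rw [inv_smul_smul, inv_mul_cancel_left]
      right_inv := by
        intro p
        show ((y : FF A) • (y : FF A)⁻¹ • p.1,
          e ((y : FF A)⁻¹ • p.1) * ((e ((y : FF A)⁻¹ • p.1))⁻¹ * p.2)) = p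
        rw [smul_inv_smul, mul_inv_cancel_left] }
  let π : FF A →* Equiv.Perm (Ω × X) := lft (MonoidHom.toHomPerm F) Y
  have hπι : ∀ (a : A) (p : Ω × X), π (ι a) p = (ι a • p.1, d a p.1 * p.2) := by
    intro a p
    show lft (MonoidHom.toHomPerm F) Y (ι a) p = _
    rw [lft_ι]
    rfl
  have hπy : ∀ (p : Ω × X), π y p = ((y : FF A) • p.1, e p.1 * p.2) := by
    intro p
    show lft (MonoidHom.toHomPerm F) Y y p = _
    rw [lft_y]
    rfl
  have key : ∀ g : FF A, ∃ c : Ω → X, ∀ o x, π g (o, x) = (g • o, c o * x) := by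
    intro g
    refine FF_induction (p := fun g => ∃ c : Ω → X, ∀ o x, π g (o, x) = (g • o, c o * x))
      ?_ ?_ ?_ ?_ g
    · intro a
      exact ⟨d a, fun o x => hπι a (o, x)⟩
    · exact ⟨e, fun o x => hπy (o, x)⟩
    · rintro g h ⟨c, hc⟩ ⟨c', hc'⟩
      refine ⟨fun o => c (h • o) * c' o, fun o x => ?_⟩
      rw [map_mul, Equiv.Perm.mul_apply, hc', hc, mul_smul, mul_assoc]
    · rintro g ⟨c, hc⟩
      refine ⟨fun o => (c (g⁻¹ • o))⁻¹, fun o x => ?_⟩
      rw [map_inv, Equiv.Perm.inv_eq_iff_eq, hc, smul_inv_smul, mul_inv_cancel_left]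
  choose c hc using key
  refine ⟨c, ?_, ?_, ?_⟩
  · intro g h o
    have h1 := hc (g * h) o 1
    rw [map_mul, Equiv.Perm.mul_apply, hc, hc] at h1
    have h2 := congrArg Prod.snd h1
    simp only [mul_one] at h2
    exact h2.symm
  · intro a o
    have h1 := hc (ι a) o 1
    rw [hπι] at h1
    have h2 := congrArg Prod.snd h1
    simp only [mul_one] at h2
    exact h2.symm
  · intro o
    have h1 := hc y o 1
    rw [hπy] at h1
    have h2 := congrArg Prod.snd h1
    simp only [mul_one] at h2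
    exact h2.symm

theorem exists_acoc {Ω : Type} [MulAction (FF A) Ω] (d : A → Ω → ℚ)
    (hd : ∀ a b o, d (a * b) o = d a (ι b • o) + d b o) (e : Ω → ℚ) :
    ∃ c : FF A → Ω → ℚ, IsACoc c ∧ (∀ a o, c (ι a) o = d a o) ∧ ∀ o, c y o = e o := by
  obtain ⟨c, h1, h2, h3⟩ := exists_coc (X := Multiplicative ℚ)
    (fun a o => Multiplicative.ofAdd (d a o))
    (fun a b o => by
      show Multiplicative.ofAdd (d (a * b) o) = Multiplicative.ofAdd (d a (ι b • o) + d b o)
      rw [hd]) (fun o => Multiplicative.ofAdd (e o))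
  refine ⟨fun g o => Multiplicative.toAdd (c g o), ?_, ?_, ?_⟩
  · intro g h o
    show Multiplicative.toAdd (c (g * h) o) = _
    rw [h1 g h o]
    rfl
  · intro a o
    show Multiplicative.toAdd (c (ι a) o) = _
    rw [h2]
    rfl
  · intro o
    show Multiplicative.toAdd (c y o) = _
    rw [h3]
    rfl

end Pool.Agent.LOTI
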