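import Pool.Agent.Lib.LOTI.Defs

/-!
# Elementary facts on locally indicable groups

PROOFS.
* `LI.of_injective`: `H ≤ G` finitely generated without homomorphisms to `ℚ`; `H.map f` is isomorphic
  to `H` (`Subgroup.equivMapOfInjective`), so it has the same property, so it is trivial.
* `LI.ext`: `H ≤ G`; the image `H.map f` is finitely generated and every homomorphism of it to `ℚ`
  gives one of `H` (composition with the surjection `H → H.map f`), so it is trivial; so `H.map f = ⊥`, i.e.
  `H ≤ f.ker`, `H` is (isomorphic to) a finitely generated subgroup of `f.ker`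
  (`Subgroup.subgroupOf`), so it is trivial.
* `LI_int`: a subgroup `H ≠ ⊥` of `ℤ` has the homomorphism `H → ℤ → ℚ`, which is not trivial.
* `LI.surj`: `φ : H →* Multiplicative ℚ` not trivial, `H` finitely generated. The image is a
  non-trivial finitely generated subgroup of `ℚ`, it is contained in `(1/N) ℤ` for the product `N` of
  the denominators of generators, so `N φ` has values in `ℤ`: a non-trivial homomorphism
  `ψ : H →* Multiplicative ℤ`; its range is `d ℤ`, `d ≠ 0` (`Int.subgroup_cyclic` or `AddSubgroup`
  version), and `ψ / d` is onto.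
* `exists_pow_mem_commutator`: `Abelianization H` is finitely generated commutative; if `h` had infinite
  order in it, there would be a homomorphism `Abelianization H → ℚ` which is not trivial on `h`
  (e.g. `ℚ` is an injective `ℤ`-module / divisible: `Module.Baer`, `AddCommGroup` injectivity
  `AddCommGrpCat.injective_of_divisible`, or tensor with `ℚ`: `h ⊗ 1 ≠ 0` and a linear form of the
  `ℚ`-vector space `ℚ ⊗ H^ab`; `Module.Free`, structure theorem of finitely generated modules over `ℤ`,
  torsion free quotient is free, is another way).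
-/

set_option autoImplicit false

open scoped Classical

namespace Pool.Agent.LOTI

private lemma libas_map {G H : Type} [Group G] [Group H] (f : G →* H) (h : LI H)
    (K : Subgroup G) (hK : K.FG) (h1 : ∀ φ : K →* Multiplicative ℚ, φ = 1) : K.map f = ⊥ := by
  have hs := f.subgroupMap_surjective K
  apply h
  · rw [← Group.fg_iff_subgroup_fg] at hK ⊢
    exact Group.fg_of_surjective hs
  · intro φ
    have h2 := h1 (φ.comp (f.subgroupMap K))
    ext x
    obtain ⟨z, rfl⟩ := hs x
    have h3 := DFunLike.congr_fun h2 z
    exact congrArg Multiplicative.toAdd h3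

private lemma libas_key {H : Type} [Group H] (hfg : Group.FG H) (x : H)
    (hx : ∀ n : ℕ, 0 < n → x ^ n ∉ commutator H) :
    ∃ φ : H →* Multiplicative ℤ, Function.Surjective φ ∧ φ x ≠ 1 := by
  have hof : Function.Surjective (Abelianization.of : H →* Abelianization H) :=
    QuotientGroup.mk_surjective
  have hA : Group.FG (Abelianization H) := Group.fg_of_surjective hof
  have hM : AddGroup.FG (Additive (Abelianization H)) := GroupFG.iff_add_fg.1 hA
  have hF : Module.Finite ℤ (Additive (Abelianization H)) := Module.Finite.iff_addGroup_fg.2 hM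
  let T := Submodule.torsion ℤ (Additive (Abelianization H))
  let Q := Additive (Abelianization H) ⧸ T
  have hQF : Module.Finite ℤ Q := inferInstance
  have hQT : Module.IsTorsionFree ℤ Q := inferInstance
  let b := Module.Free.chooseBasis ℤ Q
  let xb : Q := Submodule.Quotient.mk (Additive.ofMul (Abelianization.of x))
  have hxb : xb ≠ 0 := by
    intro h0
    have h1 : Additive.ofMul (Abelianization.of x) ∈ T := (Submodule.Quotient.mk_eq_zero _).1 h0
    obtain ⟨a, ha⟩ := (Submodule.mem_torsion_iff _).1 h1
    have ha0 : (a : ℤ) ≠ 0 := nonZeroDivisors.coe_ne_zero a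
    have ha1 : (a : ℤ) • Additive.ofMul (Abelianization.of x) = 0 := ha
    have h2 : (a : ℤ).natAbs • Additive.ofMul (Abelianization.of x) = 0 := by
      rcases Int.natAbs_eq (a : ℤ) with h | h
      · rw [h, natCast_zsmul] at ha1
        exact ha1
      · rw [h, neg_smul, natCast_zsmul, neg_eq_zero] at ha1
        exact ha1
    refine hx (a : ℤ).natAbs (Int.natAbs_pos.2 ha0) ?_
    have h3 : Abelianization.of (x ^ (a : ℤ).natAbs) = 1 := by
      rw [map_pow]
      exact h2
    exact (QuotientGroup.eq_one_iff _).1 h3
  obtain ⟨i, hi⟩ : ∃ i, b.coord i xb ≠ 0 := by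
    by_contra hcon
    push Not at hcon
    exact hxb (b.forall_coord_eq_zero_iff.1 hcon)
  let ψ : Additive (Abelianization H) →+ ℤ := (b.coord i).toAddMonoidHom.comp T.mkQ.toAddMonoidHom
  let φ : H →* Multiplicative ℤ := (AddMonoidHom.toMultiplicativeRight ψ).comp Abelianization.of
  refine ⟨φ, ?_, ?_⟩
  · intro m
    obtain ⟨z, hz⟩ := T.mkQ_surjective ((Multiplicative.toAdd m) • b i)
    obtain ⟨g, hg⟩ := hof (Additive.toMul z)
    refine ⟨g, ?_⟩
    show Multiplicative.ofAdd (b.coord i (T.mkQ (Additive.ofMul (Abelianization.of g)))) = m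
    rw [hg, ofMul_toMul, hz, map_smul]
    simp
  · intro h0
    exact hi (congrArg Multiplicative.toAdd h0)

private def libasCast : Multiplicative ℤ →* Multiplicative ℚ :=
  AddMonoidHom.toMultiplicative (Int.castAddHom ℚ)

private lemma libasCast_eq_one {m : Multiplicative ℤ} (h : libasCast m = 1) : m = 1 := by
  have h1 : ((Multiplicative.toAdd m : ℤ) : ℚ) = 0 := congrArg Multiplicative.toAdd h
  have h2 : Multiplicative.toAdd m = 0 := by exact_mod_cast h1
  exact congrArg Multiplicative.ofAdd h2

theorem LI.of_injective {G H : Type} [Group G] [Group H] (f : G →* H) (hf : Function.Injective f)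
    (h : LI H) : LI G := by
  intro K hK h1
  have h2 := libas_map f h K hK h1
  exact (Subgroup.map_eq_bot_iff_of_injective K hf).1 h2

theorem LI.ext {G H : Type} [Group G] [Group H] (f : G →* H) (hH : LI H) (hK : LI f.ker) :
    LI G := by
  intro K hFG h1
  have h2 := libas_map f hH K hFG h1
  have h3 : K ≤ f.ker := (Subgroup.map_eq_bot_iff K).1 h2
  let e := Subgroup.subgroupOfEquivOfLe h3
  have h4 : K.subgroupOf f.ker = ⊥ := by
    apply hK
    · rw [← Group.fg_iff_subgroup_fg] at hFG ⊢
      exact Group.fg_of_surjective (f := e.symm.toMonoidHom) e.symm.surjective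
    · intro φ
      have h5 := h1 (φ.comp e.symm.toMonoidHom)
      ext x
      have h6 := DFunLike.congr_fun h5 (e x)
      simp only [MonoidHom.comp_apply, MulEquiv.coe_toMonoidHom, MulEquiv.symm_apply_apply,
        MonoidHom.one_apply] at h6
      exact congrArg Multiplicative.toAdd h6
  rw [Subgroup.subgroupOf_eq_bot] at h4
  exact h4.eq_bot_of_le h3

theorem LI_int : LI (Multiplicative ℤ) := by
  intro K _ h1
  rw [Subgroup.eq_bot_iff_forall]
  intro x hx
  have h2 := DFunLike.congr_fun (h1 (libasCast.comp K.subtype)) ⟨x, hx⟩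
  exact libasCast_eq_one h2

theorem LI.surj {G : Type} [Group G] (h : LI G) (H : Subgroup G) (hfg : H.FG) (hH : H ≠ ⊥) :
    ∃ φ : H →* Multiplicative ℤ, Function.Surjective φ := by
  have hne : ∃ φ : H →* Multiplicative ℚ, φ ≠ 1 := by
    by_contra hcon
    push Not at hcon
    exact hH (h H hfg hcon)
  obtain ⟨φ, hφ⟩ := hne
  have hx : ∃ x : H, φ x ≠ 1 := by
    by_contra hcon
    push Not at hcon
    exact hφ (MonoidHom.ext hcon)
  obtain ⟨x, hx⟩ := hx
  obtain ⟨ψ, hψ, -⟩ := libas_key ((Group.fg_iff_subgroup_fg H).2 hfg) x (by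
    intro n hn hmem
    have h1 : x ^ n ∈ φ.ker := Abelianization.commutator_subset_ker φ hmem
    rw [MonoidHom.mem_ker, map_pow] at h1
    have h2 : n • (Multiplicative.toAdd (φ x)) = 0 := congrArg Multiplicative.toAdd h1
    rw [smul_eq_zero] at h2
    rcases h2 with h2 | h2
    · omega
    · exact hx (congrArg Multiplicative.ofAdd h2))
  exact ⟨ψ, hψ⟩

theorem exists_pow_mem_commutator {H : Type} [Group H] (hfg : Group.FG H)
    (h : ∀ φ : H →* Multiplicative ℚ, φ = 1) (x : H) :
    ∃ n : ℕ, 0 < n ∧ x ^ n ∈ commutator H := by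
  by_contra hcon
  push Not at hcon
  obtain ⟨ψ, -, hψ⟩ := libas_key hfg x hcon
  have h1 := DFunLike.congr_fun (h (libasCast.comp ψ)) x
  exact hψ (libasCast_eq_one h1)

end Pool.Agent.LOTI
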