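import Pool.Agent.Lib.LOTI.Defs

/-!
# The letters at a top passing are on top of their arcs (1.11)

PROOF of `top_arr` (letter `i` arrives at the passing `i`). Let `f = arc o i = arc o' j`.
 * `u i = -1`: `y • f = ι (g i) • st o i` (`y_arc_of_neg`), `p i = tau i * y⁻¹ * ι (g i)`.
   - `u j = -1`: `y • f = ι (g j) • st o' j`; `x = (g i)⁻¹ * g j` satisfies `ι x • st o' j = st o i`, and
     `p i * ι x * (p j)⁻¹ = tau i * (tau j)⁻¹`. Apply `htop`.
   - `u j = 1`: `y • f = st o' (j-1)`; `x = (g i)⁻¹`, `p i * ι x * (p (j-1))⁻¹ = tau i * y⁻¹ * (p (j-1))⁻¹ = tau i * (tau j)⁻¹`. Apply `htop` to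
     `(o', j - 1)`: either the claim, or `o' = o` and `j - 1 = i + s m`; then `st o (j-1) = st o i = y • f = ι (g i) • st o i`, so `g i = 1`
     by freeness, `u (i+1) = u i` (`red`), `u j = u (i + 1 + s m) = u (i+1)`: contradiction.
 * `u i = 1`: `f = ι (g i) • st o i`, `p i = tau i * ι (g i)`. The same with `f` instead of `y • f`, the roles of `u j = ±1` exchanged.
PROOF of `top_dep` (letter `i + 1` departs from the passing `i`). Let `f = arc o (i+1) = arc o' j`.
 * `u (i+1) = -1`: `f = st o i`, `tau (i+1) = p i`.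
   - `u j = -1`: `f = st o' (j-1)`, `x = 1`, `p i * (p (j-1))⁻¹ = tau (i+1) * (tau j)⁻¹`; `htop` for `(o', j-1)`.
   - `u j = 1`: `f = ι (g j) • st o' j`, `x = g j`, `p i * ι (g j) * (p j)⁻¹ = tau (i+1) * (tau j)⁻¹`; `htop` for `(o', j)`: the case `o' = o`, `j = i + s m`:
     `st o i = ι (g j) • st o j = ι (g i) • st o i`, so `g i = 1`, `u (i+1) = u i = u j`: contradiction.
 * `u (i+1) = 1`: `y • f = st o i`, `tau (i+1) = p i * y`; the same with `y • f`.
(`hfree` is freeness at `st o i`; `Eqm` facts: `st_add`, `u_add`, `g_add`.)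
-/

set_option autoImplicit false

open scoped Classical

namespace Pool.Agent.LOTI

variable {A : Type} [Group A]

theorem top_arr (Γ : Geo A) {P : Set (FF A)} {Ω : Type}
    [MulAction (FF A) Ω] (S : Finset Ω) (hS : ∀ o ∈ S, Γ.w • o = o) (o : Ω) (ho : o ∈ S) (i : ℤ)
    (hfree : ∀ a : A, ι a • Γ.st o i = Γ.st o i → a = 1)
    (htop : ∀ o' ∈ S, ∀ j : ℤ, ∀ x : A, ι x • Γ.st o' j = Γ.st o i →
      (o' = o ∧ Γ.Eqm i j) ∨ Γ.p i * ι x * (Γ.p j)⁻¹ ∈ P)
    (o' : Ω) (ho' : o' ∈ S) (j : ℤ) (h : Γ.arc o' j = Γ.arc o i) :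
    (o' = o ∧ Γ.Eqm i j) ∨ Γ.tau i * (Γ.tau j)⁻¹ ∈ P := by
  have hw := hS o ho
  have hcon : ∀ x : A, Γ.g i = x → x = 1 → ∀ s : ℤ, j - 1 = i + s * Γ.m → Γ.u j = Γ.u i := by
    intro x hx hx1 s hs
    have h1 := Γ.red i (hx.trans hx1)
    have h2 : j = (i + 1) + s * Γ.m := by linarith
    rw [h2, Γ.u_add, h1]
  rcases Int.units_eq_one_or (Γ.u i) with hi | hi
  · have e1 := Γ.arc_of_pos hi o
    rcases Int.units_eq_one_or (Γ.u j) with hj | hj
    · have e2 := Γ.arc_of_pos hj o'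
      have hx : ι ((Γ.g i)⁻¹ * Γ.g j) • Γ.st o' j = Γ.st o i := by
        rw [map_mul, map_inv, mul_smul, ← e2, h, e1, inv_smul_smul]
      refine (htop o' ho' j _ hx).imp id fun h3 => ?_
      rw [Γ.p_of_pos hi, Γ.p_of_pos hj] at h3
      convert h3 using 1
      rw [map_mul, map_inv]
      group
    · have e2 := Γ.arc_of_neg hj o'
      have hx : ι ((Γ.g i)⁻¹) • Γ.st o' (j - 1) = Γ.st o i := by
        rw [map_inv, ← e2, h, e1, inv_smul_smul]
      rcases htop o' ho' (j - 1) _ hx with ⟨rfl, s, hs⟩ | h3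
      · exfalso
        have h4 : Γ.st o' (j - 1) = Γ.st o' i := by rw [hs, Γ.st_add hw]
        rw [h4] at hx
        have h5 := hcon _ rfl (inv_eq_one.1 (hfree _ hx)) s hs
        rw [hi, hj] at h5
        exact absurd h5 (by decide)
      · right
        rw [Γ.p_of_pos hi] at h3
        rw [Γ.tau_of_neg hj]
        convert h3 using 1
        rw [map_inv]
        group
  · have e1 := Γ.y_arc_of_neg hi o
    rcases Int.units_eq_one_or (Γ.u j) with hj | hj
    · have e2 := Γ.y_arc_of_pos hj o'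
      have hx : ι ((Γ.g i)⁻¹) • Γ.st o' (j - 1) = Γ.st o i := by
        rw [map_inv, ← e2, h, e1, inv_smul_smul]
      rcases htop o' ho' (j - 1) _ hx with ⟨rfl, s, hs⟩ | h3
      · exfalso
        have h4 : Γ.st o' (j - 1) = Γ.st o' i := by rw [hs, Γ.st_add hw]
        rw [h4] at hx
        have h5 := hcon _ rfl (inv_eq_one.1 (hfree _ hx)) s hs
        rw [hi, hj] at h5
        exact absurd h5 (by decide)
      · right
        rw [Γ.p_of_neg hi] at h3
        rw [Γ.tau_of_pos hj]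
        convert h3 using 1
        rw [map_inv]
        group
    · have e2 := Γ.y_arc_of_neg hj o'
      have hx : ι ((Γ.g i)⁻¹ * Γ.g j) • Γ.st o' j = Γ.st o i := by
        rw [map_mul, map_inv, mul_smul, ← e2, h, e1, inv_smul_smul]
      refine (htop o' ho' j _ hx).imp id fun h3 => ?_
      rw [Γ.p_of_neg hi, Γ.p_of_neg hj] at h3
      convert h3 using 1
      rw [map_mul, map_inv]
      group

theorem top_dep (Γ : Geo A) {P : Set (FF A)} {Ω : Type}
    [MulAction (FF A) Ω] (S : Finset Ω) (hS : ∀ o ∈ S, Γ.w • o = o) (o : Ω) (ho : o ∈ S) (i : ℤ)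
    (hfree : ∀ a : A, ι a • Γ.st o i = Γ.st o i → a = 1)
    (htop : ∀ o' ∈ S, ∀ j : ℤ, ∀ x : A, ι x • Γ.st o' j = Γ.st o i →
      (o' = o ∧ Γ.Eqm i j) ∨ Γ.p i * ι x * (Γ.p j)⁻¹ ∈ P)
    (o' : Ω) (ho' : o' ∈ S) (j : ℤ) (h : Γ.arc o' j = Γ.arc o (i + 1)) :
    (o' = o ∧ Γ.Eqm (i + 1) j) ∨ Γ.tau (i + 1) * (Γ.tau j)⁻¹ ∈ P := by
  have hw := hS o ho
  have hcon : Γ.g j = 1 → ∀ s : ℤ, j = i + s * Γ.m → Γ.u j = Γ.u (i + 1) := by
    intro h1 s hs
    rw [hs, Γ.g_add] at h1
    rw [hs, Γ.u_add, Γ.red i h1]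
  have hsub : i + 1 - 1 = i := by ring
  rcases Int.units_eq_one_or (Γ.u (i + 1)) with hi | hi
  · have e1 := Γ.y_arc_of_pos hi o
    rw [hsub] at e1
    have t1 := Γ.tau_of_pos hi
    rw [hsub] at t1
    rcases Int.units_eq_one_or (Γ.u j) with hj | hj
    · have e2 := Γ.y_arc_of_pos hj o'
      have hx : ι (1 : A) • Γ.st o' (j - 1) = Γ.st o i := by
        rw [map_one, one_smul, ← e2, h, e1]
      rcases htop o' ho' (j - 1) _ hx with ⟨h4, s, hs⟩ | h3
      · left
        exact ⟨h4, s, by linarith⟩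
      · right
        rw [t1, Γ.tau_of_pos hj]
        convert h3 using 1
        rw [map_one]
        group
    · have e2 := Γ.y_arc_of_neg hj o'
      have hx : ι (Γ.g j) • Γ.st o' j = Γ.st o i := by
        rw [← e2, h, e1]
      rcases htop o' ho' j _ hx with ⟨rfl, s, hs⟩ | h3
      · exfalso
        have h4 : Γ.st o' j = Γ.st o' i := by rw [hs, Γ.st_add hw]
        rw [h4] at hx
        have h5 := hcon (hfree _ hx) s hs
        rw [hi, hj] at h5
        exact absurd h5 (by decide)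
      · right
        rw [Γ.p_of_neg hj] at h3
        rw [t1]
        convert h3 using 1
        group
  · have e1 := Γ.arc_of_neg hi o
    rw [hsub] at e1
    have t1 := Γ.tau_of_neg hi
    rw [hsub] at t1
    rcases Int.units_eq_one_or (Γ.u j) with hj | hj
    · have e2 := Γ.arc_of_pos hj o'
      have hx : ι (Γ.g j) • Γ.st o' j = Γ.st o i := by
        rw [← e2, h, e1]
      rcases htop o' ho' j _ hx with ⟨rfl, s, hs⟩ | h3
      · exfalso
        have h4 : Γ.st o' j = Γ.st o' i := by rw [hs, Γ.st_add hw]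
        rw [h4] at hx
        have h5 := hcon (hfree _ hx) s hs
        rw [hi, hj] at h5
        exact absurd h5 (by decide)
      · right
        rw [Γ.p_of_pos hj] at h3
        rw [t1]
        convert h3 using 1
        group
    · have e2 := Γ.arc_of_neg hj o'
      have hx : ι (1 : A) • Γ.st o' (j - 1) = Γ.st o i := by
        rw [map_one, one_smul, ← e2, h, e1]
      rcases htop o' ho' (j - 1) _ hx with ⟨h4, s, hs⟩ | h3
      · left
        exact ⟨h4, s, by linarith⟩
      · right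
        rw [t1, Γ.tau_of_neg hj]
        convert h3 using 1
        rw [map_one]
        group

end Pool.Agent.LOTI
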