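import Pool.Agent.Lib.LOTI.TopA
import Pool.Agent.Lib.LOTI.TopB

/-!
# Counting top strands (1.11)

PROOF. Call a strand `(o, i)`, `o ∈ S`, `i : ℕ`, `i < m`, TOP if for all `o' ∈ S`, `j : ℤ` with `arc o' j = arc o i`:
`(o' = o ∧ Eqm i j) ∨ tau i * (tau j)⁻¹ ∈ P`. Let `T` be the finite set of the top strands.
(1) `(o, i) ↦ arc o i` is injective on `T`, so `|T| ≤ |arcs S|`: if `(o,i)`, `(o',j)` are top and on the same arc and different
    (as pairs in `S × range m`; `Eqm i j` for `i, j < m` means `i = j`), then `tau i * (tau j)⁻¹` and its inverse are in `P`: `IsCone.anti`.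
(2) TYPES: for `i ≠ j` in `range m`, `tau i * (tau j)⁻¹ ∉ zpowers w` (`Geo.tau_eq`), so `j < i :⇔ tau i * (tau j)⁻¹ ∈ P` is a strict total order
    on `range m` (nonempty). Let `a` be the maximal, `b` the minimal type. For `j : ℤ` not `Eqm` to `a`: `tau a * (tau j)⁻¹ ∈ P` (reduce `j` mod `m`,
    `tau_add_mul`, `IsCone.right`). So `(o, a)` is top for every `o ∈ S`: if `arc o' j = arc o a` with `Eqm a j`, then `o' = tau j • f = w^s • tau a • f = o`.
    And `(o, b)` is not top: by `h2` there is another strand on its arc, `(o', j)`, not `Eqm b j` (as before `Eqm b j` would give `o' = o`), so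
    `tau j * (tau b)⁻¹ ∈ P`, and `tau b * (tau j)⁻¹ ∉ P`.
(3) So for every `o ∈ S` there is `i_o ∈ range m` with `(o, i_o)` top and `(o, (i_o + 1) mod m)` not top (go cyclically from `a` to `b`).
(4) For `v ∈ V` let `(o_v, i_v)` be the top passing of `top_pass`. By `top_arr` `(o_v, i_v)` is top, by `top_dep` `(o_v, (i_v + 1) mod m)` is top
    (`tau_add_mul`, `arc_add` to pass from `i_v + 1` to `(i_v + 1) mod m`; freeness at `st o_v i_v` follows from freeness at `v`).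
    `v ↦ (o_v, i_v)` is injective (`Used`: different orbits).
(5) The images of `V` and of `S` under these two injections into `T` are disjoint, so `|V| + |S| ≤ |T| ≤ |arcs S|`.
-/

set_option autoImplicit false

open scoped Classical

namespace Pool.Agent.LOTI

variable {A : Type} [Group A]

private def Top (Γ : Geo A) (P : Set (FF A)) {Ω : Type} [MulAction (FF A) Ω] (S : Finset Ω)
    (o : Ω) (i : ℤ) : Prop :=
  ∀ o' ∈ S, ∀ j : ℤ, Γ.arc o' j = Γ.arc o i →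
    (o' = o ∧ Γ.Eqm i j) ∨ Γ.tau i * (Γ.tau j)⁻¹ ∈ P

private theorem eqm_symm (Γ : Geo A) {i j : ℤ} (h : Γ.Eqm i j) : Γ.Eqm j i := by
  obtain ⟨s, hs⟩ := h
  exact ⟨-s, by rw [hs]; ring⟩

private theorem eqm_shift (Γ : Geo A) {i j : ℤ} (s : ℤ) (h : Γ.Eqm i j) :
    Γ.Eqm (i + s * Γ.m) j := by
  obtain ⟨t, ht⟩ := h
  exact ⟨t - s, by rw [ht]; ring⟩

private theorem eqm_nat (Γ : Geo A) {i j : ℕ} (hi : i < Γ.m) (hj : j < Γ.m)
    (h : Γ.Eqm (i : ℤ) (j : ℤ)) : i = j := by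
  obtain ⟨s, hs⟩ := h
  have h1 : ((j : ℤ)) % (Γ.m : ℤ) = ((i : ℤ)) % (Γ.m : ℤ) := by
    rw [hs, Int.add_mul_emod_self_right]
  rw [Int.emod_eq_of_lt (by positivity) (by exact_mod_cast hj),
    Int.emod_eq_of_lt (by positivity) (by exact_mod_cast hi)] at h1
  exact_mod_cast h1.symm

private theorem exists_mod (Γ : Geo A) (j : ℤ) : ∃ j0 : ℕ, j0 < Γ.m ∧ ∃ s : ℤ,
    j = (j0 : ℤ) + s * Γ.m := by
  have hm : (0 : ℤ) < Γ.m := by exact_mod_cast Γ.hm
  have h1 := Int.emod_nonneg j hm.ne'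
  have h2 := Int.emod_lt_of_pos j hm
  refine ⟨(j % (Γ.m : ℤ)).toNat, ?_, j / (Γ.m : ℤ), ?_⟩
  · have h3 : ((j % (Γ.m : ℤ)).toNat : ℤ) = j % (Γ.m : ℤ) := Int.toNat_of_nonneg h1
    have h4 : ((j % (Γ.m : ℤ)).toNat : ℤ) < (Γ.m : ℤ) := by rw [h3]; exact h2
    exact_mod_cast h4
  · rw [Int.toNat_of_nonneg h1, mul_comm]
    exact (Int.emod_add_mul_ediv j (Γ.m : ℤ)).symm

private theorem top_shift (Γ : Geo A) {P : Set (FF A)} (hP : IsCone (Subgroup.zpowers Γ.w) P)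
    {Ω : Type} [MulAction (FF A) Ω] (S : Finset Ω) (hS : ∀ o ∈ S, Γ.w • o = o) {o : Ω} (ho : o ∈ S)
    {i : ℤ} (s : ℤ) (h : Top Γ P S o i) : Top Γ P S o (i + s * Γ.m) := by
  intro o' ho' j hj
  rw [Γ.arc_add (hS o ho)] at hj
  rcases h o' ho' j hj with ⟨h1, h2⟩ | h1
  · exact Or.inl ⟨h1, eqm_shift Γ s h2⟩
  · right
    rw [Γ.tau_add_mul, mul_assoc]
    exact hP.left _ (Subgroup.zpow_mem _ (Subgroup.mem_zpowers Γ.w) s) _ h1

private theorem ext_type (Γ : Geo A) (R : ℤ → ℤ → Prop) (ht : ∀ i j k, R i j → R j k → R i k)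
    (htot : ∀ i j, ¬ Γ.Eqm i j → R i j ∨ R j i) (hR : ∀ i j s, R i j → R i (j + s * Γ.m)) :
    ∃ a : ℕ, a < Γ.m ∧ ∀ j : ℤ, ¬ Γ.Eqm a j → R a j := by
  have h1 : ∀ n : ℕ, n + 1 ≤ Γ.m → ∃ a : ℕ, a < n + 1 ∧ ∀ j : ℕ, j < n + 1 → j ≠ a →
      R (a : ℤ) (j : ℤ) := by
    intro n
    induction n with
    | zero =>
      intro _
      exact ⟨0, by omega, fun j hj hne => absurd (by omega) hne⟩
    | succ n ih =>
      intro hn
      obtain ⟨a, ha, hj⟩ := ih (by omega)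
      have hne : ¬ Γ.Eqm (a : ℤ) ((n + 1 : ℕ) : ℤ) := by
        intro h
        have := eqm_nat Γ (by omega) (by omega) h
        omega
      rcases htot _ _ hne with h2 | h2
      · refine ⟨a, by omega, fun j hj1 hj2 => ?_⟩
        rcases Nat.lt_or_ge j (n + 1) with h3 | h3
        · exact hj j h3 hj2
        · have h4 : j = n + 1 := by omega
          rw [h4]
          exact h2
      · refine ⟨n + 1, by omega, fun j hj1 hj2 => ?_⟩
        have h3 : j < n + 1 := by omega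
        by_cases h4 : j = a
        · rw [h4]
          exact h2
        · exact ht _ _ _ h2 (hj j h3 h4)
  obtain ⟨a, ha, hj⟩ := h1 (Γ.m - 1) (by have := Γ.hm; omega)
  have hm := Γ.hm
  refine ⟨a, by omega, fun j hne => ?_⟩
  obtain ⟨j0, hj0, s, hs⟩ := exists_mod Γ j
  rw [hs]
  refine hR _ _ _ (hj j0 (by omega) ?_)
  intro h2
  apply hne
  rw [← h2]
  exact ⟨s, hs⟩

theorem count (Γ : Geo A) {P : Set (FF A)} (hP : IsCone (Subgroup.zpowers Γ.w) P) {Ω : Type}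
    [MulAction (FF A) Ω] (S : Finset Ω) (hS : ∀ o ∈ S, Γ.w • o = o)
    (h2 : ∀ o ∈ S, ∀ i : ℤ, ∃ o' ∈ S, ∃ j : ℤ, Γ.arc o' j = Γ.arc o i ∧ ¬ (o' = o ∧ Γ.Eqm i j))
    (V : Finset Ω) (hV : Used Γ S V) : V.card + S.card ≤ (Γ.arcs S).card := by
  have hC : ∀ s : ℤ, Γ.w ^ s ∈ Subgroup.zpowers Γ.w := fun s =>
    Subgroup.zpow_mem _ (Subgroup.mem_zpowers Γ.w) s
  have hinv : ∀ i j : ℤ, (Γ.tau i * (Γ.tau j)⁻¹)⁻¹ = Γ.tau j * (Γ.tau i)⁻¹ := by
    intro i j
    rw [mul_inv_rev, inv_inv]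
  have htot : ∀ i j : ℤ, ¬ Γ.Eqm i j →
      Γ.tau i * (Γ.tau j)⁻¹ ∈ P ∨ Γ.tau j * (Γ.tau i)⁻¹ ∈ P := by
    intro i j hne
    rcases hP.tri (Γ.tau i * (Γ.tau j)⁻¹) with h | h | h
    · exact Or.inl h
    · exfalso
      obtain ⟨s, hs⟩ := Subgroup.mem_zpowers_iff.1 h
      have h1 := Γ.tau_eq hs.symm
      exact hne (eqm_symm Γ ⟨s, h1⟩)
    · rw [hinv] at h
      exact Or.inr h
  have htr : ∀ i j k : ℤ, Γ.tau i * (Γ.tau j)⁻¹ ∈ P → Γ.tau j * (Γ.tau k)⁻¹ ∈ P →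
      Γ.tau i * (Γ.tau k)⁻¹ ∈ P := by
    intro i j k h h'
    have h1 := hP.mul _ h _ h'
    have h3 : Γ.tau i * (Γ.tau j)⁻¹ * (Γ.tau j * (Γ.tau k)⁻¹) = Γ.tau i * (Γ.tau k)⁻¹ := by
      group
    rw [h3] at h1
    exact h1
  -- the same arc, the same type
  have hsame : ∀ o ∈ S, ∀ o' ∈ S, ∀ i j : ℤ, Γ.arc o' j = Γ.arc o i → Γ.Eqm i j → o' = o := by
    intro o _ o' ho' i j h hE
    obtain ⟨s, hs⟩ := hE
    rw [hs, Γ.arc_add (hS o' ho')] at h
    exact MulAction.injective (Γ.tau i)⁻¹ h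
  obtain ⟨a, ham, ha⟩ := ext_type Γ (fun i j => Γ.tau i * (Γ.tau j)⁻¹ ∈ P) htr htot (by
    intro i j s h
    show Γ.tau i * (Γ.tau (j + s * Γ.m))⁻¹ ∈ P
    rw [Γ.tau_add_mul, mul_inv_rev, ← mul_assoc]
    exact hP.right _ h _ (Subgroup.inv_mem _ (hC s)))
  obtain ⟨b, hbm, hb⟩ := ext_type Γ (fun i j => Γ.tau j * (Γ.tau i)⁻¹ ∈ P)
    (fun i j k h h' => htr k j i h' h) (fun i j h => (htot i j h).symm) (by
    intro i j s h
    show Γ.tau (j + s * Γ.m) * (Γ.tau i)⁻¹ ∈ P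
    rw [Γ.tau_add_mul, mul_assoc]
    exact hP.left _ (hC s) _ h)
  have htopa : ∀ o ∈ S, Top Γ P S o (a : ℤ) := by
    intro o ho o' ho' j h
    by_cases hE : Γ.Eqm (a : ℤ) j
    · exact Or.inl ⟨hsame o ho o' ho' _ _ h hE, hE⟩
    · exact Or.inr (ha j hE)
  have htopb : ∀ o ∈ S, ¬ Top Γ P S o (b : ℤ) := by
    intro o ho ht
    obtain ⟨o', ho', j, h, hne⟩ := h2 o ho (b : ℤ)
    have hE : ¬ Γ.Eqm (b : ℤ) j := fun hE => hne ⟨hsame o ho o' ho' _ _ h hE, hE⟩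
    have h3 := hb j hE
    rcases ht o' ho' j h with h4 | h4
    · exact hne h4
    · have h5 := hP.anti _ h3
      rw [hinv] at h5
      exact h5 h4
  have hred : ∀ o ∈ S, ∀ i : ℤ, Top Γ P S o i → ∀ s : ℤ, Top Γ P S o (i + s * Γ.m) :=
    fun o ho i h s => top_shift Γ hP S hS ho s h
  -- the change from top to not top
  have hchg : ∀ o ∈ S, ∃ i : ℕ, i < Γ.m ∧ Top Γ P S o (i : ℤ) ∧ ¬ Top Γ P S o ((i : ℤ) + 1) := by
    intro o ho
    have h1 : ∃ i : ℤ, Top Γ P S o i ∧ ¬ Top Γ P S o (i + 1) := by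
      by_contra hcon
      push Not at hcon
      have h3 : ∀ n : ℕ, Top Γ P S o ((a : ℤ) + n) := by
        intro n
        induction n with
        | zero => simpa using htopa o ho
        | succ n ih =>
          have h4 := hcon _ ih
          push_cast
          rw [← add_assoc]
          exact h4
      have h4 := h3 (b + Γ.m - a)
      have h5 : (a : ℤ) + ((b + Γ.m - a : ℕ) : ℤ) = (b : ℤ) + 1 * (Γ.m : ℤ) := by
        have : a ≤ b + Γ.m := by omega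
        push_cast [Nat.cast_sub this]
        ring
      rw [h5] at h4
      have h6 := hred o ho _ h4 (-1)
      have h7 : (b : ℤ) + 1 * (Γ.m : ℤ) + (-1) * (Γ.m : ℤ) = (b : ℤ) := by ring
      rw [h7] at h6
      exact htopb o ho h6
    obtain ⟨i, hi1, hi2⟩ := h1
    obtain ⟨i0, hi0, s, hs⟩ := exists_mod Γ i
    refine ⟨i0, hi0, ?_, fun h3 => hi2 ?_⟩
    · have h3 := hred o ho _ hi1 (-s)
      rw [hs] at h3
      have h4 : (i0 : ℤ) + s * (Γ.m : ℤ) + (-s) * (Γ.m : ℤ) = (i0 : ℤ) := by ring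
      rw [h4] at h3
      exact h3
    · have h4 := hred o ho _ h3 s
      have h5 : (i0 : ℤ) + 1 + s * (Γ.m : ℤ) = i + 1 := by rw [hs]; ring
      rw [h5] at h4
      exact h4
  -- the vertices
  have hver : ∀ v ∈ V, ∃ x : Ω × ℕ, x.1 ∈ S ∧ x.2 < Γ.m ∧ Top Γ P S x.1 (x.2 : ℤ) ∧
      Top Γ P S x.1 ((x.2 : ℤ) + 1) ∧ ∃ c : A, ι c • v = Γ.st x.1 (x.2 : ℤ) := by
    intro v hv
    have hfree := hV.1 v hv
    obtain ⟨o, ho, i, him, ⟨c, hc⟩, htop⟩ := top_pass Γ hP S hS v hfree (hV.2.1 v hv)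
    have hfree' : ∀ x : A, ι x • Γ.st o (i : ℤ) = Γ.st o (i : ℤ) → x = 1 := by
      intro x hx
      rw [← hc] at hx
      have h3 : ι (c⁻¹ * x * c) • v = v := by
        rw [map_mul, map_mul, mul_smul, mul_smul, hx, map_inv, inv_smul_smul]
      have h4 := hfree _ h3
      have h5 : x = c * (c⁻¹ * x * c) * c⁻¹ := by group
      rw [h5, h4]
      group
    exact ⟨(o, i), ho, him, fun o' ho' j h => top_arr Γ S hS o ho i hfree' htop o' ho' j h,
      fun o' ho' j h => top_dep Γ S hS o ho i hfree' htop o' ho' j h, c, hc⟩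
  choose! fS hfS using hchg
  choose! fV hfV using hver
  set T : Finset (Ω × ℕ) := (S ×ˢ Finset.range Γ.m).filter fun x => Top Γ P S x.1 (x.2 : ℤ) with hT
  have hTarc : T.card ≤ (Γ.arcs S).card := by
    refine Finset.card_le_card_of_injOn (fun x => Γ.arc x.1 (x.2 : ℤ)) ?_ ?_
    · intro x hx
      have hx' := (Finset.mem_filter.1 (Finset.mem_coe.1 hx)).1
      exact Finset.mem_coe.2 (Finset.mem_image_of_mem _ hx')
    · intro x hx x' hx' h
      have h3 := Finset.mem_filter.1 (Finset.mem_coe.1 hx)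
      have h3' := Finset.mem_filter.1 (Finset.mem_coe.1 hx')
      have h4 := Finset.mem_product.1 h3.1
      have h4' := Finset.mem_product.1 h3'.1
      have hfin : x'.1 = x.1 → Γ.Eqm (x.2 : ℤ) (x'.2 : ℤ) → x = x' := by
        intro h5 h6
        exact Prod.ext h5.symm (eqm_nat Γ (Finset.mem_range.1 h4.2) (Finset.mem_range.1 h4'.2) h6)
      rcases h3.2 x'.1 h4'.1 (x'.2 : ℤ) h.symm with h5 | h5
      · exact hfin h5.1 h5.2
      · rcases h3'.2 x.1 h4.1 (x.2 : ℤ) h with h6 | h6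
        · exact hfin h6.1.symm (eqm_symm Γ h6.2)
        · exfalso
          have h7 := hP.anti _ h5
          rw [hinv] at h7
          exact h7 h6
  set T1 : Finset (Ω × ℕ) := T.filter fun x => Top Γ P S x.1 ((x.2 : ℤ) + 1) with hT1
  set T2 : Finset (Ω × ℕ) := T.filter fun x => ¬ Top Γ P S x.1 ((x.2 : ℤ) + 1) with hT2
  have hV1 : V.card ≤ T1.card := by
    refine Finset.card_le_card_of_injOn fV ?_ ?_
    · intro v hv
      obtain ⟨h3, h4, h5, h6, _⟩ := hfV v (Finset.mem_coe.1 hv)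
      rw [hT1, hT]
      exact Finset.mem_coe.2 (Finset.mem_filter.2 ⟨Finset.mem_filter.2
        ⟨Finset.mem_product.2 ⟨h3, Finset.mem_range.2 h4⟩, h5⟩, h6⟩)
    · intro v hv v' hv' h
      obtain ⟨_, _, _, _, c, hc⟩ := hfV v (Finset.mem_coe.1 hv)
      obtain ⟨_, _, _, _, c', hc'⟩ := hfV v' (Finset.mem_coe.1 hv')
      rw [h, ← hc'] at hc
      refine hV.2.2 v (Finset.mem_coe.1 hv) v' (Finset.mem_coe.1 hv') ⟨c'⁻¹ * c, ?_⟩
      rw [map_mul, mul_smul, hc, map_inv, inv_smul_smul]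
  have hS1 : S.card ≤ T2.card := by
    refine Finset.card_le_card_of_injOn (fun o => (o, fS o)) ?_ ?_
    · intro o ho
      have ho' := Finset.mem_coe.1 ho
      obtain ⟨h3, h4, h5⟩ := hfS o ho'
      rw [hT2, hT]
      exact Finset.mem_coe.2 (Finset.mem_filter.2 ⟨Finset.mem_filter.2
        ⟨Finset.mem_product.2 ⟨ho', Finset.mem_range.2 h3⟩, h4⟩, h5⟩)
    · intro o _ o' _ h
      exact (Prod.mk.inj h).1
  have hsum : T1.card + T2.card = T.card := by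
    rw [hT1, hT2]
    exact Finset.card_filter_add_card_filter_not _
  omega

end Pool.Agent.LOTI
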