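import Pool.Agent.Lib.LOTI.Defs

/-!
# Cyclically reduced representatives (1.6)

PROOFS.
* `exists_p`: for every `s : ℤ → G` there is `p : ℤ → G` with `p 0 = 1`, `p (i+1) = p i * s (i+1)`
  (products; for `i < 0` `p i = (s (i+1) ⋯ s 0)⁻¹`).
* `exists_geo`: every element of `FF A` is `ι a * ∏_{k<n} (y^{u k} * ι (g k))` for some `n`, `u`, `g`
  (`FF_induction`, or closure under multiplication by `ι a` and `y^{±1}` on one side and
  `Subgroup.closure_induction`). Take among all conjugates of `x` and all such products one with minimal `n`.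
  `n = 0` is excluded by `hx`. Conjugating by `ι a` one may assume `a = 1` (change the last `g`). Extend
  `u`, `g` periodically: `u i = u' ((i - 1) mod n)`, `i = 1..n` (so `p n` = the product). If `g i = 1` and
  `u (i+1) ≠ u i`, then `n ≥ 2` (for `n = 1` `u (i+1) = u i`), and after a cyclic rotation (conjugation by
  `p i`) the word ends with … or contains `y^{u i} * 1 * y^{-u i} = 1`: a shorter product for a conjugate of
  `x`, contradiction to the minimality. So `red` holds and `exists_p` gives `p`; `w = p n`.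
-/

set_option autoImplicit false

open scoped Classical

namespace Pool.Agent.LOTI

variable {A : Type} [Group A]

/-- products to the right -/
private def cr_P {G : Type} [Group G] (s : ℤ → G) : ℕ → G
  | 0 => 1
  | n + 1 => cr_P s n * s (n + 1)

/-- products to the left -/
private def cr_Q {G : Type} [Group G] (s : ℤ → G) : ℕ → G
  | 0 => 1
  | n + 1 => cr_Q s n * (s (-n))⁻¹

theorem exists_p {G : Type} [Group G] (s : ℤ → G) :
    ∃ p : ℤ → G, p 0 = 1 ∧ ∀ i, p (i + 1) = p i * s (i + 1) := by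
  refine ⟨fun i => match i with
    | Int.ofNat n => cr_P s n
    | Int.negSucc n => cr_Q s (n + 1), rfl, ?_⟩
  intro i
  cases i with
  | ofNat n => rfl
  | negSucc n =>
    cases n with
    | zero =>
      have h1 : (Int.negSucc 0 + 1 : ℤ) = Int.ofNat 0 := rfl
      rw [h1]
      show cr_P s 0 = cr_Q s 1 * s (Int.ofNat 0)
      simp [cr_P, cr_Q]
    | succ k =>
      have h1 : (Int.negSucc (k + 1) + 1 : ℤ) = Int.negSucc k := by omega
      rw [h1]
      show cr_Q s (k + 1) = cr_Q s (k + 1 + 1) * s (Int.negSucc k)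
      have h2 : (Int.negSucc k : ℤ) = -((k + 1 : ℕ) : ℤ) := by omega
      rw [h2]
      conv_rhs => rw [cr_Q]
      simp

/-- the word with the letters `v 0, …, v (n-1)` -/
private def cr_V (v : ℕ → ℤˣ × A) : ℕ → FF A
  | 0 => 1
  | n + 1 => cr_V v n * (y ^ ((v n).1 : ℤ) * ι (v n).2)

private theorem cr_V_congr {v v' : ℕ → ℤˣ × A} {n : ℕ} (h : ∀ k < n, v k = v' k) :
    cr_V v n = cr_V v' n := by
  induction n with
  | zero => rfl
  | succ n ih =>
    rw [cr_V, cr_V, ih fun k hk => h k (by omega), h n (by omega)]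

private theorem cr_V_head (v : ℕ → ℤˣ × A) (n : ℕ) :
    cr_V v (n + 1) = (y ^ ((v 0).1 : ℤ) * ι (v 0).2) * cr_V (fun k => v (k + 1)) n := by
  induction n with
  | zero => simp [cr_V]
  | succ n ih =>
    rw [cr_V, ih, mul_assoc]
    rfl

private theorem cr_surj (x : FF A) : ∃ (a : A) (v : ℕ → ℤˣ × A) (n : ℕ), x = ι a * cr_V v n := by
  have hy : ∀ (u : ℤˣ) (x : FF A), (∃ (a : A) (v : ℕ → ℤˣ × A) (n : ℕ), x = ι a * cr_V v n) →
      ∃ (a : A) (v : ℕ → ℤˣ × A) (n : ℕ), y ^ (u : ℤ) * x = ι a * cr_V v n := by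
    rintro u x ⟨a, v, n, rfl⟩
    refine ⟨1, fun k => match k with
      | 0 => (u, a)
      | k + 1 => v k, n + 1, ?_⟩
    rw [cr_V_head]
    simp [mul_assoc]
  have ha : ∀ (b : A) (x : FF A), (∃ (a : A) (v : ℕ → ℤˣ × A) (n : ℕ), x = ι a * cr_V v n) →
      ∃ (a : A) (v : ℕ → ℤˣ × A) (n : ℕ), ι b * x = ι a * cr_V v n := by
    rintro b x ⟨a, v, n, rfl⟩
    exact ⟨b * a, v, n, by rw [map_mul, mul_assoc]⟩
  have key : ∀ g : FF A, (∀ x : FF A,
      (∃ (a : A) (v : ℕ → ℤˣ × A) (n : ℕ), x = ι a * cr_V v n) →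
      ∃ (a : A) (v : ℕ → ℤˣ × A) (n : ℕ), g * x = ι a * cr_V v n) ∧
      (∀ x : FF A, (∃ (a : A) (v : ℕ → ℤˣ × A) (n : ℕ), x = ι a * cr_V v n) →
      ∃ (a : A) (v : ℕ → ℤˣ × A) (n : ℕ), g⁻¹ * x = ι a * cr_V v n) := by
    intro g
    induction g using FF_induction with
    | h1 a =>
      refine ⟨ha a, fun x hx => ?_⟩
      rw [← map_inv]
      exact ha a⁻¹ x hx
    | h2 =>
      refine ⟨fun x hx => ?_, fun x hx => ?_⟩
      · have := hy 1 x hx
        simpa using this
      · have := hy (-1) x hx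
        simpa using this
    | h3 g h hg hh =>
      refine ⟨fun x hx => ?_, fun x hx => ?_⟩
      · rw [mul_assoc]
        exact hg.1 _ (hh.1 x hx)
      · rw [mul_inv_rev, mul_assoc]
        exact hh.2 _ (hg.2 x hx)
    | h4 g hg =>
      refine ⟨hg.2, fun x hx => ?_⟩
      rw [inv_inv]
      exact hg.1 x hx
  have := (key x).1 1 ⟨1, fun _ => (1, 1), 0, by simp [cr_V]⟩
  simpa using this

private theorem cr_conj (a : A) (v : ℕ → ℤˣ × A) (n : ℕ) (hn : 1 ≤ n) :
    ∃ v' : ℕ → ℤˣ × A, ι a * cr_V v n = ι a * cr_V v' n * (ι a)⁻¹ := by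
  obtain ⟨m, rfl⟩ : ∃ m, n = m + 1 := ⟨n - 1, by omega⟩
  refine ⟨Function.update v m ((v m).1, (v m).2 * a), ?_⟩
  rw [cr_V, cr_V, cr_V_congr (v := Function.update v m ((v m).1, (v m).2 * a)) (v' := v)
    (n := m) fun k hk => Function.update_of_ne (by omega) _ _]
  simp [mul_assoc]

private theorem cr_pV {u : ℤ → ℤˣ} {g : ℤ → A} {p : ℤ → FF A}
    (pS : ∀ i, p (i + 1) = p i * (y ^ (u (i + 1) : ℤ) * ι (g (i + 1)))) (j : ℤ) (n : ℕ) :
    p (j + n) = p j * cr_V (fun k => (u (j + 1 + k), g (j + 1 + k))) n := by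
  induction n with
  | zero => simp [cr_V]
  | succ n ih =>
    have h1 := pS (j + n)
    have h2 : j + ((n + 1 : ℕ) : ℤ) = j + n + 1 := by push_cast; ring
    have h3 : j + 1 + (n : ℤ) = j + n + 1 := by ring
    rw [h2, h1, ih, cr_V, mul_assoc]
    simp only [h3]

private theorem cr_p_add {u : ℤ → ℤˣ} {g : ℤ → A} {p : ℤ → FF A} {m : ℕ}
    (uper : ∀ i, u (i + m) = u i) (gper : ∀ i, g (i + m) = g i) (p0 : p 0 = 1)
    (pS : ∀ i, p (i + 1) = p i * (y ^ (u (i + 1) : ℤ) * ι (g (i + 1)))) (i : ℤ) :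
    p (i + m) = p m * p i := by
  induction i using Int.induction_on with
  | zero => simp [p0]
  | succ k ih =>
    have h1 := pS (k + m)
    have h2 : (k : ℤ) + m + 1 = (k + 1) + m := by ring
    rw [h2] at h1
    rw [h1, pS k, ih, uper, gper, mul_assoc]
  | pred k ih =>
    have h1 := pS (-k - 1 + m)
    have h2 : -(k : ℤ) - 1 + m + 1 = -k + m := by ring
    have h3 : -(k : ℤ) + m = (-k - 1 + 1) + m := by ring
    have h4 := pS (-k - 1)
    have h5 : -(k : ℤ) - 1 + 1 = -k := by ring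
    rw [h5] at h4
    rw [h2, ih, uper, gper, h4] at h1
    exact (mul_right_cancel (by rw [← h1]; simp [mul_assoc])).symm

theorem exists_geo (x : FF A) (hx : ∀ (g : FF A) (a : A), x ≠ g * ι a * g⁻¹) :
    ∃ (Γ : Geo A) (g : FF A), x = g * Γ.w * g⁻¹ := by
  have hex : ∃ n : ℕ, 1 ≤ n ∧ ∃ (g : FF A) (v : ℕ → ℤˣ × A), x = g * cr_V v n * g⁻¹ := by
    obtain ⟨a, v, n, h1⟩ := cr_surj x
    rcases Nat.eq_zero_or_pos n with hn | hn
    · subst hn
      exact absurd (by rw [h1]; simp [cr_V]) (hx 1 a)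
    · obtain ⟨v', hv'⟩ := cr_conj a v n hn
      exact ⟨n, hn, ι a, v', by rw [h1, hv']⟩
  set n := Nat.find hex with hn
  obtain ⟨hn1, g0, v, hg0⟩ := Nat.find_spec hex
  rw [← hn] at hn1 hg0
  have hmin : ∀ m, 1 ≤ m → ∀ (g : FF A) (v : ℕ → ℤˣ × A), x = g * cr_V v m * g⁻¹ → n ≤ m :=
    fun m hm g v h => Nat.find_min' hex ⟨hm, g, v, h⟩
  have hn0 : (n : ℤ) ≠ 0 := by omega
  let f : ℤ → ℤˣ × A := fun i => v ((i - 1) % n).toNat
  have fper : ∀ i, f (i + n) = f i := by
    intro i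
    show v ((i + n - 1) % n).toNat = v ((i - 1) % n).toNat
    have h1 : i + (n : ℤ) - 1 = i - 1 + n := by ring
    rw [h1, Int.add_emod_right]
  obtain ⟨p, p0, pS⟩ := exists_p fun i => (y ^ ((f i).1 : ℤ) * ι (f i).2 : FF A)
  have hpn : p n = cr_V v n := by
    have h1 := cr_pV (u := fun i => (f i).1) (g := fun i => (f i).2) pS 0 n
    rw [zero_add, p0, one_mul] at h1
    rw [h1]
    refine cr_V_congr fun k hk => ?_
    show f (0 + 1 + k) = v k
    show v ((0 + 1 + (k : ℤ) - 1) % n).toNat = v k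
    have h2 : (0 + 1 + (k : ℤ) - 1) = k := by ring
    rw [h2, Int.emod_eq_of_lt (by positivity) (by exact_mod_cast hk), Int.toNat_natCast]
  have hadd := cr_p_add (u := fun i => (f i).1) (g := fun i => (f i).2) (m := n)
    (fun i => by rw [fper]) (fun i => by rw [fper]) p0 pS
  have hred : ∀ i, (f i).2 = 1 → (f (i + 1)).1 = (f i).1 := by
    intro i hi
    by_contra hne
    have hneg : (f (i + 1)).1 = -(f i).1 := Int.units_ne_iff_eq_neg.1 hne
    have hn2 : 2 ≤ n := by
      by_contra hlt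
      have h1 : n = 1 := by omega
      have h2 := fper i
      rw [h1, Nat.cast_one] at h2
      exact hne (by rw [h2])
    obtain ⟨m, hm⟩ : ∃ m, n = m + 2 := ⟨n - 2, by omega⟩
    have h1 := cr_pV (u := fun i => (f i).1) (g := fun i => (f i).2) pS (i + 1) m
    have h2 : i + 1 + (m : ℤ) = i - 1 + n := by rw [hm]; push_cast; ring
    have h3 := pS (i - 1)
    have h4 := pS i
    have h5 : i - 1 + 1 = i := by ring
    rw [h5] at h3
    rw [h2, hadd, h4, h3, hi, hneg] at h1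
    have h6 : p n = p (i - 1) * (ι (f (i + 1)).2 *
        cr_V (fun k => ((f (i + 1 + 1 + k)).1, (f (i + 1 + 1 + k)).2)) m) * (p (i - 1))⁻¹ := by
      rw [eq_mul_inv_iff_mul_eq, h1]
      simp [mul_assoc]
    rcases Nat.eq_zero_or_pos m with hm0 | hm0
    · subst hm0
      apply hx (g0 * p (i - 1)) (f (i + 1)).2
      rw [hg0, ← hpn, h6]
      simp [cr_V, mul_assoc]
    · obtain ⟨v', hv'⟩ := cr_conj (f (i + 1)).2
        (fun k => ((f (i + 1 + 1 + k)).1, (f (i + 1 + 1 + k)).2)) m hm0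
      have h7 := hmin m hm0 (g0 * p (i - 1) * ι (f (i + 1)).2) v' (by
        rw [hg0, ← hpn, h6, hv']
        simp [mul_assoc])
      omega
  refine ⟨⟨n, by omega, fun i => (f i).1, fun i => (f i).2, fun i => by rw [fper],
    fun i => by rw [fper], hred, p, p0, pS⟩, g0, ?_⟩
  show x = g0 * p n * g0⁻¹
  rw [hpn]
  exact hg0

end Pool.Agent.LOTI
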