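import Pool.Agent.Lib.LOTI.WDefs

/-!
# The word of a closed walk and its value in `G * ⟨z⟩` (helper62)

PROOFS. Let `Coprod = Monoid.Coprod Γ.Grp (Multiplicative ℤ)`, `z = Monoid.Coprod.inr (ofAdd 1)`.
* `ess_of_word`: `J : FreeGroup Γ.Grp →* Coprod`, `[g] ↦ inl g * z * (inl g)⁻¹` is injective: let
  `D = SemidirectProduct (FreeGroup G) G θ`, `θ g [h] = [g * h]`; the homomorphism `Coprod →* D`, `inl g ↦ inr g`, `z ↦ inl [1]` maps
  `J x` to `inl x` (check on generators). For a step from `p` to `q` (edge `e`): in `G` `x (term e) * (x (lab e))⁻¹ = (x (lab e))⁻¹ * x (init e)` (`x_rel`). By `hW` the truth value of `W` is constant along the walk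
  (all its vertices, in particular all labels).
  - If `W a` is false: by induction on the list, for a walk from `a` to `b`: `val psi l = (inl (x a))⁻¹ * J (word l) * inl (x b)`.
    (A forward step with `term e ∈ W`: `psi (term) * psi (lab)⁻¹ = z * (x p)⁻¹ * x q = (x p)⁻¹ * (x p * z * (x p)⁻¹) * x q`; a backward step, `lab e = q`: the inverse of `z * (x q)⁻¹ * x p` is
    `(x p)⁻¹ * x q * z⁻¹ = (x p)⁻¹ * (x q * z⁻¹ * (x q)⁻¹) * x q`.)
  - If `W a` is true: `val psi l = z * (inl (x a))⁻¹ * J (word' l) * inl (x b) * z⁻¹`, where `word'` is the word with all letters inverted (the automorphism `[g] ↦ [g]⁻¹` of the free group applied to `word l`):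
    forward step with `term e ∉ W`: `psi (term) * psi (lab)⁻¹ = (x p)⁻¹ * x q * ... `, precisely `x (term) * (z * x (lab))⁻¹ = x (term) * (x p)⁻¹ * z⁻¹ = (x p)⁻¹ * x q * z⁻¹`… write it as `z * (z⁻¹ * (x p)⁻¹ * x q) * z⁻¹` `= z * (x p)⁻¹ * (x p * z⁻¹ * (x p)⁻¹) * x q * z⁻¹`;
    forward step with `term e ∈ W`: `z * x (term) * (x (lab))⁻¹ * z⁻¹`.
  So for a closed walk `val psi l = 1` implies `J (word l) = 1` or `J (word' l) = 1`, hence `word l = 1`.
* `word_ne_of_sum`: `FreeGroup.lift (fun _ => Multiplicative.ofAdd (1 : ℤ))` maps the word to `ofAdd` of the sum.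
-/

set_option autoImplicit false

open scoped Classical

namespace Pool.Agent.LOTI

variable {V E : Type} [Fintype V] [Fintype E]

section aux

variable {G : Type} [Group G]

private def th (G : Type) [Group G] : G →* MulAut (FreeGroup G) where
  toFun g := FreeGroup.freeGroupCongr (Equiv.mulLeft g)
  map_one' := by
    apply MulEquiv.toMonoidHom_injective
    apply FreeGroup.ext_hom
    intro a
    simp
  map_mul' g h := by
    apply MulEquiv.toMonoidHom_injective
    apply FreeGroup.ext_hom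
    intro a
    simp [mul_assoc]

private noncomputable def J (ε : ℤ) : FreeGroup G →* Monoid.Coprod G (Multiplicative ℤ) :=
  FreeGroup.lift fun g => Monoid.Coprod.inl g * Monoid.Coprod.inr (Multiplicative.ofAdd ε) *
    (Monoid.Coprod.inl g)⁻¹

private theorem J_of (ε : ℤ) (g : G) : J ε (FreeGroup.of g) =
    Monoid.Coprod.inl g * Monoid.Coprod.inr (Multiplicative.ofAdd ε) *
    (Monoid.Coprod.inl g)⁻¹ := by
  simp [J]

private theorem J_inj (ε : ℤ) (hε : ε * ε = 1) (x : FreeGroup G) (h : J ε x = 1) : x = 1 := by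
  let d : SemidirectProduct (FreeGroup G) G (th G) := SemidirectProduct.inl (FreeGroup.of 1)
  let K : Monoid.Coprod G (Multiplicative ℤ) →* SemidirectProduct (FreeGroup G) G (th G) :=
    Monoid.Coprod.lift SemidirectProduct.inr (zpowersHom _ (d ^ ε))
  have key : K.comp (J ε) = SemidirectProduct.inl := by
    apply FreeGroup.ext_hom
    intro g
    have h1 : K (Monoid.Coprod.inl g) = SemidirectProduct.inr g :=
      Monoid.Coprod.lift_apply_inl _ _ _
    have h2 : K (Monoid.Coprod.inr (Multiplicative.ofAdd ε)) = d := by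
      have h3 : K (Monoid.Coprod.inr (Multiplicative.ofAdd ε)) =
          (zpowersHom _ (d ^ ε)) (Multiplicative.ofAdd ε) := Monoid.Coprod.lift_apply_inr _ _ _
      rw [h3, zpowersHom_apply, toAdd_ofAdd, ← zpow_mul, hε, zpow_one]
    rw [MonoidHom.comp_apply, J_of, map_mul, map_mul, map_inv, h1, h2]
    have h4 := SemidirectProduct.inl_aut (φ := th G) g (FreeGroup.of 1)
    rw [map_inv] at h4
    rw [← h4]
    simp [th]
  have h5 : (SemidirectProduct.inl x : SemidirectProduct (FreeGroup G) G (th G)) = 1 := by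
    rw [← key, MonoidHom.comp_apply, h, map_one]
  exact SemidirectProduct.inl_injective (h5.trans (map_one _).symm)

end aux

namespace LOT

private theorem word_cons (Γ : LOT V E) (W : V → Prop) (s : E × Bool) (l : List (E × Bool)) :
    Γ.word W (s :: l) = (if (W (Γ.lab s.1) ↔ W (Γ.term s.1)) then 1
    else if s.2 then FreeGroup.of (Γ.x (Γ.lab s.1))
    else (FreeGroup.of (Γ.x (Γ.lab s.1)))⁻¹) * Γ.word W l := by
  simp [word]

private theorem val_cons {X : Type} [Group X] (Γ : LOT V E) (f : V → X) (s : E × Bool)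
    (l : List (E × Bool)) :
    Γ.val f (s :: l) = (if s.2 then f (Γ.term s.1) * (f (Γ.lab s.1))⁻¹
      else (f (Γ.term s.1) * (f (Γ.lab s.1))⁻¹)⁻¹) * Γ.val f l := by
  unfold val
  rw [wp_cons]

private theorem x_rel' (Γ : LOT V E) (e : E) :
    Γ.x (Γ.term e) * (Γ.x (Γ.lab e))⁻¹ = (Γ.x (Γ.lab e))⁻¹ * Γ.x (Γ.init e) := by
  rw [mul_inv_eq_iff_eq_mul, mul_assoc, x_rel, inv_mul_cancel_left]

private theorem inl_rel (Γ : LOT V E) (e : E) :
    (Monoid.Coprod.inl (Γ.x (Γ.term e)) : Monoid.Coprod Γ.Grp (Multiplicative ℤ)) *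
      (Monoid.Coprod.inl (Γ.x (Γ.lab e)))⁻¹ =
    (Monoid.Coprod.inl (Γ.x (Γ.lab e)))⁻¹ * Monoid.Coprod.inl (Γ.x (Γ.init e)) := by
  rw [← map_inv, ← map_mul, ← map_mul, x_rel']

private theorem case_false (Γ : LOT V E) (W : V → Prop)
    (hW : ∀ e, W (Γ.lab e) ↔ W (Γ.init e)) (b : V) (l : List (E × Bool)) (a : V)
    (hl : Γ.IWalk a l b) (ha : ¬ W a) :
    Γ.val (Γ.psi W) l = (Monoid.Coprod.inl (Γ.x a))⁻¹ * J 1 (Γ.word W l) *
      Monoid.Coprod.inl (Γ.x b) := by
  induction l generalizing a with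
  | nil =>
    have h : a = b := hl
    subst h
    simp [val, wp_nil, word]
  | cons s l ih =>
    obtain ⟨h1, h2⟩ := hl
    have hlab : ¬ W (Γ.lab s.1) := by
      by_cases hs : s.2 = true
      · rw [if_pos hs] at h1
        rw [← h1]; exact ha
      · rw [if_neg hs] at h1
        rw [hW, ← h1]; exact ha
    have hinit : ¬ W (Γ.init s.1) := fun h => hlab ((hW _).2 h)
    have ha' : ¬ W (if s.2 = true then Γ.init s.1 else Γ.lab s.1) := by
      split_ifs
      · exact hinit
      · exact hlab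
    rw [val_cons, word_cons, map_mul, ih _ h2 ha']
    have hr := Γ.inl_rel s.1
    have hp : Γ.psi W (Γ.lab s.1) = Monoid.Coprod.inl (Γ.x (Γ.lab s.1)) := by
      unfold psi
      rw [if_neg hlab]
    by_cases ht : W (Γ.term s.1)
    · have hq : Γ.psi W (Γ.term s.1) = Monoid.Coprod.inr (Multiplicative.ofAdd 1) *
          Monoid.Coprod.inl (Γ.x (Γ.term s.1)) := by
        unfold psi
        rw [if_pos ht]
      have hiff : ¬ (W (Γ.lab s.1) ↔ W (Γ.term s.1)) := fun h => hlab (h.2 ht)
      rw [hp, hq, if_neg hiff, mul_assoc _ (Monoid.Coprod.inl (Γ.x (Γ.term s.1))), hr]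
      by_cases hs : s.2 = true
      · rw [if_pos hs] at h1
        simp only [if_pos hs]
        rw [J_of, h1]
        group
      · rw [if_neg hs] at h1
        simp only [if_neg hs]
        rw [map_inv, J_of, h1]
        group
    · have hq : Γ.psi W (Γ.term s.1) = Monoid.Coprod.inl (Γ.x (Γ.term s.1)) := by
        unfold psi
        rw [if_neg ht]
      have hiff : (W (Γ.lab s.1) ↔ W (Γ.term s.1)) := iff_of_false hlab ht
      rw [hp, hq, if_pos hiff, map_one, hr]
      by_cases hs : s.2 = true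
      · rw [if_pos hs] at h1
        simp only [if_pos hs]
        rw [h1]
        group
      · rw [if_neg hs] at h1
        simp only [if_neg hs]
        rw [h1]
        group

private theorem case_true (Γ : LOT V E) (W : V → Prop)
    (hW : ∀ e, W (Γ.lab e) ↔ W (Γ.init e)) (b : V) (l : List (E × Bool)) (a : V)
    (hl : Γ.IWalk a l b) (ha : W a) :
    Γ.val (Γ.psi W) l = Monoid.Coprod.inr (Multiplicative.ofAdd 1) *
      ((Monoid.Coprod.inl (Γ.x a))⁻¹ * J (-1) (Γ.word W l) *
      Monoid.Coprod.inl (Γ.x b)) * (Monoid.Coprod.inr (Multiplicative.ofAdd 1))⁻¹ := by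
  induction l generalizing a with
  | nil =>
    have h : a = b := hl
    subst h
    simp [val, wp_nil, word]
  | cons s l ih =>
    obtain ⟨h1, h2⟩ := hl
    have hlab : W (Γ.lab s.1) := by
      by_cases hs : s.2 = true
      · rw [if_pos hs] at h1
        rw [← h1]; exact ha
      · rw [if_neg hs] at h1
        rw [hW, ← h1]; exact ha
    have hinit : W (Γ.init s.1) := (hW _).1 hlab
    have ha' : W (if s.2 = true then Γ.init s.1 else Γ.lab s.1) := by
      split_ifs
      · exact hinit
      · exact hlab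
    rw [val_cons, word_cons, map_mul, ih _ h2 ha']
    have hr := Γ.inl_rel s.1
    have hz : (Monoid.Coprod.inr (Multiplicative.ofAdd (-1 : ℤ)) :
        Monoid.Coprod Γ.Grp (Multiplicative ℤ)) =
        (Monoid.Coprod.inr (Multiplicative.ofAdd 1))⁻¹ := by
      rw [← map_inv, ← ofAdd_neg]
    have hp : Γ.psi W (Γ.lab s.1) = Monoid.Coprod.inr (Multiplicative.ofAdd 1) *
        Monoid.Coprod.inl (Γ.x (Γ.lab s.1)) := by
      unfold psi
      rw [if_pos hlab]
    by_cases ht : W (Γ.term s.1)
    · have hq : Γ.psi W (Γ.term s.1) = Monoid.Coprod.inr (Multiplicative.ofAdd 1) *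
          Monoid.Coprod.inl (Γ.x (Γ.term s.1)) := by
        unfold psi
        rw [if_pos ht]
      have hiff : (W (Γ.lab s.1) ↔ W (Γ.term s.1)) := iff_of_true hlab ht
      have hu : Γ.psi W (Γ.term s.1) * (Γ.psi W (Γ.lab s.1))⁻¹ =
          Monoid.Coprod.inr (Multiplicative.ofAdd 1) *
          ((Monoid.Coprod.inl (Γ.x (Γ.lab s.1)))⁻¹ * Monoid.Coprod.inl (Γ.x (Γ.init s.1))) *
          (Monoid.Coprod.inr (Multiplicative.ofAdd 1))⁻¹ := by
        rw [← hr, hp, hq]
        group
      have hJ1 : J (-1) (1 : FreeGroup Γ.Grp) = 1 := map_one _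
      rw [hu, if_pos hiff, hJ1]
      by_cases hs : s.2 = true
      · rw [if_pos hs] at h1
        simp only [if_pos hs]
        rw [h1]
        group
      · rw [if_neg hs] at h1
        simp only [if_neg hs]
        rw [h1]
        group
    · have hq : Γ.psi W (Γ.term s.1) = Monoid.Coprod.inl (Γ.x (Γ.term s.1)) := by
        unfold psi
        rw [if_neg ht]
      have hiff : ¬ (W (Γ.lab s.1) ↔ W (Γ.term s.1)) := fun h => ht (h.1 hlab)
      have hu : Γ.psi W (Γ.term s.1) * (Γ.psi W (Γ.lab s.1))⁻¹ =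
          ((Monoid.Coprod.inl (Γ.x (Γ.lab s.1)))⁻¹ * Monoid.Coprod.inl (Γ.x (Γ.init s.1))) *
          (Monoid.Coprod.inr (Multiplicative.ofAdd 1))⁻¹ := by
        rw [← hr, hp, hq]
        group
      rw [hu, if_neg hiff]
      by_cases hs : s.2 = true
      · rw [if_pos hs] at h1
        simp only [if_pos hs]
        rw [J_of, h1, hz]
        group
      · rw [if_neg hs] at h1
        simp only [if_neg hs]
        rw [map_inv, J_of, h1, hz]
        group

end LOT

theorem LOT.ess_of_word (Γ : LOT V E) (W : V → Prop) (hW : ∀ e, W (Γ.lab e) ↔ W (Γ.init e)) (a : V)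
    (l : List (E × Bool)) (hl : Γ.IWalk a l a) (h : Γ.word W l ≠ 1) :
    Γ.val (Γ.psi W) l ≠ 1 := by
  intro hv
  apply h
  by_cases ha : W a
  · rw [LOT.case_true Γ W hW a l a hl ha] at hv
    apply J_inj (-1) (by norm_num)
    rw [mul_inv_eq_one] at hv
    have h1 := mul_eq_left.1 hv
    rw [mul_assoc, inv_mul_eq_one] at h1
    exact (mul_eq_right.1 h1.symm)
  · rw [LOT.case_false Γ W hW a l a hl ha] at hv
    apply J_inj 1 (by norm_num)
    rw [mul_assoc, inv_mul_eq_one] at hv
    exact (mul_eq_right.1 hv.symm)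

theorem LOT.word_ne_of_sum (Γ : LOT V E) (W : V → Prop) (l : List (E × Bool))
    (h : (l.map fun s => if (W (Γ.lab s.1) ↔ W (Γ.term s.1)) then (0 : ℤ)
      else if s.2 then 1 else -1).sum ≠ 0) : Γ.word W l ≠ 1 := by
  have key : FreeGroup.lift (fun _ : Γ.Grp => Multiplicative.ofAdd (1 : ℤ)) (Γ.word W l) =
      Multiplicative.ofAdd (l.map fun s => if (W (Γ.lab s.1) ↔ W (Γ.term s.1)) then (0 : ℤ)
      else if s.2 then 1 else -1).sum := by
    clear h
    induction l with
    | nil => simp [LOT.word]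
    | cons s l ih =>
      rw [LOT.word_cons, map_mul, ih, List.map_cons, List.sum_cons, ofAdd_add]
      congr 1
      split_ifs
      · simp
      · simp
      · rw [map_inv, FreeGroup.lift_apply_of, ← ofAdd_neg]
  intro hw
  rw [hw, map_one] at key
  apply h
  exact Multiplicative.ofAdd.injective (key.symm : Multiplicative.ofAdd _ = Multiplicative.ofAdd (0 : ℤ))

end Pool.Agent.LOTI
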