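import Pool.Agent.Lib.LOTI.LDefs
import Pool.Agent.Lib.LOTI.LIBas

/-!
# From the group `Hat` to the LOT group; reversing the edges

PROOFS.
* `LI_of_hat`: the shift `σ : Γ.Hat ≃* Γ.Hat`, `σ (of (v, s)) = of (v, s + 1)` (`PresentedGroup.toGroup`, the inverse is the shift by `-1`; relators go to relators: `hat_rel`), `θ : Multiplicative ℤ →* MulAut Γ.Hat`,
  `θ k = σ^k` (`zpowersHom`), `θ k (of (v, s)) = of (v, s + k)`. `D = SemidirectProduct Γ.Hat (Multiplicative ℤ) θ`. `Ψ : Γ.Grp →* D`, `Ψ (x v) = inl (of (v, 0)) * inr (ofAdd 1)`: the relation holds because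
  `inl (of (i, 0)) * inr t * inl (of (k, 0)) * inr t = inl (of (i, 0) * of (k, 1)) * inr t ^ 2` and `hat_rel e 0`. `Ψ` is injective: `SemidirectProduct.lift` of `Γ.Hat →* Γ.Grp`, `of (v, s) ↦ x v` (`x_rel`) and the trivial
  homomorphism `Multiplicative ℤ →* Γ.Grp` is `D →* Γ.Grp` (the condition: `of (v, s + k)` and `of (v, s)` have the same image) and a left inverse of `Ψ` (check on the generators). `LI D`: `LI.ext` with
  `SemidirectProduct.rightHom`, `LI_int`, the kernel is `Γ.Hat`: `(x : ker) ↦ x.1.left` is an injective homomorphism `ker →* Γ.Hat` (`right = 1`). Then `LI.of_injective`.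
* `LI_of_rev`: `Γ.Grp →* Γ.rev.Grp`, `x v ↦ (x v)⁻¹`: `x_i x_k = x_k x_j` for `Γ` follows from `x_j x_k = x_k x_i` in `Γ.rev.Grp` for the inverses: `x_i⁻¹ x_k⁻¹ = (x_k x_i)⁻¹ = (x_j x_k)⁻¹ = x_k⁻¹ x_j⁻¹`. In the same way
  `Γ.rev.Grp →* Γ.Grp`; the composition is the identity on generators, so the first map is injective.
-/

set_option autoImplicit false

open scoped Classical

namespace Pool.Agent.LOTI

variable {V E : Type} [Fintype V] [Fintype E]

private theorem emb_shift_rel (Γ : LOT V E) (k : ℤ) : ∀ r ∈ Γ.hrels,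
    FreeGroup.lift (fun p : V × ℤ => (PresentedGroup.of (p.1, p.2 + k) : Γ.Hat)) r = 1 := by
  rintro r ⟨e, s, rfl⟩
  rw [map_mul, map_inv, mul_inv_eq_one, map_mul, map_mul]
  simp only [FreeGroup.lift_apply_of]
  have h := Γ.hat_rel e (s + k)
  have h1 : s + k + 1 = s + 1 + k := by ring
  rw [h1] at h
  exact h

/-- the shift -/
private def embShift (Γ : LOT V E) (k : ℤ) : Γ.Hat →* Γ.Hat :=
  PresentedGroup.toGroup (emb_shift_rel Γ k)

private theorem embShift_of (Γ : LOT V E) (k : ℤ) (v : V) (s : ℤ) :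
    embShift Γ k (PresentedGroup.of (v, s)) = PresentedGroup.of (v, s + k) :=
  PresentedGroup.toGroup.of (emb_shift_rel Γ k)

private theorem embShift_add (Γ : LOT V E) (a b : ℤ) :
    (embShift Γ a).comp (embShift Γ b) = embShift Γ (a + b) := by
  apply PresentedGroup.ext
  rintro ⟨v, s⟩
  rw [MonoidHom.comp_apply, embShift_of, embShift_of, embShift_of]
  have h : s + b + a = s + (a + b) := by ring
  rw [h]

private theorem embShift_zero (Γ : LOT V E) : embShift Γ 0 = MonoidHom.id _ := by
  apply PresentedGroup.ext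
  rintro ⟨v, s⟩
  rw [embShift_of, add_zero]
  rfl

/-- the action of `ℤ` by shifts -/
private def embTheta (Γ : LOT V E) : Multiplicative ℤ →* MulAut Γ.Hat where
  toFun k := (embShift Γ k.toAdd).toMulEquiv (embShift Γ (-k.toAdd))
    (by rw [embShift_add, neg_add_cancel, embShift_zero])
    (by rw [embShift_add, add_neg_cancel, embShift_zero])
  map_one' := by
    apply MulEquiv.ext
    intro g
    exact DFunLike.congr_fun (embShift_zero Γ) g
  map_mul' a b := by
    apply MulEquiv.ext
    intro g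
    exact (DFunLike.congr_fun (embShift_add Γ a.toAdd b.toAdd) g).symm

private theorem embTheta_apply (Γ : LOT V E) (k : Multiplicative ℤ) (g : Γ.Hat) :
    embTheta Γ k g = embShift Γ k.toAdd g := rfl

private theorem emb_psi_rel (Γ : LOT V E) : ∀ r ∈ Γ.rels,
    FreeGroup.lift (fun v : V =>
      ((SemidirectProduct.inl (PresentedGroup.of (v, 0)) *
        SemidirectProduct.inr (Multiplicative.ofAdd 1) :
          SemidirectProduct Γ.Hat (Multiplicative ℤ) (embTheta Γ)))) r = 1 := by
  rintro r ⟨e, rfl⟩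
  rw [map_mul, map_inv, mul_inv_eq_one, map_mul, map_mul]
  simp only [FreeGroup.lift_apply_of]
  have h := Γ.hat_rel e 0
  rw [zero_add] at h
  have key : ∀ a b : V, ((SemidirectProduct.inl (PresentedGroup.of (a, 0)) *
        SemidirectProduct.inr (Multiplicative.ofAdd 1) :
          SemidirectProduct Γ.Hat (Multiplicative ℤ) (embTheta Γ))) *
      (SemidirectProduct.inl (PresentedGroup.of (b, 0)) *
        SemidirectProduct.inr (Multiplicative.ofAdd 1)) =
      SemidirectProduct.inl (PresentedGroup.of (a, 0) * PresentedGroup.of (b, 1)) *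
        SemidirectProduct.inr (Multiplicative.ofAdd 2) := by
    intro a b
    apply SemidirectProduct.ext
    · simp only [SemidirectProduct.mul_left, SemidirectProduct.mul_right,
        SemidirectProduct.left_inl, SemidirectProduct.right_inl, SemidirectProduct.left_inr,
        SemidirectProduct.right_inr, map_one, mul_one, one_mul, embTheta_apply, toAdd_ofAdd,
        embShift_of, zero_add, map_mul, MulAut.one_apply]
    · simp only [SemidirectProduct.mul_right, SemidirectProduct.right_inl,
        SemidirectProduct.right_inr, one_mul]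
      rfl
  rw [key, key, h]

theorem LOT.LI_of_hat (Γ : LOT V E) (h : LI Γ.Hat) : LI Γ.Grp := by
  let D := SemidirectProduct Γ.Hat (Multiplicative ℤ) (embTheta Γ)
  let Ψ : Γ.Grp →* D := PresentedGroup.toGroup (emb_psi_rel Γ)
  have hπ : ∀ r ∈ Γ.hrels, FreeGroup.lift (fun p : V × ℤ => Γ.x p.1) r = 1 := by
    rintro r ⟨e, s, rfl⟩
    rw [map_mul, map_inv, mul_inv_eq_one, map_mul, map_mul]
    simp only [FreeGroup.lift_apply_of]
    exact Γ.x_rel e
  let π : Γ.Hat →* Γ.Grp := PresentedGroup.toGroup hπ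
  have hπof : ∀ v s, π (PresentedGroup.of (v, s)) = Γ.x v := fun v s =>
    PresentedGroup.toGroup.of hπ
  have hπs : ∀ k, π.comp (embShift Γ k) = π := by
    intro k
    apply PresentedGroup.ext
    rintro ⟨v, s⟩
    rw [MonoidHom.comp_apply, embShift_of, hπof, hπof]
  let R : D →* Γ.Grp := SemidirectProduct.lift π 1 (by
    intro k
    apply MonoidHom.ext
    intro g
    have h1 := DFunLike.congr_fun (hπs k.toAdd) g
    simpa [embTheta_apply] using h1)
  have hR : R.comp Ψ = MonoidHom.id _ := by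
    apply PresentedGroup.ext
    intro v
    have h1 : Ψ (PresentedGroup.of v) = SemidirectProduct.inl (PresentedGroup.of (v, 0)) *
        SemidirectProduct.inr (Multiplicative.ofAdd 1) := PresentedGroup.toGroup.of (emb_psi_rel Γ)
    rw [MonoidHom.comp_apply, h1, map_mul, SemidirectProduct.lift_inl, SemidirectProduct.lift_inr,
      hπof]
    simp [LOT.x]
  have hinj : Function.Injective Ψ := by
    intro a b hab
    have h1 := congrArg R hab
    have h2 : ∀ g, R (Ψ g) = g := fun g => DFunLike.congr_fun hR g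
    rwa [h2, h2] at h1
  refine LI.of_injective Ψ hinj ?_
  refine LI.ext (SemidirectProduct.rightHom : D →* Multiplicative ℤ) LI_int ?_
  let F : (SemidirectProduct.rightHom : D →* Multiplicative ℤ).ker →* Γ.Hat :=
    { toFun := fun x => x.1.left
      map_one' := rfl
      map_mul' := by
        rintro ⟨a, ha⟩ ⟨b, hb⟩
        have ha' : a.right = 1 := ha
        show (a * b).left = a.left * b.left
        rw [SemidirectProduct.mul_left, ha', map_one]
        rfl }
  refine LI.of_injective F ?_ h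
  rintro ⟨a, ha⟩ ⟨b, hb⟩ hab
  have ha' : a.right = 1 := ha
  have hb' : b.right = 1 := hb
  have hab' : a.left = b.left := hab
  exact Subtype.ext (SemidirectProduct.ext hab' (ha'.trans hb'.symm))

private theorem emb_rev_rel (Γ : LOT V E) : ∀ r ∈ Γ.rels,
    FreeGroup.lift (fun v : V => (Γ.rev.x v)⁻¹) r = 1 := by
  rintro r ⟨e, rfl⟩
  rw [map_mul, map_inv, mul_inv_eq_one, map_mul, map_mul]
  simp only [FreeGroup.lift_apply_of]
  have h : Γ.rev.x (Γ.term e) * Γ.rev.x (Γ.lab e) = Γ.rev.x (Γ.lab e) * Γ.rev.x (Γ.init e) :=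
    Γ.rev.x_rel e
  rw [← mul_inv_rev, ← mul_inv_rev, h]

theorem LOT.LI_of_rev (Γ : LOT V E) (h : LI Γ.rev.Grp) : LI Γ.Grp := by
  let A : Γ.Grp →* Γ.rev.Grp := PresentedGroup.toGroup (emb_rev_rel Γ)
  have hB : ∀ r ∈ Γ.rev.rels, FreeGroup.lift (fun v : V => (Γ.x v)⁻¹) r = 1 :=
    emb_rev_rel Γ.rev
  let B : Γ.rev.Grp →* Γ.Grp := PresentedGroup.toGroup hB
  have hA1 : ∀ v, A (PresentedGroup.of v) = (Γ.rev.x v)⁻¹ := fun v =>
    PresentedGroup.toGroup.of (emb_rev_rel Γ)
  have hB1 : ∀ v, B (Γ.rev.x v) = (Γ.x v)⁻¹ := fun v => PresentedGroup.toGroup.of hB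
  have hBA : B.comp A = MonoidHom.id _ := by
    apply PresentedGroup.ext
    intro v
    rw [MonoidHom.comp_apply, hA1, map_inv, hB1, inv_inv]
    rfl
  refine LI.of_injective A ?_ h
  intro a b hab
  have h1 := congrArg B hab
  have h2 : ∀ g, B (A g) = g := fun g => DFunLike.congr_fun hBA g
  rwa [h2, h2] at h1

end Pool.Agent.LOTI
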