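import Pool.Agent.Lib.LOTI.LIBas

/-!
# Direct limits

PROOF. Let `k : F →* F ⧸ R`, `H ≤ F ⧸ R` finitely generated such that every homomorphism `H →* Multiplicative ℚ` is trivial; let `S : Finset F` be a set of lifts of generators, `Ĥ = closure S`, `Ĥ.map k = H`. By
`exists_pow_mem_commutator` for every `s ∈ S` there is `n_s ≥ 1` with `(k s)^(n_s) ∈ ⁅H, H⁆ = ⁅Ĥ, Ĥ⁆.map k` (`Subgroup.map_commutator`; `commutator H` as a subgroup of `H` versus `⁅H, H⁆`:
`Subgroup.map_subtype_commutator`), so `s^(n_s) = c_s * t_s` with `c_s ∈ ⁅Ĥ, Ĥ⁆`, `t_s ∈ R`. Let `T = {t_s | s ∈ S}` and `Φ : F →* L` as in `h`. The subgroup `M = Ĥ.map Φ = closure (Φ '' S)` of `L` is finitely generated, and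
every `φ : M →* Multiplicative ℚ` is trivial: `φ` kills `Φ c_s ∈ ⁅M, M⁆` and `Φ t_s = 1`, so `φ (Φ s)^(n_s) = 1`, `φ (Φ s) = 1` (`ℚ` is torsion free), and these elements generate `M`. So `M = ⊥` by `LI L`, `Φ s = 1`, `s ∈ R`
for all `s ∈ S`, so `H = ⊥`.
-/

set_option autoImplicit false

open scoped Classical

namespace Pool.Agent.LOTI

theorem LI_lim {F : Type} [Group F] (R : Subgroup F) [R.Normal]
    (h : ∀ S T : Finset F, (∀ x ∈ T, x ∈ R) → ∃ (L : Type) (_ : Group L) (Φ : F →* L), LI L ∧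
      (∀ x ∈ T, Φ x = 1) ∧ ∀ x ∈ S, Φ x = 1 → x ∈ R) : LI (F ⧸ R) := by
  intro H hH hφ
  obtain ⟨S0, hS0⟩ := hH
  have hfg : Group.FG H := by
    rw [Group.fg_iff_subgroup_fg]
    exact ⟨S0, hS0⟩
  have hk : ∀ q : F ⧸ R, QuotientGroup.mk' R (Quotient.out q) = q := fun q =>
    QuotientGroup.out_eq' q
  set S : Finset F := S0.image Quotient.out with hS
  set K : Subgroup F := Subgroup.closure (S : Set F) with hK
  have hKmap : K.map (QuotientGroup.mk' R) = H := by
    rw [hK, MonoidHom.map_closure, ← hS0]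
    congr 1
    ext q
    simp only [hS, Finset.coe_image, Set.mem_image, Finset.mem_coe, exists_exists_and_eq_and]
    constructor
    · rintro ⟨a, ha, rfl⟩
      rw [hk]; exact ha
    · intro hq
      exact ⟨q, hq, hk q⟩
  have hex : ∀ s : F, s ∈ S → ∃ (n : ℕ) (c : F), 0 < n ∧ c ∈ ⁅K, K⁆ ∧ c⁻¹ * s ^ n ∈ R := by
    intro s hs
    have hsH : QuotientGroup.mk' R s ∈ H := by
      rw [← hKmap]
      exact Subgroup.mem_map_of_mem _ (Subgroup.subset_closure hs)
    obtain ⟨n, hn, hx⟩ := exists_pow_mem_commutator hfg hφ ⟨QuotientGroup.mk' R s, hsH⟩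
    have h1 : (QuotientGroup.mk' R s) ^ n ∈ ⁅H, H⁆ := by
      have := Subgroup.mem_map_of_mem H.subtype hx
      rw [Subgroup.map_subtype_commutator] at this
      exact this
    rw [← hKmap, ← Subgroup.map_commutator] at h1
    obtain ⟨c, hc, hcs⟩ := h1
    refine ⟨n, c, hn, hc, ?_⟩
    rw [← map_pow] at hcs
    exact QuotientGroup.eq.1 hcs
  choose! n c hn hc ht using hex
  set T : Finset F := S.image fun s => (c s)⁻¹ * s ^ n s with hT
  obtain ⟨L, hL, Φ, hLI, hΦT, hΦS⟩ := h S T (by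
    intro x hx
    obtain ⟨s, hs, rfl⟩ := Finset.mem_image.1 hx
    exact ht s hs)
  have hM : K.map Φ = ⊥ := by
    refine hLI _ ⟨S.image Φ, by rw [hK, MonoidHom.map_closure, Finset.coe_image]⟩ fun φ => ?_
    have hψ : ∀ y (hy : y ∈ K), (φ.comp (Φ.subgroupMap K)) ⟨y, hy⟩ = 1 := by
      intro y hy
      induction hy using Subgroup.closure_induction with
      | mem s hs =>
        have hsS : s ∈ S := hs
        have h1 : (c s) ∈ (commutator K).map K.subtype := by
          rw [Subgroup.map_subtype_commutator]; exact hc s hsS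
        obtain ⟨c', hc', hcc⟩ := h1
        have h2 : (φ.comp (Φ.subgroupMap K)) c' = 1 :=
          Abelianization.commutator_subset_ker _ hc'
        have h3 : Φ ((c s)⁻¹ * s ^ n s) = 1 := hΦT _ (Finset.mem_image_of_mem _ hsS)
        have h4 : Φ.subgroupMap K (⟨s, Subgroup.subset_closure hs⟩ ^ n s) =
            Φ.subgroupMap K c' := by
          apply Subtype.ext
          rw [map_mul, map_inv, inv_mul_eq_one] at h3
          have h5 : ((Φ.subgroupMap K c' : K.map Φ) : L) = Φ (c s) := by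
            rw [← hcc]; rfl
          rw [h5, h3]
          rfl
        have h5 : ((φ.comp (Φ.subgroupMap K)) ⟨s, Subgroup.subset_closure hs⟩) ^ n s = 1 := by
          rw [← map_pow, MonoidHom.comp_apply, h4]
          exact h2
        have h6 : Multiplicative.toAdd (((φ.comp (Φ.subgroupMap K))
            ⟨s, Subgroup.subset_closure hs⟩) ^ n s) = 0 := by rw [h5]; rfl
        rw [toAdd_pow, nsmul_eq_mul, mul_eq_zero] at h6
        rcases h6 with h6 | h6
        · exact absurd h6 (Nat.cast_ne_zero.2 (hn s hsS).ne')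
        · exact h6
      | one => exact map_one (φ.comp (Φ.subgroupMap K))
      | mul x y hx hy ihx ihy =>
        have := map_mul (φ.comp (Φ.subgroupMap K)) ⟨x, hx⟩ ⟨y, hy⟩
        rw [ihx, ihy, one_mul] at this
        exact this
      | inv x hx ih =>
        have := map_inv (φ.comp (Φ.subgroupMap K)) ⟨x, hx⟩
        rw [ih, inv_one] at this
        exact this
    ext ⟨z, hz⟩
    obtain ⟨y, hy, rfl⟩ := hz
    exact hψ y hy
  rw [← hS0, Subgroup.closure_eq_bot_iff]
  intro q hq
  have hs : Quotient.out q ∈ S := Finset.mem_image_of_mem _ hq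
  have h1 : Φ (Quotient.out q) ∈ K.map Φ := Subgroup.mem_map_of_mem _ (Subgroup.subset_closure hs)
  rw [hM, Subgroup.mem_bot] at h1
  have h2 := hΦS _ hs h1
  rw [Set.mem_singleton_iff, ← hk q]
  exact (QuotientGroup.eq_one_iff _).2 h2

end Pool.Agent.LOTI
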