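import Pool.Agent.Lib.LOTI.LIBas

/-!
# `A * ⟨y⟩` is locally indicable (1.4)

PROOFS.
* `LI_free`: a subgroup `H` of a free group is free (Nielsen-Schreier, `subgroupIsFreeOfIsFree`); if it is
  not trivial it has a free generator `s`, and there is the homomorphism `H → ℤ → ℚ` which is `1` on `s`
  and `0` on the other generators (`IsFreeGroup.lift`).
* `LI_FF`: `f = lft id 1 : FF A →* A`. By `LI.ext` it is enough that `f.ker` is locally indicable. Let
  `θ : A →* MulAut (FreeGroup A)` be the action on the basis `A` by left multiplication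
  (`FreeGroup.freeGroupCongr (Equiv.mulLeft a)`), `S = FreeGroup A ⋊[θ] A`. `Φ = lft inr (inl (of 1)) :
  FF A →* S`. It is injective: the inverse is `S →* FF A`, `inl x ↦ FreeGroup.lift (fun a => ι a * y * (ι a)⁻¹) x`,
  `inr a ↦ ι a` (`SemidirectProduct.lift`); check on generators that the composition `FF A → S → FF A` is the identity
  (`FF_hom_ext`). `rightHom ∘ Φ = f`. So `Φ` maps `f.ker` injectively into the range of `inl`, which is
  isomorphic to `FreeGroup A`; use `LI.of_injective` with `f.ker → FreeGroup A`, `x ↦ (Φ x).left`.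
-/

set_option autoImplicit false

open scoped Classical

namespace Pool.Agent.LOTI

theorem LI_free (α : Type) : LI (FreeGroup α) := by
  intro H _ h
  by_cases hne : Nonempty (IsFreeGroup.Generators H)
  · exfalso
    obtain ⟨s⟩ := hne
    have h1 := h (IsFreeGroup.lift (fun _ => Multiplicative.ofAdd (1 : ℚ)))
    have h2 : IsFreeGroup.lift (fun _ => Multiplicative.ofAdd (1 : ℚ)) (IsFreeGroup.of s) =
        Multiplicative.ofAdd (1 : ℚ) := IsFreeGroup.lift_of _ _
    rw [h1] at h2
    have h3 : (0 : ℚ) = 1 := congrArg Multiplicative.toAdd h2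
    exact absurd h3 (by norm_num)
  · have h1 : MonoidHom.id H = 1 :=
      IsFreeGroup.ext_hom (fun s => absurd ⟨s⟩ hne)
    rw [eq_bot_iff]
    intro x hx
    have h2 := DFunLike.congr_fun h1 (⟨x, hx⟩ : H)
    have h3 : x = 1 := congrArg Subtype.val h2
    exact Subgroup.mem_bot.2 h3

/-- the action of `A` on the free group with basis `A` -/
private def actn (A : Type) [Group A] : A →* MulAut (FreeGroup A) where
  toFun a := FreeGroup.freeGroupCongr (Equiv.mulLeft a)
  map_one' := by
    apply MulEquiv.toMonoidHom_injective
    refine FreeGroup.ext_hom _ _ fun c => ?_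
    show FreeGroup.freeGroupCongr (Equiv.mulLeft 1) (FreeGroup.of c) = FreeGroup.of c
    simp
  map_mul' a b := by
    apply MulEquiv.toMonoidHom_injective
    refine FreeGroup.ext_hom _ _ fun c => ?_
    show FreeGroup.freeGroupCongr (Equiv.mulLeft (a * b)) (FreeGroup.of c) =
      FreeGroup.freeGroupCongr (Equiv.mulLeft a)
        (FreeGroup.freeGroupCongr (Equiv.mulLeft b) (FreeGroup.of c))
    simp [mul_assoc]

private theorem actn_of {A : Type} [Group A] (a c : A) :
    actn A a (FreeGroup.of c) = FreeGroup.of (a * c) := by
  show FreeGroup.freeGroupCongr (Equiv.mulLeft a) (FreeGroup.of c) = _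
  simp

private def toS (A : Type) [Group A] : FF A →* FreeGroup A ⋊[actn A] A :=
  lft SemidirectProduct.inr (SemidirectProduct.inl (FreeGroup.of 1))

private def fromS (A : Type) [Group A] : FreeGroup A ⋊[actn A] A →* FF A :=
  SemidirectProduct.lift (FreeGroup.lift (fun a : A => ι a * y * (ι a)⁻¹)) ι (by
    intro a
    refine FreeGroup.ext_hom _ _ fun c => ?_
    show FreeGroup.lift (fun a : A => ι a * y * (ι a)⁻¹) (actn A a (FreeGroup.of c)) =
      ι a * FreeGroup.lift (fun a : A => ι a * y * (ι a)⁻¹) (FreeGroup.of c) * (ι a)⁻¹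
    rw [actn_of, FreeGroup.lift_apply_of, FreeGroup.lift_apply_of, map_mul]
    group)

private theorem fromS_toS {A : Type} [Group A] (x : FF A) : fromS A (toS A x) = x := by
  have h : (fromS A).comp (toS A) = MonoidHom.id _ := by
    apply FF_hom_ext
    · intro a
      show fromS A (toS A (ι a)) = ι a
      unfold toS fromS
      rw [lft_ι, SemidirectProduct.lift_inr]
    · show fromS A (toS A y) = y
      unfold toS fromS
      rw [lft_y, SemidirectProduct.lift_inl, FreeGroup.lift_apply_of]
      simp
  exact DFunLike.congr_fun h x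

private theorem toS_right {A : Type} [Group A] (x : FF A) :
    (toS A x).right = lft (MonoidHom.id A) 1 x := by
  have h : (SemidirectProduct.rightHom).comp (toS A) = lft (MonoidHom.id A) 1 := by
    apply FF_hom_ext
    · intro a
      show SemidirectProduct.rightHom (toS A (ι a)) = _
      unfold toS
      rw [lft_ι, lft_ι]
      simp
    · show SemidirectProduct.rightHom (toS A y) = _
      unfold toS
      rw [lft_y, lft_y]
      simp
  exact DFunLike.congr_fun h x

theorem LI_FF {A : Type} [Group A] (h : LI A) : LI (FF A) := by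
  refine LI.ext (lft (MonoidHom.id A) 1) h ?_
  have hr : ∀ x : (lft (MonoidHom.id A) (1 : A)).ker, (toS A (x : FF A)).right = 1 := by
    intro x
    rw [toS_right]
    exact x.2
  let g : (lft (MonoidHom.id A) (1 : A)).ker →* FreeGroup A :=
    { toFun := fun x => (toS A (x : FF A)).left
      map_one' := by simp
      map_mul' := by
        intro a b
        show (toS A ((a : FF A) * (b : FF A))).left = _
        rw [map_mul, SemidirectProduct.mul_left, hr a]
        simp }
  refine LI.of_injective g ?_ (LI_free A)
  intro a b hab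
  have h1 : (toS A (a : FF A)).left = (toS A (b : FF A)).left := hab
  have h2 : toS A (a : FF A) = toS A (b : FF A) :=
    SemidirectProduct.ext h1 ((hr a).trans (hr b).symm)
  have h3 := congrArg (fromS A) h2
  rw [fromS_toS, fromS_toS] at h3
  exact Subtype.ext h3

end Pool.Agent.LOTI
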