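import Pool.Agent.Lib.LOTI.LDefs
import Pool.Agent.Lib.LOTI.LIF

/-!
# `Q * F(J)` as `B * ⟨z_i⟩`

PROOFS.
* `split`: forward `lft (zlft qq (fun j => zz j.1)) (zz i)`, backward `zlft (ι ∘ qq) (fun j => if h : j = i then y else ι (zz ⟨j, h⟩))`; the compositions are the
  identity by `FF_hom_ext`, `Lz_hom_ext` (`MonoidHom.toMulEquiv`).
* `Lz_LI`: induction on the number of elements of `J` (finite): `J` empty: `zlft (MonoidHom.id Q) _ : Lz Q J →* Q` is injective (its inverse is `qq`, by
  `Lz_hom_ext`), use `LI.of_injective`. Otherwise take `i ∈ J`, `B = Lz Q {j // j ≠ i}` is locally indicable by induction, `FF B` by `LI_FF`, and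
  `(split i).symm` is injective.
* `mem_low`: the range of the homomorphism `e ∘ ι : B →* Lz Q J` is a subgroup which contains the generators of the closure (`h1`, `h2`);
  `Subgroup.closure_le`.
-/

set_option autoImplicit false

open scoped Classical

namespace Pool.Agent.LOTI

private noncomputable def splF {Q J : Type} [Group Q] (i : J) :
    FF (Lz Q {j : J // j ≠ i}) →* Lz Q J :=
  lft (zlft (qq : Q →* Lz Q J) (fun j => zz j.1)) (zz i)

private noncomputable def splG {Q J : Type} [Group Q] (i : J) :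
    Lz Q J →* FF (Lz Q {j : J // j ≠ i}) :=
  zlft ((ι : Lz Q {j : J // j ≠ i} →* FF (Lz Q {j : J // j ≠ i})).comp qq)
    (fun j => if h : j = i then y else ι (zz ⟨j, h⟩))

private theorem splF_qq {Q J : Type} [Group Q] (i : J) (q : Q) :
    splF (Q := Q) i (ι (qq q)) = qq q := by
  unfold splF
  rw [lft_ι, zlft_qq]

private theorem splF_zz {Q J : Type} [Group Q] (i : J) (j : {j : J // j ≠ i}) :
    splF (Q := Q) i (ι (zz j)) = zz j.1 := by
  unfold splF
  rw [lft_ι, zlft_zz]

private theorem splF_y {Q J : Type} [Group Q] (i : J) :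
    splF (Q := Q) i y = zz i := by
  unfold splF
  rw [lft_y]

private theorem splG_qq {Q J : Type} [Group Q] (i : J) (q : Q) :
    splG (Q := Q) i (qq q) = ι (qq q) := by
  unfold splG
  rw [zlft_qq]
  rfl

private theorem splG_self {Q J : Type} [Group Q] (i : J) :
    splG (Q := Q) i (zz i) = y := by
  unfold splG
  rw [zlft_zz, dif_pos rfl]

private theorem splG_ne {Q J : Type} [Group Q] (i : J) (j : J) (h : j ≠ i) :
    splG (Q := Q) i (zz j) = ι (zz ⟨j, h⟩) := by
  unfold splG
  rw [zlft_zz, dif_neg h]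

private theorem splGF {Q J : Type} [Group Q] (i : J) :
    (splG (Q := Q) i).comp (splF i) = MonoidHom.id _ := by
  apply FF_hom_ext
  · intro a
    have h : ((splG (Q := Q) i).comp (splF i)).comp ι = ι := by
      apply Lz_hom_ext
      · intro q
        show splG i (splF i (ι (qq q))) = ι (qq q)
        rw [splF_qq, splG_qq]
      · intro j
        show splG i (splF i (ι (zz j))) = ι (zz j)
        rw [splF_zz, splG_ne i j.1 j.2]
    exact DFunLike.congr_fun h a
  · show splG i (splF i y) = y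
    rw [splF_y, splG_self]

private theorem splFG {Q J : Type} [Group Q] (i : J) :
    (splF (Q := Q) i).comp (splG i) = MonoidHom.id _ := by
  apply Lz_hom_ext
  · intro q
    show splF i (splG i (qq q)) = qq q
    rw [splG_qq, splF_qq]
  · intro j
    show splF i (splG i (zz j)) = zz j
    by_cases h : j = i
    · subst h
      rw [splG_self, splF_y]
    · rw [splG_ne i j h, splF_zz]

theorem split {Q J : Type} [Group Q] (i : J) :
    ∃ e : FF (Lz Q {j : J // j ≠ i}) ≃* Lz Q J, e y = zz i ∧
      (∀ q : Q, e (ι (qq q)) = qq q) ∧ ∀ j : {j : J // j ≠ i}, e (ι (zz j)) = zz j.1 :=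
  ⟨MonoidHom.toMulEquiv (splF i) (splG i) (splGF i) (splFG i), splF_y i,
    fun q => splF_qq i q, fun j => splF_zz i j⟩

theorem Lz_LI {Q : Type} [Group Q] (hQ : LI Q) (J : Type) [Finite J] : LI (Lz Q J) := by
  induction hn : Nat.card J using Nat.strong_induction_on generalizing J with
  | _ n ih =>
    by_cases hJ : Nonempty J
    · obtain ⟨i⟩ := hJ
      have h1 : Nat.card {j : J // j ≠ i} < Nat.card J :=
        Finite.card_subtype_lt (p := fun j => j ≠ i) (x := i) (by simp)
      rw [hn] at h1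
      have h2 : LI (Lz Q {j : J // j ≠ i}) := ih _ h1 _ rfl
      have h3 : LI (FF (Lz Q {j : J // j ≠ i})) := LI_FF h2
      obtain ⟨e, -⟩ := split (Q := Q) i
      exact LI.of_injective (e.symm : Lz Q J →* FF (Lz Q {j : J // j ≠ i})) e.symm.injective h3
    · have hE : IsEmpty J := not_nonempty_iff.1 hJ
      have h1 : (qq : Q →* Lz Q J).comp (zlft (MonoidHom.id Q) (fun j : J => (1 : Q))) =
          MonoidHom.id _ := by
        apply Lz_hom_ext
        · intro q
          show qq (zlft (MonoidHom.id Q) (fun j : J => (1 : Q)) (qq q)) = qq q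
          rw [zlft_qq]
          rfl
        · intro j
          exact hE.elim j
      refine LI.of_injective (zlft (MonoidHom.id Q) (fun j : J => (1 : Q))) ?_ hQ
      intro a b hab
      have h2 := DFunLike.congr_fun h1 a
      have h3 := DFunLike.congr_fun h1 b
      have h4 : qq (zlft (MonoidHom.id Q) (fun j : J => (1 : Q)) a) = a := h2
      have h5 : qq (zlft (MonoidHom.id Q) (fun j : J => (1 : Q)) b) = b := h3
      rw [← h4, ← h5, hab]

theorem mem_low {Q J : Type} [Group Q] (i : J) (e : FF (Lz Q {j : J // j ≠ i}) ≃* Lz Q J)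
    (h1 : ∀ q : Q, e (ι (qq q)) = qq q) (h2 : ∀ j : {j : J // j ≠ i}, e (ι (zz j)) = zz j.1)
    (x : Lz Q J)
    (hx : x ∈ Subgroup.closure (Set.range (qq : Q →* Lz Q J) ∪ {x | ∃ j : J, j ≠ i ∧ x = zz j})) :
    ∃ b : Lz Q {j : J // j ≠ i}, e (ι b) = x := by
  have h3 : Subgroup.closure
      (Set.range (qq : Q →* Lz Q J) ∪ {x | ∃ j : J, j ≠ i ∧ x = zz j}) ≤
      (e.toMonoidHom.comp (ι : Lz Q {j : J // j ≠ i} →* FF (Lz Q {j : J // j ≠ i}))).range := by
    rw [Subgroup.closure_le]
    rintro z (⟨q, rfl⟩ | ⟨j, hj, rfl⟩)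
    · exact ⟨qq q, h1 q⟩
    · exact ⟨zz ⟨j, hj⟩, h2 ⟨j, hj⟩⟩
  obtain ⟨b, hb⟩ := h3 hx
  exact ⟨b, hb⟩

end Pool.Agent.LOTI
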