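import Pool.Agent.Lib.LOTI.Step
import Pool.Agent.Lib.LOTI.Split

/-!
# The tower of one-relator products (2.4)

PROOF. Let `L = Lz Q (Fin (c + 1))`. By induction on `k ≤ c`: `L ⧸ normalClosure (r '' {i | i < k})` is locally indicable (`(i : ℕ) < k`). `k = 0`: the normal closure of the
empty set is trivial, `Lz_LI hQ` (`LI.of_injective` with the inverse of the quotient map, or `QuotientGroup.quotientBot`-like). Step from `k` to `k + 1`, `i = ⟨k, _⟩ : Fin c`: let
`e : FF B ≃* L`, `B = Lz Q {j // j ≠ i.succ}` be as in `split i.succ`. For `l < i` (`(l : ℕ) < k`) `hlow l` gives `r l ∈ closure (range qq ∪ {zz j | j ≤ l.succ})`, and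
`l.succ < i.succ`, so (closure is monotone) by `mem_low` `r l = e (ι (b l))` for some `b l ∈ B`. `R = {b l | l < i}` (e.g. `R = {b | ∃ l < i, e (ι b) = r l}`),
`r' = e.symm (r i)`. Then `e '' (ι '' R) = r '' {l | l < i}` and `e '' (ι '' R ∪ {r'}) = r '' {l | l < k + 1}`. `LI.quot e.symm` gives
`LI (FF B ⧸ normalClosure (ι '' R))` (write `ι '' R = e.symm '' (r '' …)`). Apply `step` with `f ∘ e`, `ρ`, `j` from `hess i`:
 - `f (e (ι b)) = j (ρ (f (e (ι b))))` for all `b`: two homomorphisms `B →* X` which agree on `qq q` and on `zz j` (`Lz_hom_ext`; `j ≠ i.succ`);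
 - for `s ∈ R`, `f (e (ι s)) = f (r l) = j (ρ (f (r l))) = j 1 = 1`;
 - `ρ (f (r i)) = 1`, `f (r i) ≠ 1`; `hpow i`.
Then `LI.quot e`. At the end `k = c`: `r '' {i | (i : ℕ) < c} = Set.range r`.
-/

set_option autoImplicit false

open scoped Classical

namespace Pool.Agent.LOTI

theorem iter {Q : Type} [Group Q] (hQ : LI Q) (c : ℕ) (r : Fin c → Lz Q (Fin (c + 1)))
    (hlow : ∀ i : Fin c, r i ∈ Subgroup.closure (Set.range (qq : Q →* Lz Q (Fin (c + 1))) ∪
      {x | ∃ j : Fin (c + 1), j ≤ i.succ ∧ x = zz j}))
    (hess : ∀ i : Fin c, ∃ (X G : Type) (_ : Group X) (_ : Group G)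
      (f : Lz Q (Fin (c + 1)) →* X) (ρ : X →* G) (j : G →* X),
      (∀ q : Q, f (qq q) = j (ρ (f (qq q)))) ∧
      (∀ k : Fin (c + 1), k ≠ i.succ → f (zz k) = j (ρ (f (zz k)))) ∧
      (∀ k ≤ i, ρ (f (r k)) = 1) ∧ f (r i) ≠ 1)
    (hpow : ∀ i : Fin c, ∀ p : ℕ, p.Prime → ∃ φ : Lz Q (Fin (c + 1)) →* Multiplicative (ZMod p),
      (∀ k < i, φ (r k) = 1) ∧ φ (r i) ≠ 1) :
    LI (Lz Q (Fin (c + 1)) ⧸ Subgroup.normalClosure (Set.range r)) := by
  have claim : ∀ k : ℕ, k ≤ c →
      LI (Lz Q (Fin (c + 1)) ⧸ Subgroup.normalClosure (r '' {i | (i : ℕ) < k})) := by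
    intro k
    induction k with
    | zero =>
      intro _
      have h0 : Subgroup.normalClosure (r '' {i | (i : ℕ) < 0}) = ⊥ := by
        have h1 : r '' {i | (i : ℕ) < 0} = ∅ := by simp
        rw [h1]
        exact Subgroup.normalClosure_eq_bot_iff.2 (Set.empty_subset _)
      have e0 := (QuotientGroup.quotientMulEquivOfEq h0).trans QuotientGroup.quotientBot
      exact LI.of_injective e0.toMonoidHom e0.injective (Lz_LI hQ _)
    | succ k ih =>
      intro hk
      have ih := ih (by omega)
      obtain ⟨i, hi⟩ : ∃ i : Fin c, (i : ℕ) = k := ⟨⟨k, hk⟩, rfl⟩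
      obtain ⟨e, he1, he2, he3⟩ := split (Q := Q) i.succ
      have hb : ∀ l : Fin c, (l : ℕ) < k → ∃ b, e (ι b) = r l := by
        intro l hl
        apply mem_low i.succ e he2 he3
        refine Subgroup.closure_mono ?_ (hlow l)
        rintro x (hx | ⟨j, hj, rfl⟩)
        · exact Or.inl hx
        · refine Or.inr ⟨j, ?_, rfl⟩
          rintro rfl
          have h1 : (i.succ : ℕ) ≤ (l.succ : ℕ) := hj
          simp only [Fin.val_succ] at h1
          omega
      obtain ⟨R, hR⟩ : ∃ R : Set (Lz Q {j // j ≠ i.succ}),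
          R = {b | ∃ l : Fin c, (l : ℕ) < k ∧ e (ι b) = r l} := ⟨_, rfl⟩
      have hRe : e '' ((ι : Lz Q {j // j ≠ i.succ} →* _) '' R) = r '' {l | (l : ℕ) < k} := by
        ext x
        constructor
        · rintro ⟨_, ⟨b, hbR, rfl⟩, rfl⟩
          rw [hR] at hbR
          obtain ⟨l, hl, hbl⟩ := hbR
          exact ⟨l, hl, hbl.symm⟩
        · rintro ⟨l, hl, rfl⟩
          obtain ⟨b, hbl⟩ := hb l hl
          exact ⟨ι b, ⟨b, by rw [hR]; exact ⟨l, hl, hbl⟩, rfl⟩, hbl⟩
      have hB : LI (FF (Lz Q {j // j ≠ i.succ}) ⧸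
          Subgroup.normalClosure ((ι : Lz Q {j // j ≠ i.succ} →* _) '' R)) := by
        have h1 := LI.quot e.symm (r '' {l | (l : ℕ) < k}) ih
        have h2 : e.symm '' (r '' {l | (l : ℕ) < k}) =
            (ι : Lz Q {j // j ≠ i.succ} →* _) '' R := by
          rw [← hRe, ← Set.image_comp]
          have h3 : (e.symm : Lz Q (Fin (c + 1)) → _) ∘ e = id := by
            funext z
            exact e.symm_apply_apply z
          rw [h3, Set.image_id]
        rwa [h2] at h1
      obtain ⟨X, G, _, _, f, ρ, j, h1, h2, h3, h4⟩ := hess i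
      have hst := step R (e.symm (r i)) hB (f.comp e.toMonoidHom) ρ j (by
          have h5 : (f.comp e.toMonoidHom).comp ι =
              ((j.comp ρ).comp (f.comp e.toMonoidHom)).comp ι := by
            apply Lz_hom_ext
            · intro q
              show f (e (ι (qq q))) = j (ρ (f (e (ι (qq q)))))
              rw [he2]
              exact h1 q
            · intro l
              show f (e (ι (zz l))) = j (ρ (f (e (ι (zz l)))))
              rw [he3]
              exact h2 l.1 l.2
          intro b
          exact DFunLike.congr_fun h5 b) (by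
          intro s hs
          rw [hR] at hs
          obtain ⟨l, hl, hsl⟩ := hs
          have h5 : f (e (ι s)) = j (ρ (f (e (ι s)))) := by
            have h6 : (f.comp e.toMonoidHom).comp ι =
                ((j.comp ρ).comp (f.comp e.toMonoidHom)).comp ι := by
              apply Lz_hom_ext
              · intro q
                show f (e (ι (qq q))) = j (ρ (f (e (ι (qq q)))))
                rw [he2]
                exact h1 q
              · intro l
                show f (e (ι (zz l))) = j (ρ (f (e (ι (zz l)))))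
                rw [he3]
                exact h2 l.1 l.2
            exact DFunLike.congr_fun h6 s
          show f (e (ι s)) = 1
          have hli : l ≤ i := by
            rw [Fin.le_def]
            omega
          rw [h5, hsl, h3 l hli, map_one]) (by
          show ρ (f (e (e.symm (r i)))) = 1
          rw [e.apply_symm_apply]
          exact h3 i le_rfl) (by
          show f (e (e.symm (r i))) ≠ 1
          rw [e.apply_symm_apply]
          exact h4) (by
          intro p hp
          obtain ⟨φ, hφ1, hφ2⟩ := hpow i p hp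
          refine ⟨φ.comp e.toMonoidHom, ?_, ?_⟩
          · intro s hs
            rw [hR] at hs
            obtain ⟨l, hl, hsl⟩ := hs
            show φ (e (ι s)) = 1
            have hli : l < i := by
              rw [Fin.lt_def]
              omega
            rw [hsl]
            exact hφ1 l hli
          · show φ (e (e.symm (r i))) ≠ 1
            rw [e.apply_symm_apply]
            exact hφ2)
      have hq := LI.quot e _ hst
      have hE : e '' ((ι : Lz Q {j // j ≠ i.succ} →* _) '' R ∪ {e.symm (r i)}) =
          r '' {l | (l : ℕ) < k + 1} := by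
        rw [Set.image_union, hRe, Set.image_singleton, e.apply_symm_apply]
        ext x
        constructor
        · rintro (⟨l, hl, rfl⟩ | hx)
          · exact ⟨l, Nat.lt_succ_of_lt hl, rfl⟩
          · rw [Set.mem_singleton_iff.1 hx]
            exact ⟨i, by show (i : ℕ) < k + 1; omega, rfl⟩
        · rintro ⟨l, hl, rfl⟩
          have hl' : (l : ℕ) < k + 1 := hl
          rcases Nat.lt_succ_iff_lt_or_eq.1 hl' with h5 | h5
          · exact Or.inl ⟨l, h5, rfl⟩
          · have h6 : l = i := Fin.ext (by omega)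
            rw [h6]
            exact Or.inr rfl
      rwa [hE] at hq
  have hc := claim c le_rfl
  have h1 : r '' {i | (i : ℕ) < c} = Set.range r := by
    ext x
    constructor
    · rintro ⟨l, _, rfl⟩
      exact ⟨l, rfl⟩
    · rintro ⟨l, rfl⟩
      exact ⟨l, l.2, rfl⟩
  rwa [h1] at hc

end Pool.Agent.LOTI
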