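import Pool.Agent.Lib.LOTI.LinT

/-!
# Linear algebra (2.1)

PROOFS.
* `dual`: induction on `n`. `n = 0` trivial. Let the hypothesis hold for `n + 1`. For `ψ : V → k` put `A d ψ = ∑ e, a d e * (ψ (init e) - ψ (lab e))`,
  `B d ψ = ∑ e, a d e * (ψ (term e) - ψ (lab e))`. The sum in `h` is `∑ d < n + 1, (A d (φ (d+1)) - B d (φ d))`. Taking `φ` supported in one depth:
  `B 0 ψ = 0`, `A d ψ = B (d+1) ψ` for `d < n`, `A n ψ = 0`. So `∑ d ≤ n, A d ψ = ∑ d ≤ n, B d ψ`, i.e. `∑ e, (∑ d ≤ n, a d e) * (ψ (init e) - ψ (term e)) = 0`, and by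
  `tree_inj` `∑ d ≤ n, a d e = 0`. Let `b d e = ∑ d' ≤ d, a d' e` (so `b n = 0`), with `A' d`, `B' d` the corresponding sums: `B' 0 = B 0 = 0`,
  `B' (d+1) = ∑ d' ≤ d + 1, B d' = ∑ d' ≤ d, A d' = A' d` for `d < n`, and `B' n = 0` as `b n = 0`. Hence for every `φ`
  `∑ d < n, (A' d (φ (d+1)) - B' d (φ d)) = ∑ d < n, (B' (d+1) (φ (d+1)) - B' d (φ d)) = B' n (φ n) - B' 0 (φ 0) = 0`. By induction `b d = 0` for `d < n`, and `b n = 0`,
  so `a d = 0` for `d ≤ n`.
* `lin`: the linear map `T : (ℕ → V → k) →ₗ[k] (Fin n × E → k)` given by the left side is onto: otherwise there is a linear form `ℓ ≠ 0` on the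
  target which vanishes on the range (`Submodule.exists_le_ker_of_lt_top`), `ℓ w = ∑ d, ∑ e, a d e * w d e`, and `dual` gives `a = 0`.
-/

set_option autoImplicit false

open scoped Classical

namespace Pool.Agent.LOTI

variable {V E : Type} [Fintype V] [Fintype E]

private def linA (Γ : LOT V E) {k : Type} [Field k] (c : E → k) (ψ : V → k) : k :=
  ∑ e, c e * (ψ (Γ.init e) - ψ (Γ.lab e))

private def linB (Γ : LOT V E) {k : Type} [Field k] (c : E → k) (ψ : V → k) : k :=
  ∑ e, c e * (ψ (Γ.term e) - ψ (Γ.lab e))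

private lemma linA_zero_right (Γ : LOT V E) {k : Type} [Field k] (c : E → k) :
    linA Γ c (0 : V → k) = 0 := by
  simp [linA]

private lemma linB_zero_right (Γ : LOT V E) {k : Type} [Field k] (c : E → k) :
    linB Γ c (0 : V → k) = 0 := by
  simp [linB]

private lemma linA_sum (Γ : LOT V E) {k : Type} [Field k] (a : ℕ → E → k) (s : Finset ℕ)
    (ψ : V → k) :
    linA Γ (fun e => ∑ d ∈ s, a d e) ψ = ∑ d ∈ s, linA Γ (a d) ψ := by
  unfold linA
  rw [Finset.sum_comm]
  refine Finset.sum_congr rfl fun e _ => ?_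
  rw [Finset.sum_mul]

private lemma linB_sum (Γ : LOT V E) {k : Type} [Field k] (a : ℕ → E → k) (s : Finset ℕ)
    (ψ : V → k) :
    linB Γ (fun e => ∑ d ∈ s, a d e) ψ = ∑ d ∈ s, linB Γ (a d) ψ := by
  unfold linB
  rw [Finset.sum_comm]
  refine Finset.sum_congr rfl fun e _ => ?_
  rw [Finset.sum_mul]

private lemma lin_sum_eq (Γ : LOT V E) {k : Type} [Field k] (n : ℕ) (a : ℕ → E → k)
    (φ : ℕ → V → k) :
    ∑ d ∈ Finset.range n, ∑ e, a d e *
      (φ (d + 1) (Γ.init e) - φ (d + 1) (Γ.lab e) - (φ d (Γ.term e) - φ d (Γ.lab e))) =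
    ∑ d ∈ Finset.range n, (linA Γ (a d) (φ (d + 1)) - linB Γ (a d) (φ d)) := by
  refine Finset.sum_congr rfl fun d _ => ?_
  unfold linA linB
  rw [← Finset.sum_sub_distrib]
  refine Finset.sum_congr rfl fun e _ => ?_
  ring

private lemma lin_B0 (Γ : LOT V E) {k : Type} [Field k] (n : ℕ) (a : ℕ → E → k)
    (h : ∀ φ : ℕ → V → k,
      ∑ d ∈ Finset.range (n + 1), (linA Γ (a d) (φ (d + 1)) - linB Γ (a d) (φ d)) = 0)
    (ψ : V → k) : linB Γ (a 0) ψ = 0 := by
  have h1 := h (fun d => if d = 0 then ψ else 0)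
  rw [Finset.sum_sub_distrib] at h1
  have h2 : ∑ d ∈ Finset.range (n + 1), linA Γ (a d) ((fun d => if d = 0 then ψ else 0) (d + 1)) = 0 := by
    refine Finset.sum_eq_zero fun d _ => ?_
    simp [linA_zero_right]
  have h3 : ∑ d ∈ Finset.range (n + 1), linB Γ (a d) ((fun d => if d = 0 then ψ else 0) d) =
      linB Γ (a 0) ψ := by
    rw [Finset.sum_eq_single 0]
    · simp
    · intro d _ hd
      simp [hd, linB_zero_right]
    · intro h0
      simp at h0
  rw [h2, h3] at h1
  simpa using h1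

private lemma lin_AB (Γ : LOT V E) {k : Type} [Field k] (n : ℕ) (a : ℕ → E → k)
    (h : ∀ φ : ℕ → V → k,
      ∑ d ∈ Finset.range (n + 1), (linA Γ (a d) (φ (d + 1)) - linB Γ (a d) (φ d)) = 0)
    (j : ℕ) (hj : j < n) (ψ : V → k) : linA Γ (a j) ψ = linB Γ (a (j + 1)) ψ := by
  have h1 := h (fun d => if d = j + 1 then ψ else 0)
  rw [Finset.sum_sub_distrib] at h1
  have h2 : ∑ d ∈ Finset.range (n + 1),
      linA Γ (a d) ((fun d => if d = j + 1 then ψ else 0) (d + 1)) = linA Γ (a j) ψ := by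
    rw [Finset.sum_eq_single j]
    · simp
    · intro d _ hd
      simp [hd, linA_zero_right]
    · intro h0
      exact absurd (Finset.mem_range.mpr (by omega)) h0
  have h3 : ∑ d ∈ Finset.range (n + 1),
      linB Γ (a d) ((fun d => if d = j + 1 then ψ else 0) d) = linB Γ (a (j + 1)) ψ := by
    rw [Finset.sum_eq_single (j + 1)]
    · simp
    · intro d _ hd
      simp [hd, linB_zero_right]
    · intro h0
      exact absurd (Finset.mem_range.mpr (by omega)) h0
  rw [h2, h3] at h1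
  exact sub_eq_zero.mp h1

private lemma lin_dual_aux (Γ : LOT V E) {k : Type} [Field k] (n : ℕ) :
    ∀ (a : ℕ → E → k) (_ : ∀ φ : ℕ → V → k,
      ∑ d ∈ Finset.range n, (linA Γ (a d) (φ (d + 1)) - linB Γ (a d) (φ d)) = 0),
    ∀ d < n, ∀ e, a d e = 0 := by
  induction n with
  | zero => intro a _ d hd; omega
  | succ n ih =>
    intro a h
    set b : ℕ → E → k := fun d e => ∑ d' ∈ Finset.range (d + 1), a d' e with hb
    -- (i) b n = 0
    have hbn : ∀ e, b n e = 0 := by
      refine Γ.tree_inj (b n) fun ψ => ?_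
      have h1 := h (fun _ => ψ)
      rw [Finset.sum_sub_distrib, ← linA_sum, ← linB_sum] at h1
      unfold linA linB at h1
      rw [← Finset.sum_sub_distrib] at h1
      rw [← h1]
      refine Finset.sum_congr rfl fun e _ => ?_
      simp only [hb]
      ring
    have hBA : ∀ d, d < n → ∀ ψ : V → k, linB Γ (b (d + 1)) ψ = linA Γ (b d) ψ := by
      intro d hd ψ
      simp only [hb]
      rw [linB_sum, linA_sum, Finset.sum_range_succ' (fun d' => linB Γ (a d') ψ) (d + 1),
        lin_B0 Γ n a h ψ, add_zero]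
      refine Finset.sum_congr rfl fun d' hd' => ?_
      rw [Finset.mem_range] at hd'
      exact (lin_AB Γ n a h d' (by omega) ψ).symm
    have hB0 : ∀ ψ : V → k, linB Γ (b 0) ψ = 0 := by
      intro ψ
      simp only [hb]
      rw [linB_sum]
      simp [lin_B0 Γ n a h ψ]
    have hBn : ∀ ψ : V → k, linB Γ (b n) ψ = 0 := by
      intro ψ
      unfold linB
      refine Finset.sum_eq_zero fun e _ => ?_
      rw [hbn e, zero_mul]
    have hind := ih b (by
      intro φ
      have h1 : ∑ d ∈ Finset.range n, (linA Γ (b d) (φ (d + 1)) - linB Γ (b d) (φ d)) =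
          ∑ d ∈ Finset.range n, (linB Γ (b (d + 1)) (φ (d + 1)) - linB Γ (b d) (φ d)) := by
        refine Finset.sum_congr rfl fun d hd => ?_
        rw [Finset.mem_range] at hd
        rw [hBA d hd]
      rw [h1, Finset.sum_range_sub (fun d => linB Γ (b d) (φ d)) n, hBn, hB0, sub_zero])
    have hball : ∀ d, d < n + 1 → ∀ e, b d e = 0 := by
      intro d hd e
      rcases Nat.lt_succ_iff_lt_or_eq.mp hd with h1 | h1
      · exact hind d h1 e
      · rw [h1]; exact hbn e
    intro d hd e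
    cases d with
    | zero =>
      have h1 := hball 0 hd e
      simpa [hb] using h1
    | succ d =>
      have h1 := hball (d + 1) hd e
      have h2 := hball d (by omega) e
      simp only [hb] at h1 h2
      rw [Finset.sum_range_succ, h2, zero_add] at h1
      exact h1

theorem LOT.dual (Γ : LOT V E) {k : Type} [Field k] (n : ℕ) (a : ℕ → E → k)
    (h : ∀ φ : ℕ → V → k, ∑ d ∈ Finset.range n, ∑ e, a d e *
      (φ (d + 1) (Γ.init e) - φ (d + 1) (Γ.lab e) - (φ d (Γ.term e) - φ d (Γ.lab e))) = 0) :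
    ∀ d < n, ∀ e, a d e = 0 := by
  refine lin_dual_aux Γ n a fun φ => ?_
  rw [← lin_sum_eq]
  exact h φ

private def linT (Γ : LOT V E) {k : Type} [Field k] (n : ℕ) :
    (ℕ → V → k) →ₗ[k] (Fin n × E → k) where
  toFun φ x := φ (x.1 + 1) (Γ.init x.2) - φ (x.1 + 1) (Γ.lab x.2) -
    (φ x.1 (Γ.term x.2) - φ x.1 (Γ.lab x.2))
  map_add' φ φ' := by
    funext x
    simp only [Pi.add_apply]
    ring
  map_smul' c φ := by
    funext x
    simp only [Pi.smul_apply, smul_eq_mul, RingHom.id_apply]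
    ring

theorem LOT.lin (Γ : LOT V E) {k : Type} [Field k] (n : ℕ) (b : ℕ → E → k) :
    ∃ φ : ℕ → V → k, ∀ d < n, ∀ e,
      φ (d + 1) (Γ.init e) - φ (d + 1) (Γ.lab e) - (φ d (Γ.term e) - φ d (Γ.lab e)) = b d e := by
  have htop : LinearMap.range (linT Γ (k := k) n) = ⊤ := by
    by_contra hne
    obtain ⟨f, hf0, hf⟩ := Submodule.exists_le_ker_of_lt_top _ (lt_top_iff_ne_top.mpr hne)
    apply hf0
    let a : ℕ → E → k := fun d e =>
      if hd : d < n then f (fun j => if ((⟨d, hd⟩ : Fin n), e) = j then 1 else 0) else 0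
    have ha : ∀ x : Fin n × E, f (fun j => if x = j then 1 else 0) = a x.1 x.2 := by
      intro x
      simp [a, x.1.2]
    have hfw : ∀ w : Fin n × E → k, f w = ∑ x : Fin n × E, a x.1 x.2 * w x := by
      intro w
      rw [LinearMap.pi_apply_eq_sum_univ f w]
      refine Finset.sum_congr rfl fun x _ => ?_
      rw [smul_eq_mul, mul_comm, ← ha x]
    have hz := Γ.dual n a (by
      intro φ
      have h1 : f (linT Γ n φ) = 0 := hf ⟨φ, rfl⟩
      rw [hfw, Fintype.sum_prod_type] at h1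
      rw [Finset.sum_range]
      exact h1)
    ext x
    rw [LinearMap.comp_apply, hfw]
    simp only [LinearMap.zero_comp, LinearMap.zero_apply]
    refine Finset.sum_eq_zero fun y _ => ?_
    rw [hz y.1 y.1.2 y.2, zero_mul]
  have hmem : (fun x : Fin n × E => b x.1 x.2) ∈ LinearMap.range (linT Γ (k := k) n) := by
    rw [htop]; trivial
  obtain ⟨φ, hφ⟩ := hmem
  refine ⟨φ, fun d hd e => ?_⟩
  have := congrFun hφ (⟨d, hd⟩, e)
  exact this

end Pool.Agent.LOTI
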