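import Mathlib

/-!
# Forest lemma (2.2), first part

PROOFS. `cst a b S` is the equivalence relation generated by the edges `{a e, b e}`, `e ∈ S`.
* `card_quot_insert`: `e ∉ S` or not: `#comp S ≤ #comp (insert e S) + 1`. The map
  `Quotient (cst a b S) → Option (Quotient (cst a b (insert e S)))`, `q ↦ none` if `q` is the class of `b e`, `q ↦ some (image of q)` otherwise
  (`cst S ≤ cst (insert e S)`, so there is an image) is injective: if `v`, `w` are equivalent for `insert e S`, then they are equivalent for `S`, or each
  of them is equivalent for `S` to one of `a e`, `b e` (induction on `EqvGen`); so two classes different from the class of `b e` with the same image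
  are equal (both are the class of `a e` in the second case).
* `card_quot_eq`: if `a e`, `b e` are equivalent for `S` then the classes for `insert e S` are the ones of `S` (`cst (insert e S) = cst S`).
* `card_le`: induction on `S`: for `S = ∅` the classes are the points. Step: `card_quot_insert`.
* `forest`: induction on `S` (`Finset.induction_on`). `S = ∅`: `g = 1`. `insert e S`, `e ∉ S`: if `a e ~ b e` for `S`, then `#comp (insert e S) = #comp S` and
  `|S| + 1 + #comp S ≤ |V|` contradicts `card_le`. So they are not equivalent; by `card_quot_insert` `|S| + #comp S ≤ |V|`, so there is `g₀` for `S`. Put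
  `g v = t * g₀ v` if `v` is equivalent to `b e` for `S`, `g v = g₀ v` otherwise, `t = g₀ (a e) * u e * (g₀ (b e))⁻¹`. The equations of `S` are
  preserved (the two ends of an edge of `S` are equivalent), and the equation of `e` holds.
-/

set_option autoImplicit false

open scoped Classical

namespace Pool.Agent.LOTI

/-- the components of the graph with the edges `{a e, b e}`, `e ∈ S` -/
def cst {V E : Type} (a b : E → V) (S : Finset E) : Setoid V :=
  Relation.EqvGen.setoid fun v w => ∃ e ∈ S, v = a e ∧ w = b e

private theorem fo_mono {V E : Type} (a b : E → V) {S T : Finset E} (hST : S ⊆ T) {v w : V}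
    (h : (cst a b S) v w) : (cst a b T) v w := by
  have h1 : ∀ x y, (∃ e ∈ S, x = a e ∧ y = b e) → ∃ e ∈ T, x = a e ∧ y = b e := by
    rintro x y ⟨e, he, hx, hy⟩
    exact ⟨e, hST he, hx, hy⟩
  exact Relation.EqvGen.mono h1 _ _ h

private theorem fo_refl {V E : Type} (a b : E → V) (S : Finset E) (v : V) : (cst a b S) v v :=
  (cst a b S).refl v

private theorem fo_symm {V E : Type} {a b : E → V} {S : Finset E} {v w : V}
    (h : (cst a b S) v w) : (cst a b S) w v :=
  (cst a b S).symm h

private theorem fo_trans {V E : Type} {a b : E → V} {S : Finset E} {v w z : V}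
    (h : (cst a b S) v w) (h' : (cst a b S) w z) : (cst a b S) v z :=
  (cst a b S).trans h h'

private theorem fo_edge {V E : Type} (a b : E → V) {S : Finset E} {e : E} (he : e ∈ S) :
    (cst a b S) (a e) (b e) :=
  Relation.EqvGen.rel _ _ ⟨e, he, rfl, rfl⟩

private theorem fo_split {V E : Type} (a b : E → V) (S : Finset E) (e : E) {v w : V}
    (h : (cst a b (insert e S)) v w) : (cst a b S) v w ∨
      (((cst a b S) v (a e) ∨ (cst a b S) v (b e)) ∧
        ((cst a b S) w (a e) ∨ (cst a b S) w (b e))) := by
  have h' : Relation.EqvGen (fun v w => ∃ e' ∈ insert e S, v = a e' ∧ w = b e') v w := h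
  clear h
  induction h' with
  | rel x y hxy =>
    obtain ⟨e', he', rfl, rfl⟩ := hxy
    rcases Finset.mem_insert.1 he' with rfl | he'
    · exact Or.inr ⟨Or.inl (fo_refl a b S _), Or.inr (fo_refl a b S _)⟩
    · exact Or.inl (fo_edge a b he')
  | refl x => exact Or.inl (fo_refl a b S x)
  | symm x y _ ih =>
    rcases ih with h | ⟨h1, h2⟩
    · exact Or.inl (fo_symm h)
    · exact Or.inr ⟨h2, h1⟩
  | trans x y z _ _ ih1 ih2 =>
    rcases ih1 with h | ⟨h1, h2⟩
    · rcases ih2 with h' | ⟨h1', h2'⟩
      · exact Or.inl (fo_trans h h')
      · refine Or.inr ⟨?_, h2'⟩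
        rcases h1' with h3 | h3
        · exact Or.inl (fo_trans h h3)
        · exact Or.inr (fo_trans h h3)
    · rcases ih2 with h' | ⟨h1', h2'⟩
      · refine Or.inr ⟨h1, ?_⟩
        rcases h2 with h3 | h3
        · exact Or.inl (fo_trans (fo_symm h') h3)
        · exact Or.inr (fo_trans (fo_symm h') h3)
      · exact Or.inr ⟨h1, h2'⟩

private def fo_map {V E : Type} (a b : E → V) {S T : Finset E} (hST : S ⊆ T) :
    Quotient (cst a b S) → Quotient (cst a b T) :=
  Quotient.map id (fun _ _ h => fo_mono a b hST h)

private theorem card_quot_insert {V E : Type} [Fintype V] (a b : E → V) (S : Finset E) (e : E) :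
    Nat.card (Quotient (cst a b S)) ≤ Nat.card (Quotient (cst a b (insert e S))) + 1 := by
  have hfin : Finite (Quotient (cst a b (insert e S))) := Quotient.finite _
  rw [← Finite.card_option]
  let f : Quotient (cst a b S) → Option (Quotient (cst a b (insert e S))) := fun q =>
    if q = Quotient.mk _ (b e) then none else some (fo_map a b (Finset.subset_insert e S) q)
  refine Nat.card_le_card_of_injective f ?_
  intro q1 q2
  induction q1 using Quotient.inductionOn with
  | h v =>
    induction q2 using Quotient.inductionOn with
    | h w =>
      intro hf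
      by_cases h1 : (Quotient.mk (cst a b S) v) = Quotient.mk _ (b e)
      · by_cases h2 : (Quotient.mk (cst a b S) w) = Quotient.mk _ (b e)
        · rw [h1, h2]
        · simp only [f, if_pos h1, if_neg h2] at hf
          cases hf
      · by_cases h2 : (Quotient.mk (cst a b S) w) = Quotient.mk _ (b e)
        · simp only [f, if_neg h1, if_pos h2] at hf
          cases hf
        · simp only [f, if_neg h1, if_neg h2] at hf
          have h3 : (cst a b (insert e S)) v w := Quotient.exact (Option.some.inj hf)
          apply Quotient.sound
          rcases fo_split a b S e h3 with h | ⟨h4, h5⟩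
          · exact h
          · have h6 : (cst a b S) v (a e) := h4.resolve_right (fun h => h1 (Quotient.sound h))
            have h7 : (cst a b S) w (a e) := h5.resolve_right (fun h => h2 (Quotient.sound h))
            exact fo_trans h6 (fo_symm h7)

private theorem card_quot_eq {V E : Type} [Fintype V] (a b : E → V) (S : Finset E) (e : E)
    (hab : (cst a b S) (a e) (b e)) :
    Nat.card (Quotient (cst a b S)) ≤ Nat.card (Quotient (cst a b (insert e S))) := by
  have hfin : Finite (Quotient (cst a b (insert e S))) := Quotient.finite _
  refine Nat.card_le_card_of_injective (fo_map a b (Finset.subset_insert e S)) ?_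
  intro q1 q2
  induction q1 using Quotient.inductionOn with
  | h v =>
    induction q2 using Quotient.inductionOn with
    | h w =>
      intro hf
      have h3 : (cst a b (insert e S)) v w := Quotient.exact hf
      apply Quotient.sound
      rcases fo_split a b S e h3 with h | ⟨h4, h5⟩
      · exact h
      · have h6 : (cst a b S) v (a e) := by
          rcases h4 with h | h
          · exact h
          · exact fo_trans h (fo_symm hab)
        have h7 : (cst a b S) w (a e) := by
          rcases h5 with h | h
          · exact h
          · exact fo_trans h (fo_symm hab)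
        exact fo_trans h6 (fo_symm h7)

theorem card_le {V E : Type} [Fintype V] (a b : E → V) (S : Finset E) :
    Fintype.card V ≤ S.card + Nat.card (Quotient (cst a b S)) := by
  induction S using Finset.induction_on with
  | empty =>
    rw [Finset.card_empty, zero_add, ← Nat.card_eq_fintype_card]
    have hfin : Finite (Quotient (cst a b (∅ : Finset E))) := Quotient.finite _
    refine Nat.card_le_card_of_injective (fun v => Quotient.mk (cst a b ∅) v) ?_
    intro v w hvw
    have h1 : Relation.EqvGen (fun v w => ∃ e ∈ (∅ : Finset E), v = a e ∧ w = b e) v w :=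
      Quotient.exact hvw
    clear hvw
    induction h1 with
    | rel x y hxy =>
      obtain ⟨e, he, -⟩ := hxy
      exact absurd he (Finset.notMem_empty e)
    | refl x => rfl
    | symm x y _ ih => exact ih.symm
    | trans x y z _ _ ih1 ih2 => exact ih1.trans ih2
  | insert e S he ih =>
    rw [Finset.card_insert_of_notMem he]
    have h1 := card_quot_insert a b S e
    omega

theorem forest {V E X : Type} [Fintype V] [Group X] (a b : E → V) (S : Finset E)
    (h : S.card + Nat.card (Quotient (cst a b S)) ≤ Fintype.card V) (u : E → X) :
    ∃ g : V → X, ∀ e ∈ S, g (b e) = g (a e) * u e := by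
  induction S using Finset.induction_on with
  | empty =>
    refine ⟨fun _ => 1, fun e he => ?_⟩
    exact absurd he (Finset.notMem_empty e)
  | insert e S he ih =>
    rw [Finset.card_insert_of_notMem he] at h
    by_cases hab : (cst a b S) (a e) (b e)
    · have h1 := card_quot_eq a b S e hab
      have h2 := card_le a b S
      omega
    · have h1 := card_quot_insert a b S e
      obtain ⟨g₀, hg₀⟩ := ih (by omega)
      refine ⟨fun v => if (cst a b S) v (b e) then g₀ (a e) * u e * (g₀ (b e))⁻¹ * g₀ v
        else g₀ v, fun e' he' => ?_⟩
      rcases Finset.mem_insert.1 he' with rfl | he'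
      · simp only []
        rw [if_pos (fo_refl a b S _), if_neg hab]
        group
      · have hab' := fo_edge a b he'
        simp only []
        by_cases h3 : (cst a b S) (a e') (b e)
        · rw [if_pos h3, if_pos (fo_trans (fo_symm hab') h3), hg₀ e' he']
          group
        · rw [if_neg h3, if_neg (fun h4 => h3 (fo_trans hab' h4)), hg₀ e' he']

end Pool.Agent.LOTI
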