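import Mathlib

/-!
# One-relator products of locally indicable groups : definitions

(helper18, problem MP_cf50d6_gt, paper /team-store/MP_cf50d6_gt_paper.md)

`FF A` = free product `A * ⟨y⟩`, cocycles on `FF A`-sets, geodesics (bi-infinite periodic reduced
words), strands and arcs, cones (invariant orders), the classes of the dimension lemma.
-/

set_option autoImplicit false

open scoped Classical

namespace Pool.Agent.LOTI

/-- locally indicable, in terms of homomorphisms to `ℚ` -/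
def LI (G : Type) [Group G] : Prop :=
  ∀ H : Subgroup G, H.FG → (∀ φ : H →* Multiplicative ℚ, φ = 1) → H = ⊥

/-- the free product `A * ⟨y⟩` -/
abbrev FF (A : Type) [Group A] : Type :=
  HNNExtension A ⊥ ⊥ (MulEquiv.refl (⊥ : Subgroup A))

variable {A : Type} [Group A]

/-- the inclusion of `A` -/
def ι : A →* FF A := HNNExtension.of

/-- the free letter -/
def y : FF A := HNNExtension.t

/-- the universal property -/
def lft {X : Type*} [Group X] (f : A →* X) (x : X) : FF A →* X :=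
  HNNExtension.lift f x (by
    rintro ⟨a, ha⟩
    have : a = 1 := Subgroup.mem_bot.1 ha
    subst this
    simp)

@[simp] theorem lft_ι {X : Type*} [Group X] (f : A →* X) (x : X) (a : A) :
    lft f x (ι a) = f a := HNNExtension.lift_of _ _ _ _

@[simp] theorem lft_y {X : Type*} [Group X] (f : A →* X) (x : X) :
    lft f x y = x := HNNExtension.lift_t _ _ _

theorem FF_hom_ext {X : Type*} [Group X] {f g : FF A →* X} (h1 : ∀ a, f (ι a) = g (ι a))
    (h2 : f y = g y) : f = g :=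
  HNNExtension.hom_ext (MonoidHom.ext h1) h2

theorem FF_induction {p : FF A → Prop} (h1 : ∀ a, p (ι a)) (h2 : p y)
    (h3 : ∀ g h, p g → p h → p (g * h)) (h4 : ∀ g, p g → p g⁻¹) (g : FF A) : p g :=
  HNNExtension.induction_on g h1 h2 h3 h4

theorem ι_injective : Function.Injective (ι : A →* FF A) := HNNExtension.of_injective _

/-! ### cocycles -/

section Coc

variable {Ω : Type} [MulAction (FF A) Ω]

/-- cocycles with values in a group -/
def IsCoc {X : Type} [Group X] (c : FF A → Ω → X) : Prop :=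
  ∀ g h o, c (g * h) o = c g (h • o) * c h o

/-- cocycles with values in `ℚ` -/
def IsACoc (c : FF A → Ω → ℚ) : Prop :=
  ∀ g h o, c (g * h) o = c g (h • o) + c h o

theorem IsCoc.one {X : Type} [Group X] {c : FF A → Ω → X} (hc : IsCoc c) (o : Ω) : c 1 o = 1 := by
  have := hc 1 1 o
  simpa using this

theorem IsCoc.inv {X : Type} [Group X] {c : FF A → Ω → X} (hc : IsCoc c) (g : FF A) (o : Ω) :
    c g⁻¹ o = (c g (g⁻¹ • o))⁻¹ := by
  have := hc g g⁻¹ o
  rw [mul_inv_cancel, hc.one] at this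
  exact (inv_eq_of_mul_eq_one_right this.symm).symm

/-- `h⁻¹ g h` for `g` fixing `h o` -/
theorem IsCoc.conj {X : Type} [Group X] {c : FF A → Ω → X} (hc : IsCoc c) (g h : FF A) (o : Ω)
    (hg : g • h • o = h • o) : c (h⁻¹ * g * h) o = (c h o)⁻¹ * c g (h • o) * c h o := by
  rw [hc, hc, hg, hc.inv]
  simp

/-- the homomorphism on a point stabiliser -/
def IsCoc.hom {X : Type} [Group X] {c : FF A → Ω → X} (hc : IsCoc c) (o : Ω) :
    MulAction.stabilizer (FF A) o →* X where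
  toFun n := c n o
  map_one' := hc.one o
  map_mul' a b := by
    show c (a * b) o = _
    rw [hc, MulAction.mem_stabilizer_iff.1 b.2]

/-- additive cocycles as cocycles with values in `Multiplicative ℚ` -/
theorem IsACoc.toCoc {c : FF A → Ω → ℚ} (hc : IsACoc c) :
    IsCoc (X := Multiplicative ℚ) fun g o => Multiplicative.ofAdd (c g o) := by
  intro g h o
  show Multiplicative.ofAdd (c (g * h) o) = _
  rw [hc]
  rfl

end Coc

/-! ### geodesics -/

/-- a periodic reduced word `… y^{u i} g i y^{u (i+1)} g (i+1) …` -/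
structure Geo (A : Type) [Group A] where
  m : ℕ
  hm : 0 < m
  u : ℤ → ℤˣ
  g : ℤ → A
  uper : ∀ i, u (i + m) = u i
  gper : ∀ i, g (i + m) = g i
  red : ∀ i, g i = 1 → u (i + 1) = u i
  p : ℤ → FF A
  p0 : p 0 = 1
  pS : ∀ i, p (i + 1) = p i * (y ^ (u (i + 1) : ℤ) * ι (g (i + 1)))

namespace Geo

variable (Γ : Geo A)

/-- the period -/
def w : FF A := Γ.p Γ.m

theorem pS' (i : ℤ) : Γ.p i = Γ.p (i - 1) * (y ^ (Γ.u i : ℤ) * ι (Γ.g i)) := by
  have := Γ.pS (i - 1)
  simpa using this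

theorem p_add (i : ℤ) : Γ.p (i + Γ.m) = Γ.w * Γ.p i := by
  induction i using Int.induction_on with
  | zero => simp [Γ.p0, w]
  | succ k ih =>
    have h1 := Γ.pS (k + Γ.m)
    have h2 : (k : ℤ) + Γ.m + 1 = (k + 1) + Γ.m := by ring
    rw [h2] at h1
    rw [h1, Γ.pS k, ih, Γ.uper, Γ.gper, mul_assoc]
  | pred k ih =>
    have h1 := Γ.pS (-k - 1 + Γ.m)
    have h2 : -(k : ℤ) - 1 + Γ.m + 1 = -k + Γ.m := by ring
    have h3 : -(k : ℤ) + Γ.m = (-k - 1 + 1) + Γ.m := by ring
    have h4 := Γ.pS (-k - 1)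
    have h5 : -(k : ℤ) - 1 + 1 = -k := by ring
    rw [h5] at h4
    rw [h2, ih, Γ.uper, Γ.gper, h4] at h1
    exact (mul_right_cancel (by rw [← h1]; simp [mul_assoc])).symm

theorem p_add_mul (i s : ℤ) : Γ.p (i + s * Γ.m) = Γ.w ^ s * Γ.p i := by
  induction s using Int.induction_on with
  | zero => simp
  | succ k ih =>
    have : i + ((k : ℤ) + 1) * Γ.m = (i + k * Γ.m) + Γ.m := by ring
    rw [this, p_add, ih, ← mul_assoc, ← zpow_one_add, add_comm]
  | pred k ih =>
    have : i + (-(k : ℤ)) * Γ.m = (i + (-k - 1) * Γ.m) + Γ.m := by ring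
    rw [this, p_add] at ih
    have h := congrArg (Γ.w⁻¹ * ·) ih
    simp only [inv_mul_cancel_left] at h
    rw [h, ← mul_assoc, ← zpow_neg_one, ← zpow_add]
    congr 2
    ring

/-- the arc elements -/
noncomputable def tau (i : ℤ) : FF A := if Γ.u i = -1 then Γ.p (i - 1) else Γ.p (i - 1) * y

theorem tau_add_mul (i s : ℤ) : Γ.tau (i + s * Γ.m) = Γ.w ^ s * Γ.tau i := by
  have hu : ∀ s : ℤ, Γ.u (i + s * Γ.m) = Γ.u i := by
    intro s
    induction s using Int.induction_on with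
    | zero => simp
    | succ k ih =>
      have : i + ((k : ℤ) + 1) * Γ.m = (i + k * Γ.m) + Γ.m := by ring
      rw [this, Γ.uper, ih]
    | pred k ih =>
      have : i + (-(k : ℤ)) * Γ.m = (i + (-k - 1) * Γ.m) + Γ.m := by ring
      rw [this, Γ.uper] at ih
      exact ih
  have h : i + s * Γ.m - 1 = (i - 1) + s * Γ.m := by ring
  unfold tau
  rw [hu, h, p_add_mul]
  split_ifs <;> simp [mul_assoc]

variable {Ω : Type} [MulAction (FF A) Ω]

/-- the points of a strand -/
def st (o : Ω) (i : ℤ) : Ω := (Γ.p i)⁻¹ • o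

/-- the arcs of a strand: the arc `f` joins `f` to `y • f` -/
noncomputable def arc (o : Ω) (i : ℤ) : Ω := (Γ.tau i)⁻¹ • o

/-- the set of the arcs of the strands through the points of `S` -/
noncomputable def arcs (S : Finset Ω) : Finset Ω :=
  (S ×ˢ Finset.range Γ.m).image fun x => Γ.arc x.1 (x.2 : ℤ)

theorem u_add (i s : ℤ) : Γ.u (i + s * Γ.m) = Γ.u i := by
  induction s using Int.induction_on with
  | zero => simp
  | succ k ih =>
    have : i + ((k : ℤ) + 1) * Γ.m = (i + k * Γ.m) + Γ.m := by ring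
    rw [this, Γ.uper, ih]
  | pred k ih =>
    have : i + (-(k : ℤ)) * Γ.m = (i + (-k - 1) * Γ.m) + Γ.m := by ring
    rw [this, Γ.uper] at ih
    exact ih

theorem g_add (i s : ℤ) : Γ.g (i + s * Γ.m) = Γ.g i := by
  induction s using Int.induction_on with
  | zero => simp
  | succ k ih =>
    have : i + ((k : ℤ) + 1) * Γ.m = (i + k * Γ.m) + Γ.m := by ring
    rw [this, Γ.gper, ih]
  | pred k ih =>
    have : i + (-(k : ℤ)) * Γ.m = (i + (-k - 1) * Γ.m) + Γ.m := by ring
    rw [this, Γ.gper] at ih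
    exact ih

theorem fix_zpow {o : Ω} (ho : Γ.w • o = o) (s : ℤ) : (Γ.w ^ s)⁻¹ • o = o := by
  have h1 : Γ.w ∈ MulAction.stabilizer (FF A) o := MulAction.mem_stabilizer_iff.2 ho
  exact MulAction.mem_stabilizer_iff.1 (Subgroup.inv_mem _ (Subgroup.zpow_mem _ h1 s))

theorem st_add {o : Ω} (ho : Γ.w • o = o) (i s : ℤ) : Γ.st o (i + s * Γ.m) = Γ.st o i := by
  unfold st
  rw [p_add_mul, mul_inv_rev, mul_smul, Γ.fix_zpow ho]

theorem arc_add {o : Ω} (ho : Γ.w • o = o) (i s : ℤ) : Γ.arc o (i + s * Γ.m) = Γ.arc o i := by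
  unfold arc
  rw [tau_add_mul, mul_inv_rev, mul_smul, Γ.fix_zpow ho]

/-- `p i` is determined by `tau i` (backward letter) -/
theorem p_of_neg {i : ℤ} (h : Γ.u i = -1) : Γ.p i = Γ.tau i * (y⁻¹ * ι (Γ.g i)) := by
  rw [pS', tau, if_pos h, h]
  simp

theorem p_of_pos {i : ℤ} (h : Γ.u i = 1) : Γ.p i = Γ.tau i * ι (Γ.g i) := by
  have h' : ¬ (Γ.u i = -1) := by rw [h]; decide
  rw [pS', tau, if_neg h', h]
  simp [mul_assoc]

theorem tau_of_neg {i : ℤ} (h : Γ.u i = -1) : Γ.tau i = Γ.p (i - 1) := if_pos h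

theorem tau_of_pos {i : ℤ} (h : Γ.u i = 1) : Γ.tau i = Γ.p (i - 1) * y :=
  if_neg (by rw [h]; decide)

/-- a letter with `u i = -1` passes its arc from the tail `arc o i = st o (i - 1)` … -/
theorem arc_of_neg {i : ℤ} (h : Γ.u i = -1) (o : Ω) : Γ.arc o i = Γ.st o (i - 1) := by
  rw [arc, tau_of_neg _ h, st]

/-- … to the head `y • arc o i = ι (g i) • st o i` -/
theorem y_arc_of_neg {i : ℤ} (h : Γ.u i = -1) (o : Ω) :
    (y : FF A) • Γ.arc o i = ι (Γ.g i) • Γ.st o i := by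
  rw [arc, st, p_of_neg _ h, mul_inv_rev, mul_inv_rev, mul_smul, mul_smul, smul_inv_smul, inv_inv]

/-- a letter with `u i = 1` passes its arc from the head `y • arc o i = st o (i - 1)` … -/
theorem y_arc_of_pos {i : ℤ} (h : Γ.u i = 1) (o : Ω) :
    (y : FF A) • Γ.arc o i = Γ.st o (i - 1) := by
  rw [arc, tau_of_pos _ h, st, mul_inv_rev, mul_smul, smul_inv_smul]

/-- … to the tail `arc o i = ι (g i) • st o i` -/
theorem arc_of_pos {i : ℤ} (h : Γ.u i = 1) (o : Ω) : Γ.arc o i = ι (Γ.g i) • Γ.st o i := by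
  rw [arc, st, p_of_pos _ h, mul_inv_rev, mul_smul, smul_inv_smul]

/-- the same geodesic with period `s * m` -/
def pow (s : ℕ) (hs : 0 < s) : Geo A where
  m := s * Γ.m
  hm := Nat.mul_pos hs Γ.hm
  u := Γ.u
  g := Γ.g
  uper i := by
    have := Γ.u_add i s
    push_cast
    exact this
  gper i := by
    have := Γ.g_add i s
    push_cast
    exact this
  red := Γ.red
  p := Γ.p
  p0 := Γ.p0
  pS := Γ.pS

theorem pow_w (s : ℕ) (hs : 0 < s) : (Γ.pow s hs).w = Γ.w ^ s := by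
  have := Γ.p_add_mul 0 s
  simp only [zero_add, Γ.p0, mul_one, zpow_natCast] at this
  show Γ.p ((s * Γ.m : ℕ) : ℤ) = _
  rw [← this]
  push_cast
  rfl

end Geo

/-- `φ` kills the elements `h⁻¹ w h`, for the points `h N` of `S` -/
def Kill (w : FF A) (N : Subgroup (FF A)) (S : Finset (FF A ⧸ N))
    (φ : N →* Multiplicative ℚ) : Prop :=
  ∀ h : FF A, (h : FF A ⧸ N) ∈ S → ∀ hn : h⁻¹ * w * h ∈ N, φ ⟨h⁻¹ * w * h, hn⟩ = 1

/-- a set of points on which `A` acts freely, in different `A`-orbits, which lie on strands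
through `S` -/
def Used (Γ : Geo A) {Ω : Type} [MulAction (FF A) Ω] (S V : Finset Ω) : Prop :=
  (∀ v ∈ V, ∀ a : A, ι a • v = v → a = 1) ∧
    (∀ v ∈ V, ∃ o ∈ S, ∃ i : ℤ, ∃ a : A, ι a • v = Γ.st o i) ∧
    ∀ v ∈ V, ∀ v' ∈ V, (∃ a : A, ι a • v = v') → v = v'

/-- `j` is the index `i` up to the period -/
def Geo.Eqm (Γ : Geo A) (i j : ℤ) : Prop := ∃ s : ℤ, j = i + s * Γ.m

/-! ### cones -/

/-- the positive cone of a right invariant total order of the set of the cosets `C g` -/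
structure IsCone {F : Type} [Group F] (C : Subgroup F) (P : Set F) : Prop where
  mul : ∀ a ∈ P, ∀ b ∈ P, a * b ∈ P
  left : ∀ c ∈ C, ∀ a ∈ P, c * a ∈ P
  right : ∀ a ∈ P, ∀ c ∈ C, a * c ∈ P
  tri : ∀ a, a ∈ P ∨ a ∈ C ∨ a⁻¹ ∈ P
  disj : ∀ a ∈ P, a ∉ C
  anti : ∀ a ∈ P, a⁻¹ ∉ P

/-! ### the classes of the dimension lemma -/

section Cls

variable {Ω : Type} [MulAction (FF A) Ω]

/-- one step: by an element of `A`, or along an arc which is not in `S` -/
def stp (S : Finset Ω) (a b : Ω) : Prop := (∃ x : A, b = ι x • a) ∨ (b = (y : FF A) • a ∧ a ∉ S)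

/-- the components of the complement of the set `S` of arcs -/
def cls (S : Finset Ω) : Setoid Ω := Relation.EqvGen.setoid (stp (A := A) S)

/-- the class of a point -/
def cl (S : Finset Ω) (o : Ω) : Quotient (cls (A := A) S) := Quotient.mk _ o

/-- a class which carries a cocycle that is not a coboundary -/
def Soft (S : Finset Ω) (q : Quotient (cls (A := A) S)) : Prop :=
  ∃ κ : FF A → Ω → ℚ, IsACoc κ ∧ (∀ a o, cl (A := A) S o ≠ q → κ (ι a) o = 0) ∧
    (∀ o, cl (A := A) S o ≠ q → κ y o = 0) ∧ (∀ o ∈ S, κ y o = 0) ∧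
    ¬ ∃ μ : Ω → ℚ, (∀ a o, cl (A := A) S o = q → κ (ι a) o = μ (ι a • o) - μ o) ∧
      ∀ o, cl (A := A) S o = q → o ∉ S → κ y o = μ ((y : FF A) • o) - μ o

end Cls

end Pool.Agent.LOTI
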