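import Pool.Agent.Lib.LOTI.Coc1

/-!
# The dimension lemma (1.7)

PROOF. Let `Q = Quotient (cls S)`.
(1) `Q` is finite: every class contains `f` or `y • f` for some `f ∈ S`: the action is transitive and
`FF A` is generated by `ι A` and `y`, so all points are equivalent under the equivalence relation
generated by `o ~ ι a • o`, `o ~ y • o` (all `o`); if a class `q` contains no `f`, `y • f` with `f ∈ S` then `q`
is closed under these relations, so `q` is everything, and `S.Nonempty` gives a contradiction
(`meet` below; so `f ↦ cl f`, `f ↦ cl (y • f)` cover `Q`).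
(2) For every soft class `q` choose a cocycle `κ_q`. Parameters: `η : S → ℚ`, `s : {q // q ∉ T} → ℚ` (all classes
outside `T` are soft), `c_{η,s} = Σ_q s_q κ_q + c_η`, where `c_η` is the cocycle with `c_η (ι a) = 0`, `c_η y o = η o`
for `o ∈ S`, `0` otherwise (`exists_acoc`; linear in `η`: e.g. choose the cocycles `c_f` for `f ∈ S` and put
`c_η = Σ_f η_f c_f`). The map `(η, s) ↦ (c (W.1) (W.2))_W` into `W → ℚ` is linear, so its kernel `Z` has
dimension `≥ |S| + |Q| - |T| - |W| ≥ |Q| > |Q| - 1`.
(3) Suppose that for all `(η, s) ∈ Z`: `c n o₀ = 0` for all `n ∈ stabilizer o₀`. Define `μ (g • o₀) = c g o₀` (well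
defined), then `c h o = μ (h • o) - μ o` for all `h, o`. On a soft class `q`, `c = s_q κ_q` on `ι a`, and on
`y` outside `S`; so `s_q = 0` (otherwise `μ / s_q` contradicts the choice of `κ_q`). Then `μ` is invariant
under `ι a`, and under `y` outside `S`, so it is constant on the classes: `μ = μ' ∘ cl`, `μ' (cl o₀) = 0`,
`η f = μ' (cl (y • f)) - μ' (cl f)`. So `(η, s)` is in the image of the linear map from
`{μ' : Q → ℚ | μ' (cl o₀) = 0}` (dimension `|Q| - 1`): `Z` would have dimension `≤ |Q| - 1`, contradiction.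
-/

set_option autoImplicit false

open scoped Classical

namespace Pool.Agent.LOTI

variable {A : Type} [Group A]

private theorem cl_ι {Ω : Type} [MulAction (FF A) Ω] (S : Finset Ω) (a : A) (o : Ω) :
    cl (A := A) S (ι a • o) = cl (A := A) S o := by
  refine Quotient.sound ?_
  exact Relation.EqvGen.symm _ _ (Relation.EqvGen.rel _ _ (Or.inl ⟨a, rfl⟩))

private theorem cl_y {Ω : Type} [MulAction (FF A) Ω] (S : Finset Ω) {o : Ω} (ho : o ∉ S) :
    cl (A := A) S ((y : FF A) • o) = cl (A := A) S o := by
  refine Quotient.sound ?_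
  exact Relation.EqvGen.symm _ _ (Relation.EqvGen.rel _ _ (Or.inr ⟨rfl, ho⟩))

theorem meet {Ω : Type} [MulAction (FF A) Ω] [MulAction.IsPretransitive (FF A) Ω] (S : Finset Ω)
    (hS : S.Nonempty) (q : Quotient (cls (A := A) S)) :
    ∃ f ∈ S, cl (A := A) S f = q ∨ cl (A := A) S ((y : FF A) • f) = q := by
  by_contra hcon
  have hcon' : ∀ f ∈ S, cl (A := A) S f ≠ q ∧ cl (A := A) S ((y : FF A) • f) ≠ q := by
    intro f hf
    constructor
    · intro h
      exact hcon ⟨f, hf, Or.inl h⟩
    · intro h
      exact hcon ⟨f, hf, Or.inr h⟩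
  have key : ∀ g : FF A, ∀ o : Ω, cl (A := A) S (g • o) = q ↔ cl (A := A) S o = q := by
    intro g
    induction g using FF_induction with
    | h1 a =>
      intro o
      rw [cl_ι]
    | h2 =>
      intro o
      by_cases ho : o ∈ S
      · exact ⟨fun h => absurd h (hcon' o ho).2, fun h => absurd h (hcon' o ho).1⟩
      · rw [cl_y S ho]
    | h3 g h hg hh =>
      intro o
      rw [mul_smul, hg, hh]
    | h4 g hg =>
      intro o
      rw [← hg (g⁻¹ • o), smul_inv_smul]
  obtain ⟨f, hf⟩ := hS
  obtain ⟨o, ho⟩ := Quotient.exists_rep q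
  obtain ⟨g, hg⟩ := MulAction.exists_smul_eq (FF A) o f
  have h1 : cl (A := A) S o = q := ho
  have h2 := (key g o).2 h1
  rw [hg] at h2
  exact (hcon' f hf).1 h2

theorem dim {Ω : Type} [MulAction (FF A) Ω] [MulAction.IsPretransitive (FF A) Ω] (S : Finset Ω)
    (hS : S.Nonempty) (T : Finset (Quotient (cls (A := A) S)))
    (hT : ∀ q, ¬ Soft (A := A) S q → q ∈ T) (W : Finset (FF A × Ω))
    (h : T.card + W.card ≤ S.card) (o₀ : Ω) :
    ∃ c : FF A → Ω → ℚ, IsACoc c ∧ (∀ x ∈ W, c x.1 x.2 = 0) ∧
      ∃ n ∈ MulAction.stabilizer (FF A) o₀, c n o₀ ≠ 0 := by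
  have hfin : Finite (Quotient (cls (A := A) S)) := by
    refine Finite.of_surjective (fun x : S × Bool =>
      if x.2 then cl (A := A) S (x.1 : Ω) else cl (A := A) S ((y : FF A) • (x.1 : Ω))) ?_
    intro q
    obtain ⟨f, hf, h1 | h1⟩ := meet S hS q
    · exact ⟨(⟨f, hf⟩, true), by simpa using h1⟩
    · exact ⟨(⟨f, hf⟩, false), by simpa using h1⟩
  have : Fintype (Quotient (cls (A := A) S)) := Fintype.ofFinite _
  have hsoft : ∀ q : ↥(Tᶜ), Soft (A := A) S (q : Quotient (cls (A := A) S)) := by
    intro q
    by_contra hns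
    exact (Finset.mem_compl.1 q.2) (hT _ hns)
  choose κ hκ1 hκ2 hκ3 hκ4 hκ5 using hsoft
  have hex : ∀ f : S, ∃ c : FF A → Ω → ℚ, IsACoc c ∧ (∀ a o, c (ι a) o = 0) ∧
      ∀ o, c y o = if o = (f : Ω) then 1 else 0 := by
    intro f
    exact exists_acoc (fun _ _ => 0) (fun _ _ _ => by simp) _
  choose e he1 he2 he3 using hex
  let C : ((S → ℚ) × (↥(Tᶜ) → ℚ)) →ₗ[ℚ] (FF A → Ω → ℚ) :=
    { toFun := fun v g o => ∑ f, v.1 f * e f g o + ∑ q, v.2 q * κ q g o
      map_add' := by
        intro v w
        funext g o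
        simp only [Prod.fst_add, Prod.snd_add, Pi.add_apply, add_mul, Finset.sum_add_distrib]
        ring
      map_smul' := by
        intro r v
        funext g o
        simp only [Prod.smul_fst, Prod.smul_snd, Pi.smul_apply, smul_eq_mul, RingHom.id_apply,
          mul_add, Finset.mul_sum, mul_assoc] }
  have hC : ∀ v g o, C v g o = ∑ f, v.1 f * e f g o + ∑ q, v.2 q * κ q g o := fun _ _ _ => rfl
  have hCc : ∀ v, IsACoc (C v) := by
    intro v g h o
    rw [hC, hC, hC]
    have h1 : ∀ f, v.1 f * e f (g * h) o = v.1 f * e f g (h • o) + v.1 f * e f h o := by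
      intro f
      rw [he1 f g h o, mul_add]
    have h2 : ∀ q, v.2 q * κ q (g * h) o = v.2 q * κ q g (h • o) + v.2 q * κ q h o := by
      intro q
      rw [hκ1 q g h o, mul_add]
    simp only [h1, h2, Finset.sum_add_distrib]
    ring
  have hCι : ∀ v a o, C v (ι a) o = ∑ q, v.2 q * κ q (ι a) o := by
    intro v a o
    rw [hC, Finset.sum_eq_zero (fun f _ => by rw [he2, mul_zero]), zero_add]
  have hCy : ∀ v o, o ∉ S → C v y o = ∑ q, v.2 q * κ q y o := by
    intro v o ho
    have h1 : ∀ f : S, v.1 f * e f y o = 0 := by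
      intro f
      have h2 : ¬ o = (f : Ω) := by
        intro h
        apply ho
        rw [h]
        exact f.2
      rw [he3, if_neg h2, mul_zero]
    rw [hC, Finset.sum_eq_zero (fun f _ => h1 f), zero_add]
  have hCS : ∀ v (f : S), C v y (f : Ω) = v.1 f := by
    intro v f
    rw [hC, Finset.sum_eq_zero (s := (Finset.univ : Finset ↥(Tᶜ))) (fun q _ => by
      rw [hκ4 q f f.2, mul_zero]), add_zero, Finset.sum_eq_single f]
    · rw [he3, if_pos rfl, mul_one]
    · intro f' _ hne
      rw [he3, if_neg (fun h => hne (Subtype.ext h.symm)), mul_zero]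
    · intro h
      exact absurd (Finset.mem_univ _) h
  let L : ((S → ℚ) × (↥(Tᶜ) → ℚ)) →ₗ[ℚ] (W → ℚ) :=
    { toFun := fun v w => C v w.1.1 w.1.2
      map_add' := by
        intro v w
        funext x
        rw [map_add]
        rfl
      map_smul' := by
        intro r v
        funext x
        rw [map_smul]
        rfl }
  let D : (Quotient (cls (A := A) S) → ℚ) →ₗ[ℚ] ((S → ℚ) × (↥(Tᶜ) → ℚ)) :=
    { toFun := fun μ => (fun f => μ (cl (A := A) S ((y : FF A) • (f : Ω))) -
        μ (cl (A := A) S (f : Ω)), 0)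
      map_add' := by
        intro μ ν
        refine Prod.ext ?_ ?_
        · funext f
          simp only [Pi.add_apply, Prod.fst_add]
          ring
        · simp
      map_smul' := by
        intro r μ
        refine Prod.ext ?_ ?_
        · funext f
          simp only [Pi.smul_apply, smul_eq_mul, RingHom.id_apply, Prod.smul_fst]
          ring
        · simp }
  by_contra hcon
  have hcon' : ∀ v, L v = 0 → ∀ n ∈ MulAction.stabilizer (FF A) o₀, C v n o₀ = 0 := by
    intro v hv n hn
    by_contra hne
    exact hcon ⟨C v, hCc v, fun x hx => congrFun hv ⟨x, hx⟩, n, hn, hne⟩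
  let K : Submodule ℚ (Quotient (cls (A := A) S) → ℚ) :=
    LinearMap.ker (LinearMap.proj (R := ℚ) (φ := fun _ => ℚ) (cl (A := A) S o₀))
  have hZ : LinearMap.ker L ≤ K.map D := by
    intro v hv
    have hL : L v = 0 := hv
    have h0 := hcon' v hL
    have hc := hCc v
    have hwd : ∀ g g' : FF A, g • o₀ = g' • o₀ → C v g o₀ = C v g' o₀ := by
      intro g g' hgg
      have h1 : g'⁻¹ * g ∈ MulAction.stabilizer (FF A) o₀ := by
        rw [MulAction.mem_stabilizer_iff, mul_smul, hgg, inv_smul_smul]
      have h2 := hc g' (g'⁻¹ * g) o₀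
      rw [mul_inv_cancel_left, MulAction.mem_stabilizer_iff.1 h1, h0 _ h1, add_zero] at h2
      exact h2
    choose γ hγ using fun o : Ω => MulAction.exists_smul_eq (FF A) o₀ o
    let μ : Ω → ℚ := fun o => C v (γ o) o₀
    have hμ : ∀ h o, C v h o = μ (h • o) - μ o := by
      intro h o
      have h1 := hc h (γ o) o₀
      rw [hγ o] at h1
      have h2 : C v (h * γ o) o₀ = μ (h • o) := hwd _ _ (by rw [mul_smul, hγ, hγ])
      rw [h2] at h1
      have h3 : μ o = C v (γ o) o₀ := rfl
      rw [h3]
      linarith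
    have hs : v.2 = 0 := by
      funext q
      by_contra hq
      have hq' : v.2 q ≠ 0 := hq
      have hsum1 : ∀ a o, cl (A := A) S o = q → C v (ι a) o = v.2 q * κ q (ι a) o := by
        intro a o ho
        rw [hCι, Finset.sum_eq_single q]
        · intro q' _ hne
          rw [hκ2 q' a o (fun h => hne (Subtype.ext (h.symm.trans ho))), mul_zero]
        · intro h
          exact absurd (Finset.mem_univ _) h
      have hsum2 : ∀ o, cl (A := A) S o = q → o ∉ S → C v y o = v.2 q * κ q y o := by
        intro o ho hoS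
        rw [hCy v o hoS, Finset.sum_eq_single q]
        · intro q' _ hne
          rw [hκ3 q' o (fun h => hne (Subtype.ext (h.symm.trans ho))), mul_zero]
        · intro h
          exact absurd (Finset.mem_univ _) h
      apply hκ5 q
      refine ⟨fun o => (v.2 q)⁻¹ * μ o, ?_, ?_⟩
      · intro a o ho
        have h1 := hsum1 a o ho
        rw [hμ] at h1
        rw [← mul_sub, h1, inv_mul_cancel_left₀ hq']
      · intro o ho hoS
        have h1 := hsum2 o ho hoS
        rw [hμ] at h1
        rw [← mul_sub, h1, inv_mul_cancel_left₀ hq']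
    have hstp : ∀ a b, stp (A := A) S a b → μ a = μ b := by
      rintro a b (⟨x, rfl⟩ | ⟨rfl, haS⟩)
      · have h1 := hCι v x a
        rw [hs] at h1
        simp only [Pi.zero_apply, zero_mul, Finset.sum_const_zero] at h1
        rw [hμ] at h1
        linarith
      · have h1 := hCy v a haS
        rw [hs] at h1
        simp only [Pi.zero_apply, zero_mul, Finset.sum_const_zero] at h1
        rw [hμ] at h1
        linarith
    have heqv : ∀ a b, Relation.EqvGen (stp (A := A) S) a b → μ a = μ b := by
      intro a b hab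
      induction hab with
      | rel a b h => exact hstp a b h
      | refl a => rfl
      | symm a b _ ih => exact ih.symm
      | trans a b c _ _ ih1 ih2 => exact ih1.trans ih2
    let μ' : Quotient (cls (A := A) S) → ℚ := Quotient.lift μ heqv
    have hμ' : ∀ o, μ' (cl (A := A) S o) = μ o := fun _ => rfl
    refine Submodule.mem_map.2 ⟨μ', ?_, ?_⟩
    · change μ' (cl (A := A) S o₀) = 0
      rw [hμ']
      exact h0 _ (MulAction.mem_stabilizer_iff.2 (hγ o₀))
    · refine Prod.ext ?_ ?_
      · funext f
        change μ' (cl (A := A) S ((y : FF A) • (f : Ω))) - μ' (cl (A := A) S (f : Ω)) = v.1 f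
        rw [hμ', hμ', ← hμ, hCS]
      · exact hs.symm
  have hK : Module.finrank ℚ K < Fintype.card (Quotient (cls (A := A) S)) := by
    rw [← Module.finrank_fintype_fun_eq_card ℚ]
    refine Submodule.finrank_lt ?_
    intro htop
    have h1 : (fun _ => 1 : Quotient (cls (A := A) S) → ℚ) ∈ K := by
      rw [htop]
      trivial
    have h2 : (1 : ℚ) = 0 := h1
    exact one_ne_zero h2
  have h1 := Submodule.finrank_mono hZ
  have h2 := Submodule.finrank_map_le D K
  have h3 := LinearMap.finrank_range_add_finrank_ker L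
  have h4 := Submodule.finrank_le (LinearMap.range L)
  rw [Module.finrank_fintype_fun_eq_card, Fintype.card_coe] at h4
  rw [Module.finrank_prod, Module.finrank_fintype_fun_eq_card,
    Module.finrank_fintype_fun_eq_card, Fintype.card_coe, Fintype.card_coe,
    Finset.card_compl] at h3
  have h5 : T.card ≤ Fintype.card (Quotient (cls (A := A) S)) := Finset.card_le_univ T
  omega

end Pool.Agent.LOTI
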