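import Pool.Agent.Lib.LOTI.Defs

/-!
# Counting ends (1.12, case A)

PROOF. `S = {o}`, `Σ = Γ.arcs {o} = {arc o i | i : ℤ}` (period `m`). Ends: elements of `Σ × Bool`; the end `(f, true)` (head) is at the point
`y • f`, the end `(f, false)` (tail) at the point `f`. Arrival end of the letter `i`: `arr i = (arc o i, true)` if `u i = -1`, `(arc o i, false)` if `u i = 1`; it is at
the point `ι (g i) • st o i`. Departure end: `dep i = (arc o i, false)` if `u i = -1`, `(arc o i, true)` if `u i = 1`; it is at the point `st o (i-1)`.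
(1) If `A` acts freely at `st o i` then `arr i ≠ dep (i+1)`: otherwise `u (i+1) ≠ u i`, and the points are equal, `ι (g i) • st o i = st o i`, so `g i = 1`,
    `u (i+1) = u i` by `red`.
Suppose `(arcs {o}).card ≤ V.card` (else the first alternative holds). Every `v ∈ V` is in the `A`-orbit of some `st o i`, so it has at least two ends
in its orbit (`arr i`, `dep (i+1)`); different `v` have disjoint sets of ends; the number of ends is `2 |Σ| ≤ 2 |V|`. So:
(2) every end is in the orbit of a `v ∈ V`, and every such orbit contains exactly two ends. In particular `A` acts freely at all `st o i`, and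
    `{arr i, dep (i+1)}` is the set of the ends in the orbit of `st o i`. Hence
    (a) `arr i = arr j → dep (i+1) = dep (j+1)`; (b) `arr i = dep (j+1) → dep (i+1) = arr j`.
By `h2` (for the letter `0`) there is `j`, not `Eqm 0 j`, with `arc o j = arc o 0`. (Or: use any pair `i`, `j`.)
(3) `u i = u j`, `arc o i = arc o j` (`i`, `j` not `Eqm`): then `arr i = arr j`, by (a) `dep (i+1) = dep (j+1)`, so `u (i+1) = u (j+1)`, same arcs; by
    induction for all `q : ℕ` `u (i+q) = u (j+q)`, `arc o (i+q) = arc o (j+q)`, by periodicity for all `q : ℤ` (`q` and `q + s m`). The points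
    `st o (i+q-1) = st o (j+q-1)` (points of the departure ends), the points `ι (g (i+q)) • st o (i+q) = ι (g (j+q)) • st o (j+q)` (arrival ends), so
    `g (i+q) = g (j+q)` by freeness. So `d = j - i` is as in the second alternative (`m ∤ d` because not `Eqm i j`).
(4) `u i ≠ u j`, `arc o i = arc o j`: wlog `i < j`. `arr i = dep j`, by (b) (with `j - 1` for `j`) `dep (i+1) = arr (j-1)`, i.e. the letters `i+1` and `j-1` are on
    the same arc with different `u`; by induction the letters `i+q`, `j-q`, `q : ℕ`. `j - i = 2q`: the letter `i+q` has `u ≠ u`, contradiction.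
    `j - i = 2q+1`: the letters `i+q` and `i+q+1`: `arr (i+q) = dep (i+q+1)`, contradiction to (1).
-/

set_option autoImplicit false

open scoped Classical

namespace Pool.Agent.LOTI

variable {A : Type} [Group A]

/-- the arrival end of a letter -/
private noncomputable def earr (Γ : Geo A) {Ω : Type} [MulAction (FF A) Ω] (o : Ω) (i : ℤ) :
    Ω × Bool := (Γ.arc o i, decide (Γ.u i = -1))

/-- the departure end of a letter -/
private noncomputable def edep (Γ : Geo A) {Ω : Type} [MulAction (FF A) Ω] (o : Ω) (i : ℤ) :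
    Ω × Bool := (Γ.arc o i, decide (Γ.u i = 1))

/-- the point of an end -/
private noncomputable def ept {Ω : Type} [MulAction (FF A) Ω] (e : Ω × Bool) : Ω :=
  if e.2 = true then (y : FF A) • e.1 else e.1

private theorem ept_arr (Γ : Geo A) {Ω : Type} [MulAction (FF A) Ω] (o : Ω) (i : ℤ) :
    ept (A := A) (earr Γ o i) = ι (Γ.g i) • Γ.st o i := by
  rcases Int.units_eq_one_or (Γ.u i) with h | h
  · have h' : ¬ (Γ.u i = -1) := by rw [h]; decide
    unfold ept earr
    simp only [h', decide_false, Bool.false_eq_true, if_false]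
    exact Γ.arc_of_pos h o
  · unfold ept earr
    simp only [h, decide_true, if_true]
    exact Γ.y_arc_of_neg h o

private theorem ept_dep (Γ : Geo A) {Ω : Type} [MulAction (FF A) Ω] (o : Ω) (i : ℤ) :
    ept (A := A) (edep Γ o i) = Γ.st o (i - 1) := by
  rcases Int.units_eq_one_or (Γ.u i) with h | h
  · unfold ept edep
    simp only [h, decide_true, if_true]
    exact Γ.y_arc_of_pos h o
  · have h' : ¬ (Γ.u i = 1) := by rw [h]; decide
    unfold ept edep
    simp only [h', decide_false, Bool.false_eq_true, if_false]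
    exact Γ.arc_of_neg h o

private theorem u_of_dec {a b : ℤˣ} (h : decide (a = -1) = decide (b = 1)) : a ≠ b := by
  rintro rfl
  rcases Int.units_eq_one_or a with h1 | h1 <;> subst h1 <;> revert h <;> decide

private theorem dec_swap {a b : ℤˣ} (h : decide (a = 1) = decide (b = -1)) :
    decide (a = -1) = decide (b = 1) := by
  rcases Int.units_eq_one_or a with h1 | h1 <;> rcases Int.units_eq_one_or b with h2 | h2 <;>
    subst h1 <;> subst h2 <;> revert h <;> decide

private theorem dec_of_ne {a b : ℤˣ} (h : a ≠ b) : decide (a = -1) = decide (b = 1) := by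
  rcases Int.units_eq_one_or a with h1 | h1 <;> rcases Int.units_eq_one_or b with h2 | h2 <;>
    subst h1 <;> subst h2 <;> revert h <;> decide

private theorem eq_of_dec {a b : ℤˣ} (h : decide (a = 1) = decide (b = 1)) : a = b := by
  rcases Int.units_eq_one_or a with h1 | h1 <;> rcases Int.units_eq_one_or b with h2 | h2 <;>
    subst h1 <;> subst h2 <;> revert h <;> decide

private theorem arr_ne_dep (Γ : Geo A) {Ω : Type} [MulAction (FF A) Ω] (o : Ω) (i : ℤ)
    (hf : ∀ a : A, ι a • Γ.st o i = Γ.st o i → a = 1) : earr Γ o i ≠ edep Γ o (i + 1) := by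
  intro h
  have h1 := congrArg (ept (A := A)) h
  rw [ept_arr, ept_dep, add_sub_cancel_right] at h1
  have h2 := Γ.red i (hf _ h1)
  have h3 : decide (Γ.u i = -1) = decide (Γ.u (i + 1) = 1) := congrArg Prod.snd h
  exact u_of_dec h3 h2.symm

private theorem mem_arcs (Γ : Geo A) {Ω : Type} [MulAction (FF A) Ω] (o : Ω)
    (ho : Γ.w • o = o) (i : ℤ) : Γ.arc o i ∈ Γ.arcs {o} := by
  unfold Geo.arcs
  refine Finset.mem_image.2 ⟨(o, (i % Γ.m).toNat), ?_, ?_⟩
  · refine Finset.mem_product.2 ⟨Finset.mem_singleton_self _, Finset.mem_range.2 ?_⟩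
    have hm : (0 : ℤ) < Γ.m := by exact_mod_cast Γ.hm
    have h1 := Int.emod_nonneg i hm.ne'
    have h2 := Int.emod_lt_of_pos i hm
    show (i % Γ.m).toNat < Γ.m
    omega
  · have hm : (0 : ℤ) < Γ.m := by exact_mod_cast Γ.hm
    have h1 := Int.emod_nonneg i hm.ne'
    show Γ.arc o (((i % Γ.m).toNat : ℕ) : ℤ) = Γ.arc o i
    rw [Int.toNat_of_nonneg h1]
    have h3 := Γ.arc_add ho (i % Γ.m) (i / Γ.m)
    rw [← h3]
    congr 1
    have := Int.emod_add_mul_ediv i Γ.m
    rw [mul_comm] at this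
    exact this

private theorem full (Γ : Geo A) {Ω : Type} [MulAction (FF A) Ω] (o : Ω) (ho : Γ.w • o = o)
    (V : Finset Ω) (hV : Used Γ {o} V) (hle : (Γ.arcs {o}).card ≤ V.card) :
    (∀ i : ℤ, ∀ a : A, ι a • Γ.st o i = Γ.st o i → a = 1) ∧
      ∀ i : ℤ, ∀ e : Ω × Bool, e.1 ∈ Γ.arcs {o} →
        (∃ a : A, ept (A := A) e = ι a • Γ.st o i) → e = earr Γ o i ∨ e = edep Γ o (i + 1) := by
  obtain ⟨hfree, hpos, hinj⟩ := hV
  have hpos' : ∀ v ∈ V, ∃ i : ℤ, ∃ a : A, ι a • v = Γ.st o i := by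
    intro v hv
    obtain ⟨o', ho', h⟩ := hpos v hv
    rw [Finset.mem_singleton] at ho'
    subst ho'
    exact h
  have hI : ∃ I : Ω → ℤ, ∀ v ∈ V, ∃ a : A, ι a • v = Γ.st o (I v) := by
    refine ⟨fun v => if h : v ∈ V then (hpos' v h).choose else 0, ?_⟩
    intro v hv
    simp only [hv, dif_pos]
    exact (hpos' v hv).choose_spec
  obtain ⟨I, hI⟩ := hI
  -- freeness in the orbits of the elements of `V`
  have hfr : ∀ v ∈ V, ∀ x : Ω, (∃ a : A, ι a • v = x) → ∀ b : A, ι b • x = x → b = 1 := by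
    rintro v hv x ⟨a, rfl⟩ b hb
    have h1 : ι (a⁻¹ * b * a) • v = v := by
      rw [map_mul, map_mul, mul_smul, mul_smul, hb, map_inv, inv_smul_smul]
    have h2 := hfree v hv _ h1
    have h3 : b = a * (a⁻¹ * b * a) * a⁻¹ := by group
    rw [h3, h2]
    group
  -- the two ends of a `v`
  let F : Ω × Bool → Ω × Bool := fun x =>
    if x.2 = true then earr Γ o (I x.1) else edep Γ o (I x.1 + 1)
  have hFpt : ∀ x : Ω × Bool, x.1 ∈ V → ∃ a : A, ι a • x.1 = ept (A := A) (F x) := by
    rintro ⟨v, b⟩ hv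
    obtain ⟨a, ha⟩ := hI v hv
    cases b with
    | true =>
      refine ⟨Γ.g (I v) * a, ?_⟩
      show ι (Γ.g (I v) * a) • v = ept (A := A) (earr Γ o (I v))
      rw [ept_arr, map_mul, mul_smul, ha]
    | false =>
      refine ⟨a, ?_⟩
      show ι a • v = ept (A := A) (edep Γ o (I v + 1))
      rw [ept_dep, add_sub_cancel_right, ha]
  have hFinj : Set.InjOn F (V ×ˢ (Finset.univ : Finset Bool) : Finset (Ω × Bool)) := by
    rintro ⟨v, b⟩ hx ⟨v', b'⟩ hx' h
    have hv : v ∈ V := (Finset.mem_product.1 (Finset.mem_coe.1 hx)).1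
    have hv' : v' ∈ V := (Finset.mem_product.1 (Finset.mem_coe.1 hx')).1
    obtain ⟨a, ha⟩ := hFpt (v, b) hv
    obtain ⟨a', ha'⟩ := hFpt (v', b') hv'
    have e1 : v = v' := by
      refine hinj v hv v' hv' ⟨a'⁻¹ * a, ?_⟩
      rw [map_mul, mul_smul]
      have : ι a • v = ι a' • v' := by
        rw [show ι a • v = _ from ha, show ι a' • v' = _ from ha', h]
      rw [this, map_inv, inv_smul_smul]
    subst e1
    have hne := arr_ne_dep Γ o (I v) (hfr v hv _ (hI v hv))
    cases b <;> cases b' <;> first | rfl | exact absurd h hne | exact absurd h.symm hne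
  have hFmap : ∀ x ∈ (V ×ˢ (Finset.univ : Finset Bool) : Finset (Ω × Bool)),
      F x ∈ (Γ.arcs {o} ×ˢ (Finset.univ : Finset Bool) : Finset (Ω × Bool)) := by
    rintro ⟨v, b⟩ hx
    refine Finset.mem_product.2 ⟨?_, Finset.mem_univ _⟩
    cases b with
    | true => exact mem_arcs Γ o ho _
    | false => exact mem_arcs Γ o ho _
  have himg : (V ×ˢ (Finset.univ : Finset Bool)).image F =
      (Γ.arcs {o} ×ˢ (Finset.univ : Finset Bool)) := by
    refine Finset.eq_of_subset_of_card_le ?_ ?_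
    · intro e he
      obtain ⟨x, hx, rfl⟩ := Finset.mem_image.1 he
      exact hFmap x hx
    · rw [Finset.card_image_of_injOn hFinj, Finset.card_product, Finset.card_product]
      exact Nat.mul_le_mul_right _ hle
  have hsurj : ∀ e : Ω × Bool, e.1 ∈ Γ.arcs {o} → ∃ v ∈ V, ∃ b : Bool, F (v, b) = e := by
    intro e he
    have h1 : e ∈ (V ×ˢ (Finset.univ : Finset Bool)).image F := by
      rw [himg]
      exact Finset.mem_product.2 ⟨he, Finset.mem_univ _⟩
    obtain ⟨⟨v, b⟩, hx, rfl⟩ := Finset.mem_image.1 h1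
    exact ⟨v, (Finset.mem_product.1 hx).1, b, rfl⟩
  -- every point of the strand is in the orbit of an element of `V`
  have horb : ∀ i : ℤ, ∃ v ∈ V, ∃ a : A, ι a • v = Γ.st o i := by
    intro i
    obtain ⟨v, hv, b, hb⟩ := hsurj (earr Γ o i) (mem_arcs Γ o ho i)
    obtain ⟨a, ha⟩ := hFpt (v, b) hv
    rw [hb, ept_arr] at ha
    refine ⟨v, hv, (Γ.g i)⁻¹ * a, ?_⟩
    rw [map_mul, mul_smul]
    have ha' : ι a • v = ι (Γ.g i) • Γ.st o i := ha
    rw [ha', map_inv, inv_smul_smul]
  have hfree' : ∀ i : ℤ, ∀ a : A, ι a • Γ.st o i = Γ.st o i → a = 1 := by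
    intro i
    obtain ⟨v, hv, h⟩ := horb i
    exact hfr v hv _ h
  refine ⟨hfree', ?_⟩
  intro i e he hpt
  obtain ⟨v, hv, a, ha⟩ := horb i
  -- an end in the orbit of `v` is one of the two ends of `v`
  have key : ∀ e : Ω × Bool, e.1 ∈ Γ.arcs {o} → (∃ a : A, ept (A := A) e = ι a • Γ.st o i) →
      ∃ b : Bool, F (v, b) = e := by
    rintro e he ⟨c, hc⟩
    obtain ⟨v', hv', b, hb⟩ := hsurj e he
    obtain ⟨a', ha'⟩ := hFpt (v', b) hv'
    rw [hb, hc, ← ha] at ha'
    have ha'' : ι a' • v' = ι c • ι a • v := ha'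
    have e1 : v' = v := by
      refine hinj v' hv' v hv ⟨(c * a)⁻¹ * a', ?_⟩
      rw [map_mul, mul_smul, ha'', ← mul_smul (ι c), ← map_mul, map_inv, inv_smul_smul]
    subst e1
    exact ⟨b, hb⟩
  have hne := arr_ne_dep Γ o i (hfree' i)
  obtain ⟨b1, hb1⟩ := key e he hpt
  obtain ⟨b2, hb2⟩ := key (earr Γ o i) (mem_arcs Γ o ho i) ⟨Γ.g i, ept_arr Γ o i⟩
  obtain ⟨b3, hb3⟩ := key (edep Γ o (i + 1)) (mem_arcs Γ o ho (i + 1)) ⟨1, by
    rw [ept_dep, add_sub_cancel_right, map_one, one_smul]⟩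
  rw [← hb1, ← hb2, ← hb3]
  rw [← hb2, ← hb3] at hne
  cases b1 <;> cases b2 <;> cases b3 <;>
    first | exact Or.inl rfl | exact Or.inr rfl | exact absurd rfl hne

theorem ends (Γ : Geo A) {Ω : Type} [MulAction (FF A) Ω] (o : Ω) (ho : Γ.w • o = o)
    (h2 : ∀ i : ℤ, ∃ j : ℤ, Γ.arc o j = Γ.arc o i ∧ ¬ Γ.Eqm i j)
    (V : Finset Ω) (hV : Used Γ {o} V) :
    V.card + 1 ≤ (Γ.arcs {o}).card ∨
      ∃ d : ℤ, ¬ (Γ.m : ℤ) ∣ d ∧ ∀ q : ℤ, Γ.u (q + d) = Γ.u q ∧ Γ.g (q + d) = Γ.g q ∧
        Γ.st o (q + d) = Γ.st o q := by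
  by_cases hle : V.card + 1 ≤ (Γ.arcs {o}).card
  · exact Or.inl hle
  right
  have hle' : (Γ.arcs {o}).card ≤ V.card := by omega
  obtain ⟨hfree, hkey⟩ := full Γ o ho V hV hle'
  have hne : ∀ i, earr Γ o i ≠ edep Γ o (i + 1) := fun i => arr_ne_dep Γ o i (hfree i)
  -- (a)
  have ha : ∀ i j, earr Γ o i = earr Γ o j → edep Γ o (i + 1) = edep Γ o (j + 1) := by
    intro i j h
    have h1 := congrArg (ept (A := A)) h
    rw [ept_arr, ept_arr] at h1
    rcases hkey i (edep Γ o (j + 1)) (mem_arcs Γ o ho _) ⟨(Γ.g j)⁻¹ * Γ.g i, by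
      rw [ept_dep, add_sub_cancel_right, map_mul, mul_smul, h1, map_inv, inv_smul_smul]⟩ with h2 | h2
    · exact absurd (h2.trans h).symm (hne j)
    · exact h2.symm
  -- (b)
  have hb : ∀ i j, earr Γ o i = edep Γ o (j + 1) → edep Γ o (i + 1) = earr Γ o j := by
    intro i j h
    have h1 := congrArg (ept (A := A)) h
    rw [ept_arr, ept_dep, add_sub_cancel_right] at h1
    rcases hkey j (edep Γ o (i + 1)) (mem_arcs Γ o ho _) ⟨(Γ.g i)⁻¹, by
      rw [ept_dep, add_sub_cancel_right, ← h1, map_inv, inv_smul_smul]⟩ with h2 | h2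
    · exact h2
    · exact absurd (h.trans h2.symm) (hne i)
  -- no two letters in opposite directions
  have hopp : ∀ n : ℕ, ∀ i : ℤ, earr Γ o i ≠ edep Γ o (i + n) := by
    intro n
    induction n using Nat.strong_induction_on with
    | _ n ih =>
      intro i h
      match n, ih, h with
      | 0, _, h =>
        have h3 : decide (Γ.u i = -1) = decide (Γ.u (i + (0 : ℕ)) = 1) := congrArg Prod.snd h
        simp only [Nat.cast_zero, add_zero] at h3
        exact u_of_dec h3 rfl
      | 1, _, h =>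
        refine hne i ?_
        simpa using h
      | n + 2, ih, h =>
        have e1 : i + ((n + 2 : ℕ) : ℤ) = (i + 1 + n) + 1 := by push_cast; ring
        rw [e1] at h
        have h2 := hb _ _ h
        refine ih n (by omega) (i + 1) ?_
        have h3 : Γ.arc o (i + 1) = Γ.arc o (i + 1 + n) := congrArg Prod.fst h2
        have h4 : decide (Γ.u (i + 1) = 1) = decide (Γ.u (i + 1 + n) = -1) := congrArg Prod.snd h2
        exact Prod.ext h3 (dec_swap h4)
  obtain ⟨j, hj, hjm⟩ := h2 0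
  have hu : Γ.u 0 = Γ.u j := by
    by_contra hu
    rcases le_total 0 j with h0 | h0
    · obtain ⟨n, hn⟩ := Int.eq_ofNat_of_zero_le h0
      refine hopp n 0 ?_
      have e1 : (0 : ℤ) + (n : ℤ) = j := by rw [hn]; ring
      rw [e1]
      exact Prod.ext hj.symm (dec_of_ne hu)
    · obtain ⟨n, hn⟩ := Int.eq_ofNat_of_zero_le (show (0 : ℤ) ≤ -j by omega)
      refine hopp n j ?_
      have e1 : j + (n : ℤ) = 0 := by
        have : (n : ℤ) = -j := hn.symm
        rw [this]; ring
      rw [e1]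
      exact Prod.ext hj (dec_of_ne fun h => hu h.symm)
  have hnat : ∀ q : ℕ, earr Γ o q = earr Γ o (q + j) := by
    intro q
    induction q with
    | zero =>
      have e1 : ((0 : ℕ) : ℤ) + j = j := by simp
      rw [e1]
      refine Prod.ext ?_ ?_
      · show Γ.arc o ((0 : ℕ) : ℤ) = Γ.arc o j
        rw [hj]
        rfl
      · show decide (Γ.u ((0 : ℕ) : ℤ) = -1) = decide (Γ.u j = -1)
        rw [← hu]
        rfl
    | succ q ih =>
      have h3 := ha _ _ ih
      have e1 : ((q + 1 : ℕ) : ℤ) = (q : ℤ) + 1 := by push_cast; ring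
      have e2 : ((q + 1 : ℕ) : ℤ) + j = (q : ℤ) + j + 1 := by push_cast; ring
      rw [e2, e1]
      have h4 : Γ.arc o ((q : ℤ) + 1) = Γ.arc o ((q : ℤ) + j + 1) := congrArg Prod.fst h3
      have h5 : decide (Γ.u ((q : ℤ) + 1) = 1) = decide (Γ.u ((q : ℤ) + j + 1) = 1) :=
        congrArg Prod.snd h3
      refine Prod.ext h4 ?_
      show decide (Γ.u ((q : ℤ) + 1) = -1) = decide (Γ.u ((q : ℤ) + j + 1) = -1)
      rw [eq_of_dec h5]
  have hdata : ∀ q : ℤ, Γ.arc o q = Γ.arc o (q + j) ∧ Γ.u q = Γ.u (q + j) := by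
    intro q
    -- shift by a multiple of the period
    have hm : (0 : ℤ) < Γ.m := by exact_mod_cast Γ.hm
    have h0 : 0 ≤ q % Γ.m := Int.emod_nonneg q hm.ne'
    obtain ⟨n, hn⟩ := Int.eq_ofNat_of_zero_le h0
    have hq : q = n + (q / Γ.m) * Γ.m := by
      have h5 := Int.emod_add_mul_ediv q Γ.m
      rw [hn] at h5
      rw [mul_comm]
      exact h5.symm
    have e2 : q + j = (n + j) + (q / Γ.m) * Γ.m := by
      have h6 : (q + j : ℤ) = (n + (q / Γ.m) * Γ.m) + j := by rw [← hq]
      rw [h6]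
      ring
    have h7 := hnat n
    have h8 : Γ.arc o (n : ℤ) = Γ.arc o ((n : ℤ) + j) := congrArg Prod.fst h7
    have h9 : decide (Γ.u (n : ℤ) = -1) = decide (Γ.u ((n : ℤ) + j) = -1) := congrArg Prod.snd h7
    have h10 : Γ.u (n : ℤ) = Γ.u ((n : ℤ) + j) := by
      rcases Int.units_eq_one_or (Γ.u (n : ℤ)) with h1 | h1 <;>
        rcases Int.units_eq_one_or (Γ.u ((n : ℤ) + j)) with h2 | h2 <;>
        rw [h1, h2] at h9 ⊢ <;> revert h9 <;> decide
    constructor
    · rw [e2, Γ.arc_add ho, ← h8]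
      conv_lhs => rw [hq]
      exact Γ.arc_add ho _ _
    · rw [e2, Γ.u_add, ← h10]
      conv_lhs => rw [hq]
      exact Γ.u_add _ _
  have hst : ∀ q : ℤ, Γ.st o q = Γ.st o (q + j) := by
    intro q
    have h3 := hdata (q + 1)
    have h4 : edep Γ o (q + 1) = edep Γ o (q + 1 + j) := by
      refine Prod.ext h3.1 ?_
      show decide (Γ.u (q + 1) = 1) = decide (Γ.u (q + 1 + j) = 1)
      rw [h3.2]
    have h5 := congrArg (ept (A := A)) h4
    rw [ept_dep, ept_dep, add_sub_cancel_right] at h5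
    rw [h5]
    congr 1
    ring
  refine ⟨j, ?_, ?_⟩
  · rintro ⟨s, hs⟩
    refine hjm ⟨s, ?_⟩
    rw [hs]
    ring
  · intro q
    refine ⟨(hdata q).2.symm, ?_, (hst q).symm⟩
    have h4 : earr Γ o q = earr Γ o (q + j) := by
      refine Prod.ext (hdata q).1 ?_
      show decide (Γ.u q = -1) = decide (Γ.u (q + j) = -1)
      rw [(hdata q).2]
    have h5 := congrArg (ept (A := A)) h4
    rw [ept_arr, ept_arr, ← hst q] at h5
    have h6 : ι ((Γ.g (q + j))⁻¹ * Γ.g q) • Γ.st o q = Γ.st o q := by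
      rw [map_mul, mul_smul, h5, map_inv, inv_smul_smul]
    have h7 := hfree q _ h6
    have h8 : Γ.g (q + j) * ((Γ.g (q + j))⁻¹ * Γ.g q) = Γ.g (q + j) * 1 := by rw [h7]
    rw [mul_inv_cancel_left, mul_one] at h8
    exact h8.symm

end Pool.Agent.LOTI
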