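import Pool.Agent.Lib.LOTI.HatLI
import Pool.Agent.Lib.LOTI.Emb
import Pool.Agent.Lib.LOTI.Word

/-!
# LOT groups whose initial graph is disconnected : the theorem

(helper18, problem MP_cf50d6_gt)
-/

set_option autoImplicit false

open scoped Classical

namespace Pool.Agent.LOTI

variable {V E : Type} [Fintype V] [Fintype E]

theorem LOT.ladder_LI (Γ : LOT V E) {c : ℕ} (h : Γ.Ladder c) : LI Γ.Grp :=
  Γ.LI_of_hat (Γ.hat_LI h)

/-- the main theorem -/
theorem LOT.staircase_LI (Γ : LOT V E) {c : ℕ} (h : Γ.Staircase c) : LI Γ.Grp := by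
  have hκ : ∀ e, h.κ (Γ.lab e) = h.κ (Γ.init e) := fun e =>
    (h.comp _ _).2 (Relation.EqvGen.rel _ _ ⟨e, rfl, rfl⟩)
  refine Γ.ladder_LI (c := c)
    { κ := h.κ
      surj := h.surj
      comp := h.comp
      e := h.e
      l := h.l
      b := h.b
      closed := h.closed
      once := h.once
      later := h.later
      low := h.low
      ess := fun i => Γ.ess_of_word _ (fun e => by rw [hκ e]) (h.b i) _ (h.closed i) (h.ess i) }

/-- the theorem for reversed edges -/
theorem LOT.staircase_rev_LI (Γ : LOT V E) {c : ℕ} (h : Γ.rev.Staircase c) : LI Γ.Grp :=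
  Γ.LI_of_rev (Γ.rev.staircase_LI h)

/-- two components -/
theorem LOT.two_LI (Γ : LOT V E) (W : V → Prop) (h1 : ∃ v, W v) (h2 : ∃ v, ¬ W v)
    (hc : ∀ v w, (W v ↔ W w) ↔ Relation.EqvGen Γ.IAdj v w) (e : E) (b : V)
    (l : List (E × Bool)) (hl : Γ.IWalk b l b) (he : (l.map Prod.fst).count e = 1)
    (hw : Γ.word W l ≠ 1) : LI Γ.Grp := by
  have hκ : ∀ v, ((if W v then 1 else 0 : Fin (1 + 1)) = (0 : Fin 1).succ) ↔ W v := by
    intro v
    by_cases h : W v
    · simp [h]
    · simp [h]
  have hκ' : (fun v => (if W v then 1 else 0 : Fin (1 + 1)) = (0 : Fin 1).succ) = W := by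
    funext v; exact propext (hκ v)
  refine Γ.staircase_LI (c := 1)
    { κ := fun v => if W v then 1 else 0
      surj := ?_
      comp := ?_
      e := fun _ => e
      l := fun _ => l
      b := fun _ => b
      closed := fun _ => hl
      once := fun _ => he
      later := fun i j h => absurd h (by omega)
      low := fun i s _ => by
        have : i = 0 := Subsingleton.elim _ _
        subst this
        exact ⟨Fin.le_last _, Fin.le_last _⟩
      ess := fun i => by
        have : i = 0 := Subsingleton.elim _ _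
        subst this
        simp only [hκ']
        exact hw }
  · intro j
    obtain ⟨v, hv⟩ := h1
    obtain ⟨w, hw'⟩ := h2
    fin_cases j
    · exact ⟨w, by simp [hw']⟩
    · exact ⟨v, by simp [hv]⟩
  · intro v w
    rw [← hc]
    by_cases hv : W v <;> by_cases hw' : W w <;> simp [hv, hw']

end Pool.Agent.LOTI
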