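import Pool.Agent.Lib.LOTI.StabFG

/-!
# `A` acts freely on the hard classes (1.8)

PROOF. Let `cl S o = q` be not soft and `ι a • o = o`, `a ≠ 1`. The group
`B = (stabilizer (FF A) o).comap ι` is finitely generated (`stab_fg`) and not trivial, so there is a
homomorphism `α : B →* Multiplicative ℚ` with `α ≠ 1` (`LI A`). As in `StabFG`: `t χ : A` with
`ι (t χ) • o = χ` for `χ` in the orbit `ι A • o`, `t o = 1`; additive cocycle `κ` (`exists_acoc`) with
`κ (ι b) χ = α ((t (b χ))⁻¹ * b * t χ)` on the orbit, `κ (ι b) χ = 0` outside the orbit, `κ y = 0`. The orbit is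
contained in the class of `o`, so `κ (ι b)` vanishes outside `q`. If `κ` were a coboundary of `μ` on `q`:
for `b ∈ B`: `κ (ι b) o = μ (ι b • o) - μ o = 0`, but `κ (ι b) o = α b`; so `α = 1`, contradiction. So `q` is soft.
-/

set_option autoImplicit false

open scoped Classical

namespace Pool.Agent.LOTI

variable {A : Type} [Group A]

theorem free_of_hard (hA : LI A) {Ω : Type} [MulAction (FF A) Ω]
    (hfg : ∀ o : Ω, (MulAction.stabilizer (FF A) o).FG) (S : Finset Ω)
    (q : Quotient (cls (A := A) S)) (hq : ¬ Soft (A := A) S q) (o : Ω) (ho : cl (A := A) S o = q)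
    (a : A) (ha : ι a • o = o) : a = 1 := by
  by_contra hne
  set B : Subgroup A := (MulAction.stabilizer (FF A) o).comap (ι : A →* FF A) with hB
  have hmem : ∀ x : A, x ∈ B ↔ ι x • o = o := fun x => by
    rw [hB, Subgroup.mem_comap, MulAction.mem_stabilizer_iff]
  have hBfg : B.FG := stab_fg o (hfg o)
  have hBne : B ≠ ⊥ := by
    intro h
    have h1 : a ∈ B := (hmem a).2 ha
    rw [h] at h1
    exact hne (Subgroup.mem_bot.1 h1)
  have hex : ∃ α : B →* Multiplicative ℚ, α ≠ 1 := by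
    by_contra hcon
    push Not at hcon
    exact hBne (hA B hBfg hcon)
  obtain ⟨α, hα⟩ := hex
  -- the function beta
  obtain ⟨β, hβ⟩ : ∃ β : A → ℚ, ∀ x (hx : x ∈ B), β x = Multiplicative.toAdd (α ⟨x, hx⟩) :=
    ⟨fun x => if hx : x ∈ B then Multiplicative.toAdd (α ⟨x, hx⟩) else 0, fun x hx => by
      simp only [dif_pos hx]⟩
  have hβm : ∀ x z : A, x ∈ B → z ∈ B → β (x * z) = β x + β z := by
    intro x z hx hz
    rw [hβ x hx, hβ z hz, hβ (x * z) (B.mul_mem hx hz)]
    rw [← toAdd_mul, ← map_mul]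
    rfl
  -- the transversal
  obtain ⟨t, ht, hto⟩ : ∃ t : Ω → A, (∀ χ, (∃ x : A, ι x • o = χ) → ι (t χ) • o = χ) ∧ t o = 1 := by
    refine ⟨fun χ => if χ = o then 1 else
      if h : ∃ x : A, ι x • o = χ then h.choose else 1, ?_, by simp⟩
    intro χ h
    by_cases h1 : χ = o
    · simp [h1]
    · simp only [if_neg h1, dif_pos h]
      exact h.choose_spec
  have horb : ∀ (b : A) (χ : Ω), (∃ x : A, ι x • o = χ) ↔ ∃ x : A, ι x • o = ι b • χ := by
    intro b χ
    constructor
    · rintro ⟨x, hx⟩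
      exact ⟨b * x, by rw [map_mul, mul_smul, hx]⟩
    · rintro ⟨x, hx⟩
      exact ⟨b⁻¹ * x, by rw [map_mul, mul_smul, hx, map_inv, inv_smul_smul]⟩
  have hB2 : ∀ (b : A) (χ : Ω), (∃ x : A, ι x • o = χ) → (t (ι b • χ))⁻¹ * b * t χ ∈ B := by
    intro b χ h
    rw [hmem, map_mul, map_mul, mul_smul, mul_smul, ht χ h, map_inv, inv_smul_eq_iff,
      ht _ ((horb b χ).1 h)]
  obtain ⟨κ, hκ, hκa, hκy⟩ := exists_acoc (A := A) (Ω := Ω)
    (fun b χ => if ∃ x : A, ι x • o = χ then β ((t (ι b • χ))⁻¹ * b * t χ) else 0)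
    (by
      intro b c χ
      by_cases h : ∃ x : A, ι x • o = χ
      · have h1 := (horb c χ).1 h
        simp only [if_pos h, if_pos h1]
        rw [← hβm _ _ (hB2 b _ h1) (hB2 c _ h)]
        congr 1
        rw [map_mul, mul_smul]
        group
      · have h1 : ¬ ∃ x : A, ι x • o = ι c • χ := fun h2 => h ((horb c χ).2 h2)
        simp only [if_neg h, if_neg h1]
        simp)
    (fun _ => 0)
  apply hq
  refine ⟨κ, hκ, ?_, fun χ _ => hκy χ, fun χ _ => hκy χ, ?_⟩
  · intro b χ hχ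
    rw [hκa]
    rw [if_neg]
    rintro ⟨x, hx⟩
    apply hχ
    rw [← ho]
    refine (Quotient.sound ?_).symm
    exact Relation.EqvGen.rel _ _ (Or.inl ⟨x, hx.symm⟩)
  · rintro ⟨μ, hμ, -⟩
    apply hα
    ext b
    have hb : ι (b : A) • o = o := (hmem _).1 b.2
    have h1 := hμ (b : A) o ho
    rw [hκa, hb, sub_self, if_pos ⟨1, by rw [map_one, one_smul]⟩, hto, inv_one, one_mul, mul_one,
      hβ _ b.2] at h1
    exact h1

end Pool.Agent.LOTI
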