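import Pool.Agent.Lib.LOTI.LevD
import Pool.Agent.Lib.LOTI.Lim

/-!
# The group `Hat` is locally indicable
-/

set_option autoImplicit false

open scoped Classical

namespace Pool.Agent.LOTI

variable {V E : Type} [Fintype V] [Fintype E]

private def bndS (V : Type) (N : ℕ) : Set (FreeGroup (V × ℤ)) :=
  {x | ∃ (v : V) (s : ℤ), |s| ≤ N ∧ x = FreeGroup.of (v, s)}

private def bndR (Γ : LOT V E) (N : ℕ) : Set (FreeGroup (V × ℤ)) :=
  {r | ∃ (e : E) (s : ℤ), |s| < N ∧ r = FreeGroup.of (Γ.init e, s) *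
    FreeGroup.of (Γ.lab e, s + 1) *
    (FreeGroup.of (Γ.lab e, s) * FreeGroup.of (Γ.term e, s + 1))⁻¹}

omit [Fintype V] in
private theorem bndS_mono {N M : ℕ} (h : N ≤ M) : bndS V N ⊆ bndS V M := by
  rintro x ⟨v, s, hs, rfl⟩
  exact ⟨v, s, le_trans hs (by exact_mod_cast h), rfl⟩

private theorem bndR_mono (Γ : LOT V E) {N M : ℕ} (h : N ≤ M) : bndR Γ N ⊆ bndR Γ M := by
  rintro x ⟨e, s, hs, rfl⟩
  exact ⟨e, s, lt_of_lt_of_le hs (by exact_mod_cast h), rfl⟩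

omit [Fintype V] in
private theorem exS (x : FreeGroup (V × ℤ)) : ∃ N : ℕ, x ∈ Subgroup.closure (bndS V N) := by
  induction x using FreeGroup.induction_on with
  | C1 => exact ⟨0, Subgroup.one_mem _⟩
  | of a =>
    refine ⟨a.2.natAbs, Subgroup.subset_closure ⟨a.1, a.2, ?_, rfl⟩⟩
    rw [Int.natCast_natAbs]
  | inv_of a h =>
    obtain ⟨N, hN⟩ := h
    exact ⟨N, Subgroup.inv_mem _ hN⟩
  | mul a b ha hb =>
    obtain ⟨N, hN⟩ := ha
    obtain ⟨M, hM⟩ := hb
    exact ⟨max N M, Subgroup.mul_mem _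
      (Subgroup.closure_mono (bndS_mono (le_max_left _ _)) hN)
      (Subgroup.closure_mono (bndS_mono (le_max_right _ _)) hM)⟩

private theorem exR (Γ : LOT V E) (x : FreeGroup (V × ℤ))
    (hx : x ∈ Subgroup.normalClosure Γ.hrels) :
    ∃ N : ℕ, x ∈ Subgroup.normalClosure (bndR Γ N) := by
  unfold Subgroup.normalClosure at hx
  induction hx using Subgroup.closure_induction with
  | mem x hx =>
    rw [Group.mem_conjugatesOfSet_iff] at hx
    obtain ⟨a, ha, hc⟩ := hx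
    obtain ⟨e, s, rfl⟩ := ha
    rw [isConj_iff] at hc
    obtain ⟨c, rfl⟩ := hc
    have h1 : FreeGroup.of (Γ.init e, s) * FreeGroup.of (Γ.lab e, s + 1) *
        (FreeGroup.of (Γ.lab e, s) * FreeGroup.of (Γ.term e, s + 1))⁻¹ ∈
          bndR Γ (s.natAbs + 1) := by
      refine ⟨e, s, ?_, rfl⟩
      push_cast
      exact lt_add_one _
    exact ⟨s.natAbs + 1, Subgroup.normalClosure_normal.conj_mem _
      (Subgroup.subset_normalClosure h1) c⟩
  | one => exact ⟨0, Subgroup.one_mem _⟩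
  | mul a b _ _ ha hb =>
    obtain ⟨N, hN⟩ := ha
    obtain ⟨M, hM⟩ := hb
    exact ⟨max N M, Subgroup.mul_mem _
      (Subgroup.normalClosure_mono (bndR_mono Γ (le_max_left _ _)) hN)
      (Subgroup.normalClosure_mono (bndR_mono Γ (le_max_right _ _)) hM)⟩
  | inv a _ h =>
    obtain ⟨N, hN⟩ := h
    exact ⟨N, Subgroup.inv_mem _ hN⟩

private theorem fin_mono {X : Type} (P : ℕ → X → Prop) (hP : ∀ N M x, N ≤ M → P N x → P M x)
    (S : Finset X) (h : ∀ x ∈ S, ∃ N, P N x) : ∃ N, ∀ x ∈ S, P N x := by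
  induction S using Finset.induction_on with
  | empty => exact ⟨0, fun x hx => absurd hx (Finset.notMem_empty x)⟩
  | insert a S _ ih =>
    obtain ⟨N, hN⟩ := ih fun x hx => h x (Finset.mem_insert_of_mem hx)
    obtain ⟨M, hM⟩ := h a (Finset.mem_insert_self _ _)
    refine ⟨max N M, fun x hx => ?_⟩
    rcases Finset.mem_insert.1 hx with rfl | hx
    · exact hP _ _ _ (le_max_right _ _) hM
    · exact hP _ _ _ (le_max_left _ _) (hN x hx)

theorem LOT.hat_LI (Γ : LOT V E) {c : ℕ} (h : Γ.Ladder c) : LI Γ.Hat := by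
  refine LI_lim (F := FreeGroup (V × ℤ)) (Subgroup.normalClosure Γ.hrels) ?_
  intro S T hT
  obtain ⟨N1, hN1⟩ := fin_mono (fun N x => x ∈ Subgroup.closure (bndS V N))
    (fun N M x hNM hx => Subgroup.closure_mono (bndS_mono hNM) hx) S (fun x _ => exS x)
  obtain ⟨N2, hN2⟩ := fin_mono (fun N x => x ∈ Subgroup.normalClosure (bndR Γ N))
    (fun N M x hNM hx => Subgroup.normalClosure_mono (bndR_mono Γ hNM) hx) T
    (fun x hx => exR Γ x (hT x hx))
  set N : ℕ := max N1 N2 with hN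
  have hS' : ∀ x ∈ S, x ∈ Subgroup.closure (bndS V N) := fun x hx =>
    Subgroup.closure_mono (bndS_mono (le_max_left _ _)) (hN1 x hx)
  have hT' : ∀ x ∈ T, x ∈ Subgroup.normalClosure (bndR Γ N) := fun x hx =>
    Subgroup.normalClosure_mono (bndR_mono Γ (le_max_right _ _)) (hN2 x hx)
  obtain ⟨Q, iQ, hQ, ⟨L⟩⟩ := Γ.lev_all h (2 * N)
  set Φ : FreeGroup (V × ℤ) →* Lz Q (Fin (c + 1)) :=
    FreeGroup.lift (fun a : V × ℤ => L.X ((N : ℤ) - a.2).toNat a.1) with hΦ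
  have hΦof : ∀ (v : V) (s : ℤ), Φ (FreeGroup.of (v, s)) = L.X ((N : ℤ) - s).toNat v := by
    intro v s
    rw [hΦ, FreeGroup.lift_apply_of]
  have hR : Subgroup.normalClosure (bndR Γ N) ≤ Φ.ker := by
    refine Subgroup.normalClosure_le_normal ?_
    rintro r ⟨e, s, hs, rfl⟩
    rw [abs_lt] at hs
    obtain ⟨hs1, hs2⟩ := hs
    have hd : ((N : ℤ) - (s + 1)).toNat < 2 * N := by omega
    have hd1 : ((N : ℤ) - s).toNat = ((N : ℤ) - (s + 1)).toNat + 1 := by omega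
    show _ ∈ Φ.ker
    rw [MonoidHom.mem_ker, map_mul, map_inv, mul_inv_eq_one, map_mul, map_mul, hΦof, hΦof, hΦof,
      hΦof, hd1]
    exact L.sat _ hd e
  obtain ⟨π, hπ⟩ := L.univ Γ.Hat (fun d v => PresentedGroup.of (v, (N : ℤ) - (d : ℤ))) (by
    intro d _ e
    have h1 : ((N : ℤ) - ((d + 1 : ℕ) : ℤ)) + 1 = (N : ℤ) - (d : ℤ) := by push_cast; ring
    have h2 := Γ.hat_rel e ((N : ℤ) - ((d + 1 : ℕ) : ℤ))
    rw [h1] at h2
    exact h2)
  have hB : Subgroup.closure (bndS V N) ≤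
      MonoidHom.eqLocus (π.comp Φ) (PresentedGroup.mk Γ.hrels) := by
    rw [Subgroup.closure_le]
    rintro x ⟨v, s, hs, rfl⟩
    show π (Φ (FreeGroup.of (v, s))) = PresentedGroup.mk Γ.hrels (FreeGroup.of (v, s))
    rw [abs_le] at hs
    obtain ⟨hs1, hs2⟩ := hs
    have hd : ((N : ℤ) - s).toNat ≤ 2 * N := by omega
    rw [hΦof, hπ _ hd v]
    have hd1 : (N : ℤ) - (((N : ℤ) - s).toNat : ℤ) = s := by omega
    rw [hd1]
    rfl
  refine ⟨Lz Q (Fin (c + 1)), inferInstance, Φ, Lz_LI hQ _, ?_, ?_⟩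
  · intro x hx
    exact MonoidHom.mem_ker.1 (hR (hT' x hx))
  · intro x hx hx1
    have h3 : π (Φ x) = PresentedGroup.mk Γ.hrels x := hB (hS' x hx)
    rw [hx1, map_one] at h3
    exact (QuotientGroup.eq_one_iff x).1 h3.symm

end Pool.Agent.LOTI
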