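import Pool.Agent.Lib.LOTI.LDefs

/-!
# The relators of the next step: first properties (2.4)

PROOFS.
* `lev_low`: `L.r i = val (L.X n) (h.l i)` is a product of `(X n (term e) * (X n (lab e))⁻¹)^{± 1}` for the steps `(e, _) ∈ h.l i`; `X n v = zz (κ v) * qq (g v)` (`L.top`) and
  `κ (term e), κ (lab e) ≤ i.succ` (`h.low`). Induction on the list (or `Subgroup.list_prod_mem`).
* `lev_ess`: `G' = Γ.Grp`, `X' = Monoid.Coprod Γ.Grp (Multiplicative ℤ)`, `j = Monoid.Coprod.inl`, `ρ = Monoid.Coprod.lift (MonoidHom.id _) 1` (so `ρ (j a) = a`). `L.univ` for `Γ.Grp` and `f d v = Γ.x v`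
  (`Sat`: `x_rel`) gives `π : Lz Q _ →* Γ.Grp` with `π (X d v) = x v` for `d ≤ n`. Put
  `f = zlft (j ∘ π ∘ qq) (fun k => if k = i.succ then Monoid.Coprod.inr (ofAdd 1) * j (π (zz k)) else j (π (zz k)))`. Then `ρ ∘ f = π` (`Lz_hom_ext`), `f (qq q) = j (π (qq q))`, and
  `f (X n v) = psi (fun v => κ v = i.succ) v` (by `L.top`, `f (X n v) = f (zz (κ v)) * f (qq (g v))`, and `j (π (zz (κ v))) * j (π (qq (g v))) = j (π (X n v)) = j (x v)`). By `map_val` `f (r i) = val psi (l i) ≠ 1`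
  (`h.ess`), `ρ (f (r k)) = π (r k) = val x (l k) = 1` because of `wp_walk` for `g = x`, `u e = x (term e) * (x (lab e))⁻¹` (`x_rel` gives `x (init e) = x (lab e) * u e`) and the closed walk `h.closed k`.
-/

set_option autoImplicit false

open scoped Classical

namespace Pool.Agent.LOTI

variable {V E : Type} [Fintype V] [Fintype E]

omit [Fintype E] in
private theorem wp_mem {X : Type} [Group X] (K : Subgroup X) {u : E → X} {l : List (E × Bool)}
    (h : ∀ s ∈ l, u s.1 ∈ K) : wp u l ∈ K := by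
  induction l with
  | nil => rw [wp_nil]; exact K.one_mem
  | cons s l ih =>
    rw [wp_cons]
    refine K.mul_mem ?_ (ih fun t ht => h t (List.mem_cons_of_mem _ ht))
    split_ifs with hs
    · exact h s List.mem_cons_self
    · exact K.inv_mem (h s List.mem_cons_self)

theorem lev_low {Γ : LOT V E} {c : ℕ} {h : Γ.Ladder c} {n : ℕ} {Q : Type} [Group Q]
    (L : Γ.Lev h n Q) (i : Fin c) :
    L.r i ∈ Subgroup.closure (Set.range (qq : Q →* Lz Q (Fin (c + 1))) ∪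
      {x | ∃ j : Fin (c + 1), j ≤ i.succ ∧ x = zz j}) := by
  have key : ∀ v, h.κ v ≤ i.succ → L.X n v ∈
      Subgroup.closure (Set.range (qq : Q →* Lz Q (Fin (c + 1))) ∪
      {x | ∃ j : Fin (c + 1), j ≤ i.succ ∧ x = zz j}) := by
    intro v hv
    rw [L.top]
    exact Subgroup.mul_mem _ (Subgroup.subset_closure (Or.inr ⟨h.κ v, hv, rfl⟩))
      (Subgroup.subset_closure (Or.inl ⟨L.g v, rfl⟩))
  show wp (fun e => L.X n (Γ.term e) * (L.X n (Γ.lab e))⁻¹) (h.l i) ∈ _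
  refine wp_mem (X := Lz Q (Fin (c + 1))) _ fun s hs => ?_
  obtain ⟨h1, h2⟩ := h.low i s hs
  exact Subgroup.mul_mem _ (key _ h2) (Subgroup.inv_mem _ (key _ h1))

theorem lev_ess {Γ : LOT V E} {c : ℕ} {h : Γ.Ladder c} {n : ℕ} {Q : Type} [Group Q]
    (L : Γ.Lev h n Q) (i : Fin c) : ∃ (X G : Type) (_ : Group X) (_ : Group G)
      (f : Lz Q (Fin (c + 1)) →* X) (ρ : X →* G) (j : G →* X),
      (∀ q : Q, f (qq q) = j (ρ (f (qq q)))) ∧
      (∀ k : Fin (c + 1), k ≠ i.succ → f (zz k) = j (ρ (f (zz k)))) ∧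
      (∀ k ≤ i, ρ (f (L.r k)) = 1) ∧ f (L.r i) ≠ 1 := by
  obtain ⟨π, hπ⟩ := L.univ Γ.Grp (fun _ v => Γ.x v) (fun _ _ e => Γ.x_rel e)
  have hπ' : ∀ v, π (L.X n v) = Γ.x v := fun v => hπ n le_rfl v
  obtain ⟨j, hj⟩ : ∃ j : Γ.Grp →* Monoid.Coprod Γ.Grp (Multiplicative ℤ),
    j = Monoid.Coprod.inl := ⟨_, rfl⟩
  obtain ⟨ρ, hρ⟩ : ∃ ρ : Monoid.Coprod Γ.Grp (Multiplicative ℤ) →* Γ.Grp,
    ρ = Monoid.Coprod.lift (MonoidHom.id _) 1 := ⟨_, rfl⟩
  have hρj : ∀ a, ρ (j a) = a := by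
    intro a
    rw [hρ, hj, Monoid.Coprod.lift_apply_inl]
    rfl
  have hρz : ∀ m, ρ (Monoid.Coprod.inr m) = 1 := by
    intro m
    rw [hρ, Monoid.Coprod.lift_apply_inr]
    rfl
  obtain ⟨f, hf⟩ : ∃ f : Lz Q (Fin (c + 1)) →* Monoid.Coprod Γ.Grp (Multiplicative ℤ),
    f = zlft ((j.comp π).comp qq) (fun k => if k = i.succ then
      Monoid.Coprod.inr (Multiplicative.ofAdd 1) * j (π (zz k)) else j (π (zz k))) := ⟨_, rfl⟩
  have hfq : ∀ q, f (qq q) = j (π (qq q)) := by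
    intro q
    rw [hf, zlft_qq]
    rfl
  have hfz : ∀ k, f (zz k) = if k = i.succ then
      Monoid.Coprod.inr (Multiplicative.ofAdd 1) * j (π (zz k)) else j (π (zz k)) := by
    intro k
    rw [hf, zlft_zz]
  have hρf : ρ.comp f = π := by
    refine Lz_hom_ext (fun q => ?_) fun k => ?_
    · rw [MonoidHom.comp_apply, hfq, hρj]
    · rw [MonoidHom.comp_apply, hfz]
      split_ifs with hk
      · rw [map_mul, hρz, one_mul, hρj]
      · rw [hρj]
  have hρf' : ∀ z, ρ (f z) = π z := fun z => by rw [← hρf]; rfl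
  have hfx : ∀ v, f (L.X n v) = Γ.psi (fun v => h.κ v = i.succ) v := by
    intro v
    have h1 : j (Γ.x v) = j (π (zz (h.κ v))) * j (π (qq (L.g v))) := by
      rw [← map_mul, ← map_mul, ← L.top, hπ']
    rw [L.top, map_mul, hfq, hfz]
    unfold LOT.psi
    split_ifs with hk
    · rw [← hj, h1, mul_assoc]
    · rw [← hj, h1]
  refine ⟨Monoid.Coprod Γ.Grp (Multiplicative ℤ), Γ.Grp, inferInstance, inferInstance, f, ρ, j,
    fun q => ?_, fun k hk => ?_, fun k _ => ?_, ?_⟩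
  · rw [hρf', hfq]
  · rw [hρf', hfz, if_neg hk]
  · rw [hρf']
    show π (Γ.val (L.X n) (h.l k)) = 1
    rw [Γ.map_val]
    have h2 : Γ.x (h.b k) = Γ.x (h.b k) * wp (fun e => Γ.x (Γ.term e) * (Γ.x (Γ.lab e))⁻¹) (h.l k) := by
      refine Γ.wp_walk (fun e => ?_) (h.closed k)
      rw [← mul_assoc, ← Γ.x_rel, mul_inv_cancel_right]
    have h3 : (fun v => π (L.X n v)) = Γ.x := funext hπ'
    rw [h3]
    exact (mul_eq_left.1 h2.symm)
  · show f (Γ.val (L.X n) (h.l i)) ≠ 1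
    rw [Γ.map_val]
    have h3 : (fun v => f (L.X n v)) = Γ.psi (fun v => h.κ v = i.succ) := funext hfx
    rw [h3]
    exact h.ess i

end Pool.Agent.LOTI
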