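import Pool.Agent.Lib.LOTI.LDefs
import Pool.Agent.Lib.LOTI.Lin

/-!
# The relators are no proper powers (2.4)

PROOF. `lin` for the field `ZMod p`, `n + 1`, and `b d e = 1` if `d = n` and `e = h.e i`, `b d e = 0` otherwise, gives `φ : ℕ → V → ZMod p`. The family
`f d v = Multiplicative.ofAdd (φ d v)` satisfies `Sat n` (equations with `d < n`), so `L.univ` gives `F : Lz Q _ →* Multiplicative (ZMod p)` with `F (X n v) = ofAdd (φ n v)`. `F (r k) = val (F ∘ X n) (l k) = wp u (l k)`,
`u e = ofAdd (φ n (term e) - φ n (lab e))`. By the equations with `d = n`: `φ n (term e) - φ n (lab e) = (φ (n+1) (init e) - φ (n+1) (lab e)) - b n e`. `wp` in a commutative group is multiplicative in `u`: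
`wp u l = wp u₁ l * wp u₂ l`, `u₁ e = ofAdd (φ (n+1) (init e) - φ (n+1) (lab e))`, `u₂ e = ofAdd (- b n e)`; `wp u₁ (l k) = 1` by `wp_walk` (`g v = ofAdd (φ (n+1) v)`, closed walk `h.closed k`). `wp u₂ (l k) = 1` if `k < i`
(`h.later k i`: `e i` is not an edge of `l k`), and `wp u₂ (l i) = ofAdd (± 1) ≠ 1` by `h.once i` (`e i` occurs exactly once: split the list, or induction on the list: the product is
`ofAdd` of minus the signed number of the occurrences).
-/

set_option autoImplicit false

open scoped Classical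

namespace Pool.Agent.LOTI

variable {V E : Type} [Fintype V] [Fintype E]

omit [Fintype E] in
private theorem wp_mul' {X : Type} [CommGroup X] (u u' : E → X) (l : List (E × Bool)) :
    wp (fun e => u e * u' e) l = wp u l * wp u' l := by
  induction l with
  | nil => simp [wp_nil]
  | cons s l ih =>
    rw [wp_cons, wp_cons, wp_cons, ih]
    split_ifs
    · exact mul_mul_mul_comm _ _ _ _
    · rw [mul_inv]
      exact mul_mul_mul_comm _ _ _ _

omit [Fintype E] in
private theorem wp_single_zero {X : Type} [Group X] (c : X) (e₀ : E) (l : List (E × Bool))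
    (h : e₀ ∉ l.map Prod.fst) : wp (fun e => if e = e₀ then c else 1) l = 1 := by
  induction l with
  | nil => rfl
  | cons s l ih =>
    rw [List.map_cons, List.mem_cons, not_or] at h
    rw [wp_cons, ih h.2, mul_one]
    have h1 : ¬ s.1 = e₀ := fun hc => h.1 hc.symm
    simp only [if_neg h1, inv_one, ite_self]

omit [Fintype E] in
private theorem wp_single_one {X : Type} [Group X] (c : X) (e₀ : E) (l : List (E × Bool))
    (h : (l.map Prod.fst).count e₀ = 1) :
    wp (fun e => if e = e₀ then c else 1) l = c ∨ wp (fun e => if e = e₀ then c else 1) l = c⁻¹ := by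
  induction l with
  | nil => simp at h
  | cons s l ih =>
    rw [List.map_cons, List.count_cons] at h
    by_cases h1 : s.1 = e₀
    · have h2 : (s.1 == e₀) = true := beq_iff_eq.2 h1
      rw [if_pos h2] at h
      have h3 : e₀ ∉ l.map Prod.fst := List.count_eq_zero.1 (by omega)
      rw [wp_cons, wp_single_zero c e₀ l h3, mul_one]
      simp only [if_pos h1]
      by_cases hs : s.2 = true
      · left; rw [if_pos hs]
      · right; rw [if_neg hs]
    · have h2 : ¬ (s.1 == e₀) = true := fun hc => h1 (beq_iff_eq.1 hc)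
      rw [if_neg h2, add_zero] at h
      have h3 := ih h
      rw [wp_cons]
      simp only [if_neg h1, inv_one, ite_self, one_mul]
      exact h3

theorem lev_pow {Γ : LOT V E} {c : ℕ} {h : Γ.Ladder c} {n : ℕ} {Q : Type} [Group Q]
    (L : Γ.Lev h n Q) (i : Fin c) (p : ℕ) (hp : p.Prime) :
    ∃ φ : Lz Q (Fin (c + 1)) →* Multiplicative (ZMod p),
      (∀ k < i, φ (L.r k) = 1) ∧ φ (L.r i) ≠ 1 := by
  have : Fact p.Prime := ⟨hp⟩
  obtain ⟨φ, hφ⟩ := Γ.lin (k := ZMod p) (n + 1) (fun d e => if d = n ∧ e = h.e i then 1 else 0)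
  let f : ℕ → V → Multiplicative (ZMod p) := fun d v => Multiplicative.ofAdd (φ d v)
  have hsat : Γ.Sat n f := by
    intro d hd e
    have h1 := hφ d (by omega) e
    have h2 : ¬ (d = n ∧ e = h.e i) := fun hc => by omega
    rw [if_neg h2] at h1
    show Multiplicative.ofAdd (φ (d + 1) (Γ.init e)) * Multiplicative.ofAdd (φ d (Γ.lab e)) =
      Multiplicative.ofAdd (φ (d + 1) (Γ.lab e)) * Multiplicative.ofAdd (φ d (Γ.term e))
    rw [← ofAdd_add, ← ofAdd_add]
    congr 1
    linear_combination h1
  obtain ⟨F, hF⟩ := L.univ _ f hsat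
  let c : Multiplicative (ZMod p) := Multiplicative.ofAdd (-1)
  have hc : c ≠ 1 := by
    intro h1
    have h2 : (-1 : ZMod p) = 0 := Multiplicative.ofAdd.injective h1
    exact one_ne_zero (neg_eq_zero.1 h2)
  have hval : ∀ k, F (L.r k) = wp (fun e => if e = h.e i then c else 1) (h.l k) := by
    intro k
    unfold LOT.Lev.r
    rw [Γ.map_val F]
    have h1 : (fun v => F (L.X n v)) = f n := funext fun v => hF n le_rfl v
    rw [h1]
    unfold LOT.val
    have h2 : (fun e => f n (Γ.term e) * (f n (Γ.lab e))⁻¹) =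
        fun e => Multiplicative.ofAdd (φ (n + 1) (Γ.init e) - φ (n + 1) (Γ.lab e)) *
          (if e = h.e i then c else 1) := by
      funext e
      have h3 := hφ n (by omega) e
      show Multiplicative.ofAdd (φ n (Γ.term e)) * (Multiplicative.ofAdd (φ n (Γ.lab e)))⁻¹ = _
      rw [← ofAdd_neg, ← ofAdd_add]
      by_cases he : e = h.e i
      · rw [if_pos ⟨rfl, he⟩] at h3
        rw [if_pos he]
        show _ = Multiplicative.ofAdd _ * Multiplicative.ofAdd (-1)
        rw [← ofAdd_add]
        congr 1
        linear_combination -h3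
      · rw [if_neg (fun hc => he hc.2)] at h3
        rw [if_neg he, mul_one]
        congr 1
        linear_combination -h3
    rw [h2, wp_mul']
    have h4 := Γ.wp_walk (g := fun v => Multiplicative.ofAdd (φ (n + 1) v))
      (u := fun e => Multiplicative.ofAdd (φ (n + 1) (Γ.init e) - φ (n + 1) (Γ.lab e)))
      (fun e => by
        rw [← ofAdd_add]
        congr 1
        ring) (h.closed k)
    have h5 : wp (fun e => Multiplicative.ofAdd (φ (n + 1) (Γ.init e) - φ (n + 1) (Γ.lab e)))
        (h.l k) = 1 := by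
      have h6 := h4.symm
      rwa [mul_eq_left] at h6
    rw [h5, one_mul]
  refine ⟨F, fun k hk => ?_, ?_⟩
  · rw [hval k]
    exact wp_single_zero c (h.e i) _ (h.later k i hk)
  · rw [hval i]
    rcases wp_single_one c (h.e i) _ (h.once i) with h1 | h1
    · rw [h1]; exact hc
    · rw [h1]
      exact inv_ne_one.2 hc

end Pool.Agent.LOTI
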