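import Pool.Agent.Lib.LOTI.Pot

/-!
# The next depth (2.3)

PROOF. `Q' = Lz Q (Fin (c+1)) ⧸ normalClosure (range L.r)`, `k` = the quotient map. `u e = k (X n (term e)) * (k (X n (lab e)))⁻¹`; `wp u (l i) = k (L.r i) = 1` (`map_val`), so `exists_pot` gives `g' : V → Q'` with
`g' (init e) = g' (lab e) * u e`. New family `X' d v = qq (k (X d v))` for `d ≤ n`, `X' d v = zz (κ v) * qq (g' v)` for `d > n`, `g' ` as above, `top` is clear.
* `sat`: `d < n`: from `L.sat`. `d = n`: `X' (n+1) (init e) * X' n (lab e) = zz (κ (init e)) * qq (g' (init e) * k (X n (lab e)))`, `g' (init e) * k (X n (lab e)) = g' (lab e) * k (X n (term e))`, and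
  `κ (init e) = κ (lab e)` (`h.comp`, `EqvGen.rel` with `IAdj`, symmetric).
* `univ`: let `f` satisfy `Sat (n + 1)`. `L.univ` gives `F₀ : Lz Q _ →* Y` with `F₀ (X d v) = f d v`, `d ≤ n`. `F₀ (L.r i) = val (f n) (l i) = 1`: `wp_walk` with `g = f (n+1)` and `u₁ e = f n (term e) * (f n (lab e))⁻¹`
  (`Sat` with `d = n` says `f (n+1) (init e) = f (n+1) (lab e) * u₁ e`), closed walk. So `F₀` gives `F₁ : Q' →* Y` (`QuotientGroup.lift`, `Subgroup.normalClosure_le_normal`), `F₁ (u e) = u₁ e`. The element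
  `t v = f (n+1) v * (F₁ (g' v))⁻¹` satisfies `t (init e) = t (lab e)`, so it is constant on the classes of `EqvGen IAdj`; by `h.comp`, `h.surj` there is `s : Fin (c+1) → Y` with `s (κ v) = t v` (choose a preimage). `F = zlft F₁ s`:
  `F (X' d v) = F₁ (k (X d v)) = f d v` for `d ≤ n`, `F (X' (n+1) v) = t v * F₁ (g' v) = f (n+1) v`.
-/

set_option autoImplicit false

open scoped Classical

namespace Pool.Agent.LOTI

variable {V E : Type} [Fintype V] [Fintype E]

theorem lev_step {Γ : LOT V E} {c : ℕ} {h : Γ.Ladder c} {n : ℕ} {Q : Type} [Group Q]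
    (L : Γ.Lev h n Q) : Nonempty (Γ.Lev h (n + 1)
      (Lz Q (Fin (c + 1)) ⧸ Subgroup.normalClosure (Set.range L.r))) := by
  let N : Subgroup (Lz Q (Fin (c + 1))) := Subgroup.normalClosure (Set.range L.r)
  let k : Lz Q (Fin (c + 1)) →* (Lz Q (Fin (c + 1)) ⧸ N) := QuotientGroup.mk' N
  have hk : ∀ i, k (L.r i) = 1 := fun i =>
    (QuotientGroup.eq_one_iff _).2 (Subgroup.subset_normalClosure ⟨i, rfl⟩)
  let u : E → (Lz Q (Fin (c + 1)) ⧸ N) := fun e =>
    k (L.X n (Γ.term e)) * (k (L.X n (Γ.lab e)))⁻¹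
  have hu : ∀ i, wp u (h.l i) = 1 := by
    intro i
    have h1 := Γ.map_val k (L.X n) (h.l i)
    have h2 := hk i
    unfold LOT.Lev.r at h2
    rw [h2] at h1
    exact h1.symm
  obtain ⟨g, hg⟩ := Γ.exists_pot h u hu
  have hκ : ∀ e, h.κ (Γ.init e) = h.κ (Γ.lab e) := by
    intro e
    exact ((h.comp _ _).2 (Relation.EqvGen.rel _ _ ⟨e, rfl, rfl⟩)).symm
  refine ⟨{ X := fun d v => if d ≤ n then qq (k (L.X d v)) else zz (h.κ v) * qq (g v),
            sat := ?_, g := g, top := ?_, univ := ?_ }⟩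
  · intro d hd e
    rcases Nat.lt_or_ge d n with hdn | hdn
    · have h1 : d + 1 ≤ n := hdn
      have h2 : d ≤ n := hdn.le
      simp only [if_pos h1, if_pos h2]
      rw [← map_mul, ← map_mul, ← map_mul, ← map_mul, L.sat d hdn e]
    · have h3 : d = n := by omega
      subst h3
      have h4 : ¬ (d + 1 ≤ d) := by omega
      simp only [if_neg h4, if_pos le_rfl]
      rw [hκ e, mul_assoc, mul_assoc, ← map_mul, ← map_mul, hg e]
      congr 2
      show g (Γ.lab e) * (k (L.X d (Γ.term e)) * (k (L.X d (Γ.lab e)))⁻¹) *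
        k (L.X d (Γ.lab e)) = _
      rw [mul_assoc, inv_mul_cancel_right]
  · intro v
    have h4 : ¬ (n + 1 ≤ n) := by omega
    simp only [if_neg h4]
  · intro Y _ f hf
    obtain ⟨F₀, hF₀⟩ := L.univ Y f (fun d hd e => hf d (by omega) e)
    have hn := hf n (by omega)
    have hw : ∀ e, f (n + 1) (Γ.init e) =
        f (n + 1) (Γ.lab e) * (f n (Γ.term e) * (f n (Γ.lab e))⁻¹) := by
      intro e
      rw [← mul_assoc, ← hn e, mul_inv_cancel_right]
    have hr : ∀ i, F₀ (L.r i) = 1 := by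
      intro i
      have h1 := Γ.map_val F₀ (L.X n) (h.l i)
      have h2 : (fun v => F₀ (L.X n v)) = f n := funext fun v => hF₀ n le_rfl v
      rw [h2] at h1
      have h3 := Γ.wp_walk hw (h.closed i)
      have h4 : wp (fun e => f n (Γ.term e) * (f n (Γ.lab e))⁻¹) (h.l i) = 1 :=
        (mul_eq_left.1 h3.symm)
      exact h1.trans h4
    have hN : N ≤ F₀.ker := by
      apply Subgroup.normalClosure_le_normal
      rintro _ ⟨i, rfl⟩
      exact hr i
    let F₁ : (Lz Q (Fin (c + 1)) ⧸ N) →* Y := QuotientGroup.lift N F₀ (fun x hx => hN hx)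
    have hF₁ : ∀ x, F₁ (k x) = F₀ x := fun x => rfl
    have hu₁ : ∀ e, F₁ (u e) = f n (Γ.term e) * (f n (Γ.lab e))⁻¹ := by
      intro e
      show F₁ (k (L.X n (Γ.term e)) * (k (L.X n (Γ.lab e)))⁻¹) = _
      rw [map_mul, map_inv, hF₁, hF₁, hF₀ n le_rfl, hF₀ n le_rfl]
    let t : V → Y := fun v => f (n + 1) v * (F₁ (g v))⁻¹
    have ht : ∀ e, t (Γ.init e) = t (Γ.lab e) := by
      intro e
      show f (n + 1) (Γ.init e) * (F₁ (g (Γ.init e)))⁻¹ =
        f (n + 1) (Γ.lab e) * (F₁ (g (Γ.lab e)))⁻¹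
      rw [hg e, map_mul, hu₁ e, hw e, mul_inv_rev, ← mul_assoc, mul_inv_cancel_right]
    have ht2 : ∀ v w, Relation.EqvGen Γ.IAdj v w → t v = t w := by
      intro v w hvw
      induction hvw with
      | rel a b hab =>
        obtain ⟨e, rfl, rfl⟩ := hab
        exact (ht e).symm
      | refl a => rfl
      | symm a b _ ih => exact ih.symm
      | trans a b c _ _ ih1 ih2 => exact ih1.trans ih2
    let s : Fin (c + 1) → Y := fun j => t (Function.surjInv h.surj j)
    have hs : ∀ v, s (h.κ v) = t v := by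
      intro v
      exact ht2 _ _ ((h.comp _ _).1 (Function.surjInv_eq h.surj (h.κ v)))
    refine ⟨zlft F₁ s, ?_⟩
    intro d hd v
    rcases Nat.lt_or_ge n d with hdn | hdn
    · have h3 : d = n + 1 := by omega
      subst h3
      have h4 : ¬ (n + 1 ≤ n) := by omega
      simp only [if_neg h4]
      rw [map_mul, zlft_zz, zlft_qq, hs]
      show f (n + 1) v * (F₁ (g v))⁻¹ * F₁ (g v) = _
      rw [inv_mul_cancel_right]
    · simp only [if_pos hdn]
      rw [zlft_qq, hF₁, hF₀ d hdn]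

end Pool.Agent.LOTI
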