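import Pool.Agent.Lib.LOTI.LevZ
import Pool.Agent.Lib.LOTI.LevA
import Pool.Agent.Lib.LOTI.LevB
import Pool.Agent.Lib.LOTI.LevC
import Pool.Agent.Lib.LOTI.Iter

/-!
# All depths

PROOF. Induction on `n`: `levZ` and `LI_free`; the step is `lev_step`, and `iter` with `lev_low`, `lev_ess`, `lev_pow`.
-/

set_option autoImplicit false

open scoped Classical

namespace Pool.Agent.LOTI

variable {V E : Type} [Fintype V] [Fintype E]

theorem LOT.lev_all (Γ : LOT V E) {c : ℕ} (h : Γ.Ladder c) (n : ℕ) :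
    ∃ (Q : Type) (_ : Group Q), LI Q ∧ Nonempty (Γ.Lev h n Q) := by
  induction n with
  | zero => exact ⟨FreeGroup V, inferInstance, LI_free V, Γ.levZ h⟩
  | succ n ih =>
    obtain ⟨Q, _, hQ, ⟨L⟩⟩ := ih
    exact ⟨_, inferInstance, iter hQ c L.r (lev_low L) (lev_ess L) (lev_pow L), lev_step L⟩

end Pool.Agent.LOTI
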