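import Pool.Agent.Lib.LOTI.LDefs

/-!
# Depth 0 (2.3)

PROOF. `X d v = zz (κ v) * qq (FreeGroup.of v)` for all `d`, `g v = FreeGroup.of v`; `Sat 0` is empty. `univ`: `F = zlft (FreeGroup.lift (f 0)) (fun _ => 1)`, and `d ≤ 0` means `d = 0`.
-/

set_option autoImplicit false

open scoped Classical

namespace Pool.Agent.LOTI

variable {V E : Type} [Fintype V] [Fintype E]

theorem LOT.levZ (Γ : LOT V E) {c : ℕ} (h : Γ.Ladder c) :
    Nonempty (Γ.Lev h 0 (FreeGroup V)) := by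
  refine ⟨{
    X := fun _ v => zz (h.κ v) * qq (FreeGroup.of v)
    sat := fun d hd => absurd hd (Nat.not_lt_zero d)
    g := fun v => FreeGroup.of v
    top := fun _ => rfl
    univ := ?_ }⟩
  intro Y _ f _
  refine ⟨zlft (FreeGroup.lift (f 0)) (fun _ => 1), ?_⟩
  intro d hd v
  have hd0 : d = 0 := Nat.le_zero.1 hd
  subst hd0
  show zlft (FreeGroup.lift (f 0)) (fun _ => 1) (zz (h.κ v) * qq (FreeGroup.of v)) = f 0 v
  rw [map_mul, zlft_zz, zlft_qq, one_mul, FreeGroup.lift_apply_of]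

end Pool.Agent.LOTI
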