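import Pool.Agent.Lib.LOTI.LDefs

/-!
# The incidence matrix of a tree

PROOF. The linear map `T : (V → k) →ₗ[k] (E → k)`, `T φ e = φ (init e) - φ (term e)`. Its kernel is the set of the constant functions (`Γ.conn`, induction on
`EqvGen`), so it has dimension `≤ 1`; by rank-nullity (`LinearMap.finrank_range_add_finrank_ker`) the range has dimension `≥ |V| - 1 = |E|`, so `T` is onto. For `e₀`
take `φ` with `T φ = Pi.single e₀ 1`; `h φ` says `a e₀ = 0`.
-/

set_option autoImplicit false

open scoped Classical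

namespace Pool.Agent.LOTI

variable {V E : Type} [Fintype V] [Fintype E]

theorem LOT.tree_inj (Γ : LOT V E) {k : Type} [Field k] (a : E → k)
    (h : ∀ φ : V → k, ∑ e, a e * (φ (Γ.init e) - φ (Γ.term e)) = 0) : ∀ e, a e = 0 := by
  have hVpos : 0 < Fintype.card V := by
    rw [Γ.card]
    exact Nat.succ_pos _
  obtain ⟨v₀⟩ := Fintype.card_pos_iff.1 hVpos
  let T : (V → k) →ₗ[k] (E → k) := LinearMap.pi (fun e =>
    (LinearMap.proj (Γ.init e) : (V → k) →ₗ[k] k) - LinearMap.proj (Γ.term e))
  have hT : ∀ φ e, T φ e = φ (Γ.init e) - φ (Γ.term e) := fun φ e => rfl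
  have hker : ∀ φ : V → k, T φ = 0 → ∀ v w, φ v = φ w := by
    intro φ hφ v w
    have key : ∀ a b, Relation.EqvGen (fun a b => ∃ e, a = Γ.init e ∧ b = Γ.term e) a b →
        φ a = φ b := by
      intro a b hab
      induction hab with
      | rel a b hab =>
        obtain ⟨e, rfl, rfl⟩ := hab
        have h1 := congrFun hφ e
        rw [hT] at h1
        exact sub_eq_zero.1 h1
      | refl a => rfl
      | symm a b _ ih => exact ih.symm
      | trans a b c _ _ ih1 ih2 => exact ih1.trans ih2
    exact key v w (Γ.conn v w)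
  have hone : (fun _ => 1 : V → k) ∈ LinearMap.ker T := by
    rw [LinearMap.mem_ker]
    funext e
    rw [hT]
    exact sub_self _
  have hk1 : Module.finrank k (LinearMap.ker T) ≤ 1 := by
    refine finrank_le_one (⟨_, hone⟩ : LinearMap.ker T) ?_
    rintro ⟨φ, hφ⟩
    refine ⟨φ v₀, ?_⟩
    apply Subtype.ext
    funext v
    show φ v₀ * 1 = φ v
    rw [mul_one]
    exact hker φ (LinearMap.mem_ker.1 hφ) v₀ v
  have hrn := LinearMap.finrank_range_add_finrank_ker T
  rw [Module.finrank_pi, Γ.card] at hrn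
  have hle : Module.finrank k (LinearMap.range T) ≤ Module.finrank k (E → k) :=
    Submodule.finrank_le _
  have htop : LinearMap.range T = ⊤ := by
    apply Submodule.eq_top_of_finrank_eq
    rw [Module.finrank_pi] at hle ⊢
    omega
  intro e₀
  have hsurj := LinearMap.range_eq_top.1 htop
  obtain ⟨φ, hφ⟩ := hsurj (Pi.single e₀ 1)
  have h1 := h φ
  have h2 : ∀ e, a e * (φ (Γ.init e) - φ (Γ.term e)) = a e * (Pi.single e₀ 1 : E → k) e := by
    intro e
    rw [← hφ, hT]
  rw [Finset.sum_congr rfl (fun e _ => h2 e)] at h1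
  rw [Finset.sum_eq_single e₀] at h1
  · rw [Pi.single_eq_same, mul_one] at h1
    exact h1
  · intro e _ he
    rw [Pi.single_eq_of_ne he, mul_zero]
  · intro h3
    exact absurd (Finset.mem_univ _) h3

end Pool.Agent.LOTI
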