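import Pool.Agent.Lib.LOTI.One

/-!
# Removing a strand (1.11, case B)

PROOF. `Ω = FF A ⧸ N`, `f = arc o i`, `c`, `x` from `one_strand`. Choose `h₀` with `(h₀ : Ω) = f`; `N_f = stabilizer f = h₀ N h₀⁻¹`.
`r : N_f →* FF A`, `r n = c n f` (`IsCoc.hom`); `r n` fixes `f` (`c h o' • o' = h • o'`). `N' = r.range`, finitely generated (`N_f` is, as a conjugate of
`N`). For every `o' ∈ S`, `o' ≠ o`, choose `h_{o'}` with `h_{o'} • f = o'` (transitivity), `h' = c h_{o'} f`; then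
`h'⁻¹ * w * h' = c (h_{o'}⁻¹ * w * h_{o'}) f ∈ N'` (`IsCoc.conj`, `c w o' = w`). `S' = {(h' : FF A ⧸ N') | o' ∈ S, o' ≠ o}`, `|S'| ≤ |S| - 1`, and
`w` fixes `h' N'`.
HOMS: let all `φ` on `N` which kill the lifts of `S` be trivial; let `φ' : N' →* Multiplicative ℚ` kill the lifts of `S'`. Put
`φ n = φ' (r (h₀ n h₀⁻¹))`, `n ∈ N`. For `(h : Ω) ∈ S`: `h = h₁ * h₀` with `h₁ = h * h₀⁻¹`, `h₁ • f = (h : Ω)`, so
`φ (h⁻¹ w h) = φ' (r (h₁⁻¹ w h₁))`. If `h₁ • f = o' ≠ o`: `h₁ = h_{o'} * n₁` with `n₁ ∈ N_f`, so `r (h₁⁻¹ w h₁)` is conjugate by `r n₁` to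
`h'⁻¹ w h'`, which is killed by `φ'` (commutative target). If `h₁ • f = o = tau i • f`: `h₁ = tau i * n₁`, and `r ((tau i)⁻¹ w (tau i)) = 1`. So `φ`
kills the lifts of `S`, `φ = 1`, so `φ' = 1` (`r` maps onto `N'`).
NORMAL CLOSURE: if `N' ≤ normalClosure {w}`: for `n ∈ N_f` `(r n)⁻¹ * n ∈ normalClosure {w}`, so `N_f ≤ normalClosure {w}`, so its conjugate
`N` as well.
-/

set_option autoImplicit false

open scoped Classical

namespace Pool.Agent.LOTI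

variable {A : Type} [Group A]

theorem reduce (Γ : Geo A) (N : Subgroup (FF A)) (hN : N.FG) (S : Finset (FF A ⧸ N))
    (hS : ∀ o ∈ S, Γ.w • o = o) (o : FF A ⧸ N) (ho : o ∈ S) (i : ℤ)
    (h1 : ∀ o' ∈ S, ∀ j : ℤ, Γ.arc o' j = Γ.arc o i → o' = o ∧ Γ.Eqm i j) :
    ∃ (N' : Subgroup (FF A)) (S' : Finset (FF A ⧸ N')), N'.FG ∧ S'.card < S.card ∧
      (∀ o' ∈ S', Γ.w • o' = o') ∧
      ((∀ φ : N →* Multiplicative ℚ, Kill Γ.w N S φ → φ = 1) →
        ∀ φ' : N' →* Multiplicative ℚ, Kill Γ.w N' S' φ' → φ' = 1) ∧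
      (N' ≤ Subgroup.normalClosure {Γ.w} → N ≤ Subgroup.normalClosure {Γ.w}) := by
  obtain ⟨x, c, hc, -, -, -, hact, -, hw', hwS, hnc⟩ := one_strand Γ S hS o ho i h1
  generalize hf : Γ.arc o i = f at *
  obtain ⟨h₀, hh₀⟩ := QuotientGroup.mk_surjective f
  have hof : Γ.tau i • f = o := by
    rw [← hf]; unfold Geo.arc; rw [smul_inv_smul]
  -- the stabiliser
  have hNf : ∀ n : FF A, n ∈ MulAction.stabilizer (FF A) f ↔ h₀⁻¹ * n * h₀ ∈ N := by
    intro n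
    rw [MulAction.mem_stabilizer_iff, ← hh₀]
    change ((n * h₀ : FF A) : FF A ⧸ N) = (h₀ : FF A ⧸ N) ↔ _
    rw [eq_comm, QuotientGroup.eq, mul_assoc]
  have he : ∀ n : N, (MulAut.conj h₀).toMonoidHom.comp N.subtype n ∈
      MulAction.stabilizer (FF A) f := by
    intro n
    rw [hNf]
    have : h₀⁻¹ * ((MulAut.conj h₀).toMonoidHom.comp N.subtype n) * h₀ = (n : FF A) := by
      simp [mul_assoc]
    rw [this]
    exact n.2
  let e : N →* MulAction.stabilizer (FF A) f :=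
    ((MulAut.conj h₀).toMonoidHom.comp N.subtype).codRestrict _ he
  have he_val : ∀ n : N, ((e n : MulAction.stabilizer (FF A) f) : FF A) = h₀ * n * h₀⁻¹ := by
    intro n
    rfl
  have he_surj : Function.Surjective e := by
    rintro ⟨n, hn⟩
    refine ⟨⟨h₀⁻¹ * n * h₀, (hNf n).1 hn⟩, ?_⟩
    apply Subtype.ext
    rw [he_val]
    simp [mul_assoc]
  let r : MulAction.stabilizer (FF A) f →* FF A := hc.hom f
  have hr : ∀ n : MulAction.stabilizer (FF A) f, r n = c (n : FF A) f := fun _ => rfl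
  -- transitivity
  have htr : ∀ o' : FF A ⧸ N, ∃ h : FF A, h • f = o' := fun o' => MulAction.exists_smul_eq (FF A) f o'
  choose k hk using htr
  -- the lifts
  have hlift : ∀ o' ∈ S, ∀ h : FF A, h • f = o' → h⁻¹ * Γ.w * h ∈ MulAction.stabilizer (FF A) f := by
    intro o' ho' h hh
    rw [MulAction.mem_stabilizer_iff, mul_smul, mul_smul, hh, hS o' ho', ← hh, inv_smul_smul]
  have hconj : ∀ o' ∈ S, o' ≠ o → ∀ h : FF A, h • f = o' →
      c (h⁻¹ * Γ.w * h) f = (c h f)⁻¹ * Γ.w * c h f := by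
    intro o' ho' hne h hh
    rw [hc.conj Γ.w h f (by rw [hh]; exact hS o' ho'), hh, hwS o' ho' hne]
  refine ⟨r.range, (S.erase o).image (fun o' => ((c (k o') f : FF A) : FF A ⧸ r.range)),
    ?_, ?_, ?_, ?_, ?_⟩
  · -- finitely generated
    have : Group.FG N := (Group.fg_iff_subgroup_fg N).2 hN
    have : Group.FG (MulAction.stabilizer (FF A) f) := Group.fg_of_surjective he_surj
    exact (Group.fg_iff_subgroup_fg _).1 (Group.fg_range r)
  · refine lt_of_le_of_lt Finset.card_image_le ?_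
    exact Finset.card_erase_lt_of_mem ho
  · intro q hq
    obtain ⟨o', ho', rfl⟩ := Finset.mem_image.1 hq
    obtain ⟨hne, hoS⟩ := Finset.mem_erase.1 ho'
    change ((Γ.w * c (k o') f : FF A) : FF A ⧸ r.range) = _
    rw [eq_comm, QuotientGroup.eq]
    refine ⟨⟨_, hlift o' hoS (k o') (hk o')⟩, ?_⟩
    rw [hr]
    change c ((k o')⁻¹ * Γ.w * k o') f = _
    rw [hconj o' hoS hne (k o') (hk o'), mul_assoc]
  · intro hall φ' hφ'
    have key : Kill Γ.w N S (φ'.comp (r.rangeRestrict.comp e)) := by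
      intro h hhS hn
      -- h₁ = h * h₀⁻¹
      have hh1 : (h * h₀⁻¹) • f = (h : FF A ⧸ N) := by
        rw [← hh₀]
        change ((h * h₀⁻¹ * h₀ : FF A) : FF A ⧸ N) = _
        rw [inv_mul_cancel_right]
      have hev : e ⟨h⁻¹ * Γ.w * h, hn⟩ =
          ⟨(h * h₀⁻¹)⁻¹ * Γ.w * (h * h₀⁻¹), hlift _ hhS _ hh1⟩ := by
        apply Subtype.ext
        rw [he_val]
        simp [mul_assoc]
      -- generic: replace the lift by another one
      have hgen : ∀ (g : FF A) (hg : g • f = (h : FF A ⧸ N)),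
          φ' (r.rangeRestrict ⟨(h * h₀⁻¹)⁻¹ * Γ.w * (h * h₀⁻¹), hlift _ hhS _ hh1⟩) =
            φ' (r.rangeRestrict ⟨g⁻¹ * Γ.w * g, hlift _ hhS _ hg⟩) := by
        intro g hg
        have hn1 : g⁻¹ * (h * h₀⁻¹) ∈ MulAction.stabilizer (FF A) f := by
          rw [MulAction.mem_stabilizer_iff, mul_smul, hh1, ← hg, inv_smul_smul]
        have heq : (⟨(h * h₀⁻¹)⁻¹ * Γ.w * (h * h₀⁻¹), hlift _ hhS _ hh1⟩ :
            MulAction.stabilizer (FF A) f) =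
            (⟨g⁻¹ * (h * h₀⁻¹), hn1⟩ : MulAction.stabilizer (FF A) f)⁻¹ *
              ⟨g⁻¹ * Γ.w * g, hlift _ hhS _ hg⟩ * ⟨g⁻¹ * (h * h₀⁻¹), hn1⟩ := by
          apply Subtype.ext
          change (h * h₀⁻¹)⁻¹ * Γ.w * (h * h₀⁻¹) =
            (g⁻¹ * (h * h₀⁻¹))⁻¹ * (g⁻¹ * Γ.w * g) * (g⁻¹ * (h * h₀⁻¹))
          group
        rw [heq, map_mul, map_mul, map_mul, map_mul, map_inv, map_inv, mul_comm, ← mul_assoc,
          mul_inv_cancel, one_mul]
      change φ' (r.rangeRestrict (e ⟨h⁻¹ * Γ.w * h, hn⟩)) = 1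
      rw [hev]
      by_cases hoo : (h : FF A ⧸ N) = o
      · rw [hgen (Γ.tau i) (by rw [hof, hoo])]
        have : r.rangeRestrict ⟨(Γ.tau i)⁻¹ * Γ.w * Γ.tau i,
            hlift _ hhS _ (by rw [hof, hoo])⟩ = 1 := by
          apply Subtype.ext
          change c ((Γ.tau i)⁻¹ * Γ.w * Γ.tau i) f = 1
          exact hw'
        rw [this, map_one]
      · rw [hgen (k (h : FF A ⧸ N)) (hk _)]
        have hm : ((c (k (h : FF A ⧸ N)) f)⁻¹ * Γ.w * c (k (h : FF A ⧸ N)) f) ∈ r.range := by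
          refine ⟨⟨_, hlift _ hhS _ (hk _)⟩, ?_⟩
          rw [hr]
          exact hconj _ hhS hoo _ (hk _)
        have hk2 := hφ' (c (k (h : FF A ⧸ N)) f)
          (Finset.mem_image.2 ⟨_, Finset.mem_erase.2 ⟨hoo, hhS⟩, rfl⟩) hm
        have : r.rangeRestrict ⟨(k (h : FF A ⧸ N))⁻¹ * Γ.w * k (h : FF A ⧸ N),
            hlift _ hhS _ (hk _)⟩ = ⟨_, hm⟩ := by
          apply Subtype.ext
          exact hconj _ hhS hoo _ (hk _)
        rw [this]
        exact hk2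
    have h2 := hall _ key
    ext ⟨n', hn'⟩
    obtain ⟨n, rfl⟩ := hn'
    obtain ⟨m, rfl⟩ := he_surj n
    have h3 := DFunLike.congr_fun h2 m
    have h4 : φ' (r.rangeRestrict (e m)) = 1 := h3
    have h5 : φ' ⟨r (e m), ⟨e m, rfl⟩⟩ = 1 := h4
    rw [h5]
    rfl
  · intro hle n hn
    have hn1 : h₀ * n * h₀⁻¹ ∈ MulAction.stabilizer (FF A) f := by
      rw [hNf]
      have : h₀⁻¹ * (h₀ * n * h₀⁻¹) * h₀ = n := by group
      rw [this]
      exact hn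
    have h2 : c (h₀ * n * h₀⁻¹) f ∈ Subgroup.normalClosure ({Γ.w} : Set (FF A)) :=
      hle ⟨⟨_, hn1⟩, rfl⟩
    have h3 := Subgroup.mul_mem _ h2 (hnc (h₀ * n * h₀⁻¹) f)
    rw [mul_inv_cancel_left] at h3
    have h4 := Subgroup.normalClosure_normal.conj_mem _ h3 h₀⁻¹
    have h5 : h₀⁻¹ * (h₀ * n * h₀⁻¹) * h₀⁻¹⁻¹ = n := by group
    rw [h5] at h4
    exact h4

end Pool.Agent.LOTI
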