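import Pool.Agent.Lib.LOTI.Nonzero
import Pool.Agent.Lib.LOTI.Reduce
import Pool.Agent.Lib.LOTI.Count
import Pool.Agent.Lib.LOTI.LIF

/-!
# Proposition 1.11

PROOF. Induction on `k` with `S.card ≤ k` (generalizing `N`, `S`), or strong induction on `S.card`.
* `S = ∅`: every `φ` satisfies `Kill`, so every homomorphism `N → ℚ` is trivial, `N = ⊥` by `LI_FF hA`.
* `S ≠ ∅`. If every arc is passed by two strands, i.e. `h2` of `count` holds, then `count` and `nonzero` give `φ ≠ 1` with `Kill`: contradiction.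
  Otherwise there are `o ∈ S`, `i` such that for all `o' ∈ S`, `j` with `arc o' j = arc o i`: `o' = o ∧ Eqm i j`: apply `reduce` and the induction
  hypothesis to `N'`, `S'`.
-/

set_option autoImplicit false

open scoped Classical

namespace Pool.Agent.LOTI

variable {A : Type} [Group A]

theorem main (hA : LI A) (Γ : Geo A) {P : Set (FF A)} (hP : IsCone (Subgroup.zpowers Γ.w) P)
    (N : Subgroup (FF A)) (hN : N.FG) (S : Finset (FF A ⧸ N)) (hS : ∀ o ∈ S, Γ.w • o = o)
    (hk : ∀ φ : N →* Multiplicative ℚ, Kill Γ.w N S φ → φ = 1) :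
    N ≤ Subgroup.normalClosure {Γ.w} := by
  have key : ∀ (k : ℕ) (N : Subgroup (FF A)) (S : Finset (FF A ⧸ N)), S.card ≤ k → N.FG →
      (∀ o ∈ S, Γ.w • o = o) → (∀ φ : N →* Multiplicative ℚ, Kill Γ.w N S φ → φ = 1) →
      N ≤ Subgroup.normalClosure {Γ.w} := by
    intro k
    induction k with
    | zero =>
      intro N S hc hN _ hk
      have h0 : S = ∅ := Finset.card_eq_zero.1 (Nat.le_zero.1 hc)
      have hN' : N = ⊥ := LI_FF hA N hN (fun φ => hk φ (fun h hh _ => by
        rw [h0] at hh
        exact absurd hh (Finset.notMem_empty _)))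
      rw [hN']
      exact bot_le
    | succ k ih =>
      intro N S hc hN hS hk
      rcases S.eq_empty_or_nonempty with h0 | h0
      · have hN' : N = ⊥ := LI_FF hA N hN (fun φ => hk φ (fun h hh _ => by
          rw [h0] at hh
          exact absurd hh (Finset.notMem_empty _)))
        rw [hN']
        exact bot_le
      · by_cases h2 : ∀ o ∈ S, ∀ i : ℤ, ∃ o' ∈ S, ∃ j : ℤ,
            Γ.arc o' j = Γ.arc o i ∧ ¬ (o' = o ∧ Γ.Eqm i j)
        · exfalso
          obtain ⟨φ, h3, h4⟩ := nonzero hA Γ N hN S h0 hS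
            (fun V hV => count Γ hP S hS h2 V hV)
          exact h3 (hk φ h4)
        · push Not at h2
          obtain ⟨o, ho, i, h2⟩ := h2
          obtain ⟨N', S', h3, h4, h5, h6, h7⟩ := reduce Γ N hN S hS o ho i
            (fun o' ho' j hj => h2 o' ho' j hj)
          exact h7 (ih N' S' (by omega) h3 h5 (h6 hk))
  exact key S.card N S le_rfl hN hS hk

end Pool.Agent.LOTI
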