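import Pool.Agent.Lib.LOTI.Defs

/-!
# Normal forms along a geodesic (1.5)

PROOFS.
* `Geo.eq_of_mem`: let `i < j`, `n = j - i`. Then
  `(p i)⁻¹ * p j = (y^{u (i+1)} ι (g (i+1))) ⋯ (y^{u j} ι (g j))` is the value of the Mathlib reduced word
  `HNNExtension.NormalWord.ReducedWord` with `head = 1`, `toList = [(u (i+1), g (i+1)), …, (u j, g j)]`
  (`List.ofFn` or `List.map` of a range); the chain condition is `Γ.red` (`toSubgroup ⊥ ⊥ u = ⊥`, so it says
  `g = 1 → u (k) = u (k+1)`). By `HNNExtension.ReducedWord.toList_eq_nil_of_mem_of_range` it is not in the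
  range of `ι`. The case `j < i`: take inverses.
* `Geo.tau_injective`: let `tau i = tau j`, wlog `i < j` (symmetric).
  - `u i = u j`: `p (i-1) = p (j-1)`, so `i = j` by `eq_of_mem`.
  - `u i = -1`, `u j = 1`: `p (i-1) = p (j-1) * y`; `p i = p (i-1) * (y⁻¹ * ι (g i))`, so
    `(p i)⁻¹ * p (j-1) = ι (g i)⁻¹` is in the range, `j - 1 = i`, and then `g i = 1`, so by `red`
    `u (i+1) = u i`, i.e. `u j = u i`, contradiction.
  - `u i = 1`, `u j = -1`: `p (i-1) * y = p (j-1)`, `p i = p (i-1) * (y * ι (g i)) = p (j-1) * ι (g i)`, the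
    same conclusion.
* `Geo.tau_eq`: `tau j * (tau i)⁻¹ = w^s` gives `tau j = w^s * tau i = tau (i + s m)` (`tau_add_mul`).
* `Geo.pass_eq`: `p j * ι h = w^s * p i = p (i + s m)` (`p_add_mul`), so
  `(p (i + s m))⁻¹ * p j = ι h⁻¹` is in the range, `i + s m = j`, and then `ι h = 1`.
-/

set_option autoImplicit false

open scoped Classical

namespace Pool.Agent.LOTI

variable {A : Type} [Group A]

/-- the letters from `i + 1` to `i + n` -/
private def lst (Γ : Geo A) : ℕ → ℤ → List (ℤˣ × A)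
  | 0, _ => []
  | n + 1, i => (Γ.u (i + 1), Γ.g (i + 1)) :: lst Γ n (i + 1)

private theorem mem_bot_sub {u : ℤˣ} {a : A}
    (h : a ∈ HNNExtension.toSubgroup (⊥ : Subgroup A) ⊥ u) : a = 1 := by
  unfold HNNExtension.toSubgroup at h
  split_ifs at h
  · exact Subgroup.mem_bot.1 h
  · exact Subgroup.mem_bot.1 h

private theorem lst_chain (Γ : Geo A) (n : ℕ) (i : ℤ) :
    (lst Γ n i).IsChain
      (fun a b => a.2 ∈ HNNExtension.toSubgroup (⊥ : Subgroup A) ⊥ a.1 → a.1 = b.1) := by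
  induction n generalizing i with
  | zero => exact List.isChain_nil
  | succ n ih =>
    cases n with
    | zero => exact List.isChain_singleton _
    | succ n =>
      have h := ih (i + 1)
      rw [lst, lst]
      rw [lst] at h
      refine List.isChain_cons_cons.2 ⟨?_, h⟩
      intro h1
      exact (Γ.red _ (mem_bot_sub h1)).symm

private theorem lst_prod (Γ : Geo A) (n : ℕ) (i : ℤ) :
    ((lst Γ n i).map fun x => (y : FF A) ^ (x.1 : ℤ) * ι x.2).prod = (Γ.p i)⁻¹ * Γ.p (i + n) := by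
  induction n generalizing i with
  | zero => simp [lst]
  | succ n ih =>
    rw [lst, List.map_cons, List.prod_cons, ih (i + 1)]
    have h1 : i + ((n + 1 : ℕ) : ℤ) = i + 1 + n := by push_cast; ring
    rw [h1]
    have h2 := Γ.pS i
    have h3 : (y : FF A) ^ (Γ.u (i + 1) : ℤ) * ι (Γ.g (i + 1)) = (Γ.p i)⁻¹ * Γ.p (i + 1) := by
      rw [h2, inv_mul_cancel_left]
    rw [h3]
    group

private theorem no_mem (Γ : Geo A) {i : ℤ} {n : ℕ} (hn : 0 < n)
    (h : (Γ.p i)⁻¹ * Γ.p (i + n) ∈ (ι : A →* FF A).range) : False := by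
  let w : HNNExtension.NormalWord.ReducedWord A (⊥ : Subgroup A) ⊥ :=
    { head := 1
      toList := lst Γ n i
      chain := lst_chain Γ n i }
  have h1 : w.prod (MulEquiv.refl (⊥ : Subgroup A)) = (Γ.p i)⁻¹ * Γ.p (i + n) := by
    rw [← lst_prod Γ n i]
    unfold HNNExtension.NormalWord.ReducedWord.prod
    rw [map_one, one_mul]
    rfl
  have h2 := HNNExtension.ReducedWord.toList_eq_nil_of_mem_of_range
    (φ := MulEquiv.refl (⊥ : Subgroup A)) w (by rw [h1]; exact h)
  obtain ⟨k, rfl⟩ : ∃ k, n = k + 1 := ⟨n - 1, by omega⟩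
  exact List.cons_ne_nil _ _ h2

theorem Geo.eq_of_mem (Γ : Geo A) {i j : ℤ}
    (h : (Γ.p i)⁻¹ * Γ.p j ∈ (ι : A →* FF A).range) : i = j := by
  rcases lt_trichotomy i j with hij | hij | hij
  · exfalso
    refine no_mem Γ (i := i) (n := (j - i).toNat) (by omega) ?_
    have h1 : i + ((j - i).toNat : ℤ) = j := by omega
    rw [h1]
    exact h
  · exact hij
  · exfalso
    refine no_mem Γ (i := j) (n := (i - j).toNat) (by omega) ?_
    have h1 : j + ((i - j).toNat : ℤ) = i := by omega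
    rw [h1]
    have h2 := Subgroup.inv_mem _ h
    rwa [mul_inv_rev, inv_inv] at h2

private theorem tau_inj_aux (Γ : Geo A) {i j : ℤ} (hij : Γ.tau i = Γ.tau j) (hlt : i < j) :
    False := by
  have hsame : Γ.p (i - 1) = Γ.p (j - 1) → False := by
    intro h
    have h1 := Γ.eq_of_mem (i := i - 1) (j := j - 1) (by
      rw [h, inv_mul_cancel]
      exact Subgroup.one_mem _)
    omega
  have hmix : Γ.p i = Γ.p (j - 1) * ι (Γ.g i) → Γ.u i ≠ Γ.u j → False := by
    intro h hne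
    have h1 : (Γ.p i)⁻¹ * Γ.p (j - 1) = ι (Γ.g i)⁻¹ := by
      rw [h, map_inv]
      group
    have h2 := Γ.eq_of_mem (i := i) (j := j - 1) (by
      rw [h1]
      exact ⟨_, rfl⟩)
    rw [← h2] at h
    have h3 : ι (Γ.g i) = (1 : FF A) := by
      have := h.symm
      rwa [mul_eq_left] at this
    have h4 : Γ.g i = 1 := ι_injective (by rw [h3, map_one])
    have h5 := Γ.red i h4
    have h6 : i + 1 = j := by omega
    rw [h6] at h5
    exact hne h5.symm
  rcases Int.units_eq_one_or (Γ.u i) with hi | hi <;> rcases Int.units_eq_one_or (Γ.u j) with hj | hj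
  · rw [Γ.tau_of_pos hi, Γ.tau_of_pos hj] at hij
    exact hsame (mul_right_cancel hij)
  · refine hmix ?_ (by rw [hi, hj]; decide)
    rw [Γ.p_of_pos hi, hij, Γ.tau_of_neg hj]
  · refine hmix ?_ (by rw [hi, hj]; decide)
    rw [Γ.p_of_neg hi, hij, Γ.tau_of_pos hj]
    group
  · rw [Γ.tau_of_neg hi, Γ.tau_of_neg hj] at hij
    exact hsame hij

theorem Geo.tau_injective (Γ : Geo A) : Function.Injective Γ.tau := by
  intro i j hij
  rcases lt_trichotomy i j with h | h | h
  · exact absurd h (fun h => tau_inj_aux Γ hij h)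
  · exact h
  · exact absurd h (fun h => tau_inj_aux Γ hij.symm h)

theorem Geo.tau_eq (Γ : Geo A) {i j s : ℤ} (h : Γ.tau j * (Γ.tau i)⁻¹ = Γ.w ^ s) :
    j = i + s * Γ.m := by
  apply Γ.tau_injective
  rw [Γ.tau_add_mul, ← h, inv_mul_cancel_right]

theorem Geo.pass_eq (Γ : Geo A) {i j s : ℤ} {x : A}
    (h : Γ.p j * ι x * (Γ.p i)⁻¹ = Γ.w ^ s) : j = i + s * Γ.m ∧ x = 1 := by
  have h1 : Γ.p (i + s * Γ.m) = Γ.p j * ι x := by
    rw [Γ.p_add_mul, ← h, inv_mul_cancel_right]
  have h2 : i + s * Γ.m = j := by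
    apply Γ.eq_of_mem
    rw [h1]
    refine ⟨x⁻¹, ?_⟩
    rw [map_inv]
    group
  refine ⟨h2.symm, ?_⟩
  rw [h2] at h1
  have h3 : ι x = (1 : FF A) := by
    have := h1.symm
    rwa [mul_eq_left] at this
  exact ι_injective (by rw [h3, map_one])

end Pool.Agent.LOTI
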