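import Pool.Agent.Lib.LOTI.Dim
import Pool.Agent.Lib.LOTI.Hard

/-!
# A non-zero homomorphism which kills the lifts (1.11, end of case A)

PROOF. `Ω = FF A ⧸ N`, `o₀ = (1 : FF A ⧸ N)`, `stabilizer o₀ = N` (`MulAction.stabilizer_quotient`); the action is transitive; all
stabilisers are conjugate to `N` (`h N` has the stabiliser `h N h⁻¹`), so they are finitely generated. `Σ = Γ.arcs S` is not empty
(`S.Nonempty`, `0 < m`). By `meet` the set of classes `Quotient (cls Σ)` is finite; let `T` be the finite set of the classes which are not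
soft. For every `q ∈ T` there is by `meet` `f ∈ Σ` with `f` or `y • f` in `q`; `f = arc o i` with `o ∈ S`, and by `arc_of_neg`,
`y_arc_of_neg`, `y_arc_of_pos`, `arc_of_pos` both `f` and `y • f` are in `A`-orbits of points `st o k`. So there is `v_q` in `q` with
`ι a • v_q = st o k` for some `a`; `A` acts freely at `v_q` (`free_of_hard`). `V = {v_q | q ∈ T}` has `|V| = |T|` (`v_q` has the class `q`) and is
`Used` (points in the same `A`-orbit have the same class). So `|T| + |S| ≤ |Σ|` by `hV`. Apply `dim` with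
`W = S.image (fun o => (Γ.w, o))` (`|W| ≤ |S|`): a cocycle `c` with `c w o = 0` for `o ∈ S` and `c n o₀ ≠ 0` for some `n ∈ N`. `φ n = c n o₀`
(`IsACoc.toCoc`, `IsCoc.hom`). If `h N ∈ S`: `c (h⁻¹ * w * h) o₀ = -c h o₀ + c w (h • o₀) + c h o₀ = 0` (`IsCoc.conj`).
-/

set_option autoImplicit false

open scoped Classical

namespace Pool.Agent.LOTI

variable {A : Type} [Group A]

/-- points in the same `A`-orbit have the same class -/
private theorem cl_smul {Ω : Type} [MulAction (FF A) Ω] (S : Finset Ω) (a : A) (o : Ω) :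
    cl (A := A) S (ι a • o) = cl (A := A) S o := by
  refine Quotient.sound ?_
  show Relation.EqvGen (stp (A := A) S) _ _
  exact Relation.EqvGen.symm _ _ (Relation.EqvGen.rel _ _ (Or.inl ⟨a, rfl⟩))

/-- the stabilisers are finitely generated -/
private theorem stab_all (N : Subgroup (FF A)) (hN : N.FG) (o : FF A ⧸ N) :
    (MulAction.stabilizer (FF A) o).FG := by
  obtain ⟨h, rfl⟩ := QuotientGroup.mk_surjective o
  have h1 : ((h : FF A) : FF A ⧸ N) = h • (((1 : FF A) : FF A ⧸ N)) := by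
    rw [MulAction.Quotient.smul_coe, smul_eq_mul, mul_one]
  rw [h1, MulAction.stabilizer_smul_eq_stabilizer_map_conj, MulAction.stabilizer_quotient]
  obtain ⟨s, hs⟩ := hN
  refine ⟨s.image (MulAut.conj h).toMonoidHom, ?_⟩
  rw [Finset.coe_image, ← MonoidHom.map_closure, hs]

/-- both ends of an arc of a strand are in `A`-orbits of points of the strand -/
private theorem ends_used (Γ : Geo A) {Ω : Type} [MulAction (FF A) Ω] (o : Ω) (i : ℤ) :
    (∃ k : ℤ, ∃ a : A, ι a • Γ.arc o i = Γ.st o k) ∧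
      ∃ k : ℤ, ∃ a : A, ι a • ((y : FF A) • Γ.arc o i) = Γ.st o k := by
  rcases Int.units_eq_one_or (Γ.u i) with h | h
  · refine ⟨⟨i, (Γ.g i)⁻¹, ?_⟩, ⟨i - 1, 1, ?_⟩⟩
    · rw [Γ.arc_of_pos h, map_inv, inv_smul_smul]
    · rw [Γ.y_arc_of_pos h, map_one, one_smul]
  · refine ⟨⟨i - 1, 1, ?_⟩, ⟨i, (Γ.g i)⁻¹, ?_⟩⟩
    · rw [Γ.arc_of_neg h, map_one, one_smul]
    · rw [Γ.y_arc_of_neg h, map_inv, inv_smul_smul]

private theorem arcs_ne (Γ : Geo A) {Ω : Type} [MulAction (FF A) Ω] (S : Finset Ω)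
    (hne : S.Nonempty) : (Γ.arcs S).Nonempty := by
  unfold Geo.arcs
  refine Finset.Nonempty.image ?_ _
  exact Finset.Nonempty.product hne (Finset.nonempty_range_iff.2 Γ.hm.ne')

private theorem mem_arcs (Γ : Geo A) {Ω : Type} [MulAction (FF A) Ω] (S : Finset Ω) (f : Ω)
    (hf : f ∈ Γ.arcs S) : ∃ o ∈ S, ∃ j : ℕ, Γ.arc o (j : ℤ) = f := by
  obtain ⟨⟨o, j⟩, hoj, hfe⟩ := Finset.mem_image.1 hf
  exact ⟨o, (Finset.mem_product.1 hoj).1, j, hfe⟩

theorem nonzero (hA : LI A) (Γ : Geo A) (N : Subgroup (FF A)) (hN : N.FG)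
    (S : Finset (FF A ⧸ N)) (hne : S.Nonempty) (hS : ∀ o ∈ S, Γ.w • o = o)
    (hV : ∀ V : Finset (FF A ⧸ N), Used Γ S V → V.card + S.card ≤ (Γ.arcs S).card) :
    ∃ φ : N →* Multiplicative ℚ, φ ≠ 1 ∧ Kill Γ.w N S φ := by
  have hfg := stab_all N hN
  have hSig : (Γ.arcs S).Nonempty := arcs_ne Γ S hne
  -- the classes which are not soft
  set T : Finset (Quotient (cls (A := A) (Γ.arcs S))) :=
    ((Γ.arcs S).image (fun f => cl (A := A) (Γ.arcs S) f) ∪
      (Γ.arcs S).image (fun f => cl (A := A) (Γ.arcs S) ((y : FF A) • f))).filter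
        (fun q => ¬ Soft (A := A) (Γ.arcs S) q) with hTdef
  have hT : ∀ q, ¬ Soft (A := A) (Γ.arcs S) q → q ∈ T := by
    intro q hq
    obtain ⟨f, hf, h⟩ := meet (A := A) (Γ.arcs S) hSig q
    rw [hTdef, Finset.mem_filter]
    refine ⟨?_, hq⟩
    rw [Finset.mem_union]
    rcases h with h | h
    · exact Or.inl (Finset.mem_image.2 ⟨f, hf, h⟩)
    · exact Or.inr (Finset.mem_image.2 ⟨f, hf, h⟩)
  have hTs : ∀ q ∈ T, ¬ Soft (A := A) (Γ.arcs S) q := by
    intro q hq
    rw [hTdef, Finset.mem_filter] at hq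
    exact hq.2
  -- representatives
  have hrep : ∀ q : Quotient (cls (A := A) (Γ.arcs S)), ∃ v : FF A ⧸ N,
      cl (A := A) (Γ.arcs S) v = q ∧ ∃ o ∈ S, ∃ i : ℤ, ∃ a : A, ι a • v = Γ.st o i := by
    intro q
    obtain ⟨f, hf, h⟩ := meet (A := A) (Γ.arcs S) hSig q
    obtain ⟨o, ho, j, hfe⟩ := mem_arcs Γ S f hf
    obtain ⟨⟨k, a, h1⟩, ⟨k', a', h2⟩⟩ := ends_used Γ o (j : ℤ)
    rw [hfe] at h1 h2
    rcases h with h | h
    · exact ⟨f, h, o, ho, k, a, h1⟩
    · exact ⟨(y : FF A) • f, h, o, ho, k', a', h2⟩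
  choose v hv1 hv2 using hrep
  have hinj : Set.InjOn v T := by
    intro q _ q' _ h
    rw [← hv1 q, ← hv1 q', h]
  have hcard : (T.image v).card = T.card := Finset.card_image_of_injOn hinj
  have hused : Used Γ S (T.image v) := by
    refine ⟨?_, ?_, ?_⟩
    · intro x hx a ha
      obtain ⟨q, hq, rfl⟩ := Finset.mem_image.1 hx
      exact free_of_hard hA hfg (Γ.arcs S) q (hTs q hq) (v q) (hv1 q) a ha
    · intro x hx
      obtain ⟨q, hq, rfl⟩ := Finset.mem_image.1 hx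
      exact hv2 q
    · intro x hx x' hx' hxx
      obtain ⟨q, hq, rfl⟩ := Finset.mem_image.1 hx
      obtain ⟨q', hq', rfl⟩ := Finset.mem_image.1 hx'
      obtain ⟨a, ha⟩ := hxx
      have h1 := cl_smul (A := A) (Γ.arcs S) a (v q)
      rw [ha, hv1, hv1] at h1
      rw [h1]
  have h1 := hV _ hused
  rw [hcard] at h1
  have hW : (S.image (fun o => ((Γ.w : FF A), o))).card ≤ S.card := Finset.card_image_le
  obtain ⟨c, hc, hcW, n, hn, hcn⟩ := dim (Γ.arcs S) hSig T hT
    (S.image (fun o => ((Γ.w : FF A), o))) (by omega) (((1 : FF A) : FF A ⧸ N))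
  have hcoc := hc.toCoc
  rw [MulAction.stabilizer_quotient] at hn
  have hfix : ∀ n ∈ N, n • (((1 : FF A) : FF A ⧸ N)) = ((1 : FF A) : FF A ⧸ N) := by
    intro n hn
    rw [← MulAction.stabilizer_quotient N] at hn
    exact MulAction.mem_stabilizer_iff.1 hn
  refine ⟨{ toFun := fun n => Multiplicative.ofAdd (c n (((1 : FF A) : FF A ⧸ N)))
            map_one' := hcoc.one _
            map_mul' := ?_ }, ?_, ?_⟩
  · intro a b
    have h2 := hcoc (a : FF A) (b : FF A) (((1 : FF A) : FF A ⧸ N))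
    simp only [hfix b b.2] at h2
    exact h2
  · intro h
    have h2 := DFunLike.congr_fun h ⟨n, hn⟩
    apply hcn
    have h3 : Multiplicative.ofAdd (c n (((1 : FF A) : FF A ⧸ N))) = 1 := h2
    exact Multiplicative.ofAdd.injective h3
  · intro h hh hhn
    have h2 : h • (((1 : FF A) : FF A ⧸ N)) = (h : FF A ⧸ N) := by
      rw [MulAction.Quotient.smul_coe, smul_eq_mul, mul_one]
    have h3 := hcoc.conj Γ.w h (((1 : FF A) : FF A ⧸ N)) (by rw [h2]; exact hS _ hh)
    show Multiplicative.ofAdd (c (h⁻¹ * Γ.w * h) (((1 : FF A) : FF A ⧸ N))) = 1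
    have h4 : c Γ.w (h : FF A ⧸ N) = 0 :=
      hcW (Γ.w, (h : FF A ⧸ N)) (Finset.mem_image.2 ⟨_, hh, rfl⟩)
    simp only [h2, h4] at h3
    rw [h3, ofAdd_zero, mul_one, inv_mul_cancel]

end Pool.Agent.LOTI
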