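import Pool.Agent.Lib.LOTI.Coc1

/-!
# One strand on an arc (1.10)

Let `f = arc o i` be passed by no other strand (and by the strand of `o` only with the index `i` mod `m`).
PROOF. Put `v = ι (g i) * (p i)⁻¹ * p (i - 1 + m)`, `w' = (tau i)⁻¹ * w * tau i`; `w' • f = f`.
* `u i = -1`: `tau i = p (i-1)`, `w' = (p (i-1))⁻¹ * p (i-1+m) = y⁻¹ * v` (`p_add`, `pS'`); put `x = v`. So `x⁻¹ * y = w'⁻¹` and
  `x • f = y • w' • f = y • f`; `f = st o (i-1)`.
* `u i = 1`: `tau i = p (i-1) * y`, `w' = v * y`, put `x = v⁻¹`: `x⁻¹ * y = w'`, `x • f = y • f`; `y • f = st o (i-1)`.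
`c` is the cocycle with values in `FF A` with `c (ι a) o' = ι a`, `c y o' = y` for `o' ≠ f`, `c y f = x` (`exists_coc`).
* `c h o' • o' = h • o'` and `(c h o')⁻¹ * h ∈ normalClosure {w}` for all `h`, `o'`: `FF_induction` on `h` (products: cocycle
  identity, for the second one normality; `h = y`, `o' = f`: `x⁻¹ * y` is conjugate to `w^{±1}`; inverses: `IsCoc.inv`).
* SUBPATHS: let `a ≤ b` and `arc o' k ≠ f` for all `a < k ≤ b`. Then
  `c ((p a)⁻¹ * p b) (st o' b) = (p a)⁻¹ * p b`. Induction on `b`: `(p a)⁻¹ * p (b+1) = (p a)⁻¹ * p b * (y^{u (b+1)} * ι (g (b+1)))`,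
  `ι (g (b+1)) • st o' (b+1) = y^{-u (b+1)} • st o' b`, and `c (y^{u (b+1)})` at this point is `y^{u (b+1)}` because the
  arc `arc o' (b+1)` is not `f` (`u = 1`: the point is `arc o' (b+1)`; `u = -1`: the point is `y • arc o' (b+1)`, `IsCoc.inv`).
* `o' ∈ S`, `o' ≠ o`: `a = 0`, `b = m`: `c w o' = w` (`st o' m = o'`).
* strand `o`, `a = i`, `b = i - 1 + m`: the indices `i < k ≤ i - 1 + m` are not `i` mod `m`, so by `h1` the arcs are not `f`;
  `st o (i - 1 + m) = st o (i - 1)`; so `c v (st o (i-1)) = v`. If `u i = -1` this is `c x f = x`, and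
  `c w' f = c y⁻¹ (x • f) * x = (c y f)⁻¹ * x = 1`. If `u i = 1` it is `c v (y • f) = v`, so `c w' f = c v (y • f) * c y f = v * x = 1`.
-/

set_option autoImplicit false

open scoped Classical

namespace Pool.Agent.LOTI

variable {A : Type} [Group A]

private theorem os_smul {Ω : Type} [MulAction (FF A) Ω] {c : FF A → Ω → FF A} (hc : IsCoc c)
    (h1 : ∀ a o', c (ι a) o' = ι a) (h2 : ∀ o', c y o' • o' = (y : FF A) • o') :
    ∀ h o', c h o' • o' = h • o' := by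
  intro h
  refine FF_induction (p := fun h => ∀ o', c h o' • o' = h • o') ?_ ?_ ?_ ?_ h
  · intro a o'
    rw [h1]
  · exact h2
  · intro g h hg hh o'
    rw [hc, mul_smul, hh, hg, mul_smul]
  · intro g hg o'
    rw [hc.inv, inv_smul_eq_iff, hg, smul_inv_smul]

private theorem os_mem {Ω : Type} [MulAction (FF A) Ω] {c : FF A → Ω → FF A} (hc : IsCoc c)
    (N : Subgroup (FF A)) [hN : N.Normal]
    (h1 : ∀ a o', c (ι a) o' = ι a) (h2 : ∀ o', (c y o')⁻¹ * y ∈ N) :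
    ∀ h o', (c h o')⁻¹ * h ∈ N := by
  intro h
  refine FF_induction (p := fun h => ∀ o', (c h o')⁻¹ * h ∈ N) ?_ ?_ ?_ ?_ h
  · intro a o'
    rw [h1, inv_mul_cancel]
    exact N.one_mem
  · exact h2
  · intro g h hg hh o'
    have e : (c (g * h) o')⁻¹ * (g * h) =
        ((c h o')⁻¹ * ((c g (h • o'))⁻¹ * g) * (c h o')⁻¹⁻¹) * ((c h o')⁻¹ * h) := by
      rw [hc]
      group
    rw [e]
    exact N.mul_mem (hN.conj_mem _ (hg _) _) (hh _)
  · intro g hg o'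
    have e : (c g⁻¹ o')⁻¹ * g⁻¹ =
        (g * ((c g (g⁻¹ • o'))⁻¹ * g) * g⁻¹)⁻¹ := by
      rw [hc.inv]
      group
    rw [e]
    exact N.inv_mem (hN.conj_mem _ (hg _) _)

private theorem os_path (Γ : Geo A) {Ω : Type} [MulAction (FF A) Ω] {c : FF A → Ω → FF A}
    (hc : IsCoc c) (h1 : ∀ a o', c (ι a) o' = ι a) (f : Ω) (h2 : ∀ o', o' ≠ f → c y o' = y)
    (o' : Ω) (a : ℤ) (n : ℕ) (hn : ∀ k : ℤ, a < k → k ≤ a + n → Γ.arc o' k ≠ f) :
    c ((Γ.p a)⁻¹ * Γ.p (a + n)) (Γ.st o' (a + n)) = (Γ.p a)⁻¹ * Γ.p (a + n) := by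
  induction n with
  | zero =>
    simp only [Nat.cast_zero, add_zero, inv_mul_cancel]
    exact hc.one _
  | succ n ih =>
    have ih' := ih (fun k hk1 hk2 => hn k hk1 (by push_cast; omega))
    have hb : (a + ((n + 1 : ℕ) : ℤ)) = (a + n) + 1 := by push_cast; ring
    have hk : Γ.arc o' (a + n + 1) ≠ f := hn _ (by omega) (by push_cast; omega)
    rw [hb]
    have e1 : (Γ.p a)⁻¹ * Γ.p (a + n + 1) = ((Γ.p a)⁻¹ * Γ.p (a + n)) *
        (y ^ (Γ.u (a + n + 1) : ℤ) * ι (Γ.g (a + n + 1))) := by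
      rw [Γ.pS (a + n), mul_assoc]
    have e2 : (y ^ (Γ.u (a + n + 1) : ℤ) * ι (Γ.g (a + n + 1))) • Γ.st o' (a + n + 1) =
        Γ.st o' (a + n) := by
      unfold Geo.st
      rw [Γ.pS (a + n), ← mul_smul]
      congr 1
      group
    have e3 : c (y ^ (Γ.u (a + n + 1) : ℤ)) (ι (Γ.g (a + n + 1)) • Γ.st o' (a + n + 1)) =
        y ^ (Γ.u (a + n + 1) : ℤ) := by
      rcases Int.units_eq_one_or (Γ.u (a + n + 1)) with h | h
      · rw [← Γ.arc_of_pos h o', h]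
        simp only [Units.val_one, zpow_one]
        exact h2 _ hk
      · rw [← Γ.y_arc_of_neg h o', h]
        simp only [Units.val_neg, Units.val_one, zpow_neg, zpow_one]
        rw [hc.inv, inv_smul_smul, h2 _ hk]
    rw [e1, hc, e2, ih', hc, h1, e3]

theorem one_strand (Γ : Geo A) {Ω : Type} [MulAction (FF A) Ω] (S : Finset Ω)
    (hS : ∀ o ∈ S, Γ.w • o = o) (o : Ω) (ho : o ∈ S) (i : ℤ)
    (h1 : ∀ o' ∈ S, ∀ j : ℤ, Γ.arc o' j = Γ.arc o i → o' = o ∧ Γ.Eqm i j) :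
    ∃ (x : FF A) (c : FF A → Ω → FF A), IsCoc c ∧ (∀ a o', c (ι a) o' = ι a) ∧
      (∀ o', o' ≠ Γ.arc o i → c y o' = y) ∧ c y (Γ.arc o i) = x ∧
      (∀ h o', c h o' • o' = h • o') ∧
      (x⁻¹ * y = (Γ.tau i)⁻¹ * Γ.w * Γ.tau i ∨ x⁻¹ * y = ((Γ.tau i)⁻¹ * Γ.w * Γ.tau i)⁻¹) ∧
      c ((Γ.tau i)⁻¹ * Γ.w * Γ.tau i) (Γ.arc o i) = 1 ∧
      (∀ o' ∈ S, o' ≠ o → c Γ.w o' = Γ.w) ∧
      ∀ h o', (c h o')⁻¹ * h ∈ Subgroup.normalClosure ({Γ.w} : Set (FF A)) := by
  obtain ⟨f, hf⟩ : ∃ f, f = Γ.arc o i := ⟨_, rfl⟩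
  obtain ⟨v, hv⟩ : ∃ v, v = ι (Γ.g i) * ((Γ.p i)⁻¹ * Γ.p (i + ((Γ.m - 1 : ℕ) : ℤ))) :=
    ⟨_, rfl⟩
  have hm := Γ.hm
  have hidx : i + ((Γ.m - 1 : ℕ) : ℤ) = (i - 1) + Γ.m := by
    have : ((Γ.m - 1 : ℕ) : ℤ) = (Γ.m : ℤ) - 1 := by
      rw [Nat.cast_sub (by omega)]
      simp
    rw [this]
    ring
  obtain ⟨w', hw'⟩ : ∃ w', w' = (Γ.tau i)⁻¹ * Γ.w * Γ.tau i := ⟨_, rfl⟩
  have hwf : w' • f = f := by
    rw [hw', hf]
    unfold Geo.arc
    rw [mul_smul, mul_smul, smul_inv_smul, hS o ho]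
  have hneg : Γ.u i = -1 → w' = y⁻¹ * v := by
    intro h
    rw [hw', hv, hidx, Γ.p_of_neg h, Γ.tau_of_neg h, Γ.p_add (i - 1)]
    group
  have hpos : Γ.u i = 1 → w' = v * y := by
    intro h
    rw [hw', hv, hidx, Γ.p_of_pos h, Γ.tau_of_pos h, Γ.p_add (i - 1)]
    group
  obtain ⟨x, hx⟩ : ∃ x, x = if Γ.u i = -1 then v else v⁻¹ := ⟨_, rfl⟩
  have hxy : x⁻¹ * y = w' ∨ x⁻¹ * y = w'⁻¹ := by
    rcases Int.units_eq_one_or (Γ.u i) with h | h
    · left
      have hne : ¬ (Γ.u i = -1) := by rw [h]; decide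
      rw [hx, if_neg hne, hpos h, inv_inv]
    · right
      rw [hx, if_pos h, hneg h]
      group
  have hxf : x • f = (y : FF A) • f := by
    have h1 : (x⁻¹ * y) • f = f := by
      rcases hxy with h | h
      · rw [h, hwf]
      · rw [h, inv_smul_eq_iff, hwf]
    rw [mul_smul, inv_smul_eq_iff] at h1
    exact h1.symm
  obtain ⟨c, hc, hcι, hcy⟩ := exists_coc (A := A) (Ω := Ω) (X := FF A) (fun a _ => ι a)
    (fun a b _ => map_mul ι a b) (fun o' => if o' = f then x else y)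
  have hcy1 : ∀ o', o' ≠ f → c y o' = y := by
    intro o' h
    rw [hcy, if_neg h]
  have hcy2 : c y f = x := by
    rw [hcy, if_pos rfl]
  have hstf : Γ.st o (i + ((Γ.m - 1 : ℕ) : ℤ)) = Γ.st o (i - 1) := by
    rw [hidx]
    have := Γ.st_add (hS o ho) (i - 1) 1
    rw [one_mul] at this
    exact this
  have hcv : c v (Γ.st o (i - 1)) = v := by
    have h := os_path Γ hc hcι f hcy1 o i (Γ.m - 1) (by
      intro k hk1 hk2 hk
      rw [hf] at hk
      obtain ⟨_, s, hs⟩ := h1 o ho k hk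
      have h3 : ((Γ.m - 1 : ℕ) : ℤ) = (Γ.m : ℤ) - 1 := by
        rw [Nat.cast_sub (by omega)]
        simp
      rw [h3] at hk2
      have hmZ : (0 : ℤ) < Γ.m := by exact_mod_cast hm
      have hs1 : 0 < s * (Γ.m : ℤ) := by omega
      have hs2 : s * (Γ.m : ℤ) < Γ.m := by omega
      have hs3 : 0 < s := by
        by_contra hcon
        have : s * (Γ.m : ℤ) ≤ 0 := mul_nonpos_of_nonpos_of_nonneg (by omega) hmZ.le
        omega
      nlinarith)
    rw [hstf] at h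
    have hv' : c v (Γ.st o (i - 1)) = ι (Γ.g i) * c ((Γ.p i)⁻¹ * Γ.p (i + ((Γ.m - 1 : ℕ) : ℤ)))
        (Γ.st o (i - 1)) := by
      conv_lhs => rw [hv]
      rw [hc, hcι]
    rw [hv', h, ← hv]
  refine ⟨x, c, hc, hcι, ?_, ?_, ?_, ?_, ?_, ?_, ?_⟩
  · intro o' h
    rw [← hf] at h
    exact hcy1 o' h
  · rw [← hf]
    exact hcy2
  · refine os_smul hc hcι ?_
    intro o'
    by_cases h : o' = f
    · rw [h, hcy2, hxf]
    · rw [hcy1 o' h]
  · rw [← hw']
    exact hxy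
  · rw [← hw', ← hf]
    rcases Int.units_eq_one_or (Γ.u i) with h | h
    · have hne : ¬ (Γ.u i = -1) := by rw [h]; decide
      rw [hpos h, hc, hcy2]
      have h2 : (y : FF A) • f = Γ.st o (i - 1) := by
        rw [hf]
        exact Γ.y_arc_of_pos h o
      rw [h2, hcv, hx, if_neg hne, mul_inv_cancel]
    · rw [hneg h, hc]
      have h2 : f = Γ.st o (i - 1) := by
        rw [hf]
        exact Γ.arc_of_neg h o
      have h3 : (y : FF A)⁻¹ • v • f = f := by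
        rw [← mul_smul, ← hneg h, hwf]
      rw [hc.inv, h3, hcy2]
      conv_lhs => rw [h2, hcv]
      rw [hx, if_pos h, inv_mul_cancel]
  · intro o' ho' hne
    have h := os_path Γ hc hcι f hcy1 o' 0 Γ.m (by
      intro k _ _ hk
      rw [hf] at hk
      exact hne (h1 o' ho' k hk).1)
    have h2 : Γ.st o' (0 + Γ.m) = o' := by
      unfold Geo.st
      rw [zero_add, inv_smul_eq_iff]
      exact (hS o' ho').symm
    rw [h2, zero_add, Γ.p0, inv_one, one_mul] at h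
    exact h
  · refine os_mem hc _ hcι ?_
    intro o'
    by_cases h : o' = f
    · rw [h, hcy2]
      have hmem : w' ∈ Subgroup.normalClosure ({Γ.w} : Set (FF A)) := by
        have := (Subgroup.normalClosure_normal (s := ({Γ.w} : Set (FF A)))).conj_mem Γ.w
          (Subgroup.subset_normalClosure rfl) (Γ.tau i)⁻¹
        rw [inv_inv] at this
        rw [hw']
        exact this
      rcases hxy with h' | h'
      · rw [h']
        exact hmem
      · rw [h']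
        exact Subgroup.inv_mem _ hmem
    · rw [hcy1 o' h, inv_mul_cancel]
      exact Subgroup.one_mem _

end Pool.Agent.LOTI
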