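import Pool.Agent.Lib.LOTI.Defs

/-!
# Periods of a word which is no proper power (1.12)

PROOF. `(u, g)` has the periods `d` and `m`, so it has the period `e = gcd (d, m)` (`Int.gcd_eq_gcd_ab`: `e = a d + b m`; a function with period `d` has all
periods `a d`), `e ≥ 1` (`m > 0`), `m = e k` with `k ≥ 1`. For all `i`: `p (i + e) = p e * p i` (induction on `i` in both directions as in
`Geo.p_add`, which is the case `e = m`), so `w = p (e k) = (p e)^k`. If `k ≥ 2` this contradicts `hw`. So `k = 1`, `e = m`, `m ∣ d`.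
-/

set_option autoImplicit false

open scoped Classical

namespace Pool.Agent.LOTI

variable {A : Type} [Group A]

private theorem per_mul {Γ : Geo A} {d : ℤ}
    (h : ∀ q : ℤ, Γ.u (q + d) = Γ.u q ∧ Γ.g (q + d) = Γ.g q) (s q : ℤ) :
    Γ.u (q + d * s) = Γ.u q ∧ Γ.g (q + d * s) = Γ.g q := by
  induction s using Int.induction_on with
  | zero => simp
  | succ k ih =>
    have h1 : q + d * ((k : ℤ) + 1) = (q + d * k) + d := by ring
    rw [h1, (h _).1, (h _).2]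
    exact ih
  | pred k ih =>
    have h1 : q + d * (-(k : ℤ)) = (q + d * (-k - 1)) + d := by ring
    rw [h1, (h _).1, (h _).2] at ih
    exact ih

theorem per (Γ : Geo A) (hw : ∀ (v : FF A) (q : ℕ), 2 ≤ q → Γ.w ≠ v ^ q) (d : ℤ)
    (h : ∀ q : ℤ, Γ.u (q + d) = Γ.u q ∧ Γ.g (q + d) = Γ.g q) : (Γ.m : ℤ) ∣ d := by
  have hm := Γ.hm
  have he : 0 < Int.gcd d Γ.m := by
    refine Int.gcd_pos_of_ne_zero_right _ ?_
    omega
  have hm' : ∀ q : ℤ, Γ.u (q + Γ.m) = Γ.u q ∧ Γ.g (q + Γ.m) = Γ.g q :=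
    fun q => ⟨Γ.uper q, Γ.gper q⟩
  have hper : ∀ q : ℤ, Γ.u (q + (Int.gcd d Γ.m : ℕ)) = Γ.u q ∧
      Γ.g (q + (Int.gcd d Γ.m : ℕ)) = Γ.g q := by
    intro q
    rw [Int.gcd_eq_gcd_ab, ← add_assoc]
    have h1 := per_mul h (Int.gcdA d Γ.m) q
    have h2 := per_mul hm' (Int.gcdB d Γ.m) (q + d * Int.gcdA d Γ.m)
    exact ⟨h2.1.trans h1.1, h2.2.trans h1.2⟩
  let Γ' : Geo A :=
    { m := Int.gcd d Γ.m
      hm := he
      u := Γ.u
      g := Γ.g
      uper := fun q => (hper q).1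
      gper := fun q => (hper q).2
      red := Γ.red
      p := Γ.p
      p0 := Γ.p0
      pS := Γ.pS }
  have hdvd : Int.gcd d Γ.m ∣ Γ.m := by
    have h1 := Int.gcd_dvd_right d (Γ.m : ℤ)
    exact_mod_cast h1
  obtain ⟨k, hk⟩ := hdvd
  have hk0 : 0 < k := by
    rcases Nat.eq_zero_or_pos k with h0 | h0
    · rw [h0, mul_zero] at hk
      omega
    · exact h0
  have hw' : Γ.w = Γ'.w ^ k := by
    have h1 := Γ'.p_add_mul 0 k
    rw [zero_add, Γ'.p0, mul_one, zpow_natCast] at h1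
    rw [← h1]
    show Γ.p Γ.m = Γ.p ((k : ℤ) * (Int.gcd d Γ.m : ℕ))
    congr 1
    calc ((Γ.m : ℕ) : ℤ) = ((Int.gcd d Γ.m * k : ℕ) : ℤ) := by rw [← hk]
      _ = (k : ℤ) * (Int.gcd d Γ.m : ℕ) := by push_cast; ring
  have hk1 : k = 1 := by
    by_contra hne
    exact hw Γ'.w k (by omega) hw'
  rw [hk1, mul_one] at hk
  have h3 := Int.gcd_dvd_left d (Γ.m : ℤ)
  rwa [← hk] at h3

end Pool.Agent.LOTI
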