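import Pool.Agent.Lib.LOTI.LDefs
import Pool.Agent.Lib.LOTI.Forest

/-!
# Forest lemma (2.2), second part

PROOF of `exists_pot`. `S = univ \ {h.e i | i}`.
(1) `h.e` is injective: for `i < j` `h.e i` is in the list of the edges of `l i` (`once`), `h.e j` is not (`later`). So `|S| = |E| - c = |V| - (c + 1)`
    (`Γ.card`).
(2) For every `i` the vertices `lab (e i)`, `init (e i)` are equivalent for `cst Γ.lab Γ.init S`: strong induction on `i`. The closed walk `l i` passes `e i`
    exactly once, and its other edges are in `S` or are `e j` with `j < i` (by `later` and `once`). Split `l i = l' ++ (e i, s) :: l''` (`List.append_of_mem`, and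
    `e i` is not in `l'`, `l''` because of the count); a walk whose edges all have equivalent ends has equivalent ends
    (induction on the list); by `IWalk_append` the two ends of `e i` are equivalent to `b i`.
(3) So `EqvGen Γ.IAdj v w ↔ cst Γ.lab Γ.init S v w` (all edges), and by `h.comp`, `h.surj` the number of the classes is `c + 1` (`κ` induces a bijection of the
    quotient with `Fin (c + 1)`). `forest` gives `g` with the equations for `e ∈ S`.
(4) The equation for `e i`: strong induction on `i`, `l i = l' ++ (e i, s) :: l''`, the equations hold for all edges of `l'`, `l''`. `wp_walk'` for `l'` and `l''`: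
    `g (source) = g (b i) * wp u l'`, `g (b i) = g (target) * wp u l''`, and `wp u l' * (u (e i))^{± 1} * wp u l'' = 1` (`hu`, `wp_append`, `wp_cons`), so
    `g (target) = g (source) * (u (e i))^{± 1}`, which is the equation for `e i`.
-/

set_option autoImplicit false

open scoped Classical

namespace Pool.Agent.LOTI

variable {V E : Type} [Fintype V] [Fintype E]

omit [Fintype E] in
private theorem split_once (l : List (E × Bool)) (e : E) (h : (l.map Prod.fst).count e = 1) :
    ∃ l' s l'', l = l' ++ s :: l'' ∧ s.1 = e ∧ (∀ t ∈ l', t.1 ≠ e) ∧ ∀ t ∈ l'', t.1 ≠ e := by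
  have h1 : e ∈ l.map Prod.fst := List.count_pos_iff.1 (by omega)
  obtain ⟨s, hs, hse⟩ := List.mem_map.1 h1
  obtain ⟨l', l'', hl⟩ := List.append_of_mem hs
  have h2 : (l'.map Prod.fst).count e + (1 + (l''.map Prod.fst).count e) = 1 := by
    rw [hl, List.map_append, List.map_cons, List.count_append, hse, List.count_cons_self] at h
    omega
  refine ⟨l', s, l'', hl, hse, fun t ht hte => ?_, fun t ht hte => ?_⟩
  · have h3 : e ∈ l'.map Prod.fst := List.mem_map.2 ⟨t, ht, hte⟩
    have h4 := List.count_pos_iff.2 h3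
    omega
  · have h3 : e ∈ l''.map Prod.fst := List.mem_map.2 ⟨t, ht, hte⟩
    have h4 := List.count_pos_iff.2 h3
    omega

private theorem walk_rel (Γ : LOT V E) (R : Setoid V) {a b : V} {l : List (E × Bool)}
    (h : ∀ s ∈ l, R (Γ.lab s.1) (Γ.init s.1)) (hl : Γ.IWalk a l b) : R a b := by
  induction l generalizing a with
  | nil =>
    have h1 : a = b := hl
    rw [h1]
  | cons s l ih =>
    obtain ⟨h1, h2⟩ := hl
    have h3 := ih (fun t ht => h t (List.mem_cons_of_mem _ ht)) h2
    have h4 := h s List.mem_cons_self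
    rw [h1]
    split_ifs at h3 ⊢ with hs
    · exact R.trans h4 h3
    · exact R.trans (R.symm h4) h3

/-- the edges of the walk `l i` other than `e i` are in `S` or are `e j` with `j < i` -/
private theorem other_edge (Γ : LOT V E) {c : ℕ} (h : Γ.Ladder c) (i : Fin c) {t : E × Bool}
    (ht : t ∈ h.l i) (hne : t.1 ≠ h.e i) :
    t.1 ∈ (Finset.univ \ Finset.univ.image h.e) ∨ ∃ j < i, t.1 = h.e j := by
  by_cases hj : ∃ j, t.1 = h.e j
  · right
    obtain ⟨j, hj⟩ := hj
    refine ⟨j, ?_, hj⟩
    rcases lt_trichotomy j i with h1 | h1 | h1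
    · exact h1
    · exact absurd (h1 ▸ hj) hne
    · exact absurd (List.mem_map.2 ⟨t, ht, hj⟩) (h.later i j h1)
  · left
    rw [Finset.mem_sdiff]
    refine ⟨Finset.mem_univ _, fun hm => hj ?_⟩
    obtain ⟨j, -, hj'⟩ := Finset.mem_image.1 hm
    exact ⟨j, hj'.symm⟩

private theorem e_inj (Γ : LOT V E) {c : ℕ} (h : Γ.Ladder c) : Function.Injective h.e := by
  have key : ∀ i j, i < j → h.e i ≠ h.e j := by
    intro i j hij he
    have h1 : h.e i ∈ (h.l i).map Prod.fst :=
      List.count_pos_iff.1 (by have := h.once i; omega)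
    rw [he] at h1
    exact h.later i j hij h1
  intro i j hij
  rcases lt_trichotomy i j with h1 | h1 | h1
  · exact absurd hij (key i j h1)
  · exact h1
  · exact absurd hij.symm (key j i h1)

private theorem rel_e (Γ : LOT V E) {c : ℕ} (h : Γ.Ladder c) (R : Setoid V)
    (hR : ∀ e ∈ (Finset.univ \ Finset.univ.image h.e), R (Γ.lab e) (Γ.init e)) :
    ∀ n (i : Fin c), (i : ℕ) = n → R (Γ.lab (h.e i)) (Γ.init (h.e i)) := by
  intro n
  induction n using Nat.strong_induction_on with
  | _ n ih =>
    intro i hi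
    obtain ⟨l', s, l'', hl, hs, h1, h2⟩ := split_once (h.l i) (h.e i) (h.once i)
    have hedge : ∀ t ∈ h.l i, t.1 ≠ h.e i → R (Γ.lab t.1) (Γ.init t.1) := by
      intro t ht hne
      rcases other_edge Γ h i ht hne with h3 | ⟨j, hj, h3⟩
      · exact hR _ h3
      · rw [h3]
        exact ih j (by have : (j : ℕ) < i := hj; omega) j rfl
    have hc := h.closed i
    rw [hl] at hc
    obtain ⟨p, hp1, hp2, hp3⟩ := (Γ.IWalk_append).1 hc
    have r1 : R (h.b i) p := walk_rel Γ R (fun t ht => hedge t
      (by rw [hl]; exact List.mem_append_left _ ht) (h1 t ht)) hp1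
    have r2 := walk_rel Γ R (fun t ht => hedge t
      (by rw [hl]; exact List.mem_append_right _ (List.mem_cons_of_mem _ ht)) (h2 t ht)) hp3
    rw [hp2] at r1
    rw [hs] at r1 r2
    split_ifs at r1 r2 with hb
    · exact R.symm (R.trans r2 r1)
    · exact R.trans r2 r1

private theorem eqn_e (Γ : LOT V E) {c : ℕ} (h : Γ.Ladder c) {X : Type} [Group X] (u : E → X)
    (hu : ∀ i, wp u (h.l i) = 1) (g : V → X)
    (hg : ∀ e ∈ (Finset.univ \ Finset.univ.image h.e), g (Γ.init e) = g (Γ.lab e) * u e) :
    ∀ n (i : Fin c), (i : ℕ) = n → g (Γ.init (h.e i)) = g (Γ.lab (h.e i)) * u (h.e i) := by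
  intro n
  induction n using Nat.strong_induction_on with
  | _ n ih =>
    intro i hi
    obtain ⟨l', s, l'', hl, hs, h1, h2⟩ := split_once (h.l i) (h.e i) (h.once i)
    have hedge : ∀ t ∈ h.l i, t.1 ≠ h.e i → g (Γ.init t.1) = g (Γ.lab t.1) * u t.1 := by
      intro t ht hne
      rcases other_edge Γ h i ht hne with h3 | ⟨j, hj, h3⟩
      · exact hg _ h3
      · rw [h3]
        exact ih j (by have : (j : ℕ) < i := hj; omega) j rfl
    have hc := h.closed i
    have hui := hu i
    rw [hl] at hc hui
    obtain ⟨p, hp1, hp2, hp3⟩ := (Γ.IWalk_append).1 hc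
    have r1 : g p = g (h.b i) * wp u l' := Γ.wp_walk' (fun t ht => hedge t
      (by rw [hl]; exact List.mem_append_left _ ht) (h1 t ht)) hp1
    have r2 := Γ.wp_walk' (g := g) (u := u) (fun t ht => hedge t
      (by rw [hl]; exact List.mem_append_right _ (List.mem_cons_of_mem _ ht)) (h2 t ht)) hp3
    rw [hp2] at r1
    rw [wp_append, wp_cons] at hui
    rw [hs] at r1 r2 hui
    split_ifs at r1 r2 hui with hb
    · -- `lab` first
      have h5 : wp u l' * u (h.e i) = (wp u l'')⁻¹ := by
        rw [eq_inv_iff_mul_eq_one, mul_assoc]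
        exact hui
      rw [r1, mul_assoc, h5, r2, mul_inv_cancel_right]
    · have h5 : wp u l' * (u (h.e i))⁻¹ = (wp u l'')⁻¹ := by
        rw [eq_inv_iff_mul_eq_one, mul_assoc]
        exact hui
      have h6 : g (Γ.init (h.e i)) * (u (h.e i))⁻¹ = g (Γ.lab (h.e i)) := by
        rw [r1, mul_assoc, h5, r2, mul_inv_cancel_right]
      rw [← h6, inv_mul_cancel_right]

theorem LOT.exists_pot (Γ : LOT V E) {c : ℕ} (h : Γ.Ladder c) {X : Type} [Group X] (u : E → X)
    (hu : ∀ i, wp u (h.l i) = 1) : ∃ g : V → X, ∀ e, g (Γ.init e) = g (Γ.lab e) * u e := by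
  have hinj := e_inj Γ h
  have hRS : ∀ e ∈ (Finset.univ \ Finset.univ.image h.e),
      cst Γ.lab Γ.init (Finset.univ \ Finset.univ.image h.e) (Γ.lab e) (Γ.init e) :=
    fun e he => Relation.EqvGen.rel _ _ ⟨e, he, rfl, rfl⟩
  have hRe := rel_e Γ h _ hRS
  have hall : ∀ e, cst Γ.lab Γ.init (Finset.univ \ Finset.univ.image h.e)
      (Γ.lab e) (Γ.init e) := by
    intro e
    by_cases he : e ∈ (Finset.univ \ Finset.univ.image h.e)
    · exact hRS e he
    · rw [Finset.mem_sdiff, not_and_not_right] at he
      obtain ⟨i, -, hi⟩ := Finset.mem_image.1 (he (Finset.mem_univ _))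
      rw [← hi]
      exact hRe i i rfl
  have hker : cst Γ.lab Γ.init (Finset.univ \ Finset.univ.image h.e) = Setoid.ker h.κ := by
    ext v w
    rw [Setoid.ker_def]
    constructor
    · intro hvw
      refine (h.comp v w).2 ?_
      have h0 : (fun v w => ∃ e ∈ (Finset.univ \ Finset.univ.image h.e),
          v = Γ.lab e ∧ w = Γ.init e) ≤ Γ.IAdj := by
        rintro a b ⟨e, -, h1, h2⟩
        exact ⟨e, h1, h2⟩
      exact Relation.EqvGen.mono h0 v w hvw
    · intro hvw
      have h1 := (h.comp v w).1 hvw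
      induction h1 with
      | rel a b h1 =>
        obtain ⟨e, rfl, rfl⟩ := h1
        exact hall e
      | refl a => exact Setoid.refl' _ a
      | symm a b h1 ih => exact Setoid.symm' _ (ih ((h.comp a b).2 h1))
      | trans a b d h1 h2 ih1 ih2 =>
        exact Setoid.trans' _ (ih1 ((h.comp a b).2 h1)) (ih2 ((h.comp b d).2 h2))
  have hq : Nat.card (Quotient (cst Γ.lab Γ.init (Finset.univ \ Finset.univ.image h.e))) =
      c + 1 := by
    rw [hker, Nat.card_congr (Setoid.quotientKerEquivOfSurjective h.κ h.surj)]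
    simp
  have hS : (Finset.univ \ Finset.univ.image h.e).card + c = Fintype.card E := by
    have h1 := Finset.card_sdiff_add_card_eq_card (Finset.subset_univ (Finset.univ.image h.e))
    rw [Finset.card_image_of_injective _ hinj, Finset.card_univ, Fintype.card_fin] at h1
    rw [h1, Finset.card_univ]
  obtain ⟨g, hg⟩ := forest Γ.lab Γ.init (Finset.univ \ Finset.univ.image h.e) (by
    rw [hq, Γ.card]
    omega) u
  refine ⟨g, fun e => ?_⟩
  by_cases he : e ∈ (Finset.univ \ Finset.univ.image h.e)
  · exact hg e he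
  · rw [Finset.mem_sdiff, not_and_not_right] at he
    obtain ⟨i, -, hi⟩ := Finset.mem_image.1 (he (Finset.mem_univ _))
    rw [← hi]
    exact eqn_e Γ h u hu g hg i i rfl

end Pool.Agent.LOTI
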