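import Pool.Agent.Lib.LOTI.RelB
import Pool.Agent.Lib.LOTI.Ends
import Pool.Agent.Lib.LOTI.Per
import Pool.Agent.Lib.LOTI.Nonzero

/-!
# Lemma 1.12

PROOF. If `N ⊓ zpowers w = ⊥`: `N ≠ ⊥`, so by `LI_FF hA` there is `φ ≠ 1`, and the second condition only concerns `x = 1`. Otherwise
`w^s ∈ N` for some `s ≥ 1` (`w` has infinite order by `Geo.eq_of_mem`: not needed if one takes the elements `x = w^k ≠ 1` of `N`, then `w^|k| ∈ N`, `k ≠ 0`); let
`s` be minimal (`Nat.find`); then `w^k ∈ N` implies `s ∣ k` (division with remainder). `Γ' = Γ.pow s`, `Γ'.w = w^s` (`pow_w`), `Γ'.m = s * m`,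
`Γ'.st = Γ.st`, `Γ'.arc = Γ.arc` (`rfl`). `o = (1 : FF A ⧸ N)` is fixed by `Γ'.w`. It is enough to find `φ ≠ 1` with `φ (w^s) = 1` (all `x = w^k ∈ N` are powers of `w^s`).
Suppose there is none.
* If for some `i` all `j` with `arc o j = arc o i` are `Γ'.Eqm i j`: `rel_one` for `Γ'` gives `N ≤ zpowers (w^s) ≤ zpowers w`, contradiction to `hne`.
* Otherwise `h2` of `ends` holds for `Γ'`. If for all `V` with `Used Γ' {o} V` the first alternative of `ends` holds, then `nonzero` for `Γ'`, `S = {o}` gives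
  `φ ≠ 1` with `Kill Γ'.w N {o} φ`; with `h = 1`: `φ (w^s) = 1`: contradiction. Otherwise there is `d`, `¬ (s m) ∣ d`, with `u`, `g`, `st o` of period `d`. By `per` (for
  `Γ`) `m ∣ d`, `d = m k`; `st o d = st o 0`, i.e. `(p d)⁻¹ • o = o`, `p d = w^k` (`p_add_mul`), so `w^k ∈ N`, `s ∣ k`, `s m ∣ d`: contradiction.
-/

set_option autoImplicit false

open scoped Classical

namespace Pool.Agent.LOTI

variable {A : Type} [Group A]

private theorem smul_one_iff (N : Subgroup (FF A)) (x : FF A) :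
    x • ((1 : FF A) : FF A ⧸ N) = ((1 : FF A) : FF A ⧸ N) ↔ x ∈ N := by
  show ((x * 1 : FF A) : FF A ⧸ N) = ((1 : FF A) : FF A ⧸ N) ↔ x ∈ N
  rw [mul_one, eq_comm, QuotientGroup.eq, inv_one, one_mul]

private theorem min_pow {G : Type} [Group G] (N : Subgroup G) (w : G) (k : ℤ) (hk : k ≠ 0)
    (h : w ^ k ∈ N) :
    ∃ s : ℕ, 0 < s ∧ w ^ s ∈ N ∧ ∀ l : ℤ, w ^ l ∈ N → (s : ℤ) ∣ l := by
  classical
  have hex : ∃ s : ℕ, 0 < s ∧ w ^ s ∈ N := by
    refine ⟨k.natAbs, Int.natAbs_pos.2 hk, ?_⟩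
    rcases Int.natAbs_eq k with h1 | h1
    · rw [← zpow_natCast, ← h1]
      exact h
    · have h2 : ((k.natAbs : ℕ) : ℤ) = -k := by omega
      rw [← zpow_natCast, h2, zpow_neg]
      exact N.inv_mem h
  refine ⟨Nat.find hex, (Nat.find_spec hex).1, (Nat.find_spec hex).2, fun l hl => ?_⟩
  have hs0 := (Nat.find_spec hex).1
  have hsN := (Nat.find_spec hex).2
  have hmin : ∀ m : ℕ, m < Nat.find hex → ¬ (0 < m ∧ w ^ m ∈ N) := fun m hm => Nat.find_min hex hm
  generalize Nat.find hex = s at hs0 hsN hmin ⊢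
  have hs1 : (0 : ℤ) < s := by exact_mod_cast hs0
  have h1 : w ^ (l % (s : ℤ)) ∈ N := by
    have h2 : l % (s : ℤ) = l - s * (l / s) := by
      have := Int.emod_add_mul_ediv l s
      linarith
    rw [h2, zpow_sub, zpow_mul, zpow_natCast]
    exact N.mul_mem hl (N.inv_mem (N.zpow_mem hsN _))
  have h3 := Int.emod_nonneg l hs1.ne'
  have h4 := Int.emod_lt_of_pos l hs1
  by_contra hc
  have h5 : l % (s : ℤ) ≠ 0 := fun h => hc (Int.dvd_of_emod_eq_zero h)
  obtain ⟨m, hm⟩ := Int.eq_ofNat_of_zero_le h3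
  rw [hm] at h1 h4 h5
  rw [zpow_natCast] at h1
  exact hmin m (by exact_mod_cast h4) ⟨by omega, h1⟩

theorem rel (hA : LI A) (Γ : Geo A) (hw : ∀ (v : FF A) (q : ℕ), 2 ≤ q → Γ.w ≠ v ^ q)
    (N : Subgroup (FF A)) (hN : N.FG) (hne : ¬ N ≤ Subgroup.zpowers Γ.w) :
    ∃ φ : N →* Multiplicative ℚ, φ ≠ 1 ∧
      ∀ (x : FF A) (hx : x ∈ N), x ∈ Subgroup.zpowers Γ.w → φ ⟨x, hx⟩ = 1 := by
  by_cases hcase : ∀ x ∈ N, x ∈ Subgroup.zpowers Γ.w → x = 1
  · have h1 : ∃ φ : N →* Multiplicative ℚ, φ ≠ 1 := by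
      by_contra hc
      push Not at hc
      have h2 : N = ⊥ := LI_FF hA N hN hc
      apply hne
      rw [h2]
      exact bot_le
    obtain ⟨φ, hφ⟩ := h1
    refine ⟨φ, hφ, fun x hx hxw => ?_⟩
    have h3 := hcase x hx hxw
    subst h3
    exact map_one φ
  · push Not at hcase
    obtain ⟨x, hxN, ⟨k, rfl⟩, hx1⟩ := hcase
    have hk : k ≠ 0 := by
      rintro rfl
      exact hx1 (zpow_zero _)
    obtain ⟨s, hs, hsN, hdiv⟩ := min_pow N Γ.w k hk hxN
    have hpw := Γ.pow_w s hs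
    have hwN : (Γ.pow s hs).w ∈ N := by rw [hpw]; exact hsN
    have key : ∃ φ : N →* Multiplicative ℚ, φ ≠ 1 ∧ φ ⟨(Γ.pow s hs).w, hwN⟩ = 1 := by
      by_contra hcon
      have hcon' : ∀ φ : N →* Multiplicative ℚ, φ ⟨(Γ.pow s hs).w, hwN⟩ = 1 → φ = 1 := by
        intro φ hφ
        by_contra hne1
        exact hcon ⟨φ, hne1, hφ⟩
      have ho : (Γ.pow s hs).w • ((1 : FF A) : FF A ⧸ N) = ((1 : FF A) : FF A ⧸ N) :=
        (smul_one_iff N _).2 hwN
      by_cases hB : ∃ i : ℤ, ∀ j : ℤ, (Γ.pow s hs).arc ((1 : FF A) : FF A ⧸ N) j =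
          (Γ.pow s hs).arc ((1 : FF A) : FF A ⧸ N) i → (Γ.pow s hs).Eqm i j
      · obtain ⟨i, hi⟩ := hB
        have h1 := rel_one hA (Γ.pow s hs) N hN hwN i hi hcon'
        apply hne
        refine h1.trans ?_
        rw [hpw, Subgroup.zpowers_le]
        exact Subgroup.npow_mem_zpowers _ _
      · push Not at hB
        by_cases hV : ∀ V : Finset (FF A ⧸ N),
            Used (Γ.pow s hs) {((1 : FF A) : FF A ⧸ N)} V →
              V.card + 1 ≤ ((Γ.pow s hs).arcs {((1 : FF A) : FF A ⧸ N)}).card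
        · obtain ⟨φ, hφ, hkill⟩ := nonzero hA (Γ.pow s hs) N hN {((1 : FF A) : FF A ⧸ N)}
            (Finset.singleton_nonempty _)
            (fun o hoS => by
              rw [Finset.mem_singleton] at hoS
              rw [hoS]
              exact ho)
            (fun V hVu => by
              rw [Finset.card_singleton]
              exact hV V hVu)
          have hn : (1 : FF A)⁻¹ * (Γ.pow s hs).w * 1 ∈ N := by
            rw [inv_one, one_mul, mul_one]
            exact hwN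
          have h1 := hkill 1 (Finset.mem_singleton_self _) hn
          apply hφ
          apply hcon' φ
          have h2 : (⟨(Γ.pow s hs).w, hwN⟩ : N) = ⟨(1 : FF A)⁻¹ * (Γ.pow s hs).w * 1, hn⟩ :=
            Subtype.ext (by simp)
          rw [h2]
          exact h1
        · push Not at hV
          obtain ⟨V, hVu, hVc⟩ := hV
          rcases ends (Γ.pow s hs) ((1 : FF A) : FF A ⧸ N) ho hB V hVu with h1 | ⟨d, hd, hq⟩
          · omega
          · obtain ⟨l, hl⟩ := per Γ hw d (fun q => ⟨(hq q).1, (hq q).2.1⟩)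
            have h2 := (hq 0).2.2
            rw [zero_add] at h2
            have h3 : (Γ.p d)⁻¹ • ((1 : FF A) : FF A ⧸ N) =
                (Γ.p 0)⁻¹ • ((1 : FF A) : FF A ⧸ N) := h2
            have h4 : Γ.p d = Γ.w ^ l := by
              have := Γ.p_add_mul 0 l
              rw [Γ.p0, mul_one, zero_add] at this
              rw [hl, mul_comm]
              exact this
            rw [h4, Γ.p0, inv_one, one_smul, smul_one_iff] at h3
            have h5 : Γ.w ^ l ∈ N := by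
              have := N.inv_mem h3
              rwa [inv_inv] at this
            obtain ⟨t, ht⟩ := hdiv l h5
            apply hd
            refine ⟨t, ?_⟩
            show d = ((s * Γ.m : ℕ) : ℤ) * t
            rw [hl, ht]
            push_cast
            ring
    obtain ⟨φ, hφ, hφw⟩ := key
    refine ⟨φ, hφ, ?_⟩
    rintro x hx ⟨l, rfl⟩
    obtain ⟨t, rfl⟩ := hdiv l hx
    have h1 : (⟨Γ.w ^ ((s : ℤ) * t), hx⟩ : N) = ⟨(Γ.pow s hs).w, hwN⟩ ^ t := by
      apply Subtype.ext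
      show Γ.w ^ ((s : ℤ) * t) = ((⟨(Γ.pow s hs).w, hwN⟩ ^ t : N) : FF A)
      rw [Subgroup.coe_zpow]
      show Γ.w ^ ((s : ℤ) * t) = (Γ.pow s hs).w ^ t
      rw [hpw, zpow_mul, zpow_natCast]
    show φ ⟨Γ.w ^ ((s : ℤ) * t), hx⟩ = 1
    rw [h1, map_zpow, hφw, one_zpow]

end Pool.Agent.LOTI
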