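import Pool.Agent.Lib.LOTI.One
import Pool.Agent.Lib.LOTI.LIF

/-!
# A subgroup whose only relator passes an arc once (1.12, case B)

PROOF. `Ω = FF A ⧸ N`, `o = (1 : Ω)`, `stabilizer o = N`; `Γ.w ∈ N`, so `w • o = o`. `one_strand` with `S = {o}` gives `x`, `c`; `f = arc o i = (tau i)⁻¹ • o`,
`N_f = stabilizer f = (tau i)⁻¹ N (tau i)`, `w' = (tau i)⁻¹ * w * tau i ∈ N_f`. `r : N_f →* FF A`, `r n = c n f`, `N' = r.range` is finitely generated.
Every `φ' : N' →* Multiplicative ℚ` gives `φ n = φ' (r ((tau i)⁻¹ * n * tau i))` on `N`, which kills `w` because `r w' = 1`; so `φ = 1` (`hk`), `φ' = 1`. So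
`N' = ⊥` by `LI_FF hA`, i.e. `c n f = 1` for all `n` fixing `f`. Hence `c h f` only depends on `h • f` (cocycle identity): if `h • f = k • f`, then
`c h f = c k f`.
CLAIM: for all `h`: `(c h f)⁻¹ * h ∈ zpowers w'`. The set of such `h` contains `1`, and with `h` it contains `ι a * h`, `y * h`, `y⁻¹ * h`
(so it is everything, e.g. `FF_induction` for the statement for all `h` in the set `g * h` and `g⁻¹ * h` are in the set):
 `c (ι a * h) f = ι a * c h f`; if `h • f ≠ f`: `c (y * h) f = y * c h f`; if `h • f = f`: `c h f = 1`, `h ∈ zpowers w'`, `c (y * h) f = x`,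
 `x⁻¹ * y * h ∈ zpowers w'` because `x⁻¹ * y = w'^{±1}`. For `y⁻¹`: put `k = y⁻¹ * h`; if `k • f ≠ f`: `c h f = c (y * k) f = y * c k f`, so
 `(c k f)⁻¹ * k = (c h f)⁻¹ * h`; if `k • f = f`: `c k f = 1`, `c h f = x`, and `k = y⁻¹ * h = (x⁻¹ * y)⁻¹ * (x⁻¹ * h) ∈ zpowers w'`.
So `N_f ≤ zpowers w'`, and conjugating back `N ≤ zpowers w`.
-/

set_option autoImplicit false

open scoped Classical

namespace Pool.Agent.LOTI

variable {A : Type} [Group A]

private theorem zpow_conj (t w : FF A) (s : ℤ) : (t⁻¹ * w * t) ^ s = t⁻¹ * w ^ s * t := by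
  have h := conj_zpow (i := s) (a := t⁻¹) (b := w)
  rw [inv_inv] at h
  exact h

theorem rel_one (hA : LI A) (Γ : Geo A) (N : Subgroup (FF A)) (hN : N.FG) (hw : Γ.w ∈ N)
    (i : ℤ)
    (h1 : ∀ j : ℤ, Γ.arc ((1 : FF A) : FF A ⧸ N) j = Γ.arc ((1 : FF A) : FF A ⧸ N) i → Γ.Eqm i j)
    (hk : ∀ φ : N →* Multiplicative ℚ, φ ⟨Γ.w, hw⟩ = 1 → φ = 1) :
    N ≤ Subgroup.zpowers Γ.w := by
  have hst : ∀ n : FF A, n • ((1 : FF A) : FF A ⧸ N) = ((1 : FF A) : FF A ⧸ N) ↔ n ∈ N := by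
    intro n
    rw [← MulAction.mem_stabilizer_iff, MulAction.stabilizer_quotient]
  obtain ⟨x, c, hc, hca, hcy, hcx, -, hx, hcw, -, -⟩ :=
    one_strand Γ {((1 : FF A) : FF A ⧸ N)}
      (by intro o ho; rw [Finset.mem_singleton.1 ho]; exact (hst _).2 hw)
      ((1 : FF A) : FF A ⧸ N) (Finset.mem_singleton_self _) i
      (by
        intro o' ho' j hj
        have h2 := Finset.mem_singleton.1 ho'
        rw [h2] at hj
        exact ⟨h2, h1 j hj⟩)
  set o : FF A ⧸ N := ((1 : FF A) : FF A ⧸ N) with ho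
  set t : FF A := Γ.tau i with ht
  set f : FF A ⧸ N := Γ.arc o i with hf
  have hfo : t • f = o := by
    rw [hf, Geo.arc, ← ht, smul_inv_smul]
  have hfo' : f = t⁻¹ • o := by
    rw [hf, Geo.arc, ← ht]
  have hfix : ∀ n ∈ N, (t⁻¹ * n * t) • f = f := by
    intro n hn
    rw [mul_smul, mul_smul, hfo, (hst n).2 hn, ← hfo']
  have hfix' : ∀ n : FF A, n • f = f → t * n * t⁻¹ ∈ N := by
    intro n hn
    rw [← hst, mul_smul, mul_smul, ← hfo', hn, hfo]
  -- the homomorphism on `N`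
  let φ0 : N →* FF A :=
    { toFun := fun n => c (t⁻¹ * (n : FF A) * t) f
      map_one' := by
        show c (t⁻¹ * ((1 : N) : FF A) * t) f = 1
        simp [hc.one]
      map_mul' := by
        intro a b
        show c (t⁻¹ * ((a * b : N) : FF A) * t) f = _
        have h2 : t⁻¹ * ((a * b : N) : FF A) * t = (t⁻¹ * (a : FF A) * t) * (t⁻¹ * (b : FF A) * t) := by
          push_cast
          group
        rw [h2, hc, hfix b b.2] }
  have hφ0 : ∀ n : N, φ0 n = c (t⁻¹ * (n : FF A) * t) f := fun n => rfl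
  have hφw : φ0 ⟨Γ.w, hw⟩ = 1 := hcw
  have : Group.FG N := (Group.fg_iff_subgroup_fg N).2 hN
  have hfg : φ0.range.FG := (Group.fg_iff_subgroup_fg _).1 (Group.fg_range φ0)
  have hbot : φ0.range = ⊥ := by
    refine LI_FF hA _ hfg ?_
    intro φ'
    have h2 : φ'.comp φ0.rangeRestrict = 1 := by
      apply hk
      rw [MonoidHom.comp_apply]
      have h3 : φ0.rangeRestrict ⟨Γ.w, hw⟩ = 1 := Subtype.ext hφw
      rw [h3, map_one]
    ext z
    obtain ⟨n, hn⟩ := φ0.rangeRestrict_surjective z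
    rw [← hn]
    exact DFunLike.congr_fun h2 n
  have hN1 : ∀ n : FF A, n • f = f → c n f = 1 := by
    intro n hn
    have h2 : φ0 ⟨t * n * t⁻¹, hfix' n hn⟩ ∈ φ0.range := ⟨_, rfl⟩
    rw [hbot, Subgroup.mem_bot, hφ0] at h2
    have h3 : t⁻¹ * (t * n * t⁻¹) * t = n := by group
    simpa [h3] using h2
  -- the claim
  set w' : FF A := t⁻¹ * Γ.w * t with hw'
  have hxy : x⁻¹ * y ∈ Subgroup.zpowers w' := by
    rcases hx with h | h
    · rw [h]; exact Subgroup.mem_zpowers _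
    · rw [h]; exact Subgroup.inv_mem _ (Subgroup.mem_zpowers _)
  have key : ∀ g : FF A,
      (∀ h, (c h f)⁻¹ * h ∈ Subgroup.zpowers w' → (c (g * h) f)⁻¹ * (g * h) ∈ Subgroup.zpowers w') ∧
      (∀ h, (c h f)⁻¹ * h ∈ Subgroup.zpowers w' →
        (c (g⁻¹ * h) f)⁻¹ * (g⁻¹ * h) ∈ Subgroup.zpowers w') := by
    intro g
    induction g using FF_induction with
    | h1 a =>
      have h2 : ∀ (a : A) h, (c h f)⁻¹ * h ∈ Subgroup.zpowers w' →
          (c (ι a * h) f)⁻¹ * (ι a * h) ∈ Subgroup.zpowers w' := by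
        intro a h hh
        rw [hc, hca]
        have h3 : (ι a * c h f)⁻¹ * (ι a * h) = (c h f)⁻¹ * h := by group
        rw [h3]; exact hh
      refine ⟨h2 a, ?_⟩
      intro h hh
      rw [← map_inv]
      exact h2 a⁻¹ h hh
    | h2 =>
      refine ⟨?_, ?_⟩
      · intro h hh
        rw [hc]
        by_cases h3 : h • f = f
        · rw [h3, hcx, hN1 h h3, mul_one, ← mul_assoc]
          rw [hN1 h h3, inv_one, one_mul] at hh
          exact Subgroup.mul_mem _ hxy hh
        · rw [hcy _ h3]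
          have h4 : (y * c h f)⁻¹ * (y * h) = (c h f)⁻¹ * h := by group
          rw [h4]; exact hh
      · intro h hh
        have h5 : c h f = c y ((y⁻¹ * h) • f) * c (y⁻¹ * h) f := by
          rw [← hc]; simp
        by_cases h3 : (y⁻¹ * h) • f = f
        · rw [h3, hcx, hN1 _ h3, mul_one] at h5
          rw [hN1 _ h3, inv_one, one_mul]
          rw [h5] at hh
          have h6 : y⁻¹ * h = (x⁻¹ * y)⁻¹ * (x⁻¹ * h) := by group
          rw [h6]
          exact Subgroup.mul_mem _ (Subgroup.inv_mem _ hxy) hh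
        · rw [hcy _ h3] at h5
          have h6 : (c (y⁻¹ * h) f)⁻¹ * (y⁻¹ * h) = (c h f)⁻¹ * h := by
            rw [h5]; group
          rw [h6]; exact hh
    | h3 a b ha hb =>
      refine ⟨?_, ?_⟩
      · intro h hh
        rw [mul_assoc]
        exact ha.1 _ (hb.1 _ hh)
      · intro h hh
        rw [mul_inv_rev, mul_assoc]
        exact hb.2 _ (ha.2 _ hh)
    | h4 a ha =>
      refine ⟨ha.2, ?_⟩
      intro h hh
      rw [inv_inv]
      exact ha.1 h hh
  have hall : ∀ h, (c h f)⁻¹ * h ∈ Subgroup.zpowers w' := by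
    intro h
    have h2 := (key h).1 1 (by rw [hc.one]; simp)
    simpa using h2
  intro n hn
  have h2 := hall (t⁻¹ * n * t)
  rw [hN1 _ (hfix n hn), inv_one, one_mul] at h2
  obtain ⟨s, hs⟩ := Subgroup.mem_zpowers_iff.1 h2
  rw [hw', zpow_conj] at hs
  have h3 : Γ.w ^ s = n := mul_left_cancel (mul_right_cancel hs)
  exact Subgroup.mem_zpowers_iff.2 ⟨s, h3⟩

end Pool.Agent.LOTI
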