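import Pool.Agent.Lib.LOTI.Coc1

/-!
# Stabilisers in `A` are finitely generated (1.3)

PROOF. `B = (stabilizer (FF A) o).comap ι = {a | ι a • o = o}`. For `χ` in the orbit `ι A • o` choose
`t χ : A` with `ι (t χ) • o = χ`, with `t o = 1` (`Classical.choose`, and a case distinction `χ = o`).
Cocycle with values in `B` (a subgroup of `A`, as a type): for `χ` in the orbit
`d a χ = (t (a χ))⁻¹ * a * t χ ∈ B`, for `χ` outside the orbit `d a χ = 1`; `e = 1`. `exists_coc` gives
`c : FF A → Ω → B`. The homomorphism `hc.hom o : stabilizer (FF A) o →* B` is onto: for `a ∈ B`,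
`c (ι a) o = (t o)⁻¹ * a * t o = a`. The image of a finitely generated group is finitely generated
(`Group.FG`, `Subgroup.FG`, `Group.fg_of_surjective`, `Group.fg_iff_subgroup_fg` or similar).
-/

set_option autoImplicit false

open scoped Classical

namespace Pool.Agent.LOTI

variable {A : Type} [Group A]

theorem stab_fg {Ω : Type} [MulAction (FF A) Ω] (o : Ω)
    (h : (MulAction.stabilizer (FF A) o).FG) :
    ((MulAction.stabilizer (FF A) o).comap (ι : A →* FF A)).FG := by
  let t : Ω → A := fun χ => if χ = o then 1 else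
    if h : ∃ a : A, (ι a : FF A) • o = χ then h.choose else 1
  have ht : ∀ χ, (∃ a : A, (ι a : FF A) • o = χ) → (ι (t χ) : FF A) • o = χ := by
    intro χ hχ
    by_cases h1 : χ = o
    · have h2 : t χ = 1 := if_pos h1
      rw [h2, map_one, one_smul, h1]
    · have h2 : t χ = hχ.choose := by
        show (if χ = o then 1 else if h : ∃ a : A, (ι a : FF A) • o = χ then h.choose else 1) = _
        rw [if_neg h1, dif_pos hχ]
      rw [h2]
      exact hχ.choose_spec
  have ho : t o = 1 := if_pos rfl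
  have hstep : ∀ (a : A) (χ : Ω), (∃ b : A, (ι b : FF A) • o = χ) →
      ∃ b : A, (ι b : FF A) • o = (ι a : FF A) • χ := by
    rintro a χ ⟨b, rfl⟩
    exact ⟨a * b, by rw [map_mul, mul_smul]⟩
  have hback : ∀ (a : A) (χ : Ω), (∃ b : A, (ι b : FF A) • o = (ι a : FF A) • χ) →
      ∃ b : A, (ι b : FF A) • o = χ := by
    rintro a χ ⟨b, hb⟩
    refine ⟨a⁻¹ * b, ?_⟩
    rw [map_mul, mul_smul, hb, map_inv, inv_smul_smul]
  have hmem : ∀ (a : A) (χ : Ω), (∃ b : A, (ι b : FF A) • o = χ) →
      (t ((ι a : FF A) • χ))⁻¹ * a * t χ ∈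
        (MulAction.stabilizer (FF A) o).comap (ι : A →* FF A) := by
    intro a χ hχ
    rw [Subgroup.mem_comap, MulAction.mem_stabilizer_iff, map_mul, map_mul, map_inv, mul_smul,
      mul_smul, ht χ hχ, inv_smul_eq_iff, ht _ (hstep a χ hχ)]
  let d : A → Ω → ((MulAction.stabilizer (FF A) o).comap (ι : A →* FF A)) := fun a χ =>
    if h : ∃ b : A, (ι b : FF A) • o = χ then ⟨_, hmem a χ h⟩ else 1
  have hdpos : ∀ (a : A) (χ : Ω), (∃ b : A, (ι b : FF A) • o = χ) →
      (d a χ : A) = (t ((ι a : FF A) • χ))⁻¹ * a * t χ := by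
    intro a χ hχ
    have h1 : d a χ = ⟨_, hmem a χ hχ⟩ := dif_pos hχ
    rw [h1]
  have hd : ∀ a b χ, d (a * b) χ = d a ((ι b : FF A) • χ) * d b χ := by
    intro a b χ
    by_cases hχ : ∃ b : A, (ι b : FF A) • o = χ
    · apply Subtype.ext
      rw [Subgroup.coe_mul, hdpos _ _ hχ, hdpos _ _ (hstep b χ hχ), hdpos _ _ hχ, map_mul,
        mul_smul]
      group
    · have h1 : d (a * b) χ = 1 := dif_neg hχ
      have h2 : d b χ = 1 := dif_neg hχ
      have h3 : d a ((ι b : FF A) • χ) = 1 := dif_neg fun h => hχ (hback b χ h)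
      rw [h1, h2, h3, one_mul]
  obtain ⟨c, hc, hc1, -⟩ := exists_coc d hd fun _ => 1
  have hsurj : Function.Surjective (hc.hom o) := by
    intro b
    have hb : (ι (b : A) : FF A) • o = o := MulAction.mem_stabilizer_iff.1 b.2
    refine ⟨⟨ι (b : A), MulAction.mem_stabilizer_iff.2 hb⟩, ?_⟩
    show c (ι (b : A)) o = b
    rw [hc1]
    apply Subtype.ext
    rw [hdpos _ _ ⟨1, by rw [map_one, one_smul]⟩, hb, ho]
    simp
  have h1 : Group.FG (MulAction.stabilizer (FF A) o) :=
    (Group.fg_iff_subgroup_fg _).2 h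
  have h2 : Group.FG ((MulAction.stabilizer (FF A) o).comap (ι : A →* FF A)) :=
    Group.fg_of_surjective hsurj
  exact (Group.fg_iff_subgroup_fg _).1 h2

end Pool.Agent.LOTI
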