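import Pool.Agent.Lib.LOTI.ThmH

/-!
# One step of the tower (2.4)

PROOFS.
* `LI.quot`: `e` induces an isomorphism of the quotients (`QuotientGroup.congr` with `Subgroup.map_normalClosure`, or: the homomorphism `H →* G ⧸ normalClosure S`,
  `x ↦ e.symm x`, kills `e '' S`, so it gives `H ⧸ normalClosure (e '' S) →* G ⧸ normalClosure S`; it is injective because it has a left
  inverse constructed in the same way). `LI.of_injective`.
* `step`: `A = B ⧸ normalClosure R`, `k : B →* A` the quotient map.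
  - `A` is locally indicable: the homomorphism `A →* FF B ⧸ normalClosure (ι '' R)` induced by `mk ∘ ι` is injective: `lft (MonoidHom.id B) 1 : FF B →* B`
    followed by `k` kills `ι '' R` and gives a left inverse. `LI.of_injective hB`.
  - `K = lft (ι ∘ k) y : FF B →* FF A`, `x = K r`. `fb : FF A →* X`, `fb = lft (lift of f ∘ ι) (f y)` (`f (ι s) = 1` for `s ∈ R`), `fb ∘ K = f` (`FF_hom_ext`), so
    `fb x = f r ≠ 1`. In the same way `φ` factors through `K`.
  - `x ≠ g * ι a * g⁻¹`: otherwise `ρ (fb x) = ρ (f r) = 1`, so `ρ (fb (ι a)) = 1`; write `a = k b`: `fb (ι a) = f (ι b) = j (ρ (f (ι b))) = 1`, so `f r = fb x = 1`: contradiction.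
  - `x ≠ v ^ q`, `q ≥ 2`: take a prime `p ∣ q` (`Nat.exists_prime_and_dvd`), `φ` for `p`, `φ = φb ∘ K`; `φ r = (φb v)^q = 1` because the exponent of `Multiplicative (ZMod p)`
    is `p`: contradiction.
  - `thmH` gives `LI (FF A ⧸ normalClosure {x})`. The homomorphism `FF B ⧸ normalClosure (ι '' R ∪ {r}) →* FF A ⧸ normalClosure {x}` induced by `K` is injective: its left
    inverse is induced by `FF A →* FF B ⧸ normalClosure (ι '' R ∪ {r})`, `lft (lift of mk ∘ ι) (mk y)` (it kills `x`). `LI.of_injective`.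
-/

set_option autoImplicit false

open scoped Classical

namespace Pool.Agent.LOTI

private theorem stp_kill {G H : Type} [Group G] [Group H] (S : Set G) (f : G →* H)
    (hf : ∀ s ∈ S, f s = 1) : ∀ x ∈ Subgroup.normalClosure S, f x = 1 := by
  intro x hx
  have h : Subgroup.normalClosure S ≤ f.ker :=
    Subgroup.normalClosure_le_normal (fun s hs => MonoidHom.mem_ker.2 (hf s hs))
  exact MonoidHom.mem_ker.1 (h hx)

/-- the quotient map -/
private def stpQ {G : Type} [Group G] (S : Set G) : G →* G ⧸ Subgroup.normalClosure S :=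
  QuotientGroup.mk' _

private theorem stpQ_surj {G : Type} [Group G] (S : Set G) : Function.Surjective (stpQ S) :=
  QuotientGroup.mk'_surjective _

private theorem stpQ_one {G : Type} [Group G] (S : Set G) (s : G) (hs : s ∈ S) :
    stpQ S s = 1 :=
  (QuotientGroup.eq_one_iff s).2 (Subgroup.subset_normalClosure hs)

/-- the homomorphism induced on the quotient -/
private theorem stpL {G H : Type} [Group G] [Group H] (S : Set G) (f : G →* H)
    (hf : ∀ s ∈ S, f s = 1) : ∃ F : G ⧸ Subgroup.normalClosure S →* H, ∀ x, F (stpQ S x) = f x :=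
  ⟨QuotientGroup.lift _ f (stp_kill S f hf), fun _ => rfl⟩

private theorem LI.retract {G H : Type} [Group G] [Group H] (f : G →* H) (g : H →* G)
    (hgf : ∀ x, g (f x) = x) (h : LI H) : LI G :=
  LI.of_injective f (Function.LeftInverse.injective hgf) h

theorem LI.quot {G H : Type} [Group G] [Group H] (e : G ≃* H) (S : Set G)
    (h : LI (G ⧸ Subgroup.normalClosure S)) : LI (H ⧸ Subgroup.normalClosure (e '' S)) := by
  obtain ⟨F, hF⟩ := stpL (e '' S) ((stpQ S).comp e.symm.toMonoidHom) (by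
    rintro _ ⟨t, ht, rfl⟩
    have h1 : ((stpQ S).comp e.symm.toMonoidHom) (e t) = stpQ S (e.symm (e t)) := rfl
    rw [h1, e.symm_apply_apply]
    exact stpQ_one S t ht)
  obtain ⟨F', hF'⟩ := stpL S ((stpQ (e '' S)).comp e.toMonoidHom) (by
    intro s hs
    exact stpQ_one (e '' S) (e s) ⟨s, hs, rfl⟩)
  refine LI.retract F F' ?_ h
  intro x
  obtain ⟨x, rfl⟩ := stpQ_surj _ x
  rw [hF]
  have h1 : ((stpQ S).comp e.symm.toMonoidHom) x = stpQ S (e.symm x) := rfl
  have h2 : ((stpQ (e '' S)).comp e.toMonoidHom) (e.symm x) = stpQ (e '' S) (e (e.symm x)) := rfl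
  rw [h1, hF', h2, e.apply_symm_apply]

theorem step {B : Type} [Group B] (R : Set B) (r : FF B)
    (hB : LI (FF B ⧸ Subgroup.normalClosure ((ι : B →* FF B) '' R))) {X G : Type} [Group X]
    [Group G] (f : FF B →* X) (ρ : X →* G) (j : G →* X) (hf : ∀ b, f (ι b) = j (ρ (f (ι b))))
    (hR : ∀ s ∈ R, f (ι s) = 1) (hr : ρ (f r) = 1) (hr1 : f r ≠ 1)
    (hp : ∀ p : ℕ, p.Prime → ∃ φ : FF B →* Multiplicative (ZMod p),
      (∀ s ∈ R, φ (ι s) = 1) ∧ φ r ≠ 1) :
    LI (FF B ⧸ Subgroup.normalClosure ((ι : B →* FF B) '' R ∪ {r})) := by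
  have hks : Function.Surjective (stpQ R) := stpQ_surj R
  -- `A` is locally indicable
  have hA : LI (B ⧸ Subgroup.normalClosure R) := by
    obtain ⟨F, hF⟩ := stpL R ((stpQ ((ι : B →* FF B) '' R)).comp ι) (by
      intro s hs
      exact stpQ_one _ _ ⟨s, hs, rfl⟩)
    obtain ⟨F', hF'⟩ := stpL ((ι : B →* FF B) '' R) ((stpQ R).comp (lft (MonoidHom.id B) 1)) (by
      rintro _ ⟨s, hs, rfl⟩
      rw [MonoidHom.comp_apply, lft_ι]
      exact stpQ_one R s hs)
    refine LI.retract F F' ?_ hB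
    intro x
    obtain ⟨x, rfl⟩ := hks x
    rw [hF, MonoidHom.comp_apply, hF', MonoidHom.comp_apply, lft_ι]
    rfl
  obtain ⟨K, hK⟩ : ∃ K : FF B →* FF (B ⧸ Subgroup.normalClosure R),
      K = lft (ι.comp (stpQ R)) y := ⟨_, rfl⟩
  have hKι : ∀ b, K (ι b) = ι (stpQ R b) := fun b => by rw [hK, lft_ι]; rfl
  have hKy : K y = y := by rw [hK, lft_y]
  -- a homomorphism which kills `R` factors through `K`
  have fac : ∀ {Y : Type} [Group Y] (g : FF B →* Y), (∀ s ∈ R, g (ι s) = 1) →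
      ∃ gb : FF (B ⧸ Subgroup.normalClosure R) →* Y, ∀ z, gb (K z) = g z := by
    intro Y _ g hg
    obtain ⟨F, hF⟩ := stpL R (g.comp ι) hg
    refine ⟨lft F (g y), ?_⟩
    intro z
    have h : (lft F (g y)).comp K = g := by
      apply FF_hom_ext
      · intro a
        rw [MonoidHom.comp_apply, hKι, lft_ι, hF]
        rfl
      · rw [MonoidHom.comp_apply, hKy, lft_y]
    exact DFunLike.congr_fun h z
  obtain ⟨fb, hfb⟩ := fac f hR
  have hx1 : ∀ (g : FF (B ⧸ Subgroup.normalClosure R)) a, K r ≠ g * ι a * g⁻¹ := by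
    intro g a hga
    obtain ⟨b, rfl⟩ := hks a
    have h1 : fb (K r) = fb g * fb (ι (stpQ R b)) * (fb g)⁻¹ := by rw [hga]; simp
    have h2 : ρ (fb (ι (stpQ R b))) = 1 := by
      have h3 : ρ (fb (K r)) = 1 := by rw [hfb, hr]
      rw [h1, map_mul, map_mul, map_inv] at h3
      have h4 : ρ (fb g) * ρ (fb (ι (stpQ R b))) = ρ (fb g) := by
        exact mul_inv_eq_one.1 h3
      exact mul_eq_left.1 h4
    have h5 : fb (ι (stpQ R b)) = 1 := by
      rw [← hKι, hfb] at h2 ⊢
      rw [hf, h2, map_one]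
    rw [h5, hfb] at h1
    apply hr1
    rw [h1]
    simp
  have hx2 : ∀ (v : FF (B ⧸ Subgroup.normalClosure R)) (q : ℕ), 2 ≤ q → K r ≠ v ^ q := by
    intro v q hq hv
    obtain ⟨p, hpp, hpq⟩ := Nat.exists_prime_and_dvd (show q ≠ 1 by omega)
    obtain ⟨φ, hφ1, hφ2⟩ := hp p hpp
    obtain ⟨φb, hφb⟩ := fac φ hφ1
    apply hφ2
    rw [← hφb, hv, map_pow]
    obtain ⟨m, rfl⟩ := hpq
    rw [pow_mul]
    have h1 : (φb v) ^ p = 1 := by
      have h2 : p • Multiplicative.toAdd (φb v) = 0 := by simp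
      exact congrArg Multiplicative.ofAdd h2
    rw [h1, one_pow]
  have hH := thmH hA (K r) hx1 hx2
  -- the isomorphism
  obtain ⟨F, hF⟩ := stpL ((ι : B →* FF B) '' R ∪ {r}) ((stpQ {K r}).comp K) (by
    rintro s (⟨s, hs, rfl⟩ | hs)
    · rw [MonoidHom.comp_apply, hKι, stpQ_one R s hs, map_one, map_one]
    · rw [Set.mem_singleton_iff.1 hs]
      exact stpQ_one _ _ rfl)
  obtain ⟨gb, hgb⟩ := fac (stpQ ((ι : B →* FF B) '' R ∪ {r}))
    (fun s hs => stpQ_one _ _ (Or.inl ⟨s, hs, rfl⟩))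
  obtain ⟨F', hF'⟩ := stpL {K r} gb (by
    intro s hs
    rw [Set.mem_singleton_iff.1 hs, hgb]
    exact stpQ_one _ _ (Or.inr rfl))
  refine LI.retract F F' ?_ hH
  intro x
  obtain ⟨x, rfl⟩ := stpQ_surj _ x
  rw [hF, MonoidHom.comp_apply, hF', hgb]

end Pool.Agent.LOTI
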