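import Pool.Agent.Lib.LOTI.Main
import Pool.Agent.Lib.LOTI.Rel
import Pool.Agent.Lib.LOTI.BH
import Pool.Agent.Lib.LOTI.CycRed

/-!
# Howie's theorem (1.14)
-/

set_option autoImplicit false

open scoped Classical

namespace Pool.Agent.LOTI

private theorem nc_conj_aux {G : Type} [Group G] (w g : G) :
    Subgroup.normalClosure ({g * w * g⁻¹} : Set G) = Subgroup.normalClosure {w} := by
  apply le_antisymm
  · refine Subgroup.normalClosure_le_normal ?_
    rintro x hx
    rw [Set.mem_singleton_iff] at hx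
    subst hx
    exact Subgroup.normalClosure_normal.conj_mem w
      (Subgroup.subset_normalClosure (Set.mem_singleton _)) g
  · refine Subgroup.normalClosure_le_normal ?_
    rintro x hx
    rw [Set.mem_singleton_iff] at hx
    subst hx
    have h := Subgroup.normalClosure_normal.conj_mem (g * x * g⁻¹)
      (Subgroup.subset_normalClosure (Set.mem_singleton (g * x * g⁻¹))) g⁻¹
    have h2 : g⁻¹ * (g * x * g⁻¹) * g⁻¹⁻¹ = x := by group
    rw [h2] at h
    exact h

private theorem fin_aux {G : Type} [Group G] (w r : G)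
    (hr : r ∈ Subgroup.normalClosure ({w} : Set G)) :
    ∃ T : Finset G, r ∈ Subgroup.closure ((fun t => t * w * t⁻¹) '' (T : Set G)) := by
  unfold Subgroup.normalClosure at hr
  induction hr using Subgroup.closure_induction with
  | mem x hx =>
    rw [Group.mem_conjugatesOfSet_iff] at hx
    obtain ⟨a, ha, hc⟩ := hx
    rw [Set.mem_singleton_iff] at ha
    subst ha
    rw [isConj_iff] at hc
    obtain ⟨c, hc⟩ := hc
    refine ⟨{c}, Subgroup.subset_closure ⟨c, by simp, hc⟩⟩
  | one => exact ⟨∅, Subgroup.one_mem _⟩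
  | mul x y _ _ hx hy =>
    obtain ⟨T1, h1⟩ := hx
    obtain ⟨T2, h2⟩ := hy
    refine ⟨T1 ∪ T2, Subgroup.mul_mem _ ?_ ?_⟩
    · exact Subgroup.closure_mono (Set.image_mono (by push_cast; exact Set.subset_union_left)) h1
    · exact Subgroup.closure_mono (Set.image_mono (by push_cast; exact Set.subset_union_right)) h2
  | inv x _ hx =>
    obtain ⟨T1, h1⟩ := hx
    exact ⟨T1, Subgroup.inv_mem _ h1⟩

private theorem torsion_aux (x : Multiplicative ℚ) (n : ℕ) (hn : 0 < n) (h : x ^ n = 1) :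
    x = 1 := by
  have h1 : n • Multiplicative.toAdd x = 0 := by
    rw [← toAdd_pow, h, toAdd_one]
  rw [nsmul_eq_mul, mul_eq_zero] at h1
  rcases h1 with h1 | h1
  · exact absurd (Nat.cast_eq_zero.1 h1) hn.ne'
  · exact Multiplicative.toAdd.injective h1

theorem thmH {A : Type} [Group A] (hA : LI A) (x : FF A)
    (h1 : ∀ (g : FF A) (a : A), x ≠ g * ι a * g⁻¹)
    (h2 : ∀ (v : FF A) (q : ℕ), 2 ≤ q → x ≠ v ^ q) :
    LI (FF A ⧸ Subgroup.normalClosure ({x} : Set (FF A))) := by
  obtain ⟨Γ, g, hx⟩ := exists_geo x h1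
  have hnc : Subgroup.normalClosure ({x} : Set (FF A)) = Subgroup.normalClosure {Γ.w} := by
    rw [hx]
    exact nc_conj_aux Γ.w g
  have h2' : ∀ (v : FF A) (q : ℕ), 2 ≤ q → Γ.w ≠ v ^ q := by
    intro v q hq h
    apply h2 (g * v * g⁻¹) q hq
    rw [hx, h, conj_pow]
  obtain ⟨P, hP⟩ := exists_cone (Subgroup.zpowers Γ.w)
    (fun N hN hne => rel hA Γ h2' N hN hne)
  have key : LI (FF A ⧸ Subgroup.normalClosure ({Γ.w} : Set (FF A))) := by
    intro H hHfg hH
    have hHfg' : Group.FG H := (Group.fg_iff_subgroup_fg H).2 hHfg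
    obtain ⟨s, hs⟩ := hHfg
    set π : FF A →* FF A ⧸ Subgroup.normalClosure ({Γ.w} : Set (FF A)) :=
      QuotientGroup.mk' _ with hπ
    have hker : ∀ r : FF A, π r = 1 → r ∈ Subgroup.normalClosure ({Γ.w} : Set (FF A)) := by
      intro r hr
      exact (QuotientGroup.eq_one_iff r).1 hr
    have hσ : ∀ z, ∃ l, π l = z := QuotientGroup.mk'_surjective _
    choose σ hσ using hσ
    -- the lift of `H`
    set L : Finset (FF A) := s.image σ with hL
    set H' : Subgroup (FF A) := Subgroup.closure (L : Set (FF A)) with hH'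
    have hmap : H'.map π = H := by
      rw [hH', MonoidHom.map_closure, ← hs]
      congr 1
      rw [hL]
      push_cast
      rw [← Set.image_comp]
      have : (⇑π ∘ σ) = id := by
        funext z
        exact hσ z
      rw [this, Set.image_id]
    have hcomm : ∀ c : H, c ∈ commutator H → ∃ k ∈ ⁅H', H'⁆, π k = c := by
      intro c hc
      have h3 : (c : FF A ⧸ Subgroup.normalClosure ({Γ.w} : Set (FF A))) ∈
          (commutator H).map H.subtype := ⟨c, hc, rfl⟩
      have h4 : ⁅H, H⁆ = (⁅H', H'⁆).map π := by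
        rw [Subgroup.map_commutator, hmap]
      rw [commutator_def, Subgroup.map_commutator, ← MonoidHom.range_eq_map,
        Subgroup.range_subtype, h4] at h3
      obtain ⟨k, hk, hk2⟩ := h3
      exact ⟨k, hk, hk2⟩
    have hdata : ∀ z : {z // z ∈ s}, ∃ n : ℕ, 0 < n ∧ ∃ k ∈ ⁅H', H'⁆, ∃ T : Finset (FF A),
        k⁻¹ * (σ z.1) ^ n ∈
          Subgroup.closure ((fun t => t * Γ.w * t⁻¹) '' (T : Set (FF A))) := by
      rintro ⟨z, hz⟩
      have hzH : z ∈ H := by
        rw [← hs]
        exact Subgroup.subset_closure hz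
      obtain ⟨n, hn, hc⟩ := exists_pow_mem_commutator hHfg' hH ⟨z, hzH⟩
      obtain ⟨k, hk, hk2⟩ := hcomm _ hc
      have hr : π (k⁻¹ * (σ z) ^ n) = 1 := by
        rw [map_mul, map_inv, map_pow, hσ, hk2]
        show (z ^ n)⁻¹ * z ^ n = 1
        exact inv_mul_cancel _
      obtain ⟨T, hT⟩ := fin_aux Γ.w _ (hker _ hr)
      exact ⟨n, hn, k, hk, T, hT⟩
    choose n hn k hk T hT using hdata
    set TT : Finset (FF A) := s.attach.biUnion T with hTT
    set G0 : Finset (FF A) := L ∪ TT.image (fun t => t * Γ.w * t⁻¹) with hG0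
    set N : Subgroup (FF A) := Subgroup.closure (G0 : Set (FF A)) with hN
    have hNFG : N.FG := ⟨G0, rfl⟩
    have hconjN : ∀ t ∈ TT, t * Γ.w * t⁻¹ ∈ N := by
      intro t ht
      exact Subgroup.subset_closure (Finset.mem_coe.2 (Finset.mem_union_right _
        (Finset.mem_image_of_mem _ ht)))
    have hLN : ∀ l ∈ L, l ∈ N := by
      intro l hl
      exact Subgroup.subset_closure (Finset.mem_coe.2 (Finset.mem_union_left _ hl))
    have hH'N : H' ≤ N := by
      rw [hH', Subgroup.closure_le]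
      intro l hl
      exact hLN l hl
    set S : Finset (FF A ⧸ N) := TT.image (fun t => ((t⁻¹ : FF A) : FF A ⧸ N)) with hS
    have hSw : ∀ o ∈ S, Γ.w • o = o := by
      intro o ho
      obtain ⟨t, ht, rfl⟩ := Finset.mem_image.1 ho
      show (((Γ.w * t⁻¹ : FF A)) : FF A ⧸ N) = ((t⁻¹ : FF A) : FF A ⧸ N)
      rw [QuotientGroup.eq]
      have h3 : (Γ.w * t⁻¹)⁻¹ * t⁻¹ = (t * Γ.w * t⁻¹)⁻¹ := by group
      rw [h3]
      exact Subgroup.inv_mem _ (hconjN t ht)
    have hkill : ∀ φ : N →* Multiplicative ℚ, Kill Γ.w N S φ → φ = 1 := by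
      intro φ hφ
      set K' : Subgroup (FF A) := φ.ker.map N.subtype with hK'
      have hmem : ∀ (a : FF A) (ha : a ∈ N), φ ⟨a, ha⟩ = 1 → a ∈ K' := by
        intro a ha h3
        exact ⟨⟨a, ha⟩, MonoidHom.mem_ker.2 h3, rfl⟩
      have hmem' : ∀ (a : FF A) (ha : a ∈ N), a ∈ K' → φ ⟨a, ha⟩ = 1 := by
        rintro a ha ⟨⟨b, hb⟩, hb1, hb2⟩
        have hb3 : b = a := hb2
        subst hb3
        exact MonoidHom.mem_ker.1 hb1
      have hconjK : ∀ t ∈ TT, t * Γ.w * t⁻¹ ∈ K' := by
        intro t ht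
        have h3 : (t⁻¹)⁻¹ * Γ.w * t⁻¹ ∈ N := by
          rw [inv_inv]
          exact hconjN t ht
        have h4 := hφ t⁻¹ (Finset.mem_image_of_mem _ ht) h3
        have h5 := hmem _ h3 h4
        rw [inv_inv] at h5
        exact h5
      have hcommK : ⁅N, N⁆ ≤ K' := by
        rw [Subgroup.commutator_le]
        intro a ha b hb
        refine hmem _ ?_ ?_
        · rw [commutatorElement_def]
          exact N.mul_mem (N.mul_mem (N.mul_mem ha hb) (N.inv_mem ha)) (N.inv_mem hb)
        · have h3 : φ ((⟨a, ha⟩ : N) * ⟨b, hb⟩ * (⟨a, ha⟩ : N)⁻¹ * (⟨b, hb⟩ : N)⁻¹) = 1 := by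
            rw [map_mul, map_mul, map_mul, map_inv, map_inv, mul_comm (φ ⟨a, ha⟩) (φ ⟨b, hb⟩),
              mul_inv_cancel_right, mul_inv_cancel]
          exact h3
      have hLK : ∀ l ∈ L, l ∈ K' := by
        intro l hl
        obtain ⟨z, hz, rfl⟩ := Finset.mem_image.1 hl
        have hr : (k ⟨z, hz⟩)⁻¹ * (σ z) ^ (n ⟨z, hz⟩) ∈ K' := by
          have h3 : Subgroup.closure ((fun t => t * Γ.w * t⁻¹) '' (T ⟨z, hz⟩ : Set (FF A))) ≤
              K' := by
            rw [Subgroup.closure_le]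
            rintro _ ⟨t, ht, rfl⟩
            exact hconjK t (Finset.mem_biUnion.2 ⟨⟨z, hz⟩, Finset.mem_attach _ _, ht⟩)
          exact h3 (hT ⟨z, hz⟩)
        have hk' : k ⟨z, hz⟩ ∈ K' :=
          hcommK (Subgroup.commutator_mono hH'N hH'N (hk ⟨z, hz⟩))
        have hpow : (σ z) ^ (n ⟨z, hz⟩) ∈ K' := by
          have h3 := K'.mul_mem hk' hr
          rwa [mul_inv_cancel_left] at h3
        have hlN := hLN _ hl
        have h4 := hmem' _ (N.pow_mem hlN (n ⟨z, hz⟩)) hpow
        have h5 : (φ ⟨σ z, hlN⟩) ^ (n ⟨z, hz⟩) = 1 := by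
          rw [← map_pow]
          exact h4
        exact hmem _ hlN (torsion_aux _ _ (hn ⟨z, hz⟩) h5)
      have hNK : N ≤ K' := by
        rw [hN, Subgroup.closure_le]
        intro a ha
        rcases Finset.mem_union.1 (Finset.mem_coe.1 ha) with ha | ha
        · exact hLK a ha
        · obtain ⟨t, ht, rfl⟩ := Finset.mem_image.1 ha
          exact hconjK t ht
      ext ⟨a, ha⟩
      rw [hmem' a ha (hNK ha)]
      rfl
    have hle := main hA Γ hP N hNFG S hSw hkill
    rw [← hs, eq_bot_iff, Subgroup.closure_le]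
    intro z hz
    have h3 : σ z ∈ Subgroup.normalClosure ({Γ.w} : Set (FF A)) :=
      hle (hLN _ (Finset.mem_image_of_mem _ hz))
    have h4 : π (σ z) = 1 := (QuotientGroup.eq_one_iff _).2 h3
    rw [hσ] at h4
    exact h4
  exact LI.of_injective (QuotientGroup.quotientMulEquivOfEq hnc).toMonoidHom
    (QuotientGroup.quotientMulEquivOfEq hnc).injective key

end Pool.Agent.LOTI
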