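import Pool.Agent.Lib.LOTI.NF

/-!
# The top passing of a free orbit (1.11)

A passing of the `A`-orbit of `v` is a pair `(o, i)`, `o ∈ S`, with `st o i` in the orbit. `(o', j) < (o, i)` iff
`p i * ι x * (p j)⁻¹ ∈ P` for the element `x` of `A` with `ι x • st o' j = st o i`.
PROOF of `top_pass`. Modulo the period there are finitely many passings: `o ∈ S`, `i ∈ Finset.range m`. Choose for
every passing `(o, i)` with `i ∈ range m` the unique `a` with `ι a • v = st o i` (unique: `A` acts freely on the orbit). The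
relation `(o', j) < (o, i)` iff `p i * ι x * (p j)⁻¹ ∈ P`, `x = a_{o,i} * a_{o',j}⁻¹`, is transitive (`IsCone.mul`), irreflexive
(`P` is disjoint from `zpowers w ∋ 1`), and total: if `p i * ι x * (p j)⁻¹ = w^s`, then by `Geo.pass_eq` `i = j + s * m`, `x = 1`, so for
`i, j ∈ range m` `i = j`, and `st o' j = st o i` gives `o = o'`. So there is a maximum `(o, i)` (`Finset.exists_maximal` or induction;
or apply it to a linear order / `Finset.exists_max_image`-like argument). For an arbitrary integer `j` write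
`j = j₀ + s * m` with `0 ≤ j₀ < m`: `st o' j = st o' j₀` (`st_add`), `p j = w^s * p j₀` (`p_add_mul`), and `P` is closed under
multiplication by `zpowers w`.
-/

set_option autoImplicit false

open scoped Classical

namespace Pool.Agent.LOTI

variable {A : Type} [Group A]

private theorem tp_max {β : Type} (R : β → β → Prop) (htr : ∀ a b c, R a b → R b c → R a c)
    (T : Finset β) (htot : ∀ a ∈ T, ∀ b ∈ T, a = b ∨ R a b ∨ R b a) (hne : T.Nonempty) :
    ∃ a ∈ T, ∀ b ∈ T, b = a ∨ R b a := by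
  induction hne using Finset.Nonempty.cons_induction with
  | singleton a =>
    refine ⟨a, Finset.mem_singleton_self a, fun b hb => Or.inl (Finset.mem_singleton.1 hb)⟩
  | cons b T hb hT ih =>
    obtain ⟨a, ha, hmax⟩ := ih (fun a ha c hc => htot a (Finset.mem_cons_of_mem ha) c (Finset.mem_cons_of_mem hc))
    rcases htot a (Finset.mem_cons_of_mem ha) b (Finset.mem_cons_self b T) with h | h | h
    · subst h
      exact absurd ha hb
    · refine ⟨b, Finset.mem_cons_self b T, fun c hc => ?_⟩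
      rcases Finset.mem_cons.1 hc with rfl | hc
      · exact Or.inl rfl
      · rcases hmax c hc with rfl | h2
        · exact Or.inr h
        · exact Or.inr (htr _ _ _ h2 h)
    · refine ⟨a, Finset.mem_cons_of_mem ha, fun c hc => ?_⟩
      rcases Finset.mem_cons.1 hc with rfl | hc
      · exact Or.inr h
      · exact hmax c hc

private theorem tp_mod (m : ℕ) (hm : 0 < m) (j : ℤ) : ∃ (j₀ : ℕ) (s : ℤ), j₀ < m ∧ j = (j₀ : ℤ) + s * m := by
  have h1 := Int.emod_nonneg j (by omega : (m : ℤ) ≠ 0)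
  have h2 := Int.emod_lt_of_pos j (by omega : (0 : ℤ) < m)
  have h3 := Int.emod_add_mul_ediv j m
  refine ⟨(j % m).toNat, j / m, by omega, ?_⟩
  rw [Int.toNat_of_nonneg h1]
  rw [mul_comm (j / (m : ℤ)) (m : ℤ)]
  exact h3.symm

private theorem tp_free {Ω : Type} [MulAction (FF A) Ω] {v : Ω} (hv : ∀ a : A, ι a • v = v → a = 1)
    {b x x' : A} {z z' : Ω} (hb : ι b • v = z) (h1 : ι x • z = z') (h2 : ι x' • z = z') : x = x' := by
  have h3 : ι (b⁻¹ * (x'⁻¹ * x) * b) • v = v := by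
    simp only [map_mul, mul_smul, map_inv]
    rw [hb, h1, ← h2, inv_smul_smul, ← hb, inv_smul_smul]
  have h4 := hv _ h3
  have h5 : x'⁻¹ * x = 1 := by
    have h6 : b⁻¹ * (x'⁻¹ * x) * b = 1 := h4
    have h7 : x'⁻¹ * x = b * (b⁻¹ * (x'⁻¹ * x) * b) * b⁻¹ := by group
    rw [h7, h6]
    group
  exact (inv_mul_eq_one.1 h5).symm

theorem top_pass (Γ : Geo A) {P : Set (FF A)} (hP : IsCone (Subgroup.zpowers Γ.w) P) {Ω : Type}
    [MulAction (FF A) Ω] (S : Finset Ω) (hS : ∀ o ∈ S, Γ.w • o = o) (v : Ω)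
    (hv : ∀ a : A, ι a • v = v → a = 1) (hne : ∃ o ∈ S, ∃ i : ℤ, ∃ a : A, ι a • v = Γ.st o i) :
    ∃ o ∈ S, ∃ i : ℕ, i < Γ.m ∧ (∃ a : A, ι a • v = Γ.st o i) ∧
      ∀ o' ∈ S, ∀ j : ℤ, ∀ x : A, ι x • Γ.st o' j = Γ.st o i →
        (o' = o ∧ Γ.Eqm i j) ∨ Γ.p i * ι x * (Γ.p j)⁻¹ ∈ P := by
  have hw : ∀ s : ℤ, Γ.w ^ s ∈ Subgroup.zpowers Γ.w := fun s => Subgroup.zpow_mem_zpowers _ _
  set T : Finset (Ω × ℕ) := (S ×ˢ Finset.range Γ.m).filter (fun q => ∃ a : A, ι a • v = Γ.st q.1 (q.2 : ℤ)) with hT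
  have hTm : ∀ (o : Ω) (i : ℕ), (o, i) ∈ T ↔ o ∈ S ∧ i < Γ.m ∧ ∃ a : A, ι a • v = Γ.st o (i : ℤ) := by
    intro o i
    rw [hT, Finset.mem_filter, Finset.mem_product, Finset.mem_range]
    exact and_assoc
  let R : Ω × ℕ → Ω × ℕ → Prop := fun q q' =>
    ∃ x : A, ι x • Γ.st q.1 (q.2 : ℤ) = Γ.st q'.1 (q'.2 : ℤ) ∧ Γ.p q'.2 * ι x * (Γ.p q.2)⁻¹ ∈ P
  have htr : ∀ a b c, R a b → R b c → R a c := by
    rintro a b c ⟨x, hx, hxP⟩ ⟨x', hx', hxP'⟩
    refine ⟨x' * x, ?_, ?_⟩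
    · rw [map_mul, mul_smul, hx, hx']
    · have h := hP.mul _ hxP' _ hxP
      have h2 : Γ.p c.2 * ι x' * (Γ.p b.2)⁻¹ * (Γ.p b.2 * ι x * (Γ.p a.2)⁻¹) =
          Γ.p c.2 * ι (x' * x) * (Γ.p a.2)⁻¹ := by
        rw [map_mul]
        group
      rwa [h2] at h
  have htot : ∀ a ∈ T, ∀ b ∈ T, a = b ∨ R a b ∨ R b a := by
    rintro ⟨o', j⟩ ha ⟨o, i⟩ hb
    rw [hTm] at ha hb
    obtain ⟨ho', hj, a', ha'⟩ := ha
    obtain ⟨ho, hi, a, ha⟩ := hb
    have hx : ι (a * a'⁻¹) • Γ.st o' (j : ℤ) = Γ.st o (i : ℤ) := by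
      rw [map_mul, mul_smul, ← ha', map_inv, inv_smul_smul, ha]
    rcases hP.tri (Γ.p i * ι (a * a'⁻¹) * (Γ.p j)⁻¹) with h | h | h
    · exact Or.inr (Or.inl ⟨_, hx, h⟩)
    · left
      obtain ⟨s, hs⟩ := Subgroup.mem_zpowers_iff.1 h
      obtain ⟨h1, h2⟩ := Γ.pass_eq hs.symm
      have h3 : (i : ℤ) = j := by
        have hs0 : s = 0 := by
          rcases lt_trichotomy s 0 with h4 | h4 | h4
          · have h5 : s * (Γ.m : ℤ) ≤ -1 * (Γ.m : ℤ) :=
              mul_le_mul_of_nonneg_right (by omega) (by omega)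
            omega
          · exact h4
          · have h5 : 1 * (Γ.m : ℤ) ≤ s * (Γ.m : ℤ) :=
              mul_le_mul_of_nonneg_right (by omega) (by omega)
            omega
        rw [h1, hs0, zero_mul, add_zero]
      have h4 : i = j := by exact_mod_cast h3
      subst h4
      rw [h2, map_one, one_smul] at hx
      have h5 : o' = o := by
        unfold Geo.st at hx
        exact smul_left_cancel _ hx
      rw [h5]
    · refine Or.inr (Or.inr ⟨(a * a'⁻¹)⁻¹, ?_, ?_⟩)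
      · show ι (a * a'⁻¹)⁻¹ • Γ.st o (i : ℤ) = Γ.st o' (j : ℤ)
        rw [← hx, map_inv, inv_smul_smul]
      · have h2 : (Γ.p i * ι (a * a'⁻¹) * (Γ.p j)⁻¹)⁻¹ = Γ.p j * ι (a * a'⁻¹)⁻¹ * (Γ.p i)⁻¹ := by
          rw [map_inv]
          group
        rw [h2] at h
        exact h
  have hTne : T.Nonempty := by
    obtain ⟨o, ho, i, a, ha⟩ := hne
    obtain ⟨i₀, s, hi₀, rfl⟩ := tp_mod Γ.m Γ.hm i
    refine ⟨(o, i₀), (hTm _ _).2 ⟨ho, hi₀, a, ?_⟩⟩
    rw [ha, Γ.st_add (hS o ho)]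
  obtain ⟨⟨o, i⟩, hoi, hmax⟩ := tp_max R htr T htot hTne
  obtain ⟨ho, hi, a, ha⟩ := (hTm _ _).1 hoi
  refine ⟨o, ho, i, hi, ⟨a, ha⟩, ?_⟩
  intro o' ho' j x hx
  obtain ⟨j₀, s, hj₀, rfl⟩ := tp_mod Γ.m Γ.hm j
  rw [Γ.st_add (hS o' ho')] at hx
  have hb : ι (x⁻¹ * a) • v = Γ.st o' (j₀ : ℤ) := by
    rw [map_mul, mul_smul, ha, ← hx, map_inv, inv_smul_smul]
  have hmem : (o', j₀) ∈ T := (hTm _ _).2 ⟨ho', hj₀, _, hb⟩
  rcases hmax _ hmem with h | ⟨x', hx', hxP⟩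
  · left
    have h1 : o' = o := congrArg Prod.fst h
    have h2 : j₀ = i := congrArg Prod.snd h
    refine ⟨h1, s, ?_⟩
    rw [h2]
  · right
    have hxx : x = x' := tp_free hv hb hx hx'
    rw [hxx, Γ.p_add_mul, mul_inv_rev, ← mul_assoc]
    exact hP.right _ hxP _ (Subgroup.inv_mem _ (hw s))

end Pool.Agent.LOTI
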