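import Pool.Agent.Lib.LOTI.LDefs

/-!
# The word of a closed walk, and the hypotheses of the theorem

(helper18, simplification of condition (c) by helper62; problem MP_cf50d6_gt)
-/

set_option autoImplicit false

open scoped Classical

namespace Pool.Agent.LOTI

variable {V E : Type} [Fintype V] [Fintype E]

namespace LOT

/-- the word of the walk `l` with respect to the set `W` of vertices, in the free group on the set
`G(Γ)`: the product, along the walk, of `[x (lab e)]` (a step from `lab e` to `init e`) or its inverse (a step from
`init e` to `lab e`) over the steps whose edge `e` has exactly one of `lab e`, `term e` in `W` -/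
noncomputable def word (Γ : LOT V E) (W : V → Prop) (l : List (E × Bool)) : FreeGroup Γ.Grp :=
  (l.map fun s => if (W (Γ.lab s.1) ↔ W (Γ.term s.1)) then 1
    else if s.2 then FreeGroup.of (Γ.x (Γ.lab s.1))
    else (FreeGroup.of (Γ.x (Γ.lab s.1)))⁻¹).prod

/-- the hypotheses of the theorem: a numbering `κ` of the `c + 1` components `V_0, …, V_c` of the
initial graph `I(Γ)`; for `i = 1, …, c` (in Lean `i : Fin c`, the component is `V_{i.succ}`) an edge `e i` and a closed
walk `l i` in `I(Γ)` based at `b i` such that
* `once`, `later`: `l i` passes `e i` exactly once, and it does not pass `e j` for `j > i`;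
* `low`: the labels and the terminal vertices of the edges of `l i` are in `V_0 ∪ … ∪ V_i`;
* `ess`: the word of `l i` with respect to `V_i` is not trivial in the free group on the set `G(Γ)`. -/
structure Staircase (Γ : LOT V E) (c : ℕ) where
  κ : V → Fin (c + 1)
  surj : Function.Surjective κ
  comp : ∀ v w, κ v = κ w ↔ Relation.EqvGen Γ.IAdj v w
  e : Fin c → E
  l : Fin c → List (E × Bool)
  b : Fin c → V
  closed : ∀ i, Γ.IWalk (b i) (l i) (b i)
  once : ∀ i, ((l i).map Prod.fst).count (e i) = 1
  later : ∀ i j, i < j → e j ∉ (l i).map Prod.fst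
  low : ∀ i, ∀ s ∈ l i, κ (Γ.lab s.1) ≤ i.succ ∧ κ (Γ.term s.1) ≤ i.succ
  ess : ∀ i, Γ.word (fun v => κ v = i.succ) (l i) ≠ 1

end LOT

end Pool.Agent.LOTI
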